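import Mathlib

/-!
# MP_d47845_al : the variety of groups solvable of index n is Higman, n >= 3

Common definitions.  Paper proof: /team-store/MP_d47845_PROOF.md
-/

noncomputable section

set_option linter.unusedSectionVars false

namespace Pool.Agent.HIG

open Function

/-! ### Words and recursively presented groups -/

/-- words in letters `x_i`, `i : ℕ` (`true` = the letter, `false` = its inverse) -/
abbrev Word := List (ℕ × Bool)

/-- value of a word -/
def evw {G : Type} [Group G] (ev : ℕ → G) (w : Word) : G :=
  FreeGroup.lift ev (FreeGroup.mk w)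

/-- `G` is generated by the finite tuple `ev` (almost all entries are `1`) and the kernel of
`FreeGroup ℕ → G` is the normal closure of a primitive recursive family of words. -/
def RPg (G : Type) [Group G] (ev : ℕ → G) : Prop :=
  (∃ k, ∀ i, k ≤ i → ev i = 1) ∧ Subgroup.closure (Set.range ev) = ⊤ ∧
    ∃ ρ : ℕ → Word, Primrec ρ ∧
      (FreeGroup.lift ev).ker = Subgroup.normalClosure (Set.range fun n => FreeGroup.mk (ρ n))

/-- finitely generated recursively presented group -/
def RP (G : Type) [Group G] : Prop := ∃ ev : ℕ → G, RPg G ev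

/-! ### Modules over group rings and semidirect products -/

/-- the integral group ring -/
abbrev RG (G : Type) [Group G] : Type := MonoidAlgebra ℤ G

/-- a group element in the group ring -/
def el {G : Type} [Group G] (g : G) : RG G := MonoidAlgebra.single g 1

theorem el_mul {G : Type} [Group G] (g h : G) : el (g * h) = el g * el h := by
  simp [el, MonoidAlgebra.single_mul_single]

theorem el_one {G : Type} [Group G] : el (1 : G) = 1 := rfl

/-- semidirect product of a (left) module over the group ring with the group -/
@[ext] structure Sd (Q D : Type) where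
  d : D
  q : Q

section
variable {Q D : Type} [Group Q] [AddCommGroup D] [Module (RG Q) D]

instance : Mul (Sd Q D) := ⟨fun x y => ⟨x.d + el x.q • y.d, x.q * y.q⟩⟩
instance : One (Sd Q D) := ⟨⟨0, 1⟩⟩
instance : Inv (Sd Q D) := ⟨fun x => ⟨-(el x.q⁻¹ • x.d), x.q⁻¹⟩⟩

theorem Sd.mul_d (x y : Sd Q D) : (x * y).d = x.d + el x.q • y.d := rfl
theorem Sd.mul_q (x y : Sd Q D) : (x * y).q = x.q * y.q := rfl
theorem Sd.one_d : (1 : Sd Q D).d = 0 := rfl
theorem Sd.one_q : (1 : Sd Q D).q = 1 := rfl
theorem Sd.inv_d (x : Sd Q D) : (x⁻¹).d = -(el x.q⁻¹ • x.d) := rfl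
theorem Sd.inv_q (x : Sd Q D) : (x⁻¹).q = x.q⁻¹ := rfl

instance : Group (Sd Q D) :=
  Group.ofLeftAxioms
    (by
      intro a b c
      ext
      · simp [Sd.mul_d, Sd.mul_q, el_mul, smul_add, mul_smul, add_assoc]
      · simp [Sd.mul_q, mul_assoc])
    (by
      intro a
      ext
      · simp [Sd.mul_d, Sd.one_d, Sd.one_q, el_one]
      · simp [Sd.mul_q, Sd.one_q])
    (by
      intro a
      ext
      · simp [Sd.mul_d, Sd.inv_d, Sd.inv_q, Sd.one_d]
      · simp [Sd.mul_q, Sd.inv_q, Sd.one_q])

/-- the embedding of the acting group -/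
def Sd.inr : Q →* Sd Q D where
  toFun q := ⟨0, q⟩
  map_one' := rfl
  map_mul' x y := by ext <;> simp [Sd.mul_d, Sd.mul_q]
end

/-- a formal module relation: list of signed terms `(sign, index of generator, word)` -/
abbrev MRel := List (Bool × ℕ × Word)

def sgn (b : Bool) : ℤ := if b then 1 else -1

/-- value of a formal relation in the free module over the group ring -/
def mrel {Q : Type} [Group Q] (ev : ℕ → Q) (R : MRel) : ℕ →₀ RG Q :=
  (R.map fun t => Finsupp.single t.2.1 (sgn t.1 • el (evw ev t.2.2))).sum

/-- `D` is the module with generators `f i` (almost all zero) and the primitive recursive family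
of relations `ρ`, with words evaluated by `ev` -/
def PMod (Q : Type) [Group Q] (ev : ℕ → Q) (D : Type) [AddCommGroup D] [Module (RG Q) D]
    (f : ℕ → D) (ρ : ℕ → MRel) : Prop :=
  (∃ k, ∀ i, k ≤ i → ev i = 1) ∧ (∃ k, ∀ i, k ≤ i → f i = 0) ∧
    Submodule.span (RG Q) (Set.range f) = ⊤ ∧ Primrec ρ ∧
      LinearMap.ker (Finsupp.linearCombination (RG Q) f) =
        Submodule.span (RG Q) (Set.range fun n => mrel ev (ρ n))

/-! ### The induction statement -/

/-- every f.g. recursively presented group of solvability index `n` embeds in a finitely presented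
group meeting its `n`-th derived subgroup trivially -/
def W (n : ℕ) : Prop :=
  ∀ (G : Type) [Group G], RP G → derivedSeries G n = ⊥ →
    ∃ (P : Type) (_ : Group P) (f : G →* P), Group.IsFinitelyPresented P ∧ Injective f ∧
      ∀ g, f g ∈ derivedSeries P n → g = 1

/-! ### The final statement -/

/-- the relatively free group of rank `k` of the variety of groups solvable of index `n` -/
abbrev RelFree (n k : ℕ) : Type := FreeGroup (Fin k) ⧸ derivedSeries (FreeGroup (Fin k)) n

/-- finitely presented in the variety of groups solvable of index `n` -/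
def FinPresIn (n : ℕ) (G : Type) [Group G] : Prop :=
  ∃ (k : ℕ) (R : Set (RelFree n k)), R.Finite ∧
    Nonempty (G ≃* (RelFree n k ⧸ Subgroup.normalClosure R))

/-- recursively presented in the variety of groups solvable of index `n` -/
def RecPresIn (n : ℕ) (G : Type) [Group G] : Prop :=
  ∃ (k : ℕ) (R : Set (List (Fin k × Bool))), REPred (fun w => w ∈ R) ∧
    Nonempty (G ≃* (RelFree n k ⧸ Subgroup.normalClosure
      ((fun w => (QuotientGroup.mk (FreeGroup.mk w) : RelFree n k)) '' R)))

/-- the variety of groups solvable of index `n` is Higman -/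
def Higman (n : ℕ) : Prop :=
  ∀ (G : Type) [Group G], RecPresIn n G →
    ∃ (H : Type) (_ : Group H), FinPresIn n H ∧ ∃ f : G →* H, Injective f

end Pool.Agent.HIG
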