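import Mathlib
import Pool.Agent.HIG.Defs

/-!
# Stages: the acting groups `Y`, with their finitely presented cyclic modules
-/

noncomputable section

namespace Pool.Agent.HIG

open Function
open scoped commutatorElement


/-- no 2-torsion among central commutators -/
def Half {H : Type} [Group H] (a b : H) : Prop :=
  Commute ⁅a, b⁆ a → Commute ⁅a, b⁆ b → ⁅a, b⁆ ^ 2 = 1 → ⁅a, b⁆ = 1

/-- the cyclic module with relations `Rel` -/
abbrev EE (Y : Type) [Group Y] (Rel : Set (RG Y)) : Type :=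
  RG Y ⧸ Submodule.span (RG Y) Rel

/-- class of `x`, i.e. `x • e` -/
def cl {Y : Type} [Group Y] (Rel : Set (RG Y)) (x : RG Y) : EE Y Rel :=
  Submodule.Quotient.mk x

/-- value of a homomorphism `EE Y Rel → H` at `x • e` -/
def vl {Y : Type} [Group Y] {Rel : Set (RG Y)} {H : Type} [Group H]
    (Φ : Multiplicative (EE Y Rel) →* H) (x : RG Y) : H :=
  Φ (Multiplicative.ofAdd (cl Rel x))

/-- `𝒞` is a linking class -/
def LinkClass (Y : Type) [Group Y] (Rel : Set (RG Y)) (δ : RG Y) (𝒞 : Set Y) : Prop :=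
  ∀ (H : Type) [Group H] (Φ Ψ : Multiplicative (EE Y Rel) →* H),
    (∀ l ∈ 𝒞, Commute (vl Φ (el l * δ)) (vl Ψ (el l * δ))) →
    (∀ l ∈ 𝒞, ∀ m ∈ 𝒞,
      ⁅vl Φ (el l * δ), vl Ψ (el m * δ)⁆ = ⁅vl Φ (el m * δ), vl Ψ (el l * δ)⁆) →
    (∀ l ∈ 𝒞, ∀ m ∈ 𝒞, Half (vl Φ (el l * δ)) (vl Ψ (el m * δ))) →
    ∀ l ∈ 𝒞, ∀ m ∈ 𝒞, Commute (vl Φ (el l * δ)) (vl Ψ (el m * δ))

/-- good Hahn series: positive order and invertible leading coefficient -/
def Good {Γ C : Type} [AddCommGroup Γ] [LinearOrder Γ] [CommRing C] (r : HahnSeries Γ C) : Prop :=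
  0 < r.order ∧ IsUnit r.leadingCoeff

/-- The acting group of level `j` with its module; `B` = index set of the free generators. -/
structure Stage (j : ℕ) (B : Type) where
  /-- the acting group -/
  Y : Type
  [gY : Group Y]
  /-- the group which has to act finally -/
  Q : Type
  [gQ : Group Q]
  rpY : RP Y
  solY : derivedSeries Y j = ⊥
  fgQ : Group.FG Q
  ι : Q →* Y
  ι_inj : Injective ι
  /-- relations of the cyclic module `E` -/
  Rel : Set (RG Y)
  Rel_fin : Rel.Finite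
  δ : RG Y
  ξ : B → Y
  ω : Y
  /-- spanning by linking classes -/
  link : ∀ K : Set Y, K.Finite → (∀ k ∈ K, ∃ q : Q, k = ι q * ω ∨ ∃ b, k = ι q * ξ b) →
    ∃ 𝒞 : Set Y, LinkClass Y Rel δ 𝒞 ∧
      ∀ k ∈ K, cl Rel (el k * δ) ∈
        AddSubgroup.closure ((fun l => cl Rel (el l * δ)) '' 𝒞)
  /-- additive maps to Hahn series with many units -/
  units : ∀ (C : Type) [CommRing C] [Nontrivial C] (χ : B → Q → Cˣ),
    ∃ (Γ : Type) (_ : AddCommGroup Γ) (_ : LinearOrder Γ) (_ : IsOrderedAddMonoid Γ)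
      (φ : EE Y Rel →+ HahnSeries Γ C) (κ : HahnSeries Γ ℤ),
      Good κ ∧ (∀ l : Y, Good (φ (cl Rel (el l)))) ∧ (∀ l : Y, Good (φ (cl Rel (el l * δ)))) ∧
      ∀ b q, φ (cl Rel (el (ι q) * (el (ξ b) - el ω) * δ)) =
        κ.map (Int.castRingHom C) * HahnSeries.C (χ b q : C)

attribute [instance] Stage.gY Stage.gQ

/-- existence of stages of level `j` -/
def StageEx (j : ℕ) : Prop :=
  ∀ (B : Type) [Finite B] (Q : Type) [Group Q], RP Q → derivedSeries Q j = ⊥ →
    ∃ (S : Stage j B) (η : Q →* S.Q), Injective η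

end Pool.Agent.HIG
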