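import Mathlib
import Pool.Agent.HIG.Stage

/-!
# Exact statements of the modules
-/

noncomputable section

namespace Pool.Agent.HIG

open Function
open scoped commutatorElement

/-- `g` acting on `x` by conjugation -/
def cj {G : Type} [Group G] (g x : G) : G := g * x * g⁻¹

/-! ### I. Recursion theory and presentations -/

/-- r.e. sets of words are ranges of primitive recursive families (up to the empty word) -/
def Stmt_Enum : Prop :=
  ∀ (k : ℕ) (R : Set (List (Fin k × Bool))), REPred (fun w => w ∈ R) →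
    ∃ ρ : ℕ → List (Fin k × Bool), Primrec ρ ∧ Set.range ρ = insert [] R

/-- quotients by terms of the derived series -/
def Stmt_RPQuot : Prop :=
  ∀ (G : Type) [Group G] (ev : ℕ → G), RPg G ev → ∀ n : ℕ,
    RPg (G ⧸ derivedSeries G n) (fun i => QuotientGroup.mk (ev i))

/-- direct products -/
def Stmt_RPProd : Prop :=
  ∀ (G H : Type) [Group G] [Group H], RP G → RP H → RP (G × H)

/-- finitely generated commutative groups are recursively presented -/
def Stmt_RPComm : Prop :=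
  ∀ (G : Type) [CommGroup G], Group.FG G → RP G

/-- isomorphic groups -/
def Stmt_RPEquiv : Prop :=
  ∀ (G H : Type) [Group G] [Group H], (G ≃* H) → RP G → RP H

/-- from `W n` to the embedding property -/
def Stmt_Final : Prop :=
  Stmt_Enum → Stmt_RPQuot → Stmt_RPEquiv → ∀ n : ℕ, W n → Higman n

/-! ### II. Kaloujnine-Krasner -/

def Stmt_KK : Prop :=
  ∀ (n : ℕ) (G : Type) [Group G], RP G → derivedSeries G (n + 1) = ⊥ →
    ∃ (Q : Type) (_ : Group Q) (ev : ℕ → Q) (D : Type) (_ : AddCommGroup D) (_ : Module (RG Q) D)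
      (f : ℕ → D) (ρ : ℕ → MRel) (φ : G →* Sd Q D),
      RPg Q ev ∧ derivedSeries Q n = ⊥ ∧ PMod Q ev D f ρ ∧ Injective φ

/-! ### III. Base change of modules along an injective homomorphism -/

/-- change of groups in a free module -/
def chg {Q Y : Type} [Group Q] [Group Y] (θ : Q →* Y) {ι : Type} (v : ι →₀ RG Q) : ι →₀ RG Y :=
  v.mapRange (MonoidAlgebra.mapDomainRingHom ℤ θ) (map_zero _)

def Stmt_Ind : Prop :=
  ∀ (Q Y : Type) [Group Q] [Group Y] (θ : Q →* Y), Injective θ →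
    ∀ (ι D : Type) [AddCommGroup D] [Module (RG Q) D] (f : ι → D) (R : Set (ι →₀ RG Q)),
      Submodule.span (RG Q) (Set.range f) = ⊤ →
      LinearMap.ker (Finsupp.linearCombination (RG Q) f) = Submodule.span (RG Q) R →
      ∃ (D' : Type) (_ : AddCommGroup D') (_ : Module (RG Y) D') (f' : ι → D') (j : D →+ D'),
        Submodule.span (RG Y) (Set.range f') = ⊤ ∧
        LinearMap.ker (Finsupp.linearCombination (RG Y) f') =
          Submodule.span (RG Y) (chg θ '' R) ∧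
        Injective j ∧ (∀ i, j (f i) = f' i) ∧ ∀ (q : Q) (d : D), j (el q • d) = el (θ q) • j d

/-! ### IV. Layers -/

/-- `L` letters on top of the recursively presented group `Y` -/
def Stmt_Layer : Prop :=
  ∀ (Y : Type) [Group Y] (evY : ℕ → Y), RPg Y evY → ∀ (L : ℕ) (σ : ℕ → Word), Primrec σ →
    (∀ n, evw (fun i => if i < L then 1 else evY (i - L)) (σ n) = 1) →
    ∃ (P : Type) (_ : Group P) (inc : Y →* P) (ret : P →* Y) (a : ℕ → P),
      (∀ i, L ≤ i → a i = 1) ∧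
      RPg P (fun i => if i < L then a i else inc (evY (i - L))) ∧
      (∀ y, ret (inc y) = y) ∧ (∀ i, ret (a i) = 1) ∧
      (∀ (x y : Y) (i j : ℕ), Commute (cj (inc x) (a i)) (cj (inc y) (a j))) ∧
      (∀ n, evw (fun i => if i < L then a i else inc (evY (i - L))) (σ n) = 1) ∧
      (∀ d, derivedSeries Y d = ⊥ → derivedSeries P (d + 1) = ⊥) ∧
      ∀ (G : Type) [Group G] (θ : Y →* G) (b : ℕ → G), (∀ i, L ≤ i → b i = 1) →
        (∀ (x y : Y) (i j : ℕ), Commute (cj (θ x) (b i)) (cj (θ y) (b j))) →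
        (∀ n, evw (fun i => if i < L then b i else θ (evY (i - L))) (σ n) = 1) →
        ∃ F : P →* G, (∀ y, F (inc y) = θ y) ∧ ∀ i, F (a i) = b i

/-! ### V. Commutation lemmas -/

def Stmt_Four : Prop :=
  ∀ (H : Type) [Group H] (p q r s : H), Commute p q → Commute r s → Commute p r → Commute q s →
    Commute (p * q) (r * s) →
    ⁅q, r⁆ = ⁅s, p⁆ ∧ Commute ⁅q, r⁆ p ∧ Commute ⁅q, r⁆ q ∧ Commute ⁅q, r⁆ r ∧ Commute ⁅q, r⁆ s

/-- the inductive step of the linking lemma -/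
def Stmt_LLStep : Prop :=
  ∀ (A : Type) [CommGroup A] (Λ : Type) (ζ y : Λ → A) (H : Type) [Group H] (X X' : A → H)
    (S : Subgroup A), S = Subgroup.closure (Set.range ζ ∪ Set.range y) →
    (∀ l, ∀ u ∈ S, X (y l * u) = X u * X (ζ l * u)) →
    (∀ l, ∀ u ∈ S, X' (y l * u) = X' u * X' (ζ l * u)) →
    (∀ l, ∀ u ∈ S, Commute (X u) (X (ζ l * u))) →
    (∀ l, ∀ u ∈ S, Commute (X' u) (X' (ζ l * u))) →
    (∀ u ∈ S, Commute (X u) (X' u)) →
    (∀ l, ∀ u ∈ S, ⁅X (ζ l * u), X' u⁆ = ⁅X u, X' (ζ l * u)⁆) →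
    (∀ u ∈ S, ∀ u' ∈ S, Half (X u) (X' u')) →
    (∀ u ∈ S, ∀ u' ∈ S, (∀ l, Commute (X (ζ l * u)) (X' (ζ l * u'))) →
      (∀ l l', ⁅X (ζ l * u), X' (ζ l' * u')⁆ = ⁅X (ζ l' * u), X' (ζ l * u')⁆) →
      ∀ l l', Commute (X (ζ l * u)) (X' (ζ l' * u'))) →
    ∀ u ∈ S, ∀ u' ∈ S, Commute (X u) (X' u')

/-- the linking lemma of level one -/
def Stmt_LLBase : Prop :=
  ∀ (A : Type) [CommGroup A] (I : Type) (β y : I → A) (m : I → I → A) (H : Type) [Group H]
    (X X' : A → H) (S : Subgroup A),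
    S = Subgroup.closure (Set.range β ∪ Set.range y ∪ Set.range (fun p : I × I => m p.1 p.2)) →
    (∀ i, ∀ u ∈ S, X (y i * u) = X u * X (β i * u)) →
    (∀ i, ∀ u ∈ S, X' (y i * u) = X' u * X' (β i * u)) →
    (∀ i j, ∀ u ∈ S, X (m i j * u) = X u * X (β i * u) * X (β j * u)) →
    (∀ i j, ∀ u ∈ S, X' (m i j * u) = X' u * X' (β i * u) * X' (β j * u)) →
    (∀ u ∈ S, ∀ u' ∈ S, Commute (X u) (X u')) →
    (∀ u ∈ S, ∀ u' ∈ S, Commute (X' u) (X' u')) →
    (∀ u ∈ S, Commute (X u) (X' u)) →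
    (∀ u ∈ S, ∀ u' ∈ S, ⁅X u, X' u'⁆ = ⁅X u', X' u⁆) →
    (∀ u ∈ S, ∀ u' ∈ S, Half (X u) (X' u')) →
    ∀ u ∈ S, ∀ u' ∈ S, Commute (X u) (X' u')

/-! ### VI. Hahn series -/

def Stmt_Xi : Prop :=
  ∀ (I : Type) [Countable I] (i₀ : I) (C C' : Type) [CommRing C] [CommRing C'] [Nontrivial C]
    [Nontrivial C'] (Γ : Type) [AddCommGroup Γ] [LinearOrder Γ] [IsOrderedAddMonoid Γ]
    (aug : C →+* C') (Ψ : C →+ C') (κ : HahnSeries Γ ℤ), IsUnit κ.leadingCoeff →
    ∃ (Γ' : Type) (_ : AddCommGroup Γ') (_ : LinearOrder Γ') (_ : IsOrderedAddMonoid Γ')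
      (Ξ : (I → HahnSeries Γ C) →+ HahnSeries Γ' C') (κ' : HahnSeries Γ' ℤ),
      Good κ' ∧
      (∀ f, f ≠ 0 → (∀ i, f i = 0 ∨ IsUnit (f i).leadingCoeff) → Good (Ξ f)) ∧
      ∀ (f : I → HahnSeries Γ C) (c : C), (∀ i γ, aug ((f i).coeff γ) = 0) →
        f i₀ = κ.map (Int.castRingHom C) * HahnSeries.C c →
        Ξ f = κ'.map (Int.castRingHom C') * HahnSeries.C (Ψ c)

/-! ### VII. Stages -/

/-- letters of the stage step -/
inductive SL (r : ℕ) (B : Type) : Type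
  | z | ze | y | g | w
  | al (i : Fin r) | x (i : Fin r)
  | xp (b : B)

/-- index type of the free generators needed below -/
abbrev Up (r : ℕ) (B : Type) : Type := Unit ⊕ Fin r ⊕ B

/-- the letter belonging to an index -/
def SL.of {r : ℕ} {B : Type} : Up r B → SL r B
  | Sum.inl _ => SL.w
  | Sum.inr (Sum.inl i) => SL.x i
  | Sum.inr (Sum.inr b) => SL.xp b

/-- the group of the next stage -/
structure StepLay {j r : ℕ} {B : Type} (S : Stage j (Up r B)) (A : Type) [AddCommGroup A]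
    [Module (RG S.Q) A] (α : Fin r → A) where
  P : Type
  [gP : Group P]
  inc : S.Y →* P
  ret : P →* S.Y
  a : SL r B → P
  ψ : Multiplicative A →* P
  ret_inc : ∀ y, ret (inc y) = y
  ret_a : ∀ l, ret (a l) = 1
  comm : ∀ (x y : S.Y) (l l' : SL r B), Commute (cj (inc x) (a l)) (cj (inc y) (a l'))
  gcomm : ∀ q, Commute (a SL.g) (inc (S.ι q))
  ψα : ∀ i, ψ (Multiplicative.ofAdd (α i)) = a (SL.al i)
  ψq : ∀ (q : S.Q) (t : A), ψ (Multiplicative.ofAdd (el q • t)) =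
    cj (inc (S.ι q)) (ψ (Multiplicative.ofAdd t))
  rpP : RP P
  solP : derivedSeries P (j + 1) = ⊥
  univ : ∀ (G : Type) [Group G] (θ : S.Y →* G) (b : SL r B → G) (ψ' : Multiplicative A →* G),
    (∀ (x y : S.Y) (l l' : SL r B), Commute (cj (θ x) (b l)) (cj (θ y) (b l'))) →
    (∀ q, Commute (b SL.g) (θ (S.ι q))) →
    (∀ i, ψ' (Multiplicative.ofAdd (α i)) = b (SL.al i)) →
    (∀ (q : S.Q) (t : A), ψ' (Multiplicative.ofAdd (el q • t)) =
      cj (θ (S.ι q)) (ψ' (Multiplicative.ofAdd t))) →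
    ∃ F : P →* G, (∀ y, F (inc y) = θ y) ∧ ∀ l, F (a l) = b l

attribute [instance] StepLay.gP

section
variable {j r : ℕ} {B : Type} {S : Stage j (Up r B)} {A : Type} [AddCommGroup A]
  [Module (RG S.Q) A] {α : Fin r → A}

/-- `p ⊙ z`: the formal sum of the conjugates of `z` by the terms of `p` -/
def odot {Y P : Type} [Group Y] [Group P] (inc : Y →* P) (z : P) (p : RG Y) : RG P :=
  p.coeff.sum fun l n => n • el (cj (inc l) z)

/-- relations of the next stage -/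
def StepLay.Rel (T : StepLay S A α) (gens : Set S.Y) : Set (RG T.P) :=
  ((fun μ => el (T.inc μ) - 1) '' gens) ∪
  {el (T.a SL.y) - 1 - el (T.a SL.ze)} ∪
  {el (T.a SL.ze) - odot T.inc (T.a SL.z) S.δ} ∪
  (odot T.inc (T.a SL.z) '' S.Rel) ∪
  (Set.range fun β : Up r B => (el (T.a (SL.of β)) -
    (el (cj (T.inc (S.ξ β)) (T.a SL.ze)) - el (cj (T.inc S.ω) (T.a SL.ze)))) *
      (el (T.a SL.g) - 1)) ∪
  (Set.range fun i : Fin r => (el (T.a (SL.x i)) - el (T.a SL.w) * el (T.a (SL.al i))) *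
    (el (T.a SL.g) - 1))

/-- the embedding of the new group `Q` -/
def StepLay.io (T : StepLay S A α) (x : Sd S.Q A) : T.P :=
  T.ψ (Multiplicative.ofAdd x.d) * T.inc (S.ι x.q)

end

/-- existence of the layer -/
def Stmt_StepLay : Prop :=
  ∀ (j r : ℕ) (B : Type) [Finite B] (S : Stage j (Up r B)) (ev : ℕ → S.Q) (A : Type)
    [AddCommGroup A] [Module (RG S.Q) A] (f : ℕ → A) (ρ : ℕ → MRel), PMod S.Q ev A f ρ →
    (∀ i, r ≤ i → f i = 0) → Nonempty (StepLay S A (fun i : Fin r => f i))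

/-- the linking property of the next stage -/
def Stmt_StepLink : Prop :=
  ∀ (j r : ℕ) (B : Type) [Finite B] (S : Stage j (Up r B)) (A : Type)
    [AddCommGroup A] [Module (RG S.Q) A] (α : Fin r → A),
    Submodule.span (RG S.Q) (Set.range α) = ⊤ →
    ∀ (T : StepLay S A α) (gens : Set S.Y), Subgroup.closure gens = ⊤ →
    ∀ K : Set T.P, K.Finite →
      (∀ k ∈ K, ∃ q : Sd S.Q A, k = T.io q * T.a SL.w ∨ ∃ b, k = T.io q * T.a (SL.xp b)) →
      ∃ 𝒞 : Set T.P, LinkClass T.P (T.Rel gens) (el (T.a SL.g) - 1) 𝒞 ∧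
        ∀ k ∈ K, cl (T.Rel gens) (el k * (el (T.a SL.g) - 1)) ∈
          AddSubgroup.closure ((fun l => cl (T.Rel gens) (el l * (el (T.a SL.g) - 1))) '' 𝒞)

/-- the units of the next stage -/
def Stmt_StepUnits : Prop :=
  ∀ (j r : ℕ) (B : Type) [Finite B] (S : Stage j (Up r B)) (A : Type)
    [AddCommGroup A] [Module (RG S.Q) A] (α : Fin r → A),
    Submodule.span (RG S.Q) (Set.range α) = ⊤ →
    ∀ (T : StepLay S A α) (gens : Set S.Y),
    Injective T.io ∧
    ∀ (C : Type) [CommRing C] [Nontrivial C] (χ : B → Sd S.Q A → Cˣ),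
      ∃ (Γ : Type) (_ : AddCommGroup Γ) (_ : LinearOrder Γ) (_ : IsOrderedAddMonoid Γ)
        (φ : EE T.P (T.Rel gens) →+ HahnSeries Γ C) (κ : HahnSeries Γ ℤ),
        Good κ ∧ (∀ l : T.P, Good (φ (cl (T.Rel gens) (el l)))) ∧
        (∀ l : T.P, Good (φ (cl (T.Rel gens) (el l * (el (T.a SL.g) - 1))))) ∧
        ∀ b q, φ (cl (T.Rel gens) (el (T.io q) * (el (T.a (SL.xp b)) - el (T.a SL.w)) *
            (el (T.a SL.g) - 1))) =
          κ.map (Int.castRingHom C) * HahnSeries.C (χ b q : C)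

/-- first stage -/
def Stmt_Base : Prop := StageEx 1

/-- stage step -/
def Stmt_StageStep : Prop := ∀ j : ℕ, 1 ≤ j → StageEx j → StageEx (j + 1)

end Pool.Agent.HIG
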