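import Mathlib
import Pool.Agent.HIG.Stmts

/-!
# The top level: definitions and statements
-/

noncomputable section

namespace Pool.Agent.HIG

open Function
open scoped commutatorElement

/-- letters of the top level -/
inductive TL (r : ℕ) (B : Type) : Type
  | z | ze | y | yz | w | t
  | al (i : Fin r) | x (i : Fin r)
  | xp (b : B)

/-- the letter belonging to an index -/
def TL.of {r : ℕ} {B : Type} : Up r B → TL r B
  | Sum.inl _ => TL.w
  | Sum.inr (Sum.inl i) => TL.x i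
  | Sum.inr (Sum.inr b) => TL.xp b

/-- the acting group of the top level -/
structure TopLay {j r : ℕ} {B : Type} (S : Stage j (Up r B)) (A : Type) [AddCommGroup A]
    [Module (RG S.Q) A] (α : Fin r → A) where
  P : Type
  [gP : Group P]
  inc : S.Y →* P
  ϖ : P
  a : TL r B → P
  ψ : Multiplicative A →* P
  comm : ∀ (x y : S.Y) (l l' : TL r B), Commute (cj (inc x) (a l)) (cj (inc y) (a l'))
  ϖinc : ∀ y, Commute ϖ (inc y)
  ϖa : ∀ l, l ≠ TL.t → Commute ϖ (a l)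
  tq : ∀ q, Commute (a TL.t) (inc (S.ι q))
  ψα : ∀ i, ψ (Multiplicative.ofAdd (α i)) = a (TL.al i)
  ψq : ∀ (q : S.Q) (t : A), ψ (Multiplicative.ofAdd (el q • t)) =
    cj (inc (S.ι q)) (ψ (Multiplicative.ofAdd t))
  rpP : RP P
  solP : derivedSeries P (j + 1) = ⊥
  univ : ∀ (G : Type) [Group G] (θ : S.Y →* G) (v : G) (b : TL r B → G)
    (ψ' : Multiplicative A →* G),
    (∀ (x y : S.Y) (m n : ℤ) (l l' : TL r B),
      Commute (cj (v ^ m * θ x) (b l)) (cj (v ^ n * θ y) (b l'))) →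
    (∀ y, Commute v (θ y)) → (∀ l, l ≠ TL.t → Commute v (b l)) →
    (∀ q, Commute (b TL.t) (θ (S.ι q))) →
    (∀ i, ψ' (Multiplicative.ofAdd (α i)) = b (TL.al i)) →
    (∀ (q : S.Q) (t : A), ψ' (Multiplicative.ofAdd (el q • t)) =
      cj (θ (S.ι q)) (ψ' (Multiplicative.ofAdd t))) →
    ∃ F : P →* G, (∀ y, F (inc y) = θ y) ∧ F ϖ = v ∧ ∀ l, F (a l) = b l

attribute [instance] TopLay.gP

/-- ordered product `∏ F(l)^(p l)` over the support of `p` (in an arbitrary fixed order) -/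
def oprod {Y G : Type} [Group Y] [Group G] (F : Y → G) (p : RG Y) : G :=
  (p.coeff.support.toList.map fun l => F l ^ (p.coeff l)).prod

section
variable {j r : ℕ} {B : Type} {S : Stage j (Up r B)} {A : Type} [AddCommGroup A]
  [Module (RG S.Q) A] {α : Fin r → A}

/-- the embedding of the group `Sd S.Q A` -/
def TopLay.io (T : TopLay S A α) (x : Sd S.Q A) : T.P :=
  T.ψ (Multiplicative.ofAdd x.d) * T.inc (S.ι x.q)

/-- the element `f` -/
def TopLay.ff (T : TopLay S A α) {G : Type} [Group G] (h : T.P →* G) (e : G) : G :=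
  e⁻¹ * cj (h (T.a TL.t) ^ 2) e

/-- the element `d_b` -/
def TopLay.dd (T : TopLay S A α) {G : Type} [Group G] (h : T.P →* G) (e : G) (b : B) : G :=
  cj (h (T.a (TL.xp b))) (T.ff h e) * (cj (h (T.a TL.w)) (T.ff h e))⁻¹

/-- the relations for `e`; `RD` = relations of the final module -/
structure TopRel (T : TopLay S A α) (RD : Set (B →₀ RG (Sd S.Q A))) (G : Type) [Group G]
    (h : T.P →* G) (e : G) : Prop where
  r0 : ∀ μ, Commute e (h (T.inc μ))
  r1 : cj (h (T.a TL.y)) e = e * cj (h (T.a TL.ze)) e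
  r1' : cj (h (T.a TL.yz)) e = e * cj (h (T.a TL.z)) e
  r1a : Commute e (cj (h (T.a TL.ze)) e)
  r1b : Commute e (cj (h (T.a TL.z)) e)
  r2 : cj (h (T.a TL.ze)) e = oprod (fun l => cj (h (cj (T.inc l) (T.a TL.z))) e) S.δ
  r3 : ∀ p ∈ S.Rel, oprod (fun l => cj (h (cj (T.inc l) (T.a TL.z))) e) p = 1
  r4 : cj (h T.ϖ) e = e ^ 2
  r5 : Commute e (cj (h (T.a TL.t) ^ 2) e)
  r5' : cj (h (T.a TL.t)) e ^ 2 = cj (h (T.a TL.t) ^ 2) e * e
  r6 : cj (h T.ϖ) (T.ff h e) = T.ff h e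
  r7 : ∀ β : Up r B, cj (h (T.a (TL.of β))) (T.ff h e) =
    cj (h (cj (T.inc (S.ξ β)) (T.a TL.ze))) (T.ff h e) *
      (cj (h (cj (T.inc S.ω) (T.a TL.ze))) (T.ff h e))⁻¹
  r8 : ∀ i, cj (h (T.a (TL.x i))) (T.ff h e) =
    cj (h (T.a TL.w) * h (T.a (TL.al i))) (T.ff h e)
  r9 : ∀ p ∈ RD, (p.support.toList.map fun b =>
    oprod (fun x => cj (h (T.io x)) (T.dd h e b)) (p b)).prod = 1

end

/-- existence of the acting group of the top level -/
def Stmt_TopLay : Prop :=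
  ∀ (j r : ℕ) (B : Type) [Finite B], 1 ≤ j → ∀ (S : Stage j (Up r B)) (ev : ℕ → S.Q) (A : Type)
    [AddCommGroup A] [Module (RG S.Q) A] (f : ℕ → A) (ρ : ℕ → MRel), PMod S.Q ev A f ρ →
    (∀ i, r ≤ i → f i = 0) → Nonempty (TopLay S A (fun i : Fin r => f i))

/-- the finitely presented group -/
def Stmt_TopPi : Prop :=
  ∀ (j r : ℕ) (B : Type) [Finite B] (S : Stage j (Up r B)) (A : Type)
    [AddCommGroup A] [Module (RG S.Q) A] (α : Fin r → A) (T : TopLay S A α)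
    (RD : Set (B →₀ RG (Sd S.Q A))), RD.Finite →
    ∀ (R : Type) [Group R], Group.IsFinitelyPresented R → ∀ k : T.P →* R,
    ∃ (G : Type) (_ : Group G) (h : R →* G) (e : G), Group.IsFinitelyPresented G ∧
      TopRel T RD G (h.comp k) e ∧
      ∀ (G' : Type) [Group G'] (h' : R →* G') (e' : G'), TopRel T RD G' (h'.comp k) e' →
        ∃ F : G →* G', (∀ x, F (h x) = h' x) ∧ F e = e'

/-- commutation in the top level: the elements `^u e` and `^(u t^2) e` -/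
def Stmt_TopV : Prop :=
  ∀ (j r : ℕ) (B : Type) [Finite B] (S : Stage j (Up r B)) (A : Type)
    [AddCommGroup A] [Module (RG S.Q) A] (α : Fin r → A) (T : TopLay S A α)
    (RD : Set (B →₀ RG (Sd S.Q A))) (G : Type) [Group G] (h : T.P →* G) (e : G),
    TopRel T RD G h e →
      (∃ Φ : Multiplicative (EE S.Y S.Rel) →* G,
        (∀ l, vl Φ (el l) = cj (h (cj (T.inc l) (T.a TL.z))) e) ∧
        (∀ l, vl Φ (el l * S.δ) = cj (h (cj (T.inc l) (T.a TL.ze))) e)) ∧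
      ∀ 𝒞 : Set S.Y, LinkClass S.Y S.Rel S.δ 𝒞 →
        ∀ u ∈ Subgroup.closure ((fun l => cj (T.inc l) (T.a TL.ze)) '' 𝒞 ∪
          (fun l => cj (T.inc l) (T.a TL.y)) '' 𝒞),
        ∀ u' ∈ Subgroup.closure ((fun l => cj (T.inc l) (T.a TL.ze)) '' 𝒞 ∪
          (fun l => cj (T.inc l) (T.a TL.y)) '' 𝒞),
        Commute (cj (h u) e) (cj (h u') e) ∧
          Commute (cj (h u) e) (cj (h (u' * T.a TL.t ^ 2)) e)

/-- commutation: the relations imply that the final module maps to the group -/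
def Stmt_TopComm : Prop :=
  ∀ (j r : ℕ) (B : Type) [Finite B] (S : Stage j (Up r B)) (A : Type)
    [AddCommGroup A] [Module (RG S.Q) A] (α : Fin r → A),
    Submodule.span (RG S.Q) (Set.range α) = ⊤ → ∀ (T : TopLay S A α)
    (D : Type) [AddCommGroup D] [Module (RG (Sd S.Q A)) D] (g : B → D)
    (RD : Set (B →₀ RG (Sd S.Q A))),
    Submodule.span (RG (Sd S.Q A)) (Set.range g) = ⊤ →
    LinearMap.ker (Finsupp.linearCombination (RG (Sd S.Q A)) g) =
      Submodule.span (RG (Sd S.Q A)) RD →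
    ∀ (G : Type) [Group G] (h : T.P →* G) (e : G), TopRel T RD G h e →
      ∃ Θ : Sd (Sd S.Q A) D →* G, (∀ q, Θ ⟨0, q⟩ = h (T.io q)) ∧
        ∀ b, Θ ⟨g b, 1⟩ = T.dd h e b

/-- the model -/
def Stmt_TopModel : Prop :=
  ∀ (j r : ℕ) (B : Type) [Finite B] (S : Stage j (Up r B)) (A : Type)
    [AddCommGroup A] [Module (RG S.Q) A] (α : Fin r → A),
    Submodule.span (RG S.Q) (Set.range α) = ⊤ → ∀ (T : TopLay S A α)
    (D : Type) [AddCommGroup D] [Module (RG (Sd S.Q A)) D] (g : B → D)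
    (RD : Set (B →₀ RG (Sd S.Q A))),
    Submodule.span (RG (Sd S.Q A)) (Set.range g) = ⊤ →
    LinearMap.ker (Finsupp.linearCombination (RG (Sd S.Q A)) g) =
      Submodule.span (RG (Sd S.Q A)) RD →
    ∃ (M : Type) (_ : AddCommGroup M) (_ : Module (RG T.P) M) (e : M),
      TopRel T RD (Sd T.P M) Sd.inr ⟨e, 1⟩ ∧
      Injective T.io ∧
      ∃ η : D →+ M, Injective η ∧ (∀ (q : Sd S.Q A) (d : D), η (el q • d) = el (T.io q) • η d) ∧
        ∀ b, η (g b) = (el (T.a (TL.xp b)) - el (T.a TL.w)) • (el (T.a TL.t ^ 2) • e - e)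

/-- the top level -/
def Stmt_Top : Prop :=
  ∀ j : ℕ, 1 ≤ j → StageEx j → W (j + 1) →
    ∀ (Q : Type) [Group Q], RP Q → derivedSeries Q (j + 1) = ⊥ →
    ∀ (D : Type) [AddCommGroup D] [Module (RG Q) D], Module.FinitePresentation (RG Q) D →
      ∃ (G : Type) (_ : Group G) (f : Sd Q D →* G), Group.IsFinitelyPresented G ∧
        Injective f ∧ ∀ x, f x ∈ derivedSeries G (j + 2) → x = 1

/-! ### Module Higman -/

/-- states of the counters -/
abbrev St : Type := ℕ → ℕ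

/-- constraints on functions `𝓕 : ℕ → St → M` -/
inductive Con : Type
  /-- `F (v + e_j) = G v` -/
  | shift (j F G : ℕ)
  /-- `∑ n • w • F v = 0` for all `v` vanishing on `J` -/
  | lin (J : Finset ℕ) (L : List (ℤ × Word × ℕ))

/-- a constraint holds -/
def Con.Sat {Q : Type} [Group Q] (ev : ℕ → Q) {M : Type} [AddCommGroup M] [Module (RG Q) M]
    (𝓕 : ℕ → St → M) : Con → Prop
  | .shift j F G => ∀ v, 𝓕 F (update v j (v j + 1)) = 𝓕 G v
  | .lin J L => ∀ v, (∀ i ∈ J, v i = 0) →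
      (L.map fun t => t.1 • (el (evw ev t.2.1) • 𝓕 t.2.2 v)).sum = 0

/-- only counters below `K` and functions below `s` -/
def Con.Bdd (K s : ℕ) : Con → Prop
  | .shift j F G => j < K ∧ F < s ∧ G < s
  | .lin J L => (∀ i ∈ J, i < K) ∧ ∀ t ∈ L, t.2.2 < s

/-- value of a formal relation at elements of a module -/
def mval {Q : Type} [Group Q] (ev : ℕ → Q) {M : Type} [AddCommGroup M] [Module (RG Q) M]
    (m : ℕ → M) (R : MRel) : M :=
  (R.map fun t => sgn t.1 • (el (evw ev t.2.2) • m t.2.1)).sum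

/-- primitive recursive families of relations are implemented by finite systems -/
def Stmt_Sys : Prop :=
  ∀ (k r : ℕ) (ρ : ℕ → MRel), Primrec ρ →
    ∃ (K s : ℕ) (C : List Con), r ≤ s ∧ (∀ c ∈ C, c.Bdd K s) ∧
      (∀ (Q : Type) [Group Q] (ev : ℕ → Q), (∀ i, k ≤ i → ev i = 1) →
        ∀ (M : Type) [AddCommGroup M] [Module (RG Q) M] (𝓕 : ℕ → St → M),
        (∀ c ∈ C, c.Sat ev 𝓕) → ∀ n, mval ev (fun i => if i < r then 𝓕 i 0 else 0) (ρ n) = 0) ∧
      (∀ (Q : Type) [Group Q] (ev : ℕ → Q), (∀ i, k ≤ i → ev i = 1) →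
        ∀ (M : Type) [AddCommGroup M] [Module (RG Q) M] (m : ℕ → M), (∀ i, r ≤ i → m i = 0) →
        (∀ n, mval ev m (ρ n) = 0) →
        ∃ 𝓕 : ℕ → St → M, (∀ c ∈ C, c.Sat ev 𝓕) ∧ ∀ i, i < r → ∀ v, 𝓕 i v = m i)

/-- the counter group -/
def Stmt_Ctr : Prop :=
  ∀ K : ℕ, ∃ (C : Type) (_ : Group C) (x g : Fin K → C), RP C ∧ derivedSeries C 2 = ⊥ ∧
    (∀ i j, Commute (x i) (x j)) ∧ (∀ i j, i ≠ j → Commute (x i) (g j)) ∧
    (∀ i j, Commute (g i) (g j)) ∧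
    ∀ (G : Type) [Group G] (x' g' : Fin K → G), (∀ i j, Commute (x' i) (x' j)) →
      (∀ i j, i ≠ j → Commute (x' i) (g' j)) → (∀ i j, Commute (g' i) (g' j)) →
      (∀ i (n : ℤ), Commute (g' i) (cj (x' i ^ n) (g' i))) →
      ∃ F : C →* G, (∀ i, F (x i) = x' i) ∧ ∀ i, F (g i) = g' i

/-- module Higman -/
def Stmt_MH : Prop :=
  ∀ (m : ℕ), 2 ≤ m → ∀ (Q : Type) [Group Q] (ev : ℕ → Q), RPg Q ev → derivedSeries Q m = ⊥ →
    ∀ (D : Type) [AddCommGroup D] [Module (RG Q) D] (f : ℕ → D) (ρ : ℕ → MRel),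
    PMod Q ev D f ρ →
    ∃ (Q₁ : Type) (_ : Group Q₁) (D₁ : Type) (_ : AddCommGroup D₁) (_ : Module (RG Q₁) D₁)
      (φ : Sd Q D →* Sd Q₁ D₁), RP Q₁ ∧ derivedSeries Q₁ m = ⊥ ∧
      Module.FinitePresentation (RG Q₁) D₁ ∧ Injective φ

/-- metabelian groups (Baumslag-Remeslennikov) -/
def Stmt_BR : Prop := W 2

/-! ### Assembly of the main theorem -/

theorem W_succ (hKK : Stmt_KK) (hMH : Stmt_MH) (hTop : Stmt_Top) (n : ℕ) (hn : 1 ≤ n)
    (hS : StageEx n) (hW : W (n + 1)) : W (n + 2) := by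
  intro G _ hG hs
  obtain ⟨Q, _, ev, D, _, _, f, ρ, φ, hQ, hQs, hD, hφ⟩ := hKK (n + 1) G hG hs
  obtain ⟨Q₁, _, D₁, _, _, φ₁, hQ₁, hQ₁s, hD₁, hφ₁⟩ := hMH (n + 1) (by omega) Q ev hQ hQs D f ρ hD
  obtain ⟨P, _, g, hP, hg, hg'⟩ := hTop n hn hS hW Q₁ hQ₁ hQ₁s D₁ hD₁
  refine ⟨P, inferInstance, g.comp (φ₁.comp φ), hP, ?_, ?_⟩
  · intro a b hab
    exact hφ (hφ₁ (hg hab))
  · intro x hx
    have h1 : φ₁ (φ x) = 1 := hg' _ hx
    apply hφ
    apply hφ₁
    rw [h1, map_one, map_one]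

theorem W_all (hKK : Stmt_KK) (hMH : Stmt_MH) (hTop : Stmt_Top) (hBR : Stmt_BR)
    (hBase : Stmt_Base) (hStep : Stmt_StageStep) (n : ℕ) (hn : 2 ≤ n) : W n := by
  have hS : ∀ j, 1 ≤ j → StageEx j := by
    intro j hj
    induction j, hj using Nat.le_induction with
    | base => exact hBase
    | succ k hk ih => exact hStep k hk ih
  induction n, hn using Nat.le_induction with
  | base => exact hBR
  | succ k hk ih =>
    obtain ⟨m, rfl⟩ : ∃ m, k = m + 1 := ⟨k - 1, by omega⟩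
    exact W_succ hKK hMH hTop m (by omega) (hS m (by omega)) ih

theorem main (hEnum : Stmt_Enum) (hQ : Stmt_RPQuot) (hE : Stmt_RPEquiv) (hFinal : Stmt_Final)
    (hKK : Stmt_KK) (hMH : Stmt_MH) (hTop : Stmt_Top) (hBR : Stmt_BR)
    (hBase : Stmt_Base) (hStep : Stmt_StageStep) (n : ℕ) (hn : 3 ≤ n) : Higman n :=
  hFinal hEnum hQ hE n (W_all hKK hMH hTop hBR hBase hStep n (by omega))

end Pool.Agent.HIG
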