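import Mathlib
import Pool.Agent.HIG.Top

/-!
# Further module statements: first stage, metabelian case, loop programs, assemblies
-/

noncomputable section

namespace Pool.Agent.HIG

open Function
open scoped commutatorElement

/-! ### First stage -/

/-- letters of the first stage -/
inductive BL (I : Type) : Type
  | b (i : I) | y (i : I) | m (i j : I)

/-- acting group of the first stage -/
abbrev Y1 (I Q : Type) : Type := Multiplicative (BL I →₀ ℤ) × Q

/-- a letter -/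
def y1l {I Q : Type} [CommGroup Q] (l : BL I) : Y1 I Q :=
  (Multiplicative.ofAdd (Finsupp.single l 1), 1)

/-- an element of `Q` -/
def y1q {I Q : Type} [CommGroup Q] (q : Q) : Y1 I Q := (1, q)

/-- relations of the first stage -/
def Rel1 (r : ℕ) (B Q : Type) [CommGroup Q] (α : Fin r → Q) : Set (RG (Y1 (Up r B) Q)) :=
  (Set.range fun i : Up r B => el (y1l (BL.y i)) - 1 - el (y1l (BL.b i))) ∪
  (Set.range fun p : Up r B × Up r B =>
    el (y1l (BL.m p.1 p.2)) - 1 - el (y1l (BL.b p.1)) - el (y1l (BL.b p.2))) ∪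
  (Set.range fun i : Fin r => el (y1l (BL.b (Sum.inr (Sum.inl i)))) -
    el (y1l (BL.b (Sum.inl ()))) * el (y1q (α i)))

def Stmt_BaseLink : Prop :=
  ∀ (r : ℕ) (B Q : Type) [CommGroup Q] (α : Fin r → Q), Subgroup.closure (Set.range α) = ⊤ →
    ∃ 𝒞 : Set (Y1 (Up r B) Q), LinkClass _ (Rel1 r B Q α) 1 𝒞 ∧
      ∀ (q : Q) (β : Up r B), cl (Rel1 r B Q α) (el (y1q q * y1l (BL.b β)) * 1) ∈
        AddSubgroup.closure ((fun l => cl (Rel1 r B Q α) (el l * 1)) '' 𝒞)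

def Stmt_BaseUnits : Prop :=
  ∀ (r : ℕ) (B Q : Type) [Finite B] [CommGroup Q] (α : Fin r → Q) (C : Type) [CommRing C]
    [Nontrivial C] (χ : B → Q → Cˣ),
    ∃ (Γ : Type) (_ : AddCommGroup Γ) (_ : LinearOrder Γ) (_ : IsOrderedAddMonoid Γ)
      (φ : EE (Y1 (Up r B) Q) (Rel1 r B Q α) →+ HahnSeries Γ C) (κ : HahnSeries Γ ℤ),
      Good κ ∧ (∀ l, Good (φ (cl (Rel1 r B Q α) (el l)))) ∧
      (∀ l, Good (φ (cl (Rel1 r B Q α) (el l * 1)))) ∧
      ∀ b q, φ (cl (Rel1 r B Q α) (el (y1q q) * (el (y1l (BL.b (Sum.inr (Sum.inr b)))) -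
          el (y1l (BL.b (Sum.inl ())))) * 1)) =
        κ.map (Int.castRingHom C) * HahnSeries.C (χ b q : C)

def Stmt_BaseAsm : Prop := Stmt_BaseLink → Stmt_BaseUnits → Stmt_RPComm → Stmt_Base

/-! ### Metabelian groups -/

/-- the relations of the metabelian case; `Y` commutative, letters `b`, `y`, and `al : Q →* Y` -/
structure BRRel {r : ℕ} {B Q : Type} [Group Q] {Y : Type} [CommGroup Y] (b y : Up r B → Y)
    (al : Q →* Y) (α : Fin r → Q) (RD : Set (B →₀ RG Q)) (G : Type) [Group G] (h : Y →* G)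
    (e : G) : Prop where
  r0 : ∀ T : Finset (Up r B), Commute e (cj (h (∏ β ∈ T, b β)) e)
  r1 : ∀ β, cj (h (y β)) e = e * cj (h (b β)) e
  r2 : ∀ i, cj (h (b (Sum.inr (Sum.inl i)))) e = cj (h (b (Sum.inl ()) * al (α i))) e
  r3 : ∀ p ∈ RD, (p.support.toList.map fun k =>
    oprod (fun x => cj (h (al x)) (cj (h (b (Sum.inr (Sum.inr k)))) e *
      (cj (h (b (Sum.inl ()))) e)⁻¹)) (p k)).prod = 1

def Stmt_BRComm : Prop :=
  ∀ (r : ℕ) (B Q : Type) [Finite B] [Group Q] (Y : Type) [CommGroup Y] (b y : Up r B → Y)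
    (al : Q →* Y) (α : Fin r → Q), Subgroup.closure (Set.range α) = ⊤ →
    ∀ (D : Type) [AddCommGroup D] [Module (RG Q) D] (g : B → D) (RD : Set (B →₀ RG Q)),
    Submodule.span (RG Q) (Set.range g) = ⊤ →
    LinearMap.ker (Finsupp.linearCombination (RG Q) g) = Submodule.span (RG Q) RD →
    ∀ (G : Type) [Group G] (h : Y →* G) (e : G), BRRel b y al α RD G h e →
      ∃ Θ : Sd Q D →* G, (∀ q, Θ ⟨0, q⟩ = h (al q)) ∧
        ∀ k, Θ ⟨g k, 1⟩ = cj (h (b (Sum.inr (Sum.inr k)))) e * (cj (h (b (Sum.inl ()))) e)⁻¹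

/-- acting group of the metabelian case -/
abbrev Y2 (I Q : Type) : Type := Multiplicative (I ⊕ I →₀ ℤ) × Q

def Stmt_BRModel : Prop :=
  ∀ (r : ℕ) (B Q : Type) [Finite B] [CommGroup Q] (α : Fin r → Q)
    (D : Type) [AddCommGroup D] [Module (RG Q) D] (g : B → D) (RD : Set (B →₀ RG Q)),
    Submodule.span (RG Q) (Set.range g) = ⊤ →
    LinearMap.ker (Finsupp.linearCombination (RG Q) g) = Submodule.span (RG Q) RD →
    ∃ (M : Type) (_ : AddCommGroup M) (_ : Module (RG (Y2 (Up r B) Q)) M) (e : M),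
      BRRel (r := r) (B := B) (Q := Q) (Y := Y2 (Up r B) Q)
        (fun β => (Multiplicative.ofAdd (Finsupp.single (Sum.inl β) 1), 1))
        (fun β => (Multiplicative.ofAdd (Finsupp.single (Sum.inr β) 1), 1))
        (MonoidHom.inr _ _) α RD (Sd (Y2 (Up r B) Q) M) Sd.inr ⟨e, 1⟩ ∧
      ∃ η : D →+ M, Injective η ∧
        (∀ (q : Q) (d : D), η (el q • d) = el ((1, q) : Y2 (Up r B) Q) • η d) ∧
        ∀ k, η (g k) = (el ((Multiplicative.ofAdd (Finsupp.single (Sum.inl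
            (Sum.inr (Sum.inr k))) 1), 1) : Y2 (Up r B) Q) -
          el ((Multiplicative.ofAdd (Finsupp.single (Sum.inl (Sum.inl ())) 1), 1) :
            Y2 (Up r B) Q)) • e

def Stmt_BRAsm : Prop := Stmt_KK → Stmt_BRComm → Stmt_BRModel → Stmt_BR

/-! ### Loop programs -/

/-- loop programs on counters -/
inductive Prog : Type
  | inc (r : ℕ) | dec (r : ℕ) | seq (p q : Prog) | loop (r : ℕ) (p : Prog)

def Prog.run : Prog → St → St
  | .inc r => fun v => update v r (v r + 1)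
  | .dec r => fun v => update v r (v r - 1)
  | .seq p q => fun v => q.run (p.run v)
  | .loop r p => fun v => (p.run)^[v r] (update v r 0)

/-- the register `i` occurs -/
def Prog.Uses (i : ℕ) : Prog → Prop
  | .inc r => r = i
  | .dec r => r = i
  | .seq p q => p.Uses i ∨ q.Uses i
  | .loop r p => r = i ∨ p.Uses i

/-- the body of a loop does not use the loop register -/
def Prog.WF : Prog → Prop
  | .inc _ => True
  | .dec _ => True
  | .seq p q => p.WF ∧ q.WF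
  | .loop r p => ¬ p.Uses r ∧ p.WF

/-- unary primitive recursive functions: `x₀ := f x₀` -/
def Stmt_Prim1 : Prop :=
  ∀ f : ℕ → ℕ, Primrec f → ∃ (K : ℕ) (p : Prog), 1 ≤ K ∧ p.WF ∧ (∀ i, p.Uses i → i < K) ∧
    ∀ v : St, (∀ i, 1 ≤ i → i < K → v i = 0) → p.run v = update v 0 (f (v 0))

/-- binary primitive recursive functions: `x₀ := f x₀ x₁; x₁ := 0` -/
def Stmt_Prim2 : Prop :=
  ∀ f : ℕ → ℕ → ℕ, Primrec₂ f → ∃ (K : ℕ) (p : Prog), 2 ≤ K ∧ p.WF ∧ (∀ i, p.Uses i → i < K) ∧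
    ∀ v : St, (∀ i, 2 ≤ i → i < K → v i = 0) →
      p.run v = update (update v 0 (f (v 0) (v 1))) 1 0

/-- compilation of programs into constraints -/
def Stmt_Compile : Prop :=
  ∀ (K : ℕ) (p : Prog), p.WF → (∀ i, p.Uses i → i < K) → ∀ F n : ℕ, F < n →
    ∃ (s : ℕ) (C : List Con) (G : ℕ), n ≤ s ∧ G < s ∧ (∀ c ∈ C, c.Bdd K s) ∧
      ∀ (Q : Type) [Group Q] (ev : ℕ → Q) (M : Type) [AddCommGroup M] [Module (RG Q) M]
        (𝓕 : ℕ → St → M),
        ((∀ c ∈ C, c.Sat ev 𝓕) → ∀ v, 𝓕 G v = 𝓕 F (p.run v)) ∧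
        ∃ 𝓕' : ℕ → St → M, (∀ i, i < n → 𝓕' i = 𝓕 i) ∧ (∀ c ∈ C, c.Sat ev 𝓕') ∧
          ∀ v, 𝓕' G v = 𝓕 F (p.run v)

def Stmt_SysAsm : Prop := Stmt_Prim1 → Stmt_Prim2 → Stmt_Compile → Stmt_Sys

/-- product of the operators `g_j - 1` over a list -/
def gprod {K : ℕ} (Q : Type) [Group Q] {C : Type} [Group C] (g : Fin K → C)
    (l : List (Fin K)) : RG (Q × C) :=
  (l.map fun j => el ((1, g j) : Q × C) - 1).prod

/-- the function model of a counter module -/
def Stmt_MHModel : Prop :=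
  ∀ (K : ℕ) (Q : Type) [Group Q] (D : Type) [AddCommGroup D] [Module (RG Q) D]
    (C : Type) [Group C] (x g : Fin K → C),
    (∀ (G : Type) [Group G] (x' g' : Fin K → G), (∀ i j, Commute (x' i) (x' j)) →
      (∀ i j, i ≠ j → Commute (x' i) (g' j)) → (∀ i j, Commute (g' i) (g' j)) →
      (∀ i (n : ℤ), Commute (g' i) (cj (x' i ^ n) (g' i))) →
      ∃ F : C →* G, (∀ i, F (x i) = x' i) ∧ ∀ i, F (g i) = g' i) →
    ∃ (M : Type) (_ : AddCommGroup M) (_ : Module (RG (Q × C)) M) (br : (St → D) →+ M)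
      (τ : M →+ D),
      (∀ (j : Fin K) (F F' : St → D), (∀ v, F (update v j (v j + 1)) = F' v) →
        (el ((1, x j) : Q × C) + el ((1, (x j)⁻¹) : Q × C)) • br F = br F') ∧
      (∀ (l : List (Fin K)), l.Nodup → ∀ F : St → D, (∀ v, (∀ i ∈ l, v (i : ℕ) = 0) → F v = 0) →
        gprod Q g l • br F = 0) ∧
      (∀ (q : Q) (F : St → D), el ((q, 1) : Q × C) • br F = br fun v => el q • F v) ∧
      ∀ F : St → D, τ (gprod Q g (List.finRange K) • br F) = F 0

/-- the finitely presented module defined by a system over `Q × C` -/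
def Stmt_MHAsm : Prop := Stmt_Sys → Stmt_Ctr → Stmt_RPProd → Stmt_MHModel → Stmt_MH

def Stmt_CtrAsm : Prop := Stmt_Layer → Stmt_RPComm → Stmt_Ctr

/-! ### Other assemblies -/

def Stmt_StepLayAsm : Prop := Stmt_Layer → Stmt_StepLay

def Stmt_TopLayAsm : Prop := Stmt_Layer → Stmt_RPProd → Stmt_RPComm → Stmt_TopLay

def Stmt_StageAsm : Prop :=
  Stmt_KK → Stmt_Ind → Stmt_StepLay → Stmt_StepLink → Stmt_StepUnits → Stmt_StageStep

def Stmt_TopAsm : Prop :=
  Stmt_KK → Stmt_Ind → Stmt_TopLay → Stmt_TopPi → Stmt_TopComm → Stmt_TopModel → Stmt_Top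

def Stmt_KKAsm : Prop := Stmt_RPQuot → Stmt_KK

def Stmt_TopVAsm : Prop := Stmt_Four → Stmt_LLStep → Stmt_TopV

def Stmt_TopCommAsm : Prop := Stmt_TopV → Stmt_TopComm

def Stmt_StepLinkAsm : Prop := Stmt_LLStep → Stmt_StepLink

def Stmt_StepUnitsAsm : Prop := Stmt_Xi → Stmt_StepUnits

def Stmt_BaseLinkAsm : Prop := Stmt_LLBase → Stmt_BaseLink

def Stmt_BaseUnitsAsm : Prop := Stmt_Xi → Stmt_BaseUnits

def Stmt_LLStepAsm : Prop := Stmt_Four → Stmt_LLStep

def Stmt_LLBaseAsm : Prop := Stmt_Four → Stmt_LLBase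

def Stmt_BRCommAsm : Prop := Stmt_Four → Stmt_BRComm

/-- everything together -/
theorem main' (enum : Stmt_Enum) (final : Stmt_Final) (rpquot : Stmt_RPQuot)
    (rpequiv : Stmt_RPEquiv) (rpprod : Stmt_RPProd)
    (rpcomm : Stmt_RPComm) (kk : Stmt_KKAsm) (ind : Stmt_Ind) (layer : Stmt_Layer)
    (four : Stmt_Four) (llStep : Stmt_LLStepAsm) (llBase : Stmt_LLBaseAsm) (xi : Stmt_Xi)
    (stepLink : Stmt_StepLinkAsm) (stepUnits : Stmt_StepUnitsAsm) (topPi : Stmt_TopPi)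
    (topV : Stmt_TopVAsm) (topComm : Stmt_TopCommAsm) (topModel : Stmt_TopModel)
    (baseLink : Stmt_BaseLinkAsm)
    (baseUnits : Stmt_BaseUnitsAsm) (baseAsm : Stmt_BaseAsm) (brComm : Stmt_BRCommAsm)
    (brModel : Stmt_BRModel) (brAsm : Stmt_BRAsm) (prim1 : Stmt_Prim1) (prim2 : Stmt_Prim2)
    (compile : Stmt_Compile) (sysAsm : Stmt_SysAsm) (mhModel : Stmt_MHModel) (mhAsm : Stmt_MHAsm)
    (ctrAsm : Stmt_CtrAsm)
    (stepLayAsm : Stmt_StepLayAsm) (topLayAsm : Stmt_TopLayAsm) (stageAsm : Stmt_StageAsm)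
    (topAsm : Stmt_TopAsm) : ∀ n, 3 ≤ n → Higman n :=
  main enum rpquot rpequiv final (kk rpquot)
    (mhAsm (sysAsm prim1 prim2 compile) (ctrAsm layer rpcomm) rpprod mhModel)
    (topAsm (kk rpquot) ind (topLayAsm layer rpprod rpcomm) topPi
      (topComm (topV four (llStep four))) topModel)
    (brAsm (kk rpquot) (brComm four) brModel)
    (baseAsm (baseLink (llBase four)) (baseUnits xi) rpcomm)
    (stageAsm (kk rpquot) ind (stepLayAsm layer) (stepLink (llStep four)) (stepUnits xi))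

end Pool.Agent.HIG
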