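import Mathlib
import Pool.Agent.HIG.Extra

/-!
# Basic API (proved)
-/

noncomputable section

set_option linter.unusedSectionVars false

namespace Pool.Agent.HIG

open Function
open scoped commutatorElement

/-! ### conjugation -/

section cj
variable {G H : Type} [Group G] [Group H]

theorem cj_one (g : G) : cj g (1 : G) = 1 := by simp [cj]
theorem one_cj (x : G) : cj (1 : G) x = x := by simp [cj]
theorem cj_mul (g x y : G) : cj g (x * y) = cj g x * cj g y := by simp [cj]
theorem cj_inv (g x : G) : cj g x⁻¹ = (cj g x)⁻¹ := by simp [cj, mul_assoc]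
theorem cj_cj (g h x : G) : cj g (cj h x) = cj (g * h) x := by simp [cj, mul_assoc]
theorem cj_pow (g x : G) (n : ℕ) : cj g (x ^ n) = cj g x ^ n := by simp [cj, conj_pow]
theorem cj_zpow (g x : G) (n : ℤ) : cj g (x ^ n) = cj g x ^ n := by
  simp only [cj]
  exact (conj_zpow ..).symm
theorem cj_of_commute {g x : G} (h : Commute g x) : cj g x = x := by
  simp [cj, h.eq]
theorem cj_eq_iff {g x : G} : cj g x = x ↔ Commute g x := by
  constructor
  · intro h
    have : g * x * g⁻¹ = x := h
    exact (mul_inv_eq_iff_eq_mul.1 this)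
  · exact cj_of_commute
theorem Commute.cj {x y : G} (h : Commute x y) (g : G) : Commute (cj g x) (cj g y) := by
  unfold Pool.Agent.HIG.cj
  simpa using (Commute.conj_iff g).2 h
theorem commute_cj_iff {x y : G} (g : G) :
    Commute (Pool.Agent.HIG.cj g x) (Pool.Agent.HIG.cj g y) ↔ Commute x y := by
  unfold Pool.Agent.HIG.cj
  exact Commute.conj_iff g
theorem map_cj (f : G →* H) (g x : G) : f (cj g x) = cj (f g) (f x) := by simp [cj]
theorem cj_commutator (g x y : G) : cj g ⁅x, y⁆ = ⁅cj g x, cj g y⁆ := by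
  simp [cj, commutatorElement_def, mul_assoc]
theorem cj_inj {g x y : G} : cj g x = cj g y ↔ x = y := by
  simp [cj]
/-- conjugation as a homomorphism -/
def cjHom (g : G) : G →* G := (MulAut.conj g).toMonoidHom
theorem cjHom_apply (g x : G) : cjHom g x = cj g x := rfl
end cj

/-! ### words -/

section words
variable {G H : Type} [Group G] [Group H]

theorem evw_nil (ev : ℕ → G) : evw ev [] = 1 := by
  simp [evw, FreeGroup.lift_mk]
theorem evw_cons (ev : ℕ → G) (i : ℕ) (b : Bool) (w : Word) :
    evw ev ((i, b) :: w) = (if b then ev i else (ev i)⁻¹) * evw ev w := by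
  simp only [evw, FreeGroup.lift_mk, List.map_cons, List.prod_cons]
  cases b <;> rfl
theorem evw_append (ev : ℕ → G) (w w' : Word) : evw ev (w ++ w') = evw ev w * evw ev w' := by
  simp [evw, FreeGroup.lift_mk]
theorem map_evw (f : G →* H) (ev : ℕ → G) (w : Word) : f (evw ev w) = evw (fun i => f (ev i)) w := by
  induction w with
  | nil => simp [evw_nil]
  | cons a w ih =>
    obtain ⟨i, b⟩ := a
    rw [evw_cons, evw_cons, map_mul, ih]
    cases b <;> simp
end words

/-! ### the group ring -/

section RG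
variable {Y : Type} [Group Y]

theorem RG.induction {p : RG Y → Prop} (h0 : p 0) (hadd : ∀ x y, p x → p y → p (x + y))
    (hneg : ∀ x, p x → p (-x)) (hel : ∀ g, p (el g)) (x : RG Y) : p x := by
  refine MonoidAlgebra.induction_linear x h0 (fun a b ha hb => hadd _ _ ha hb) ?_
  intro g n
  have hz : ∀ m : ℕ, p (m • el g) := by
    intro m
    induction m with
    | zero => simpa using h0
    | succ m ih => rw [succ_nsmul]; exact hadd _ _ ih (hel g)
  have e : (MonoidAlgebra.single g n : RG Y) = n • el g := by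
    simp [el, MonoidAlgebra.smul_single]
  rw [e]
  obtain ⟨m, rfl | rfl⟩ := n.eq_nat_or_neg
  · simpa using hz m
  · simpa using hneg _ (hz m)

/-- additive extension of a function on the group -/
def RG.lift {M : Type} [AddCommGroup M] (f : Y → M) : RG Y →+ M :=
  (Finsupp.liftAddHom fun g => ((zmultiplesHom M) (f g))).comp
    { toFun := fun x => x.coeff, map_zero' := rfl, map_add' := fun _ _ => rfl }

theorem RG.lift_apply {M : Type} [AddCommGroup M] (f : Y → M) (p : RG Y) :
    RG.lift f p = p.coeff.sum fun g n => n • f g := by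
  simp only [RG.lift, AddMonoidHom.comp_apply, Finsupp.liftAddHom_apply]
  rfl

theorem RG.lift_el {M : Type} [AddCommGroup M] (f : Y → M) (g : Y) : RG.lift f (el g) = f g := by
  rw [RG.lift_apply]
  simp [el]

theorem RG.hom_ext {M : Type} [AddCommGroup M] {f f' : RG Y →+ M} (h : ∀ g, f (el g) = f' (el g)) :
    f = f' := by
  refine AddMonoidHom.ext fun x => ?_
  refine RG.induction (p := fun x => f x = f' x) (by simp) ?_ ?_ h x
  · intro x y hx hy; simp [hx, hy]
  · intro x hx; simp [hx]

theorem el_inv_mul (g : Y) : el g⁻¹ * el g = 1 := by rw [← el_mul]; simp [el_one]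
theorem el_mul_inv (g : Y) : el g * el g⁻¹ = 1 := by rw [← el_mul]; simp [el_one]
end RG

/-! ### semidirect products -/

section Sd
variable {Q D : Type} [Group Q] [AddCommGroup D] [Module (RG Q) D]

theorem Sd.inr_apply (q : Q) : (Sd.inr q : Sd Q D) = ⟨0, q⟩ := rfl

/-- the normal subgroup -/
def Sd.inl : Multiplicative D →* Sd Q D where
  toFun d := ⟨d.toAdd, 1⟩
  map_one' := rfl
  map_mul' x y := by ext <;> simp [Sd.mul_d, Sd.mul_q, el_one]

theorem Sd.mk_eq (d : D) (q : Q) : (⟨d, q⟩ : Sd Q D) = ⟨d, 1⟩ * ⟨0, q⟩ := by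
  ext <;> simp [Sd.mul_d, Sd.mul_q]

theorem Sd.cj_inr (q : Q) (d : D) : cj (Sd.inr q : Sd Q D) ⟨d, 1⟩ = ⟨el q • d, 1⟩ := by
  ext <;> simp [cj, Sd.mul_d, Sd.mul_q, Sd.inv_d, Sd.inv_q, Sd.inr_apply]

theorem Sd.mul_inl (d d' : D) : (⟨d, 1⟩ * ⟨d', 1⟩ : Sd Q D) = ⟨d + d', 1⟩ := by
  ext <;> simp [Sd.mul_d, Sd.mul_q, el_one]

theorem Sd.inv_inl (d : D) : ((⟨d, 1⟩ : Sd Q D))⁻¹ = ⟨-d, 1⟩ := by
  ext <;> simp [Sd.inv_d, Sd.inv_q, el_one]

theorem Sd.zpow_inl (d : D) (n : ℤ) : ((⟨d, 1⟩ : Sd Q D)) ^ n = ⟨n • d, 1⟩ := by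
  have := map_zpow (Sd.inl (Q := Q) (D := D)) (Multiplicative.ofAdd d) n
  simpa [Sd.inl] using this.symm

theorem Sd.commute_inl (d d' : D) : Commute (⟨d, 1⟩ : Sd Q D) ⟨d', 1⟩ := by
  unfold Commute SemiconjBy
  rw [Sd.mul_inl, Sd.mul_inl, add_comm]

/-- the projection -/
def Sd.proj : Sd Q D →* Q where
  toFun x := x.q
  map_one' := rfl
  map_mul' _ _ := rfl

/-- functoriality -/
def Sd.map {Q' D' : Type} [Group Q'] [AddCommGroup D'] [Module (RG Q') D'] (θ : Q →* Q')
    (j : D →+ D') (h : ∀ q d, j (el q • d) = el (θ q) • j d) : Sd Q D →* Sd Q' D' where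
  toFun x := ⟨j x.d, θ x.q⟩
  map_one' := by ext <;> simp [Sd.one_d, Sd.one_q]
  map_mul' x y := by ext <;> simp [Sd.mul_d, Sd.mul_q, h]

theorem Sd.map_apply {Q' D' : Type} [Group Q'] [AddCommGroup D'] [Module (RG Q') D'] (θ : Q →* Q')
    (j : D →+ D') (h : ∀ q d, j (el q • d) = el (θ q) • j d) (x : Sd Q D) :
    Sd.map θ j h x = ⟨j x.d, θ x.q⟩ := rfl

theorem Sd.map_injective {Q' D' : Type} [Group Q'] [AddCommGroup D'] [Module (RG Q') D']
    {θ : Q →* Q'} {j : D →+ D'} (h : ∀ q d, j (el q • d) = el (θ q) • j d) (hθ : Injective θ)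
    (hj : Injective j) : Injective (Sd.map θ j h) := by
  intro x y hxy
  have h1 := congrArg Sd.d hxy
  have h2 := congrArg Sd.q hxy
  ext
  · exact hj h1
  · exact hθ h2

theorem Sd.derivedSeries {n : ℕ} (h : derivedSeries Q n = ⊥) :
    _root_.derivedSeries (Sd Q D) (n + 1) = ⊥ := by
  have h1 : (_root_.derivedSeries (Sd Q D) n).map (Sd.proj (Q := Q) (D := D)) ≤ ⊥ := by
    rw [← h]
    exact map_derivedSeries_le_derivedSeries _ _
  have h2 : ∀ x ∈ _root_.derivedSeries (Sd Q D) n, x.q = 1 := by
    intro x hx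
    have := h1 (Subgroup.mem_map_of_mem _ hx)
    exact Subgroup.mem_bot.1 this
  rw [derivedSeries_succ, Subgroup.commutator_eq_bot_iff_le_centralizer]
  intro x hx
  rw [Subgroup.mem_centralizer_iff]
  intro y hy
  have hx' : x = ⟨x.d, 1⟩ := by ext <;> simp [h2 x hx]
  have hy' : y = ⟨y.d, 1⟩ := by ext <;> simp [h2 y hy]
  rw [hx', hy']
  exact (Sd.commute_inl _ _).eq

end Sd

/-! ### the cyclic modules -/

section EE
variable {Y : Type} [Group Y] {Rel : Set (RG Y)}

theorem cl_add (x y : RG Y) : cl Rel (x + y) = cl Rel x + cl Rel y := rfl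
theorem cl_sub (x y : RG Y) : cl Rel (x - y) = cl Rel x - cl Rel y := rfl
theorem cl_neg (x : RG Y) : cl Rel (-x) = -cl Rel x := rfl
theorem cl_zero : cl Rel (0 : RG Y) = 0 := rfl
theorem cl_smul (x y : RG Y) : cl Rel (x * y) = x • cl Rel y := rfl
theorem cl_zsmul (n : ℤ) (y : RG Y) : cl Rel (n • y) = n • cl Rel y := rfl
theorem cl_surj (t : EE Y Rel) : ∃ x, cl Rel x = t := Submodule.Quotient.mk_surjective _ t

theorem cl_eq_zero {x : RG Y} : cl Rel x = 0 ↔ x ∈ Submodule.span (RG Y) Rel :=
  Submodule.Quotient.mk_eq_zero _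

theorem cl_rel {r : RG Y} (hr : r ∈ Rel) (x : RG Y) : cl Rel (x * r) = 0 := by
  rw [cl_eq_zero]
  exact Submodule.smul_mem _ x (Submodule.subset_span hr)

/-- the class as an additive map -/
def clHom (Rel : Set (RG Y)) : RG Y →+ EE Y Rel := (Submodule.mkQ _).toAddMonoidHom
theorem clHom_apply (x : RG Y) : clHom Rel x = cl Rel x := rfl

/-- additive maps out of the cyclic module -/
def EE.lift {M : Type} [AddCommGroup M] (f : RG Y →+ M) (h : ∀ (g : Y), ∀ r ∈ Rel, f (el g * r) = 0) :
    EE Y Rel →+ M :=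
  QuotientAddGroup.lift (Submodule.span (RG Y) Rel).toAddSubgroup f (by
    intro x hx
    have hx' : x ∈ Submodule.span (RG Y) Rel := hx
    have key : ∀ y ∈ Submodule.span (RG Y) Rel, f y = 0 := by
      intro y hy
      induction hy using Submodule.span_induction with
      | mem r hr => simpa [el_one] using h 1 r hr
      | zero => simp
      | add a b _ _ ha hb => simp [ha, hb]
      | smul a b hb hb0 =>
        clear hb0
        -- reduce `b` to generators as well
        have : ∀ c ∈ Submodule.span (RG Y) Rel, ∀ g : Y, f (el g * c) = 0 := by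
          intro c hc
          refine Submodule.span_induction (p := fun c _ => ∀ g : Y, f (el g * c) = 0) ?_ ?_ ?_ ?_ hc
          · intro r hr g; exact h g r hr
          · intro g; simp
          · intro a b _ _ ha hb g; simp [mul_add, ha g, hb g]
          · intro a c _ hc g
            refine RG.induction (p := fun a => f (el g * (a • c)) = 0) (by simp) ?_ ?_ ?_ a
            · intro x y hx hy; simpa [add_mul, mul_add] using by
                have := congrArg₂ (· + ·) hx hy
                simpa using this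
            · intro x hx; simpa using hx
            · intro g'
              have := hc (g * g')
              rw [el_mul, mul_assoc] at this
              exact this
        refine RG.induction (p := fun a => f (a • b) = 0) (by simp) ?_ ?_ ?_ a
        · intro x y hx hy
          have := congrArg₂ (· + ·) hx hy
          simpa [add_mul] using this
        · intro x hx; simpa using hx
        · intro g; exact this b hb g
    exact key x hx')

theorem EE.lift_cl {M : Type} [AddCommGroup M] (f : RG Y →+ M)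
    (h : ∀ (g : Y), ∀ r ∈ Rel, f (el g * r) = 0) (x : RG Y) : EE.lift f h (cl Rel x) = f x := rfl

theorem EE.hom_ext {M : Type} [AddCommGroup M] {f f' : EE Y Rel →+ M}
    (h : ∀ g : Y, f (cl Rel (el g)) = f' (cl Rel (el g))) : f = f' := by
  have : f.comp (clHom Rel) = f'.comp (clHom Rel) := RG.hom_ext (fun g => h g)
  ext t
  obtain ⟨x, rfl⟩ := cl_surj t
  exact DFunLike.congr_fun this x

variable {H : Type} [Group H] (Φ : Multiplicative (EE Y Rel) →* H)

theorem vl_add (x y : RG Y) : vl Φ (x + y) = vl Φ x * vl Φ y := by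
  unfold vl; rw [cl_add, ofAdd_add, map_mul]
theorem vl_zero : vl Φ (0 : RG Y) = 1 := by
  unfold vl; rw [cl_zero, ofAdd_zero, map_one]
theorem vl_neg (x : RG Y) : vl Φ (-x) = (vl Φ x)⁻¹ := by
  unfold vl; rw [cl_neg, ofAdd_neg, map_inv]
theorem vl_sub (x y : RG Y) : vl Φ (x - y) = vl Φ x * (vl Φ y)⁻¹ := by
  rw [sub_eq_add_neg, vl_add, vl_neg]
theorem vl_zsmul (n : ℤ) (x : RG Y) : vl Φ (n • x) = vl Φ x ^ n := by
  unfold vl; rw [cl_zsmul, ofAdd_zsmul, map_zpow]
theorem vl_comm (x y : RG Y) : Commute (vl Φ x) (vl Φ y) := by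
  exact (Commute.all (Multiplicative.ofAdd (cl Rel x)) (Multiplicative.ofAdd (cl Rel y))).map Φ
theorem vl_congr {x y : RG Y} (h : cl Rel x = cl Rel y) : vl Φ x = vl Φ y := by
  unfold vl; rw [h]
end EE

/-! ### odot, oprod -/

section odot
variable {Y P : Type} [Group Y] [Group P] (inc : Y →* P) (z : P)

/-- `odot` as an additive map -/
def odotHom : RG Y →+ RG P := RG.lift fun l => el (cj (inc l) z)

theorem odot_eq (p : RG Y) : odot inc z p = odotHom inc z p := by
  rw [odotHom, RG.lift_apply]; rfl
theorem odot_el (l : Y) : odot inc z (el l) = el (cj (inc l) z) := by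
  rw [odot_eq, odotHom, RG.lift_el]
theorem odot_add (p q : RG Y) : odot inc z (p + q) = odot inc z p + odot inc z q := by
  simp [odot_eq]
theorem odot_sub (p q : RG Y) : odot inc z (p - q) = odot inc z p - odot inc z q := by
  simp [odot_eq]
theorem odot_neg (p : RG Y) : odot inc z (-p) = -odot inc z p := by simp [odot_eq]
theorem odot_zero : odot inc z (0 : RG Y) = 0 := by simp [odot_eq]
/-- `(l p) ⊙ z = inc l (p ⊙ z) inc l⁻¹` -/
theorem odot_mul (l : Y) (p : RG Y) :
    odot inc z (el l * p) = el (inc l) * odot inc z p * el (inc l)⁻¹ := by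
  refine RG.induction (p := fun p => odot inc z (el l * p) =
    el (inc l) * odot inc z p * el (inc l)⁻¹) (by simp [odot_zero]) ?_ ?_ ?_ p
  · intro x y hx hy; rw [mul_add, odot_add, hx, hy, odot_add, mul_add, add_mul]
  · intro x hx; rw [mul_neg, odot_neg, hx, odot_neg, mul_neg, neg_mul]
  · intro g
    rw [← el_mul, odot_el, odot_el, ← el_mul, ← el_mul]
    congr 1
    simp [cj, mul_assoc]
end odot

section oprod
variable {Y G : Type} [Group Y] [Group G]

/-- an ordered product with commuting factors is the value of the additive extension -/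
theorem oprod_eq {F : Y → G} (Φ : Multiplicative (RG Y) →* G)
    (hΦ : ∀ l, Φ (Multiplicative.ofAdd (el l)) = F l) (p : RG Y) :
    oprod F p = Φ (Multiplicative.ofAdd p) := by
  have hp : p = (p.coeff.support.toList.map fun l => p.coeff l • (el l : RG Y)).sum := by
    rw [Finset.sum_map_toList (f := fun l => p.coeff l • (el l : RG Y))]
    have h1 : (RG.lift (fun l => (el l : RG Y))) = AddMonoidHom.id _ :=
      RG.hom_ext (fun g => by simp [RG.lift_el])
    have h2 := DFunLike.congr_fun h1 p
    rw [RG.lift_apply] at h2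
    exact h2.symm
  have h3 : ∀ L : List Y, (L.map fun l => F l ^ p.coeff l).prod =
      Φ (Multiplicative.ofAdd (L.map fun l => p.coeff l • (el l : RG Y)).sum) := by
    intro L
    induction L with
    | nil => simp
    | cons a L ih =>
      simp only [List.map_cons, List.prod_cons, List.sum_cons, ofAdd_add, map_mul, ih,
        ofAdd_zsmul, map_zpow, hΦ]
  unfold oprod
  rw [h3, ← hp]

theorem map_oprod {G' : Type} [Group G'] (f : G →* G') (F : Y → G) (p : RG Y) :
    f (oprod F p) = oprod (fun l => f (F l)) p := by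
  unfold oprod
  rw [map_list_prod, List.map_map]
  congr 1
  apply List.map_congr_left
  intro l _
  simp

theorem cj_oprod (g : G) (F : Y → G) (p : RG Y) :
    cj g (oprod F p) = oprod (fun l => cj g (F l)) p :=
  map_oprod (cjHom g) F p

theorem oprod_zero (F : Y → G) : oprod F (0 : RG Y) = 1 := by
  simp [oprod]
end oprod

/-- additive extension of a function with commuting values, into a possibly non-commutative group -/
theorem exists_hom_of_commute {Y G : Type} [Group Y] [Group G] (F : Y → G)
    (h : ∀ x y, Commute (F x) (F y)) :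
    ∃ Φ : Multiplicative (RG Y) →* G, ∀ l, Φ (Multiplicative.ofAdd (el l)) = F l := by
  let N : Subgroup G := Subgroup.closure (Set.range F)
  have hc : ∀ a ∈ Set.range F, ∀ b ∈ Set.range F, a * b = b * a := by
    rintro _ ⟨x, rfl⟩ _ ⟨y, rfl⟩
    exact (h x y).eq
  let _ : CommGroup N := { (inferInstance : Group N) with
    mul_comm := fun a b => by
      have := (Subgroup.isMulCommutative_closure hc).is_comm.comm a b
      exact this }
  let f : Y → Additive N := fun y => Additive.ofMul ⟨F y, Subgroup.subset_closure ⟨y, rfl⟩⟩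
  refine ⟨N.subtype.comp (AddMonoidHom.toMultiplicativeLeft (RG.lift f)), ?_⟩
  intro l
  simp only [MonoidHom.comp_apply]
  have : (AddMonoidHom.toMultiplicativeLeft (RG.lift f)) (Multiplicative.ofAdd (el l)) =
      (⟨F l, Subgroup.subset_closure ⟨l, rfl⟩⟩ : N) := by
    change Additive.toMul (RG.lift f (el l)) = _
    rw [RG.lift_el]
    rfl
  rw [this]
  rfl

/-! ### relations of the top level under homomorphisms -/

section TopRel
variable {j r : ℕ} {B : Type} {S : Stage j (Up r B)} {A : Type} [AddCommGroup A]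
  [Module (RG S.Q) A] {α : Fin r → A}

theorem TopLay.ff_map (T : TopLay S A α) {G G' : Type} [Group G] [Group G'] (h : T.P →* G) (e : G)
    (F : G →* G') : F (T.ff h e) = T.ff (F.comp h) (F e) := by
  simp [TopLay.ff, map_cj]

theorem TopLay.dd_map (T : TopLay S A α) {G G' : Type} [Group G] [Group G'] (h : T.P →* G) (e : G)
    (F : G →* G') (b : B) : F (T.dd h e b) = T.dd (F.comp h) (F e) b := by
  simp [TopLay.dd, map_cj, TopLay.ff_map]

theorem TopRel.map {T : TopLay S A α} {RD : Set (B →₀ RG (Sd S.Q A))} {G G' : Type} [Group G]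
    [Group G'] {h : T.P →* G} {e : G} (hr : TopRel T RD G h e) (F : G →* G') :
    TopRel T RD G' (F.comp h) (F e) where
  r0 μ := (hr.r0 μ).map F
  r1 := by simpa [map_cj] using congrArg F hr.r1
  r1' := by simpa [map_cj] using congrArg F hr.r1'
  r1a := by simpa [map_cj] using hr.r1a.map F
  r1b := by simpa [map_cj] using hr.r1b.map F
  r2 := by simpa [map_cj, map_oprod] using congrArg F hr.r2
  r3 p hp := by simpa [map_cj, map_oprod] using congrArg F (hr.r3 p hp)
  r4 := by simpa [map_cj] using congrArg F hr.r4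
  r5 := by simpa [map_cj] using hr.r5.map F
  r5' := by simpa [map_cj] using congrArg F hr.r5'
  r6 := by simpa [map_cj, TopLay.ff_map] using congrArg F hr.r6
  r7 β := by simpa [map_cj, TopLay.ff_map] using congrArg F (hr.r7 β)
  r8 i := by simpa [map_cj, TopLay.ff_map] using congrArg F (hr.r8 i)
  r9 p hp := by
    have := congrArg F (hr.r9 p hp)
    rw [map_list_prod, List.map_map, map_one] at this
    rw [← this]
    congr 1
    apply List.map_congr_left
    intro b _
    simp [map_oprod, map_cj, TopLay.dd_map]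

end TopRel

/-! ### change of groups -/

theorem mrel_chg {Q Y : Type} [Group Q] [Group Y] (θ : Q →* Y) (ev : ℕ → Q) (R : MRel) :
    chg θ (mrel ev R) = mrel (fun i => θ (ev i)) R := by
  induction R with
  | nil => simp [mrel, chg]
  | cons a R ih =>
    have h1 : ∀ (Q : Type) [Group Q] (ev : ℕ → Q), mrel ev (a :: R) =
        Finsupp.single a.2.1 (sgn a.1 • el (evw ev a.2.2)) + mrel ev R := by
      intro Q _ ev; simp [mrel]
    rw [h1, h1, ← ih]
    unfold chg
    rw [Finsupp.mapRange_add (by intro x y; exact map_add _ x y), Finsupp.mapRange_single,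
      map_zsmul]
    congr 3
    simp [el, map_evw]

theorem RP.fg {G : Type} [Group G] (h : RP G) : Group.FG G := by
  obtain ⟨ev, ⟨k, hk⟩, hc, -⟩ := h
  rw [Group.fg_iff]
  refine ⟨Set.range ev, hc, ?_⟩
  refine Set.Finite.subset ((Set.finite_Iio k).image ev |>.union (Set.finite_singleton 1)) ?_
  rintro _ ⟨i, rfl⟩
  by_cases hi : i < k
  · exact Or.inl ⟨i, hi, rfl⟩
  · exact Or.inr (hk i (not_lt.1 hi))

theorem RP.countable {G : Type} [Group G] (h : RP G) : Countable G := by
  obtain ⟨ev, -, hc, -⟩ := h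
  have hs : Surjective (fun w : List (ℕ × Bool) => evw ev w) := by
    have h1 : Surjective (FreeGroup.lift ev) := by
      rw [← MonoidHom.range_eq_top, FreeGroup.range_lift_eq_closure, hc]
    intro g
    obtain ⟨x, rfl⟩ := h1 g
    exact ⟨x.toWord, by simp [evw, FreeGroup.mk_toWord]⟩
  exact hs.countable

end Pool.Agent.HIG
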