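import Mathlib
import Pool.Agent.HIG.Basic

/-!
# BRASM: metabelian groups (W 2) from KK, BRComm and BRModel
-/

noncomputable section

set_option linter.unusedSectionVars false

namespace Pool.Agent.HIG

open Function
open scoped commutatorElement

namespace BRASM

/-! ### finitely generated commutative groups are finitely presented -/

theorem fg_sub {A : Type} [CommGroup A] [Group.FG A] (K : Subgroup A) : K.FG := by
  have : Module.Finite ℤ (Additive A) := Module.Finite.iff_addGroup_fg.mpr inferInstance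
  rw [Subgroup.fg_iff_add_fg, ← AddSubgroup.toIntSubmodule_toAddSubgroup K.toAddSubgroup,
    ← Submodule.fg_iff_addSubgroup_fg]
  exact IsNoetherian.noetherian _

theorem fp_comm (A : Type) [CommGroup A] [hA : Group.FG A] : Group.IsFinitelyPresented A := by
  obtain ⟨ι, _, φ, hφ⟩ := Group.fg_iff_exists_freeGroup_hom_surjective_finite.1 hA
  let T : Set (FreeGroup ι) :=
    Set.range fun p : ι × ι => ⁅FreeGroup.of p.1, FreeGroup.of p.2⁆
  have hTf : T.Finite := Set.finite_range _
  let N : Subgroup (FreeGroup ι) := Subgroup.normalClosure T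
  let mk : FreeGroup ι →* FreeGroup ι ⧸ N := QuotientGroup.mk' N
  have hmk : Surjective mk := QuotientGroup.mk'_surjective N
  have hgen : Subgroup.closure (Set.range fun i => mk (FreeGroup.of i)) = ⊤ := by
    have h1 := congrArg (Subgroup.map mk) (FreeGroup.closure_range_of ι)
    rw [MonoidHom.map_closure, ← Set.range_comp, Subgroup.map_top_of_surjective mk hmk] at h1
    exact h1
  have hcomm : ∀ a b : FreeGroup ι ⧸ N, a * b = b * a := by
    have h1 : ∀ i j, mk (FreeGroup.of i) * mk (FreeGroup.of j) =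
        mk (FreeGroup.of j) * mk (FreeGroup.of i) := by
      intro i j
      have h2 : mk ⁅FreeGroup.of i, FreeGroup.of j⁆ = 1 := by
        show ((⁅FreeGroup.of i, FreeGroup.of j⁆ : FreeGroup ι) : FreeGroup ι ⧸ N) = 1
        rw [QuotientGroup.eq_one_iff]
        exact Subgroup.subset_normalClosure ⟨(i, j), rfl⟩
      rw [map_commutatorElement, commutatorElement_eq_one_iff_mul_comm] at h2
      exact h2
    have h3 := Subgroup.isMulCommutative_closure (k := Set.range fun i => mk (FreeGroup.of i)) (by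
      rintro _ ⟨i, rfl⟩ _ ⟨j, rfl⟩
      exact h1 i j)
    intro a b
    have ha : a ∈ Subgroup.closure (Set.range fun i => mk (FreeGroup.of i)) := by
      rw [hgen]; trivial
    have hb : b ∈ Subgroup.closure (Set.range fun i => mk (FreeGroup.of i)) := by
      rw [hgen]; trivial
    exact congrArg Subtype.val (h3.is_comm.comm ⟨a, ha⟩ ⟨b, hb⟩)
  let _ : CommGroup (FreeGroup ι ⧸ N) :=
    { (inferInstance : Group (FreeGroup ι ⧸ N)) with mul_comm := hcomm }
  have : Group.FG (FreeGroup ι ⧸ N) := Group.fg_of_surjective hmk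
  have hNk : N ≤ φ.ker := by
    refine Subgroup.normalClosure_le_normal ?_
    rintro _ ⟨p, rfl⟩
    rw [SetLike.mem_coe, MonoidHom.mem_ker, map_commutatorElement,
      commutatorElement_eq_one_iff_mul_comm]
    exact mul_comm _ _
  let ψ : FreeGroup ι ⧸ N →* A := QuotientGroup.lift N φ fun x hx => hNk hx
  have hψ : Surjective ψ := by
    intro a
    obtain ⟨x, rfl⟩ := hφ a
    exact ⟨mk x, rfl⟩
  have : Group.IsFinitelyPresented (FreeGroup ι ⧸ N) :=
    Group.IsFinitelyPresented.quotient N ⟨T, hTf, rfl⟩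
  refine Group.IsFinitelyPresented.of_surjective ψ hψ ?_
  have : Group.FG ψ.ker := (Group.fg_iff_subgroup_fg _).2 (fg_sub ψ.ker)
  exact Subgroup.IsFinitelyNormallyGenerated.of_FG ψ.ker

/-! ### the relations as equations -/

section rels
variable {r : ℕ} {B Q : Type} [Group Q] {Y : Type} [CommGroup Y]

/-- all relations as equations -/
def rels (b y : Up r B → Y) (al : Q →* Y) (α : Fin r → Q) (RD : Set (B →₀ RG Q)) (G : Type)
    [Group G] (h : Y →* G) (e : G) : Set (G × G) :=
  (Set.range fun T : Finset (Up r B) => (e * cj (h (∏ β ∈ T, b β)) e,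
    cj (h (∏ β ∈ T, b β)) e * e)) ∪
  (Set.range fun β => (cj (h (y β)) e, e * cj (h (b β)) e)) ∪
  (Set.range fun i => (cj (h (b (Sum.inr (Sum.inl i)))) e,
    cj (h (b (Sum.inl ()) * al (α i))) e)) ∪
  ((fun p : B →₀ RG Q => ((p.support.toList.map fun k =>
    oprod (fun x => cj (h (al x)) (cj (h (b (Sum.inr (Sum.inr k)))) e *
      (cj (h (b (Sum.inl ()))) e)⁻¹)) (p k)).prod, 1)) '' RD)

theorem rels_finite [Finite B] (b y : Up r B → Y) (al : Q →* Y) (α : Fin r → Q)
    {RD : Set (B →₀ RG Q)} (hRD : RD.Finite) (G : Type) [Group G] (h : Y →* G) (e : G) :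
    (rels b y al α RD G h e).Finite := by
  unfold rels
  exact (((Set.finite_range _).union (Set.finite_range _)).union (Set.finite_range _)).union
    (hRD.image _)

theorem rel_iff (b y : Up r B → Y) (al : Q →* Y) (α : Fin r → Q) (RD : Set (B →₀ RG Q))
    (G : Type) [Group G] (h : Y →* G) (e : G) :
    BRRel b y al α RD G h e ↔ ∀ p ∈ rels b y al α RD G h e, p.1 = p.2 := by
  constructor
  · intro hr p hp
    rcases hp with ((hp | hp) | hp) | hp
    · obtain ⟨T, rfl⟩ := hp
      exact (hr.r0 T).eq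
    · obtain ⟨β, rfl⟩ := hp
      exact hr.r1 β
    · obtain ⟨i, rfl⟩ := hp
      exact hr.r2 i
    · obtain ⟨q, hq, rfl⟩ := hp
      exact hr.r3 q hq
  · intro H
    refine ⟨?_, ?_, ?_, ?_⟩
    · intro T
      exact H _ (Or.inl (Or.inl (Or.inl ⟨T, rfl⟩)))
    · intro β
      exact H _ (Or.inl (Or.inl (Or.inr ⟨β, rfl⟩)))
    · intro i
      exact H _ (Or.inl (Or.inr ⟨i, rfl⟩))
    · intro p hp
      exact H _ (Or.inr ⟨p, hp, rfl⟩)

theorem rels_map (b y : Up r B → Y) (al : Q →* Y) (α : Fin r → Q) (RD : Set (B →₀ RG Q))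
    {G G' : Type} [Group G] [Group G'] (h : Y →* G) (e : G) (F : G →* G') :
    rels b y al α RD G' (F.comp h) (F e) = Prod.map F F '' rels b y al α RD G h e := by
  unfold rels
  simp only [Set.image_union]
  congr 1
  · congr 1
    · congr 1
      · rw [← Set.range_comp]
        congr 1
        funext T
        simp [map_cj]
      · rw [← Set.range_comp]
        congr 1
        funext T
        simp [map_cj]
    · rw [← Set.range_comp]
      congr 1
      funext T
      simp [map_cj]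
  · rw [Set.image_image]
    refine Set.image_congr fun p _ => ?_
    simp only [Prod.map_apply, map_one, map_list_prod, List.map_map]
    congr 2
    apply List.map_congr_left
    intro b _
    simp [map_oprod, map_cj]

/-- the finitely presented group with the relations -/
theorem exists_fp [Finite B] [Group.IsFinitelyPresented Y] (b y : Up r B → Y) (al : Q →* Y)
    (α : Fin r → Q) {RD : Set (B →₀ RG Q)} (hRD : RD.Finite) :
    ∃ (G : Type) (_ : Group G) (h : Y →* G) (e : G), Group.IsFinitelyPresented G ∧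
      BRRel b y al α RD G h e ∧
      ∀ (G' : Type) [Group G'] (h' : Y →* G') (e' : G'), BRRel b y al α RD G' h' e' →
        ∃ F : G →* G', (∀ x, F (h x) = h' x) ∧ F e = e' := by
  let C : Type := Monoid.Coprod Y (Multiplicative ℤ)
  let h₀ : Y →* C := Monoid.Coprod.inl
  let e₀ : C := Monoid.Coprod.inr (Multiplicative.ofAdd 1)
  let rl : Set C := (fun p : C × C => p.1 * p.2⁻¹) '' rels b y al α RD C h₀ e₀
  have hrlf : rl.Finite := (rels_finite b y al α hRD C h₀ e₀).image _
  let N : Subgroup C := Subgroup.normalClosure rl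
  have hCfp : Group.IsFinitelyPresented (Monoid.Coprod Y (Multiplicative ℤ)) := inferInstance
  refine ⟨C ⧸ N, inferInstance, (QuotientGroup.mk' N).comp h₀, QuotientGroup.mk' N e₀,
    Group.IsFinitelyPresented.quotient (hG := hCfp) N ⟨rl, hrlf, rfl⟩, ?_, ?_⟩
  · rw [rel_iff, rels_map]
    rintro _ ⟨p, hp, rfl⟩
    have h1 : p.1 * p.2⁻¹ ∈ N := Subgroup.subset_normalClosure ⟨p, hp, rfl⟩
    have h2 : QuotientGroup.mk' N (p.1 * p.2⁻¹) = 1 := by
      rw [QuotientGroup.mk'_apply, QuotientGroup.eq_one_iff]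
      exact h1
    rw [map_mul, map_inv, mul_inv_eq_one] at h2
    exact h2
  · intro G' _ h' e' hr
    let F₀ : C →* G' := Monoid.Coprod.lift h' (zpowersHom G' e')
    have hF1 : F₀.comp h₀ = h' := Monoid.Coprod.lift_comp_inl _ _
    have hF2 : F₀ e₀ = e' := by
      show Monoid.Coprod.lift h' (zpowersHom G' e')
        (Monoid.Coprod.inr (Multiplicative.ofAdd 1)) = e'
      rw [Monoid.Coprod.lift_apply_inr]
      simp
    have hker : N ≤ F₀.ker := by
      refine Subgroup.normalClosure_le_normal ?_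
      rintro _ ⟨p, hp, rfl⟩
      rw [SetLike.mem_coe, MonoidHom.mem_ker, map_mul, map_inv, mul_inv_eq_one]
      have h1 : Prod.map F₀ F₀ p ∈ rels b y al α RD G' h' e' := by
        rw [← hF1, ← hF2, rels_map]
        exact ⟨p, hp, rfl⟩
      exact (rel_iff b y al α RD G' h' e').1 hr _ h1
    refine ⟨QuotientGroup.lift N F₀ fun x hx => hker hx, fun x => ?_, ?_⟩
    · change F₀ (h₀ x) = h' x
      rw [← hF1]
      rfl
    · change F₀ e₀ = e'
      exact hF2

end rels

/-! ### the embedding -/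

instance fgY2 (I Q : Type) [Finite I] [CommGroup Q] [Group.FG Q] : Group.FG (Y2 I Q) := by
  have : Group.FG (Multiplicative (I ⊕ I →₀ ℤ)) := by
    have : AddGroup.FG (I ⊕ I →₀ ℤ) := Module.Finite.iff_addGroup_fg.1 inferInstance
    infer_instance
  infer_instance

theorem embed (hComm : Stmt_BRComm) (hModel : Stmt_BRModel) (Q : Type) [CommGroup Q] (r : ℕ)
    (α : Fin r → Q) (hα : Subgroup.closure (Set.range α) = ⊤) (D : Type) [AddCommGroup D]
    [Module (RG Q) D] (B : Type) [Finite B] (g : B → D) (RD : Set (B →₀ RG Q)) (hRD : RD.Finite)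
    (hspan : Submodule.span (RG Q) (Set.range g) = ⊤)
    (hker : LinearMap.ker (Finsupp.linearCombination (RG Q) g) = Submodule.span (RG Q) RD) :
    ∃ (G : Type) (_ : Group G) (f : Sd Q D →* G), Group.IsFinitelyPresented G ∧ Injective f ∧
      ∀ x, f x ∈ derivedSeries G 2 → x = 1 := by
  have : Group.FG Q := Group.fg_iff.2 ⟨_, hα, Set.finite_range _⟩
  have : Group.IsFinitelyPresented (Y2 (Up r B) Q) := fp_comm _
  obtain ⟨M, _, _, e, hM, η, hη, hη1, hη2⟩ := hModel r B Q α D g RD hspan hker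
  obtain ⟨G, _, h, e₁, hG, hrel, huniv⟩ := exists_fp (r := r) (B := B) (Q := Q)
    (Y := Y2 (Up r B) Q) (fun β => (Multiplicative.ofAdd (Finsupp.single (Sum.inl β) 1), 1))
    (fun β => (Multiplicative.ofAdd (Finsupp.single (Sum.inr β) 1), 1))
    (MonoidHom.inr _ _) α hRD
  obtain ⟨Θ, hΘ1, hΘ2⟩ := hComm r B Q (Y2 (Up r B) Q) _ _ _ α hα D g RD hspan hker G h e₁ hrel
  obtain ⟨F, hF1, hF2⟩ := huniv _ _ _ hM
  -- the composition is the embedding of the model
  have hc1 : ∀ q : Q, F (Θ ⟨0, q⟩) = ⟨0, (1, q)⟩ := by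
    intro q
    rw [hΘ1, hF1]
    rfl
  have hc2 : ∀ k, F (Θ ⟨g k, 1⟩) = ⟨η (g k), 1⟩ := by
    intro k
    rw [hΘ2, map_mul, map_inv, map_cj, map_cj, hF1, hF1, hF2, Sd.cj_inr, Sd.cj_inr, Sd.inv_inl,
      Sd.mul_inl, hη2, sub_smul, sub_eq_add_neg]
  have hc3 : ∀ d : D, F (Θ ⟨d, 1⟩) = ⟨η d, 1⟩ := by
    intro d
    have hd : d ∈ Submodule.span (RG Q) (Set.range g) := by rw [hspan]; trivial
    have hadd : ∀ a b : D, F (Θ ⟨a, 1⟩) = ⟨η a, 1⟩ → F (Θ ⟨b, 1⟩) = ⟨η b, 1⟩ →
        F (Θ ⟨a + b, 1⟩) = ⟨η (a + b), 1⟩ := by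
      intro a b ha hb
      rw [← Sd.mul_inl, map_mul, map_mul, ha, hb, Sd.mul_inl, map_add]
    have hneg : ∀ a : D, F (Θ ⟨a, 1⟩) = ⟨η a, 1⟩ → F (Θ ⟨-a, 1⟩) = ⟨η (-a), 1⟩ := by
      intro a ha
      rw [← Sd.inv_inl, map_inv, map_inv, ha, Sd.inv_inl, map_neg]
    have h0 : F (Θ ⟨0, 1⟩) = ⟨η 0, 1⟩ := by
      rw [hc1, map_zero]; rfl
    induction hd using Submodule.span_induction with
    | mem d hd =>
      obtain ⟨k, rfl⟩ := hd
      exact hc2 k
    | zero => exact h0
    | add a b _ _ ha hb => exact hadd a b ha hb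
    | smul a b _ hb =>
      refine RG.induction (p := fun a => F (Θ ⟨a • b, 1⟩) = ⟨η (a • b), 1⟩) ?_ ?_ ?_ ?_ a
      · rw [zero_smul]; exact h0
      · intro x y hx hy
        rw [add_smul]; exact hadd _ _ hx hy
      · intro x hx
        rw [neg_smul]; exact hneg _ hx
      · intro q
        rw [← Sd.cj_inr, map_cj, map_cj, hb, Sd.inr_apply, hc1, hη1, ← Sd.cj_inr]
        rfl
  have hinj : Injective (fun x => F (Θ x)) := by
    intro x y hxy
    have key : ∀ x : Sd Q D, F (Θ x) = ⟨η x.d, (1, x.q)⟩ := by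
      intro x
      have h1 : x = ⟨x.d, 1⟩ * ⟨0, x.q⟩ := Sd.mk_eq x.d x.q
      conv_lhs => rw [h1]
      rw [map_mul, map_mul, hc3, hc1, ← Sd.mk_eq]
    have hxy' : F (Θ x) = F (Θ y) := hxy
    rw [key, key] at hxy'
    have h1 := congrArg Sd.d hxy'
    have h2 := congrArg Sd.q hxy'
    ext
    · exact hη h1
    · exact congrArg Prod.snd h2
  refine ⟨G, inferInstance, Θ, hG, ?_, ?_⟩
  · intro x y hxy
    apply hinj
    show F (Θ x) = F (Θ y)
    rw [hxy]
  · intro x hx
    apply hinj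
    show F (Θ x) = F (Θ 1)
    have h1 : F (Θ x) ∈ derivedSeries (Sd (Y2 (Up r B) Q) M) 2 :=
      map_derivedSeries_le_derivedSeries F 2 (Subgroup.mem_map_of_mem _ hx)
    have h2 : derivedSeries (Y2 (Up r B) Q) 1 = ⊥ := by
      rw [derivedSeries_one]
      exact (commutator_eq_bot_iff_center_eq_top _).2 CommGroup.center_eq_top
    rw [Sd.derivedSeries h2, Subgroup.mem_bot] at h1
    rw [h1, map_one, map_one]

end BRASM

open BRASM

theorem brasm_proof : Stmt_BRAsm := by
  intro hKK hComm hModel G _ hG hs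
  obtain ⟨Q, gQ, ev, D, _, _, f, ρ, φ, hQ, hQs, hD, hφ⟩ := hKK 1 G hG hs
  obtain ⟨⟨k, hk⟩, hcl, -⟩ := hQ
  obtain ⟨-, ⟨s, hs'⟩, hspan, -, -⟩ := hD
  have hcomm : ∀ a b : Q, a * b = b * a := by
    rw [derivedSeries_one, commutator_eq_bot_iff_center_eq_top] at hQs
    intro a b
    have : b ∈ Subgroup.center Q := by rw [hQs]; trivial
    exact (Subgroup.mem_center_iff.1 this a)
  let cQ : CommGroup Q := { gQ with mul_comm := hcomm }
  have hα : Subgroup.closure (Set.range fun i : Fin k => ev i) = ⊤ := by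
    rw [eq_top_iff, ← hcl, Subgroup.closure_le]
    rintro _ ⟨i, rfl⟩
    by_cases hi : i < k
    · exact Subgroup.subset_closure ⟨⟨i, hi⟩, rfl⟩
    · rw [hk i (not_lt.1 hi)]
      exact Subgroup.one_mem _
  have : Group.FG Q := Group.fg_iff.2 ⟨_, hα, Set.finite_range _⟩
  have : IsNoetherianRing (RG Q) := Algebra.FiniteType.isNoetherianRing ℤ _
  have hspan' : Submodule.span (RG Q) (Set.range fun i : Fin s => f i) = ⊤ := by
    rw [eq_top_iff, ← hspan, Submodule.span_le]
    rintro _ ⟨i, rfl⟩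
    by_cases hi : i < s
    · exact Submodule.subset_span ⟨⟨i, hi⟩, rfl⟩
    · rw [hs' i (not_lt.1 hi)]
      exact Submodule.zero_mem _
  obtain ⟨RD, hRD, hRD'⟩ := Submodule.fg_def.1 (IsNoetherian.noetherian
    (LinearMap.ker (Finsupp.linearCombination (RG Q) (fun i : Fin s => f i))))
  obtain ⟨P, _, g, hP, hg, hg'⟩ := embed hComm hModel Q k (fun i => ev i) hα D (Fin s)
    (fun i => f i) RD hRD hspan' hRD'.symm
  refine ⟨P, inferInstance, g.comp φ, hP, hg.comp hφ, ?_⟩
  intro x hx
  apply hφ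
  rw [map_one]
  exact hg' _ hx

end Pool.Agent.HIG
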