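import Mathlib
import Pool.Agent.HIG.Basic

/-!
# Homomorphisms out of `Sd Q D`, `D` given by generators and relations
-/

noncomputable section

namespace Pool.Agent.HIG

open Function
open scoped commutatorElement

/-- additive extension to a free module of a family with commuting values -/
theorem exists_hom2 {B Y G : Type} [Group Y] [Group G] (F : B → Y → G)
    (h : ∀ b x c y, Commute (F b x) (F c y)) :
    ∃ Φ : Multiplicative (B →₀ RG Y) →* G,
      (∀ b x, Φ (Multiplicative.ofAdd (Finsupp.single b (el x))) = F b x) ∧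
      ∀ p : B →₀ RG Y, (p.support.toList.map fun b => oprod (F b) (p b)).prod =
        Φ (Multiplicative.ofAdd p) := by
  classical
  let N : Subgroup G := Subgroup.closure (Set.range fun p : B × Y => F p.1 p.2)
  have hc : ∀ a ∈ (Set.range fun p : B × Y => F p.1 p.2),
      ∀ b ∈ (Set.range fun p : B × Y => F p.1 p.2), a * b = b * a := by
    rintro _ ⟨x, rfl⟩ _ ⟨y, rfl⟩
    exact (h _ _ _ _).eq
  let _ : CommGroup N := { (inferInstance : Group N) with
    mul_comm := fun a b => by
      have := (Subgroup.isMulCommutative_closure hc).is_comm.comm a b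
      exact this }
  let f : B → Y → Additive N :=
    fun b y => Additive.ofMul ⟨F b y, Subgroup.subset_closure ⟨(b, y), rfl⟩⟩
  let L : (B →₀ RG Y) →+ Additive N := Finsupp.liftAddHom fun b => RG.lift (f b)
  let Φ : Multiplicative (B →₀ RG Y) →* G :=
    N.subtype.comp (AddMonoidHom.toMultiplicativeLeft L)
  have hΦ : ∀ b x, Φ (Multiplicative.ofAdd (Finsupp.single b (el x))) = F b x := by
    intro b x
    have : L (Finsupp.single b (el x)) = f b x := by
      simp only [L, Finsupp.liftAddHom_apply_single, RG.lift_el]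
    change ((Additive.toMul (L (Finsupp.single b (el x))) : N) : G) = _
    rw [this]
    rfl
  refine ⟨Φ, hΦ, ?_⟩
  intro p
  have h1 : ∀ b, ∀ c : RG Y, oprod (F b) c = Φ (Multiplicative.ofAdd (Finsupp.single b c)) := by
    intro b c
    let Ψ : Multiplicative (RG Y) →* G := Φ.comp
      (AddMonoidHom.toMultiplicative (Finsupp.singleAddHom b))
    exact oprod_eq Ψ (fun l => hΦ b l) c
  have h2 : ∀ l : List B, (l.map fun b => oprod (F b) (p b)).prod =
      Φ (Multiplicative.ofAdd (l.map fun b => Finsupp.single b (p b)).sum) := by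
    intro l
    induction l with
    | nil => simp
    | cons a l ih =>
      rw [List.map_cons, List.prod_cons, ih, h1, List.map_cons, List.sum_cons, ofAdd_add, map_mul]
  rw [h2]
  congr 2
  rw [Finset.sum_map_toList]
  exact Finsupp.sum_single p

/-- homomorphisms out of a semidirect product with a presented module -/
theorem sd_hom {Q D B G : Type} [Group Q] [AddCommGroup D] [Module (RG Q) D] [Group G]
    (g : B → D) (RD : Set (B →₀ RG Q)) (hg : Submodule.span (RG Q) (Set.range g) = ⊤)
    (hker : LinearMap.ker (Finsupp.linearCombination (RG Q) g) = Submodule.span (RG Q) RD)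
    (k : Q →* G) (d : B → G)
    (hcomm : ∀ b x c y, Commute (cj (k x) (d b)) (cj (k y) (d c)))
    (hrel : ∀ p ∈ RD, (p.support.toList.map fun b =>
      oprod (fun x => cj (k x) (d b)) (p b)).prod = 1) :
    ∃ Θ : Sd Q D →* G, (∀ q, Θ ⟨0, q⟩ = k q) ∧ ∀ b, Θ ⟨g b, 1⟩ = d b := by
  obtain ⟨Φ, hΦ1, hΦ2⟩ := exists_hom2 (fun b x => cj (k x) (d b)) hcomm
  -- equivariance
  have hequi : ∀ (x : Q) (p : B →₀ RG Q), Φ (Multiplicative.ofAdd (el x • p)) =
      cj (k x) (Φ (Multiplicative.ofAdd p)) := by
    intro x p
    induction p using Finsupp.induction_linear with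
    | zero => simp [cj_one]
    | add p q hp hq => rw [smul_add, ofAdd_add, map_mul, hp, hq, ofAdd_add, map_mul, cj_mul]
    | single b c =>
      rw [Finsupp.smul_single, smul_eq_mul]
      refine RG.induction (p := fun c => Φ (Multiplicative.ofAdd (Finsupp.single b (el x * c))) =
        cj (k x) (Φ (Multiplicative.ofAdd (Finsupp.single b c)))) ?_ ?_ ?_ ?_ c
      · simp [cj_one]
      · intro c c' h1 h2
        rw [mul_add, Finsupp.single_add, ofAdd_add, map_mul, h1, h2, Finsupp.single_add, ofAdd_add,
          map_mul, cj_mul]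
      · intro c h1
        rw [mul_neg, Finsupp.single_neg, ofAdd_neg, map_inv, h1, Finsupp.single_neg, ofAdd_neg,
          map_inv, cj_inv]
      · intro y
        rw [← el_mul, hΦ1, hΦ1, map_mul, cj_cj]
  -- kernel
  have hk : ∀ p ∈ Submodule.span (RG Q) RD, Φ (Multiplicative.ofAdd p) = 1 := by
    intro p hp
    induction hp using Submodule.span_induction with
    | mem p hp => rw [← hΦ2]; exact hrel p hp
    | zero => simp
    | add p q _ _ hp hq => rw [ofAdd_add, map_mul, hp, hq, one_mul]
    | smul a p _ hp =>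
      refine RG.induction (p := fun a => Φ (Multiplicative.ofAdd (a • p)) = 1) ?_ ?_ ?_ ?_ a
      · simp
      · intro a b ha hb; rw [add_smul, ofAdd_add, map_mul, ha, hb, one_mul]
      · intro a ha; rw [neg_smul, ofAdd_neg, map_inv, ha, inv_one]
      · intro x; rw [hequi, hp, cj_one]
  have hsurj : Surjective (Finsupp.linearCombination (RG Q) g) := by
    rw [← LinearMap.range_eq_top, Finsupp.range_linearCombination, hg]
  -- sections
  let s : D → (B →₀ RG Q) := surjInv hsurj
  have hs : ∀ d, Finsupp.linearCombination (RG Q) g (s d) = d := surjInv_eq hsurj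
  have hval : ∀ p q : B →₀ RG Q, Finsupp.linearCombination (RG Q) g p =
      Finsupp.linearCombination (RG Q) g q →
      Φ (Multiplicative.ofAdd p) = Φ (Multiplicative.ofAdd q) := by
    intro p q hpq
    have : p - q ∈ Submodule.span (RG Q) RD := by
      rw [← hker, LinearMap.mem_ker, map_sub, hpq, sub_self]
    have h1 := hk _ this
    rw [ofAdd_sub, map_div] at h1
    exact div_eq_one.1 h1
  let θ : D → G := fun d => Φ (Multiplicative.ofAdd (s d))
  have hθlc : ∀ p, θ (Finsupp.linearCombination (RG Q) g p) = Φ (Multiplicative.ofAdd p) :=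
    fun p => hval _ _ (hs _)
  have hθadd : ∀ a b, θ (a + b) = θ a * θ b := by
    intro a b
    rw [← hs a, ← hs b, ← map_add, hθlc, hθlc, hθlc, ofAdd_add, map_mul]
  have hθq : ∀ (x : Q) (a : D), θ (el x • a) = cj (k x) (θ a) := by
    intro x a
    rw [← hs a, ← map_smul, hθlc, hθlc, hequi]
  have hθ0 : θ 0 = 1 := by
    have := hθlc 0
    rw [map_zero] at this
    rw [this]
    simp
  refine ⟨{ toFun := fun x => θ x.d * k x.q, map_one' := ?_, map_mul' := ?_ }, ?_, ?_⟩
  · change θ 0 * k 1 = 1
    rw [hθ0, map_one, one_mul]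
  · intro x y
    change θ (x.d + el x.q • y.d) * k (x.q * y.q) = θ x.d * k x.q * (θ y.d * k y.q)
    rw [hθadd, hθq, map_mul, cj]
    group
  · intro q
    change θ 0 * k q = k q
    rw [hθ0, one_mul]
  · intro b
    change θ (g b) * k 1 = d b
    have h1 : g b = Finsupp.linearCombination (RG Q) g (Finsupp.single b (el 1)) := by
      rw [Finsupp.linearCombination_single, el_one, one_smul]
    rw [map_one, mul_one, h1, hθlc, hΦ1, map_one, one_cj]

end Pool.Agent.HIG
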