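import Mathlib
import Pool.Agent.HIG.Basic

/-!
# Four term lemma and linking lemmas
-/

noncomputable section

namespace Pool.Agent.HIG

open Function
open scoped commutatorElement

theorem four_proof : Stmt_Four := by
  intro H _ p q r s hpq hrs hpr hqs h
  set c := q⁻¹ * r⁻¹ * q * r with hc
  -- c = p⁻¹ s p s⁻¹
  have e1 : c = p⁻¹ * s * p * s⁻¹ := by
    have h1 : p * q * (r * s) = r * s * (p * q) := h.eq
    have h2 : q * r * s = r * (p⁻¹ * s * p) * q := by
      have : p * (q * r * s) = p * (r * (p⁻¹ * s * p) * q) := by
        calc p * (q * r * s) = p * q * (r * s) := by group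
          _ = r * s * (p * q) := h1
          _ = r * p * (p⁻¹ * s * p) * q := by group
          _ = p * r * (p⁻¹ * s * p) * q := by rw [hpr.eq]
          _ = p * (r * (p⁻¹ * s * p) * q) := by group
      exact mul_left_cancel this
    have h3 : (p⁻¹ * s * p) * q = q * (p⁻¹ * s * p) := by
      have e2 : Commute (p⁻¹ * s * p) q := by
        exact (((hpq.inv_left).mul_left hqs.symm).mul_left hpq)
      exact e2.eq
    have h4 : r⁻¹ * q * r * s = q * (p⁻¹ * s * p) := by
      rw [← h3]
      calc r⁻¹ * q * r * s = r⁻¹ * (q * r * s) := by group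
        _ = r⁻¹ * (r * (p⁻¹ * s * p) * q) := by rw [h2]
        _ = p⁻¹ * s * p * q := by group
    rw [hc]
    calc q⁻¹ * r⁻¹ * q * r = q⁻¹ * (r⁻¹ * q * r * s) * s⁻¹ := by group
      _ = q⁻¹ * (q * (p⁻¹ * s * p)) * s⁻¹ := by rw [h4]
      _ = p⁻¹ * s * p * s⁻¹ := by group
  have cs : Commute c s := by
    rw [hc]
    exact ((((hqs.inv_left).mul_left hrs.inv_left).mul_left hqs).mul_left hrs)
  have cp : Commute c p := by
    rw [hc]
    exact ((((hpq.symm.inv_left).mul_left hpr.symm.inv_left).mul_left hpq.symm).mul_left hpr.symm)
  have cq : Commute c q := by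
    rw [e1]
    exact ((((hpq.inv_left).mul_left hqs.symm).mul_left hpq).mul_left hqs.symm.inv_left)
  have cr : Commute c r := by
    rw [e1]
    exact ((((hpr.inv_left).mul_left hrs.symm).mul_left hpr).mul_left hrs.symm.inv_left)
  have f1 : ⁅q, r⁆ = c := by
    have : q * r = r * q * c := by rw [hc]; group
    rw [commutatorElement_def, this, mul_assoc (r * q) c, (cq.inv_right).eq,
      ← mul_assoc, mul_assoc (r * q * q⁻¹) c, (cr.inv_right).eq]
    group
  have f2 : ⁅s, p⁆ = c := by
    have : s * p = p * c * s := by rw [e1]; group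
    rw [commutatorElement_def, this, ← cp.eq]
    group
  rw [f1, f2]
  exact ⟨rfl, cp, cq, cr, cs⟩

namespace LLStep

variable {A : Type} [CommGroup A] {Λ : Type} (ζ y : Λ → A)

/-- product over a list -/
def mon (f : Λ → A) (l : List Λ) : A := (l.map f).prod

theorem mon_nil (f : Λ → A) : mon f [] = 1 := rfl
theorem mon_cons (f : Λ → A) (a : Λ) (l : List Λ) : mon f (a :: l) = f a * mon f l := rfl
theorem mon_append (f : Λ → A) (l l' : List Λ) : mon f (l ++ l') = mon f l * mon f l' := by
  simp [mon]

theorem mon_mem (f : Λ → A) {S : Subgroup A} (h : ∀ l, f l ∈ S) (l : List Λ) : mon f l ∈ S := by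
  induction l with
  | nil => exact S.one_mem
  | cons a l ih => exact S.mul_mem (h a) ih

/-- common denominators -/
theorem denom {S : Subgroup A} (hS : S = Subgroup.closure (Set.range ζ ∪ Set.range y)) {v : A}
    (hv : v ∈ S) : ∃ a b c d : List Λ, v * (mon ζ a * mon y b) = mon ζ c * mon y d := by
  rw [hS] at hv
  induction hv using Subgroup.closure_induction with
  | mem x hx =>
    rcases hx with ⟨l, rfl⟩ | ⟨l, rfl⟩
    · exact ⟨[], [], [l], [], by simp [mon]⟩
    · exact ⟨[], [], [], [l], by simp [mon]⟩
  | one => exact ⟨[], [], [], [], by simp [mon]⟩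
  | mul x x' _ _ hx hx' =>
    obtain ⟨a, b, c, d, h⟩ := hx
    obtain ⟨a', b', c', d', h'⟩ := hx'
    refine ⟨a ++ a', b ++ b', c ++ c', d ++ d', ?_⟩
    rw [mon_append, mon_append, mon_append, mon_append]
    calc x * x' * (mon ζ a * mon ζ a' * (mon y b * mon y b'))
        = (x * (mon ζ a * mon y b)) * (x' * (mon ζ a' * mon y b')) := by
          simp only [mul_assoc, mul_comm, mul_left_comm]
      _ = (mon ζ c * mon y d) * (mon ζ c' * mon y d') := by rw [h, h']
      _ = _ := by simp only [mul_assoc, mul_comm, mul_left_comm]
  | inv x _ hx =>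
    obtain ⟨a, b, c, d, h⟩ := hx
    refine ⟨c, d, a, b, ?_⟩
    rw [← h]
    group

end LLStep

open LLStep in
theorem llstep_proof : Stmt_LLStepAsm := by
  intro four A _ Λ ζ y H _ X X' S hS ha ha' hb hb' hc hd hh hlink
  have hζ : ∀ l, ζ l ∈ S := fun l => by rw [hS]; exact Subgroup.subset_closure (Or.inl ⟨l, rfl⟩)
  have hy : ∀ l, y l ∈ S := fun l => by rw [hS]; exact Subgroup.subset_closure (Or.inr ⟨l, rfl⟩)
  have hm : ∀ l, mon ζ l ∈ S := mon_mem ζ hζ
  -- the main induction
  have P : ∀ k : ℕ, ∀ u ∈ S, ∀ μ ν : List Λ, μ.length + ν.length ≤ k →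
      Commute (X (mon ζ μ * u)) (X' (mon ζ ν * u)) := by
    intro k
    induction k with
    | zero =>
      intro u hu μ ν hlen
      have h1 : μ = [] := List.eq_nil_of_length_eq_zero (by omega)
      have h2 : ν = [] := List.eq_nil_of_length_eq_zero (by omega)
      subst h1 h2
      simpa [mon] using hc u hu
    | succ k ih =>
      -- flips
      have flip : ∀ u ∈ S, ∀ μ ν : List Λ, ∀ l, μ.length + ν.length ≤ k →
          ⁅X (ζ l * (mon ζ μ * u)), X' (mon ζ ν * u)⁆ = ⁅X' (ζ l * (mon ζ ν * u)), X (mon ζ μ * u)⁆ ∧
          Commute ⁅X (ζ l * (mon ζ μ * u)), X' (mon ζ ν * u)⁆ (X (ζ l * (mon ζ μ * u))) ∧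
          Commute ⁅X (ζ l * (mon ζ μ * u)), X' (mon ζ ν * u)⁆ (X' (mon ζ ν * u)) := by
        intro u hu μ ν l hlen
        have hmu := S.mul_mem (hm μ) hu
        have hnu := S.mul_mem (hm ν) hu
        have h := four H (X (mon ζ μ * u)) (X (ζ l * (mon ζ μ * u))) (X' (mon ζ ν * u))
          (X' (ζ l * (mon ζ ν * u))) (hb l _ hmu) (hb' l _ hnu) (ih u hu μ ν hlen)
          (by
            have := ih (ζ l * u) (S.mul_mem (hζ l) hu) μ ν hlen
            rwa [mul_left_comm, mul_left_comm (mon ζ ν)] at this)
          (by
            rw [← ha l _ hmu, ← ha' l _ hnu]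
            have := ih (y l * u) (S.mul_mem (hy l) hu) μ ν hlen
            rwa [mul_left_comm, mul_left_comm (mon ζ ν)] at this)
        exact ⟨h.1, h.2.2.1, h.2.2.2.1⟩
      have flip' : ∀ u ∈ S, ∀ μ ν : List Λ, ∀ l, μ.length + ν.length ≤ k →
          (Commute (X (ζ l * (mon ζ μ * u))) (X' (mon ζ ν * u)) ↔
            Commute (X (mon ζ μ * u)) (X' (ζ l * (mon ζ ν * u)))) := by
        intro u hu μ ν l hlen
        have h := (flip u hu μ ν l hlen).1
        rw [← commutatorElement_eq_one_iff_commute, h, commutatorElement_eq_one_iff_commute]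
        exact ⟨fun h => h.symm, fun h => h.symm⟩
      intro u hu μ ν hlen
      by_cases hk : μ.length + ν.length ≤ k
      · exact ih u hu μ ν hk
      have hlen' : μ.length + ν.length = k + 1 := by omega
      -- degree one
      have deg1 : ∀ v ∈ S, ∀ l, Commute (X (ζ l * v)) (X' v) := by
        intro v hv l
        have h := flip v hv [] [] l (by simp)
        simp only [mon_nil, one_mul] at h
        obtain ⟨h1, h2, h3⟩ := h
        have h4 := hd l v hv
        have h5 : ⁅X (ζ l * v), X' v⁆ = (⁅X (ζ l * v), X' v⁆)⁻¹ := by
          conv_rhs => rw [h4, commutatorElement_inv]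
          exact h1
        have h6 : ⁅X (ζ l * v), X' v⁆ ^ 2 = 1 := by
          rw [pow_two]
          nth_rewrite 2 [h5]
          exact mul_inv_cancel _
        exact commutatorElement_eq_one_iff_commute.1
          (hh _ (S.mul_mem (hζ l) hv) _ hv h2 h3 h6)
      have deg1' : ∀ v ∈ S, ∀ l, Commute (X v) (X' (ζ l * v)) := by
        intro v hv l
        have h := (flip' v hv [] [] l (by simp)).1
        simp only [mon_nil, one_mul] at h
        exact h (deg1 v hv l)
      -- both lists nonempty
      have both : ∀ v ∈ S, ∀ (l l' : Λ) (σ τ : List Λ), σ.length + τ.length + 1 = k →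
          Commute (X (ζ l * (mon ζ σ * v))) (X' (ζ l' * (mon ζ τ * v))) := by
        intro v hv l l' σ τ hst
        refine hlink (mon ζ σ * v) (S.mul_mem (hm σ) hv) (mon ζ τ * v) (S.mul_mem (hm τ) hv)
          ?_ ?_ l l'
        · intro m
          have := ih (ζ m * v) (S.mul_mem (hζ m) hv) σ τ (by omega)
          rwa [mul_left_comm, mul_left_comm (mon ζ τ)] at this
        · intro m m'
          have h1 := (flip v hv σ (m' :: τ) m (by simp; omega)).1
          have h2 := (flip v hv σ (m :: τ) m' (by simp; omega)).1
          rw [mon_cons, mul_assoc] at h1 h2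
          rw [h1, h2, mul_left_comm]
      cases μ with
      | nil =>
        cases ν with
        | nil => simp at hlen'
        | cons l τ =>
          simp only [List.length_nil, List.length_cons, zero_add] at hlen'
          have h := flip' u hu [] τ l (by simp; omega)
          simp only [mon_nil, one_mul] at h
          rw [mon_nil, one_mul, mon_cons, mul_assoc, ← h]
          cases τ with
          | nil => simpa [mon] using deg1 u hu l
          | cons l' τ =>
            simp only [List.length_cons] at hlen'
            have := both u hu l l' [] τ (by simp; omega)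
            simpa [mon, mul_assoc] using this
      | cons l σ =>
        cases ν with
        | nil =>
          simp only [List.length_nil, List.length_cons, add_zero] at hlen'
          have h := flip' u hu σ [] l (by simp; omega)
          simp only [mon_nil, one_mul] at h
          rw [mon_nil, one_mul, mon_cons, mul_assoc, h]
          cases σ with
          | nil => simpa [mon] using deg1' u hu l
          | cons l' σ =>
            simp only [List.length_cons] at hlen'
            have := both u hu l' l σ [] (by simp; omega)
            simpa [mon, mul_assoc] using this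
        | cons l' τ =>
          simp only [List.length_cons] at hlen'
          have := both u hu l l' σ τ (by omega)
          simpa [mon_cons, mul_assoc] using this
  -- the letters y
  have Q : ∀ n : ℕ, ∀ u ∈ S, ∀ μ ν μ' ν' : List Λ, μ'.length + ν'.length ≤ n →
      Commute (X (mon y μ' * (mon ζ μ * u))) (X' (mon y ν' * (mon ζ ν * u))) := by
    intro n
    induction n with
    | zero =>
      intro u hu μ ν μ' ν' hlen
      have h1 : μ' = [] := List.eq_nil_of_length_eq_zero (by omega)
      have h2 : ν' = [] := List.eq_nil_of_length_eq_zero (by omega)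
      subst h1 h2
      simpa [mon] using P _ u hu μ ν le_rfl
    | succ n ih =>
      intro u hu μ ν μ' ν' hlen
      have hmy : ∀ l, mon y l ∈ S := mon_mem y hy
      cases μ' with
      | nil =>
        cases ν' with
        | nil => exact ih u hu μ ν [] [] (by simp)
        | cons l τ =>
          simp only [List.length_nil, List.length_cons, zero_add] at hlen
          rw [mon_cons, mul_assoc, ha' l _ (S.mul_mem (hmy τ) (S.mul_mem (hm ν) hu))]
          refine (ih u hu μ ν [] τ (by simp; omega)).mul_right ?_
          have := ih u hu μ (l :: ν) [] τ (by simp; omega)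
          rwa [mon_cons, mul_assoc, mul_left_comm (mon y τ)] at this
      | cons l σ =>
        simp only [List.length_cons] at hlen
        rw [mon_cons, mul_assoc, ha l _ (S.mul_mem (hmy σ) (S.mul_mem (hm μ) hu))]
        refine (ih u hu μ ν σ ν' (by omega)).mul_left ?_
        have := ih u hu (l :: μ) ν σ ν' (by omega)
        rwa [mon_cons, mul_assoc, mul_left_comm (mon y σ)] at this
  intro u hu u' hu'
  obtain ⟨a, b, c, d, h⟩ := denom ζ y hS hu
  obtain ⟨a', b', c', d', h'⟩ := denom ζ y hS hu'
  have hmy : ∀ l, mon y l ∈ S := mon_mem y hy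
  set w : A := ((mon ζ a * mon y b) * (mon ζ a' * mon y b'))⁻¹ with hw
  have hwS : w ∈ S := S.inv_mem (S.mul_mem (S.mul_mem (hm a) (hmy b)) (S.mul_mem (hm a') (hmy b')))
  have e1 : u = mon y (d ++ b') * (mon ζ (c ++ a') * w) := by
    rw [mon_append, mon_append]
    calc u = (u * (mon ζ a * mon y b)) * (mon ζ a' * mon y b') * w := by rw [hw]; group
      _ = (mon ζ c * mon y d) * (mon ζ a' * mon y b') * w := by rw [h]
      _ = _ := by simp only [mul_assoc, mul_comm, mul_left_comm]
  have e2 : u' = mon y (d' ++ b) * (mon ζ (c' ++ a) * w) := by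
    rw [mon_append, mon_append]
    calc u' = (u' * (mon ζ a' * mon y b')) * (mon ζ a * mon y b) * w := by
          rw [hw]
          rw [mul_comm (mon ζ a * mon y b) (mon ζ a' * mon y b')]
          group
      _ = (mon ζ c' * mon y d') * (mon ζ a * mon y b) * w := by rw [h']
      _ = _ := by simp only [mul_assoc, mul_comm, mul_left_comm]
  rw [e1, e2]
  exact Q _ w hwS _ _ _ _ le_rfl

open LLStep in
theorem llbase_proof : Stmt_LLBaseAsm := by
  intro four A _ I β y m H _ X X' S hS ha ha' hq hq' hb hb' hc hd hh
  have hβ : ∀ l, β l ∈ S := fun l => by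
    rw [hS]; exact Subgroup.subset_closure (Or.inl (Or.inl ⟨l, rfl⟩))
  have hy : ∀ l, y l ∈ S := fun l => by
    rw [hS]; exact Subgroup.subset_closure (Or.inl (Or.inr ⟨l, rfl⟩))
  have hmm : ∀ i j, m i j ∈ S := fun i j => by
    rw [hS]; exact Subgroup.subset_closure (Or.inr ⟨(i, j), rfl⟩)
  have hm : ∀ l, mon β l ∈ S := mon_mem β hβ
  have sq : ∀ a b : H, Half a b → Commute ⁅a, b⁆ a → Commute ⁅a, b⁆ b → ⁅a, b⁆ = (⁅a, b⁆)⁻¹ →
      Commute a b := by
    intro a b h h1 h2 h3
    refine commutatorElement_eq_one_iff_commute.1 (h h1 h2 ?_)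
    rw [pow_two]
    nth_rewrite 2 [h3]
    exact mul_inv_cancel _
  -- the main induction
  have P : ∀ k : ℕ, ∀ u ∈ S, ∀ μ ν : List I, μ.length + ν.length ≤ k →
      Commute (X (mon β μ * u)) (X' (mon β ν * u)) := by
    intro k
    induction k using Nat.strong_induction_on with
    | _ k ih =>
    rcases Nat.eq_zero_or_pos k with rfl | hkpos
    · intro u hu μ ν hlen
      have h1 : μ = [] := List.eq_nil_of_length_eq_zero (by omega)
      have h2 : ν = [] := List.eq_nil_of_length_eq_zero (by omega)
      subst h1 h2
      simpa [mon] using hc u hu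
    · -- flips
      have flip : ∀ u ∈ S, ∀ μ ν : List I, ∀ l, μ.length + ν.length + 1 ≤ k →
          ⁅X (β l * (mon β μ * u)), X' (mon β ν * u)⁆ = ⁅X' (β l * (mon β ν * u)), X (mon β μ * u)⁆ ∧
          Commute ⁅X (β l * (mon β μ * u)), X' (mon β ν * u)⁆ (X (β l * (mon β μ * u))) ∧
          Commute ⁅X (β l * (mon β μ * u)), X' (mon β ν * u)⁆ (X' (mon β ν * u)) := by
        intro u hu μ ν l hlen
        have hmu := S.mul_mem (hm μ) hu
        have hnu := S.mul_mem (hm ν) hu
        have ih' := ih (k - 1) (by omega)
        have h := four H (X (mon β μ * u)) (X (β l * (mon β μ * u))) (X' (mon β ν * u))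
          (X' (β l * (mon β ν * u))) (hb _ hmu _ (S.mul_mem (hβ l) hmu))
          (hb' _ hnu _ (S.mul_mem (hβ l) hnu)) (ih' u hu μ ν (by omega))
          (by
            have := ih' (β l * u) (S.mul_mem (hβ l) hu) μ ν (by omega)
            rwa [mul_left_comm, mul_left_comm (mon β ν)] at this)
          (by
            rw [← ha l _ hmu, ← ha' l _ hnu]
            have := ih' (y l * u) (S.mul_mem (hy l) hu) μ ν (by omega)
            rwa [mul_left_comm, mul_left_comm (mon β ν)] at this)
        exact ⟨h.1, h.2.2.1, h.2.2.2.1⟩
      have flip' : ∀ u ∈ S, ∀ μ ν : List I, ∀ l, μ.length + ν.length + 1 ≤ k →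
          (Commute (X (β l * (mon β μ * u))) (X' (mon β ν * u)) ↔
            Commute (X (mon β μ * u)) (X' (β l * (mon β ν * u)))) := by
        intro u hu μ ν l hlen
        have h := (flip u hu μ ν l hlen).1
        rw [← commutatorElement_eq_one_iff_commute, h, commutatorElement_eq_one_iff_commute]
        exact ⟨fun h => h.symm, fun h => h.symm⟩
      intro u hu μ ν hlen
      by_cases hk : μ.length + ν.length < k
      · exact ih _ hk u hu μ ν le_rfl
      have hlen' : μ.length + ν.length = k := by omega
      -- degree one
      have deg1 : ∀ v ∈ S, ∀ l, Commute (X (β l * v)) (X' v) := by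
        intro v hv l
        have h := flip v hv [] [] l (by simp; omega)
        simp only [mon_nil, one_mul] at h
        obtain ⟨h1, h2, h3⟩ := h
        have h4 := hd (β l * v) (S.mul_mem (hβ l) hv) v hv
        refine sq _ _ (hh _ (S.mul_mem (hβ l) hv) _ hv) h2 h3 ?_
        conv_rhs => rw [h4, commutatorElement_inv]
        exact h1
      have deg1' : ∀ v ∈ S, ∀ l, Commute (X v) (X' (β l * v)) := by
        intro v hv l
        have h := (flip' v hv [] [] l (by simp; omega)).1
        simp only [mon_nil, one_mul] at h
        exact h (deg1 v hv l)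
      -- both lists nonempty
      have both : ∀ v ∈ S, ∀ (i j : I) (σ τ : List I), σ.length + τ.length + 2 = k →
          Commute (X (β j * (mon β σ * v))) (X' (β i * (mon β τ * v))) := by
        intro v hv i j σ τ hst
        have hs := S.mul_mem (hm σ) hv
        have ht := S.mul_mem (hm τ) hv
        have ih1 := ih (k - 1) (by omega)
        have ih2 := ih (k - 2) (by omega)
        -- commutation of the short elements with everything
        have c1 : ∀ l, Commute (X (mon β σ * v)) (X' (β l * (mon β τ * v))) := by
          intro l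
          have := ih1 v hv σ (l :: τ) (by simp; omega)
          rwa [mon_cons, mul_assoc] at this
        have c2 : ∀ l, Commute (X (β l * (mon β σ * v))) (X' (mon β τ * v)) := by
          intro l
          have := ih1 v hv (l :: σ) τ (by simp; omega)
          rwa [mon_cons, mul_assoc] at this
        have c0 : Commute (X (mon β σ * v)) (X' (mon β τ * v)) := ih1 v hv σ τ (by omega)
        have c3 : ∀ l, Commute (X (β l * (mon β σ * v))) (X' (β l * (mon β τ * v))) := by
          intro l
          have := ih2 (β l * v) (S.mul_mem (hβ l) hv) σ τ (by omega)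
          rwa [mul_left_comm, mul_left_comm (mon β τ)] at this
        have big : Commute (X (m i j * (mon β σ * v))) (X' (m i j * (mon β τ * v))) := by
          have := ih2 (m i j * v) (S.mul_mem (hmm i j) hv) σ τ (by omega)
          rwa [mul_left_comm, mul_left_comm (mon β τ)] at this
        rw [hq i j _ hs, hq' i j _ ht] at big
        have big2 : Commute (X (β i * (mon β σ * v)) * X (β j * (mon β σ * v)))
            (X' (β i * (mon β τ * v)) * X' (β j * (mon β τ * v))) := by
          have e1 : X (β i * (mon β σ * v)) * X (β j * (mon β σ * v)) =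
              (X (mon β σ * v))⁻¹ * (X (mon β σ * v) * X (β i * (mon β σ * v)) *
                X (β j * (mon β σ * v))) := by group
          have e2 : X' (β i * (mon β τ * v)) * X' (β j * (mon β τ * v)) =
              (X' (mon β τ * v))⁻¹ * (X' (mon β τ * v) * X' (β i * (mon β τ * v)) *
                X' (β j * (mon β τ * v))) := by group
          rw [e1, e2]
          refine Commute.mul_left ?_ ?_
          · refine Commute.inv_left ?_
            refine Commute.mul_right c0.inv_right ?_
            exact (c0.mul_right (c1 i)).mul_right (c1 j)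
          · refine Commute.mul_right ?_ big
            refine Commute.inv_right ?_
            exact (c0.mul_left (c2 i)).mul_left (c2 j)
        have h := four H (X (β i * (mon β σ * v))) (X (β j * (mon β σ * v)))
          (X' (β i * (mon β τ * v))) (X' (β j * (mon β τ * v)))
          (hb _ (S.mul_mem (hβ i) hs) _ (S.mul_mem (hβ j) hs))
          (hb' _ (S.mul_mem (hβ i) ht) _ (S.mul_mem (hβ j) ht)) (c3 i) (c3 j) big2
        obtain ⟨g1, -, g2, g3, -⟩ := h
        refine sq _ _ (hh _ (S.mul_mem (hβ j) hs) _ (S.mul_mem (hβ i) ht)) g2 g3 ?_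
        -- symmetric by two flips
        have f1 := (flip v hv σ (i :: τ) j (by simp; omega)).1
        have f2 := (flip v hv σ (j :: τ) i (by simp; omega)).1
        rw [mon_cons, mul_assoc] at f1 f2
        have f3 : ⁅X (β j * (mon β σ * v)), X' (β i * (mon β τ * v))⁆ =
            ⁅X (β i * (mon β σ * v)), X' (β j * (mon β τ * v))⁆ := by
          rw [f1, f2, mul_left_comm]
        conv_rhs => rw [f3, commutatorElement_inv]
        exact g1
      cases μ with
      | nil =>
        cases ν with
        | nil => simp at hlen'; omega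
        | cons l τ =>
          simp only [List.length_nil, List.length_cons, zero_add] at hlen'
          have h := flip' u hu [] τ l (by simp; omega)
          simp only [mon_nil, one_mul] at h
          rw [mon_nil, one_mul, mon_cons, mul_assoc, ← h]
          cases τ with
          | nil => simpa [mon] using deg1 u hu l
          | cons l' τ =>
            simp only [List.length_cons] at hlen'
            have := both u hu l' l [] τ (by simp; omega)
            simpa [mon, mul_assoc] using this
      | cons l σ =>
        cases ν with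
        | nil =>
          simp only [List.length_nil, List.length_cons, add_zero] at hlen'
          have h := flip' u hu σ [] l (by simp; omega)
          simp only [mon_nil, one_mul] at h
          rw [mon_nil, one_mul, mon_cons, mul_assoc, h]
          cases σ with
          | nil => simpa [mon] using deg1' u hu l
          | cons l' σ =>
            simp only [List.length_cons] at hlen'
            have := both u hu l l' σ [] (by simp; omega)
            simpa [mon, mul_assoc] using this
        | cons l' τ =>
          simp only [List.length_cons] at hlen'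
          have := both u hu l' l σ τ (by omega)
          simpa [mon_cons, mul_assoc] using this
  -- the other letters
  let Z : I ⊕ I × I → A := Sum.elim y (fun p => m p.1 p.2)
  have hZ : ∀ l, Z l ∈ S := by
    rintro (l | ⟨i, j⟩)
    · exact hy l
    · exact hmm i j
  have hmz : ∀ l, mon Z l ∈ S := mon_mem Z hZ
  have Q : ∀ n : ℕ, ∀ u ∈ S, ∀ (μ ν : List I) (μ' ν' : List (I ⊕ I × I)),
      μ'.length + ν'.length ≤ n →
      Commute (X (mon Z μ' * (mon β μ * u))) (X' (mon Z ν' * (mon β ν * u))) := by
    intro n
    induction n with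
    | zero =>
      intro u hu μ ν μ' ν' hlen
      have h1 : μ' = [] := List.eq_nil_of_length_eq_zero (by omega)
      have h2 : ν' = [] := List.eq_nil_of_length_eq_zero (by omega)
      subst h1 h2
      simpa [mon] using P _ u hu μ ν le_rfl
    | succ n ih =>
      intro u hu μ ν μ' ν' hlen
      cases μ' with
      | nil =>
        cases ν' with
        | nil => exact ih u hu μ ν [] [] (by simp)
        | cons l τ =>
          simp only [List.length_nil, List.length_cons, zero_add] at hlen
          have c0 := ih u hu μ ν [] τ (by simp; omega)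
          have c1 : ∀ i, Commute (X (mon Z [] * (mon β μ * u)))
              (X' (β i * (mon Z τ * (mon β ν * u)))) := by
            intro i
            have := ih u hu μ (i :: ν) [] τ (by simp; omega)
            rwa [mon_cons, mul_assoc, mul_left_comm (mon Z τ)] at this
          rw [mon_cons, mul_assoc]
          rcases l with l | ⟨i, j⟩
          · change Commute _ (X' (y l * _))
            rw [ha' l _ (S.mul_mem (hmz τ) (S.mul_mem (hm ν) hu))]
            exact c0.mul_right (c1 l)
          · change Commute _ (X' (m i j * _))
            rw [hq' i j _ (S.mul_mem (hmz τ) (S.mul_mem (hm ν) hu))]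
            exact (c0.mul_right (c1 i)).mul_right (c1 j)
      | cons l σ =>
        simp only [List.length_cons] at hlen
        have c0 := ih u hu μ ν σ ν' (by omega)
        have c1 : ∀ i, Commute (X (β i * (mon Z σ * (mon β μ * u))))
            (X' (mon Z ν' * (mon β ν * u))) := by
          intro i
          have := ih u hu (i :: μ) ν σ ν' (by omega)
          rwa [mon_cons, mul_assoc, mul_left_comm (mon Z σ)] at this
        rw [mon_cons, mul_assoc]
        rcases l with l | ⟨i, j⟩
        · change Commute (X (y l * _)) _
          rw [ha l _ (S.mul_mem (hmz σ) (S.mul_mem (hm μ) hu))]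
          exact c0.mul_left (c1 l)
        · change Commute (X (m i j * _)) _
          rw [hq i j _ (S.mul_mem (hmz σ) (S.mul_mem (hm μ) hu))]
          exact (c0.mul_left (c1 i)).mul_left (c1 j)
  -- common denominators
  have den : ∀ v ∈ S, ∃ (a : List I) (b : List (I ⊕ I × I)) (c : List I) (d : List (I ⊕ I × I)),
      v * (mon β a * mon Z b) = mon β c * mon Z d := by
    intro v hv
    rw [hS] at hv
    induction hv using Subgroup.closure_induction with
    | mem x hx =>
      rcases hx with (⟨l, rfl⟩ | ⟨l, rfl⟩) | ⟨⟨i, j⟩, rfl⟩
      · exact ⟨[], [], [l], [], by simp [mon]⟩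
      · exact ⟨[], [], [], [Sum.inl l], by simp [mon, Z]⟩
      · exact ⟨[], [], [], [Sum.inr (i, j)], by simp [mon, Z]⟩
    | one => exact ⟨[], [], [], [], by simp [mon]⟩
    | mul x x' _ _ hx hx' =>
      obtain ⟨a, b, c, d, h⟩ := hx
      obtain ⟨a', b', c', d', h'⟩ := hx'
      refine ⟨a ++ a', b ++ b', c ++ c', d ++ d', ?_⟩
      rw [mon_append, mon_append, mon_append, mon_append]
      calc x * x' * (mon β a * mon β a' * (mon Z b * mon Z b'))
          = (x * (mon β a * mon Z b)) * (x' * (mon β a' * mon Z b')) := by
            simp only [mul_assoc, mul_left_comm]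
        _ = (mon β c * mon Z d) * (mon β c' * mon Z d') := by rw [h, h']
        _ = _ := by simp only [mul_assoc, mul_left_comm]
    | inv x _ hx =>
      obtain ⟨a, b, c, d, h⟩ := hx
      refine ⟨c, d, a, b, ?_⟩
      rw [← h]
      group
  intro u hu u' hu'
  obtain ⟨a, b, c, d, h⟩ := den u hu
  obtain ⟨a', b', c', d', h'⟩ := den u' hu'
  set w : A := ((mon β a * mon Z b) * (mon β a' * mon Z b'))⁻¹ with hw
  have hwS : w ∈ S := S.inv_mem (S.mul_mem (S.mul_mem (hm a) (hmz b)) (S.mul_mem (hm a') (hmz b')))
  have e1 : u = mon Z (d ++ b') * (mon β (c ++ a') * w) := by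
    rw [mon_append, mon_append]
    calc u = (u * (mon β a * mon Z b)) * (mon β a' * mon Z b') * w := by rw [hw]; group
      _ = (mon β c * mon Z d) * (mon β a' * mon Z b') * w := by rw [h]
      _ = _ := by simp only [mul_assoc, mul_comm, mul_left_comm]
  have e2 : u' = mon Z (d' ++ b) * (mon β (c' ++ a) * w) := by
    rw [mon_append, mon_append]
    calc u' = (u' * (mon β a' * mon Z b')) * (mon β a * mon Z b) * w := by
          rw [hw]
          rw [mul_comm (mon β a * mon Z b) (mon β a' * mon Z b')]
          group
      _ = (mon β c' * mon Z d') * (mon β a * mon Z b) * w := by rw [h']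
      _ = _ := by simp only [mul_assoc, mul_comm, mul_left_comm]
  rw [e1, e2]
  exact Q _ w hwS _ _ _ _ le_rfl

end Pool.Agent.HIG
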