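import Mathlib
import Pool.Agent.HIG.LL
import Pool.Agent.HIG.Hom

/-!
# Metabelian case: the commutation lemma
-/

noncomputable section

namespace Pool.Agent.HIG

open Function
open scoped commutatorElement

namespace BRC
open LLStep

/-- conjugates commute -/
theorem comm_all (four : Stmt_Four) {I Y G : Type} [CommGroup Y] [Group G] (b y : I → Y)
    (E : Y → G) (hinv : ∀ v u u', Commute (E u) (E u') → Commute (E (v * u)) (E (v * u')))
    (h1 : ∀ β u, E (y β * u) = E u * E (b β * u))
    (h0 : ∀ T : Finset I, Commute (E 1) (E (∏ β ∈ T, b β)))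
    {u u' : Y} (hu : u ∈ Subgroup.closure (Set.range b ∪ Set.range y))
    (hu' : u' ∈ Subgroup.closure (Set.range b ∪ Set.range y)) : Commute (E u) (E u') := by
  classical
  have hs : ∀ l u, Commute (E u) (E (b l * u)) := by
    intro l u
    have := hinv u 1 (b l) (by simpa using h0 {l})
    rwa [mul_one, mul_comm] at this
  have P : ∀ k : ℕ, ∀ μ ν : List I, μ.length + ν.length ≤ k →
      Commute (E (mon b μ)) (E (mon b ν)) := by
    intro k
    induction k using Nat.strong_induction_on with
    | _ k ih =>
    have flip' : ∀ μ ν : List I, ∀ l, μ.length + ν.length + 1 ≤ k →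
        (Commute (E (b l * mon b μ)) (E (mon b ν)) ↔
          Commute (E (mon b μ)) (E (b l * mon b ν))) := by
      intro μ ν l hlen
      have ih' := ih (k - 1) (by omega) μ ν (by omega)
      have h := four G (E (mon b μ)) (E (b l * mon b μ)) (E (mon b ν)) (E (b l * mon b ν))
        (hs _ _) (hs _ _) ih' (hinv _ _ _ ih') (by
          rw [← h1, ← h1]
          exact hinv _ _ _ ih')
      rw [← commutatorElement_eq_one_iff_commute, h.1, commutatorElement_eq_one_iff_commute]
      exact ⟨fun h => h.symm, fun h => h.symm⟩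
    have move : ∀ μ ν : List I, μ.length + ν.length ≤ k →
        (Commute (E (mon b μ)) (E (mon b ν)) ↔ Commute (E 1) (E (mon b (μ ++ ν)))) := by
      intro μ
      induction μ with
      | nil => intro ν _; rfl
      | cons l μ ihμ =>
        intro ν hlen
        simp only [List.length_cons] at hlen
        rw [mon_cons, flip' μ ν l (by omega), ← mon_cons, ihμ (l :: ν) (by simp; omega)]
        have : mon b (μ ++ l :: ν) = mon b (l :: μ ++ ν) := by
          unfold mon
          apply List.Perm.prod_eq
          apply List.Perm.map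
          exact List.perm_middle
        rw [this]
    intro μ ν hlen
    rw [move μ ν hlen]
    by_cases hnd : (μ ++ ν).Nodup
    · have h2 := h0 (μ ++ ν).toFinset
      rw [List.prod_toFinset _ hnd] at h2
      exact h2
    · obtain ⟨l, hl⟩ : ∃ l, List.Duplicate l (μ ++ ν) := by
        by_contra hcon
        push Not at hcon
        exact hnd (List.nodup_iff_forall_not_duplicate.2 hcon)
      have hcount : 2 ≤ (μ ++ ν).count l := List.duplicate_iff_two_le_count.1 hl
      have hm1 : l ∈ (μ ++ ν) := List.count_pos_iff.1 (by omega)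
      have p1 := List.perm_cons_erase hm1
      have hm2 : l ∈ (μ ++ ν).erase l := List.count_pos_iff.1 (by
        rw [List.count_erase_self]; omega)
      have p2 := List.perm_cons_erase hm2
      set τ := ((μ ++ ν).erase l).erase l with hτ
      have p3 : (μ ++ ν).Perm (l :: l :: τ) := p1.trans (p2.cons l)
      have e1 : mon b (μ ++ ν) = mon b ([l] ++ (l :: τ)) := by
        unfold mon
        exact (p3.map b).prod_eq
      have hlen2 : (μ ++ ν).length = τ.length + 2 := by
        have := p3.length_eq
        simpa using this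
      rw [List.length_append] at hlen2
      rw [e1, ← move [l] (l :: τ) (by simp; omega)]
      have h3 := hinv (b l) _ _ (ih (k - 2) (by omega) [] τ (by simp; omega))
      simpa [mon] using h3
  have Q : ∀ n : ℕ, ∀ μ ν μ' ν' : List I, μ'.length + ν'.length ≤ n →
      Commute (E (mon y μ' * mon b μ)) (E (mon y ν' * mon b ν)) := by
    intro n
    induction n with
    | zero =>
      intro μ ν μ' ν' hlen
      have h1 : μ' = [] := List.eq_nil_of_length_eq_zero (by omega)
      have h2 : ν' = [] := List.eq_nil_of_length_eq_zero (by omega)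
      subst h1 h2
      simpa [mon] using P _ μ ν le_rfl
    | succ n ih =>
      intro μ ν μ' ν' hlen
      cases μ' with
      | nil =>
        cases ν' with
        | nil => exact ih μ ν [] [] (by simp)
        | cons l τ =>
          simp only [List.length_nil, List.length_cons, zero_add] at hlen
          rw [mon_cons y l τ, mul_assoc (y l), h1]
          refine (ih μ ν [] τ (by simp; omega)).mul_right ?_
          have := ih μ (l :: ν) [] τ (by simp; omega)
          rwa [mon_cons b l ν, mul_left_comm (mon y τ)] at this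
      | cons l σ =>
        simp only [List.length_cons] at hlen
        rw [mon_cons y l σ, mul_assoc (y l), h1]
        refine (ih μ ν σ ν' (by omega)).mul_left ?_
        have := ih (l :: μ) ν σ ν' (by omega)
        rwa [mon_cons b l μ, mul_left_comm (mon y σ)] at this
  obtain ⟨a, b', c, d, h⟩ := denom b y rfl hu
  obtain ⟨a', b'', c', d', h'⟩ := denom b y rfl hu'
  set w : Y := ((mon b a * mon y b') * (mon b a' * mon y b''))⁻¹ with hw
  have e1 : u = w * (mon y (d ++ b'') * mon b (c ++ a')) := by
    rw [mon_append, mon_append]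
    calc u = w * ((u * (mon b a * mon y b')) * (mon b a' * mon y b'')) := by
          rw [hw, mul_assoc u, mul_comm u]
          group
      _ = w * ((mon b c * mon y d) * (mon b a' * mon y b'')) := by rw [h]
      _ = _ := by simp only [mul_assoc, mul_comm, mul_left_comm]
  have e2 : u' = w * (mon y (d' ++ b') * mon b (c' ++ a)) := by
    rw [mon_append, mon_append]
    calc u' = w * ((u' * (mon b a' * mon y b'')) * (mon b a * mon y b')) := by
          rw [hw, mul_assoc u', mul_comm u', mul_comm (mon b a * mon y b') (mon b a' * mon y b'')]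
          group
      _ = w * ((mon b c' * mon y d') * (mon b a * mon y b')) := by rw [h']
      _ = _ := by simp only [mul_assoc, mul_comm, mul_left_comm]
  rw [e1, e2]
  exact hinv _ _ _ (Q _ _ _ _ _ le_rfl)

end BRC

open BRC in
theorem brcomm_proof : Stmt_BRCommAsm := by
  intro four r B Q _ _ Y _ b y al α hα D _ _ g RD hg hker G _ h e hr
  let E : Y → G := fun u => cj (h u) e
  have hE : ∀ v u, cj (h v) (E u) = E (v * u) := by
    intro v u
    simp only [E]
    rw [cj_cj, map_mul]
  have hinv : ∀ v u u', Commute (E u) (E u') → Commute (E (v * u)) (E (v * u')) := by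
    intro v u u' huu
    rw [← hE, ← hE]
    exact Pool.Agent.HIG.Commute.cj huu _
  have hall : ∀ {u u' : Y}, u ∈ Subgroup.closure (Set.range b ∪ Set.range y) →
      u' ∈ Subgroup.closure (Set.range b ∪ Set.range y) → Commute (E u) (E u') := by
    intro u u' hu hu'
    refine comm_all four b y E hinv ?_ ?_ hu hu'
    · intro β u
      have h1 := congrArg (cj (h u)) (hr.r1 β)
      rw [cj_mul, cj_cj, cj_cj, ← map_mul, ← map_mul, mul_comm u, mul_comm u] at h1
      exact h1
    · intro T
      have := hr.r0 T
      simpa [E, one_cj] using this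
  have hq : ∀ q : Q, ∃ s ∈ Subgroup.closure (Set.range b ∪ Set.range y),
      ∀ u, E (u * al q) = E (u * s) := by
    intro q
    have hq : q ∈ Subgroup.closure (Set.range α) := by rw [hα]; trivial
    induction hq using Subgroup.closure_induction with
    | mem q hq =>
      obtain ⟨i, rfl⟩ := hq
      refine ⟨b (Sum.inr (Sum.inl i)) * (b (Sum.inl ()))⁻¹, Subgroup.mul_mem _
        (Subgroup.subset_closure (Or.inl ⟨_, rfl⟩))
        (Subgroup.inv_mem _ (Subgroup.subset_closure (Or.inl ⟨_, rfl⟩))), ?_⟩
      intro u
      have h2 := congrArg (cj (h (u * (b (Sum.inl ()))⁻¹))) (hr.r2 i)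
      rw [cj_cj, cj_cj, ← map_mul, ← map_mul] at h2
      have e1 : u * (b (Sum.inl ()))⁻¹ * (b (Sum.inl ()) * al (α i)) = u * al (α i) := by group
      have e2 : u * (b (Sum.inl ()))⁻¹ * b (Sum.inr (Sum.inl i)) =
          u * (b (Sum.inr (Sum.inl i)) * (b (Sum.inl ()))⁻¹) := by
        rw [mul_assoc, mul_comm (b (Sum.inl ()))⁻¹]
      rw [e1, e2] at h2
      exact h2.symm
    | one => exact ⟨1, Subgroup.one_mem _, fun u => by rw [map_one]⟩
    | mul q q' _ _ h1 h2 =>
      obtain ⟨s, hs, h1⟩ := h1
      obtain ⟨s', hs', h2⟩ := h2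
      refine ⟨s * s', Subgroup.mul_mem _ hs hs', ?_⟩
      intro u
      rw [map_mul, ← mul_assoc, h2, mul_right_comm, h1, mul_right_comm, mul_assoc]
    | inv q _ h1 =>
      obtain ⟨s, hs, h1⟩ := h1
      refine ⟨s⁻¹, Subgroup.inv_mem _ hs, ?_⟩
      intro u
      have := h1 (u * (al q)⁻¹ * s⁻¹)
      rw [inv_mul_cancel_right, mul_right_comm, inv_mul_cancel_right] at this
      rw [map_inv, this]
  have hbβ : ∀ (q q' : Q) (β β' : Up r B), Commute (E (al q * b β)) (E (al q' * b β')) := by
    intro q q' β β'
    obtain ⟨s, hs, h1⟩ := hq q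
    obtain ⟨s', hs', h2⟩ := hq q'
    rw [mul_comm (al q), mul_comm (al q'), h1, h2]
    exact hall (Subgroup.mul_mem _ (Subgroup.subset_closure (Or.inl ⟨_, rfl⟩)) hs)
      (Subgroup.mul_mem _ (Subgroup.subset_closure (Or.inl ⟨_, rfl⟩)) hs')
  refine sd_hom g RD hg hker (h.comp al) (fun k => cj (h (b (Sum.inr (Sum.inr k)))) e *
    (cj (h (b (Sum.inl ()))) e)⁻¹) ?_ ?_
  · intro k x k' x'
    have e1 : ∀ (x : Q) (k : B), cj ((h.comp al) x) (cj (h (b (Sum.inr (Sum.inr k)))) e *
        (cj (h (b (Sum.inl ()))) e)⁻¹) = E (al x * b (Sum.inr (Sum.inr k))) *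
        (E (al x * b (Sum.inl ())))⁻¹ := by
      intro x k
      rw [cj_mul, cj_inv]
      change cj (h (al x)) (E _) * (cj (h (al x)) (E _))⁻¹ = _
      rw [hE, hE]
    rw [e1, e1]
    have c1 := hbβ x x'
    exact ((c1 _ _).mul_right (c1 _ _).inv_right).mul_left
      (((c1 _ _).inv_left).mul_right ((c1 _ _).inv_left.inv_right))
  · intro p hp
    exact hr.r3 p hp

end Pool.Agent.HIG
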