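import Mathlib
import Pool.Agent.HIG.Basic

/-!
# Metabelian case: the model
-/

noncomputable section

namespace Pool.Agent.HIG

open Function
open scoped commutatorElement

/-- homomorphisms out of a free abelian group -/
theorem exists_units_hom {I G : Type} [CommGroup G] (lt : I → G) :
    ∃ ρ : Multiplicative (I →₀ ℤ) →* G, ∀ i, ρ (Multiplicative.ofAdd (Finsupp.single i 1)) = lt i := by
  refine ⟨AddMonoidHom.toMultiplicativeLeft (Finsupp.liftAddHom fun i =>
      (zmultiplesHom (Additive G)) (Additive.ofMul (lt i))), ?_⟩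
  intro i
  change Additive.toMul (Finsupp.liftAddHom (fun i =>
      (zmultiplesHom (Additive G)) (Additive.ofMul (lt i))) (Finsupp.single i 1)) = _
  rw [Finsupp.liftAddHom_apply_single]
  simp

theorem exists_prod_hom {I Q R' : Type} [CommGroup Q] [CommRing R'] (lt : I → R'ˣ)
    (κ : Q →* R'ˣ) : ∃ ρ : Multiplicative (I →₀ ℤ) × Q →* R',
      (∀ i, ρ (Multiplicative.ofAdd (Finsupp.single i 1), 1) = (lt i : R')) ∧
      ∀ q, ρ (1, q) = (κ q : R') := by
  obtain ⟨ρ1, hρ1⟩ := exists_units_hom lt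
  refine ⟨(Units.coeHom R').comp (ρ1.coprod κ), ?_, ?_⟩
  · intro i
    change ((ρ1 (Multiplicative.ofAdd (Finsupp.single i 1)) * κ 1 : R'ˣ) : R') = _
    rw [hρ1, map_one, mul_one]
  · intro q
    change ((ρ1 1 * κ q : R'ˣ) : R') = _
    rw [map_one, one_mul]

/-- Laurent series -/
theorem exists_laurent {I Q C : Type} [CommGroup Q] [CommRing C] (up : I → Cˣ) (κ : Q →* Cˣ) :
    ∃ (M : Type) (_ : CommRing M) (ρ : Multiplicative (I ⊕ I →₀ ℤ) × Q →* M) (θ : C →+ M),
      Injective θ ∧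
      (∀ β, ρ (Multiplicative.ofAdd (Finsupp.single (Sum.inl β) 1), 1) = θ (up β : C)) ∧
      (∀ β, ρ (Multiplicative.ofAdd (Finsupp.single (Sum.inr β) 1), 1) = 1 + θ (up β : C)) ∧
      ∀ q c, ρ (1, q) * θ c = θ ((κ q : C) * c) := by
  let θ : (HahnSeries ℤ C)ˣ := ⟨HahnSeries.single 1 1, HahnSeries.single (-1) 1,
    by rw [HahnSeries.single_mul_single]; simp,
    by rw [HahnSeries.single_mul_single]; simp⟩
  let Cu : Cˣ →* (HahnSeries ℤ C)ˣ := Units.map (HahnSeries.C : C →+* HahnSeries ℤ C).toMonoidHom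
  have hCu : ∀ u : Cˣ, ((θ * Cu u : (HahnSeries ℤ C)ˣ) : HahnSeries ℤ C) =
      HahnSeries.single 1 (u : C) := by
    intro u
    rw [Units.val_mul]
    change HahnSeries.single 1 1 * HahnSeries.C (u : C) = _
    rw [HahnSeries.C_apply, HahnSeries.single_mul_single]
    simp
  have hy : ∀ u : Cˣ, IsUnit (1 + ((θ * Cu u : (HahnSeries ℤ C)ˣ) : HahnSeries ℤ C)) := by
    intro u
    have h1 : IsUnit (1 + PowerSeries.C (u : C) * PowerSeries.X : PowerSeries C) := by
      rw [PowerSeries.isUnit_iff_constantCoeff]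
      simp
    have h2 := h1.map (HahnSeries.ofPowerSeries ℤ C)
    rw [map_add, map_one] at h2
    have h3 : HahnSeries.ofPowerSeries ℤ C (PowerSeries.C (u : C) * PowerSeries.X) =
        HahnSeries.single 1 (u : C) := by
      rw [map_mul, HahnSeries.ofPowerSeries_C, HahnSeries.ofPowerSeries_X,
        HahnSeries.C_apply, HahnSeries.single_mul_single]
      simp
    rw [h3] at h2
    rw [hCu]
    exact h2
  let lt : I ⊕ I → (HahnSeries ℤ C)ˣ := fun i => match i with
    | Sum.inl β => θ * Cu (up β)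
    | Sum.inr β => (hy (up β)).unit
  obtain ⟨ρ, h1, h2⟩ := exists_prod_hom lt (Cu.comp κ)
  refine ⟨HahnSeries ℤ C, inferInstance, ρ, HahnSeries.single.addMonoidHom (1 : ℤ),
    HahnSeries.single_injective _, ?_, ?_, ?_⟩
  · intro β
    rw [h1]
    exact hCu _
  · intro β
    rw [h1]
    change 1 + ((θ * Cu (up β) : (HahnSeries ℤ C)ˣ) : HahnSeries ℤ C) = _
    rw [hCu]
    rfl
  · intro q c
    rw [h2]
    change HahnSeries.C (κ q : C) * HahnSeries.single 1 c = HahnSeries.single 1 ((κ q : C) * c)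
    rw [HahnSeries.C_apply, HahnSeries.single_mul_single, zero_add]

set_option linter.style.haveILetI false in
/-- the coefficient ring -/
theorem exists_coeff (r : ℕ) (B Q : Type) [CommGroup Q] (α : Fin r → Q)
    (D : Type) [AddCommGroup D] [Module (RG Q) D] (g : B → D) :
    ∃ (C : Type) (_ : CommRing C) (up : Up r B → Cˣ) (κ : Q →* Cˣ) (ι : D →+ C),
      Injective ι ∧ (up (Sum.inl ()) : C) = 1 ∧ (∀ i, up (Sum.inr (Sum.inl i)) = κ (α i)) ∧
      (∀ b, (up (Sum.inr (Sum.inr b)) : C) = 1 + ι (g b)) ∧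
      ∀ q d, (κ q : C) * ι d = ι (el q • d) := by
  letI : Module (RG Q)ᵐᵒᵖ D := Module.compHom D ((RingHom.id (RG Q)).fromOpposite mul_comm)
  haveI : IsCentralScalar (RG Q) D := ⟨fun r m => rfl⟩
  have hmul : ∀ d : D, (1 + TrivSqZeroExt.inr d : TrivSqZeroExt (RG Q) D) *
      (1 - TrivSqZeroExt.inr d) = 1 := by
    intro d
    have : (1 + TrivSqZeroExt.inr d : TrivSqZeroExt (RG Q) D) * (1 - TrivSqZeroExt.inr d) =
        1 - TrivSqZeroExt.inr d * TrivSqZeroExt.inr d := by ring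
    rw [this, TrivSqZeroExt.inr_mul_inr, sub_zero]
  let oq : Q →* TrivSqZeroExt (RG Q) D :=
    (TrivSqZeroExt.inlHom (RG Q) D).toMonoidHom.comp (MonoidAlgebra.of ℤ Q)
  refine ⟨TrivSqZeroExt (RG Q) D, inferInstance, fun β => match β with
    | Sum.inl _ => 1
    | Sum.inr (Sum.inl i) => oq.toHomUnits (α i)
    | Sum.inr (Sum.inr b) => ⟨1 + TrivSqZeroExt.inr (g b), 1 - TrivSqZeroExt.inr (g b),
        hmul _, by rw [mul_comm]; exact hmul _⟩, oq.toHomUnits,
      (TrivSqZeroExt.inrHom (RG Q) D).toAddMonoidHom, TrivSqZeroExt.inr_injective, rfl,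
      fun i => rfl, fun b => rfl, ?_⟩
  intro q d
  change TrivSqZeroExt.inl (el q) * TrivSqZeroExt.inr d = TrivSqZeroExt.inr (el q • d)
  rw [TrivSqZeroExt.inl_mul_inr]

set_option linter.style.haveILetI false in
theorem brmodel_proof : Stmt_BRModel := by
  classical
  intro r B Q _ _ α D _ _ g RD hg hker
  obtain ⟨C, _, up, κ, ι, hι, hup1, hup2, hup3, hκ⟩ := exists_coeff r B Q α D g
  obtain ⟨M, _, ρ, θ, hθ, hb, hy, hq⟩ := exists_laurent up κ
  let R : RG (Y2 (Up r B) Q) →+* M := (MonoidAlgebra.lift ℤ M (Y2 (Up r B) Q) ρ).toRingHom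
  have hR : ∀ y, R (el y) = ρ y := by
    intro y
    change MonoidAlgebra.lift ℤ M (Y2 (Up r B) Q) ρ (MonoidAlgebra.single y 1) = ρ y
    rw [MonoidAlgebra.lift_single]
    exact one_smul _ _
  letI : Module (RG (Y2 (Up r B) Q)) M := Module.compHom M R
  have hsm : ∀ (y : Y2 (Up r B) Q) (m : M), el y • m = ρ y * m := by
    intro y m
    change R (el y) * m = _
    rw [hR]
  have hηq : ∀ (q : Q) (d : D), (θ.comp ι) (el q • d) =
      el ((1, q) : Y2 (Up r B) Q) • (θ.comp ι) d := by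
    intro q d
    rw [hsm, AddMonoidHom.comp_apply, AddMonoidHom.comp_apply, ← hκ, hq]
  have hηg : ∀ k, (θ.comp ι) (g k) = (el ((Multiplicative.ofAdd (Finsupp.single (Sum.inl
            (Sum.inr (Sum.inr k))) 1), 1) : Y2 (Up r B) Q) -
          el ((Multiplicative.ofAdd (Finsupp.single (Sum.inl (Sum.inl ())) 1), 1) :
            Y2 (Up r B) Q)) • (1 : M) := by
    intro k
    rw [sub_smul, hsm, hsm, hb, hb, mul_one, mul_one, ← map_sub, hup1, hup3, add_sub_cancel_left]
    rfl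
  refine ⟨M, inferInstance, inferInstance, 1, ?_, θ.comp ι, hθ.comp hι, hηq, hηg⟩
  constructor
  · intro T
    rw [Sd.cj_inr]
    exact Sd.commute_inl _ _
  · intro β
    rw [Sd.cj_inr, Sd.cj_inr, Sd.mul_inl, hsm, hsm, hb, hy, mul_one, mul_one]
  · intro i
    rw [Sd.cj_inr, Sd.cj_inr, hsm, el_mul, mul_smul, hsm, hsm, hb, hb, mul_one, mul_one]
    have h1 : ρ ((MonoidHom.inr (Multiplicative (Up r B ⊕ Up r B →₀ ℤ)) Q) (α i)) = ρ (1, α i) :=
      rfl
    rw [h1, mul_comm, hq, hup1, mul_one, hup2]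
  · intro p hp
    have e1 : ∀ k, cj (Sd.inr ((Multiplicative.ofAdd (Finsupp.single (Sum.inl
            (Sum.inr (Sum.inr k))) 1), 1) : Y2 (Up r B) Q)) (⟨1, 1⟩ : Sd (Y2 (Up r B) Q) M) *
          (cj (Sd.inr ((Multiplicative.ofAdd (Finsupp.single (Sum.inl (Sum.inl ())) 1), 1) :
            Y2 (Up r B) Q)) (⟨1, 1⟩ : Sd (Y2 (Up r B) Q) M))⁻¹ = ⟨(θ.comp ι) (g k), 1⟩ := by
      intro k
      rw [Sd.cj_inr, Sd.cj_inr, Sd.inv_inl, Sd.mul_inl, hηg k, sub_smul, sub_eq_add_neg]
    have e2 : ∀ k, oprod (fun x : Q => cj (Sd.inr ((MonoidHom.inr (Multiplicative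
        (Up r B ⊕ Up r B →₀ ℤ)) Q) x)) (⟨(θ.comp ι) (g k), 1⟩ : Sd (Y2 (Up r B) Q) M)) (p k) =
        Sd.inl (Multiplicative.ofAdd ((θ.comp ι) (p k • g k))) := by
      intro k
      let Φ : Multiplicative (RG Q) →* Sd (Y2 (Up r B) Q) M := Sd.inl.comp
        (AddMonoidHom.toMultiplicative ((θ.comp ι).comp
          (LinearMap.toSpanSingleton (RG Q) D (g k)).toAddMonoidHom))
      have h1 := oprod_eq (F := fun x : Q => cj (Sd.inr ((MonoidHom.inr (Multiplicative
        (Up r B ⊕ Up r B →₀ ℤ)) Q) x)) (⟨(θ.comp ι) (g k), 1⟩ : Sd (Y2 (Up r B) Q) M)) Φ (by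
          intro x
          rw [Sd.cj_inr]
          change (⟨(θ.comp ι) (el x • g k), 1⟩ : Sd (Y2 (Up r B) Q) M) = _
          rw [hηq]
          rfl) (p k)
      rw [h1]
      rfl
    have e3 : ∀ l : List B, (l.map fun k => (Sd.inl (Multiplicative.ofAdd ((θ.comp ι)
        (p k • g k))) : Sd (Y2 (Up r B) Q) M)).prod =
        Sd.inl (Multiplicative.ofAdd ((θ.comp ι) (l.map fun k => p k • g k).sum)) := by
      intro l
      induction l with
      | nil => simp
      | cons a l ih =>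
        rw [List.map_cons, List.prod_cons, ih, List.map_cons, List.sum_cons, map_add, ofAdd_add,
          map_mul]
    simp only [e1, e2]
    rw [e3]
    have h4 : (p.support.toList.map fun k => p k • g k).sum = 0 := by
      rw [Finset.sum_map_toList]
      have : p ∈ LinearMap.ker (Finsupp.linearCombination (RG Q) g) := by
        rw [hker]; exact Submodule.subset_span hp
      rw [LinearMap.mem_ker, Finsupp.linearCombination_apply] at this
      exact this
    rw [h4, map_zero, ofAdd_zero, map_one]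

end Pool.Agent.HIG
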