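import Mathlib
import Pool.Agent.HIG.Extra

/-!
# Module BASEASM: the first stage
-/

noncomputable section

namespace Pool.Agent.HIG
open scoped commutatorElement
namespace BaseAsmX

open Function

instance {I : Type} [Finite I] : Finite (BL I) := by
  let f : BL I → I ⊕ (I ⊕ (I × I)) := fun l => match l with
    | .b i => Sum.inl i
    | .y i => Sum.inr (Sum.inl i)
    | .m i j => Sum.inr (Sum.inr (i, j))
  refine Finite.of_injective f ?_
  rintro (i | i | ⟨i, j⟩) (i' | i' | ⟨i', j'⟩) h <;> simp_all [f]

theorem fgY (I Q : Type) [Finite I] [CommGroup Q] [Group.FG Q] : Group.FG (Y1 I Q) := by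
  haveI : AddGroup.FG (BL I →₀ ℤ) := by
    haveI : Module.Finite ℤ (BL I →₀ ℤ) := inferInstance
    exact AddGroup.fg_iff_addMonoid_fg.2 (Module.Finite.iff_addMonoid_fg.1 inferInstance)
  infer_instance

end BaseAsmX

theorem baseAsm_proof : Stmt_BaseAsm := by
  intro hLink hUnits hComm B _ Q _ hQ hs
  obtain ⟨ev, ⟨k, hk⟩, hgen, -⟩ := hQ
  have hcomm : ∀ a b : Q, a * b = b * a := by
    intro a b
    have h : ⁅a, b⁆ ∈ derivedSeries Q 1 := by
      rw [derivedSeries_one, commutator_def]
      exact Subgroup.commutator_mem_commutator (Subgroup.mem_top a) (Subgroup.mem_top b)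
    rw [hs, Subgroup.mem_bot, commutatorElement_eq_one_iff_mul_comm] at h
    exact h
  letI : CommGroup Q := { (inferInstance : Group Q) with mul_comm := hcomm }
  let α : Fin k → Q := fun i => ev i
  have hα : Subgroup.closure (Set.range α) = ⊤ := by
    rw [eq_top_iff, ← hgen, Subgroup.closure_le]
    rintro _ ⟨i, rfl⟩
    by_cases hi : i < k
    · exact Subgroup.subset_closure ⟨⟨i, hi⟩, rfl⟩
    · rw [hk i (by omega)]
      exact one_mem _
  haveI hfg : Group.FG Q := by
    rw [Group.fg_iff]
    exact ⟨Set.range α, hα, Set.finite_range α⟩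
  obtain ⟨𝒞, h𝒞, h𝒞'⟩ := hLink k B Q α hα
  let S : Stage 1 B :=
    { Y := Y1 (Up k B) Q
      Q := Q
      rpY := hComm _ (BaseAsmX.fgY _ _)
      solY := by
        rw [derivedSeries_one, eq_bot_iff, commutator_def, Subgroup.commutator_le]
        intro p _ q _
        rw [Subgroup.mem_bot, commutatorElement_eq_one_iff_commute]
        exact Commute.all p q
      fgQ := hfg
      ι := MonoidHom.inr _ _
      ι_inj := fun a b h => by simpa using h
      Rel := Rel1 k B Q α
      Rel_fin := ((Set.finite_range _).union (Set.finite_range _)).union (Set.finite_range _)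
      δ := 1
      ξ := fun b => y1l (BL.b (Sum.inr (Sum.inr b)))
      ω := y1l (BL.b (Sum.inl ()))
      link := by
        intro K _ hK
        refine ⟨𝒞, h𝒞, ?_⟩
        intro x hx
        obtain ⟨q, h | ⟨b, h⟩⟩ := hK x hx
        · rw [h]
          exact h𝒞' q _
        · rw [h]
          exact h𝒞' q _
      units := by
        intro C _ _ χ
        exact hUnits k B Q α C χ }
  exact ⟨S, MonoidHom.id Q, fun a b h => h⟩

end Pool.Agent.HIG
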