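import Mathlib
import Pool.Agent.HIG.Basic

/-!
# BASELINK: the linking property of the first stage
-/

noncomputable section

set_option linter.unusedSectionVars false

namespace Pool.Agent.HIG

open Function
open scoped commutatorElement

namespace BaseLink

section
variable {r : ℕ} {B Q : Type} [CommGroup Q] (α : Fin r → Q)

theorem cl_y (u : Y1 (Up r B) Q) (i : Up r B) :
    cl (Rel1 r B Q α) (el (y1l (BL.y i) * u) * 1) =
      cl (Rel1 r B Q α) (el u * 1 + el (y1l (BL.b i) * u) * 1) := by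
  have h1 : (el (y1l (BL.y i)) - 1 - el (y1l (BL.b i)) : RG (Y1 (Up r B) Q)) ∈ Rel1 r B Q α :=
    Or.inl (Or.inl ⟨i, rfl⟩)
  have h2 := cl_rel h1 (el u)
  rw [mul_sub, mul_sub, mul_one, ← el_mul, ← el_mul, cl_sub, cl_sub, sub_sub, sub_eq_zero,
    mul_comm u, mul_comm u, ← cl_add] at h2
  simpa using h2

theorem cl_m (u : Y1 (Up r B) Q) (i i' : Up r B) :
    cl (Rel1 r B Q α) (el (y1l (BL.m i i') * u) * 1) =
      cl (Rel1 r B Q α) (el u * 1 + el (y1l (BL.b i) * u) * 1 + el (y1l (BL.b i') * u) * 1) := by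
  have h1 : (el (y1l (BL.m i i')) - 1 - el (y1l (BL.b i)) - el (y1l (BL.b i')) :
      RG (Y1 (Up r B) Q)) ∈ Rel1 r B Q α := Or.inl (Or.inr ⟨(i, i'), rfl⟩)
  have h2 := cl_rel h1 (el u)
  rw [mul_sub, mul_sub, mul_sub, mul_one, ← el_mul, ← el_mul, ← el_mul, cl_sub, cl_sub, cl_sub,
    sub_sub, sub_sub, sub_eq_zero, mul_comm u, mul_comm u, mul_comm u, ← cl_add, ← cl_add] at h2
  rw [← add_assoc] at h2
  simpa using h2

theorem cl_x (u : Y1 (Up r B) Q) (i : Fin r) :
    cl (Rel1 r B Q α) (el (u * y1q (α i))) =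
      cl (Rel1 r B Q α) (el (u * ((y1l (BL.b (Sum.inl ())))⁻¹ *
        y1l (BL.b (Sum.inr (Sum.inl i)))))) := by
  have h1 : (el (y1l (BL.b (Sum.inr (Sum.inl i)))) -
      el (y1l (BL.b (Sum.inl ()))) * el (y1q (α i)) : RG (Y1 (Up r B) Q)) ∈ Rel1 r B Q α :=
    Or.inr ⟨i, rfl⟩
  have h2 := cl_rel h1 (el (u * (y1l (BL.b (Sum.inl ())))⁻¹))
  rw [mul_sub, ← el_mul, ← el_mul, ← el_mul, cl_sub, sub_eq_zero] at h2
  rw [← mul_assoc, h2]
  congr 2
  group

end

end BaseLink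

open BaseLink in
theorem baselink_proof : Stmt_BaseLinkAsm := by
  intro hLL r B Q _ α hα
  set Rl := Rel1 r B Q α with hRl
  set S : Subgroup (Y1 (Up r B) Q) := Subgroup.closure
    (Set.range (fun i : Up r B => (y1l (BL.b i) : Y1 (Up r B) Q)) ∪
      Set.range (fun i : Up r B => (y1l (BL.y i) : Y1 (Up r B) Q)) ∪
      Set.range (fun p : Up r B × Up r B => (y1l (BL.m p.1 p.2) : Y1 (Up r B) Q))) with hS
  have hbS : ∀ i : Up r B, (y1l (BL.b i) : Y1 (Up r B) Q) ∈ S := fun i =>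
    Subgroup.subset_closure (Or.inl (Or.inl ⟨i, rfl⟩))
  refine ⟨S, ?_, ?_⟩
  · intro H _ Φ Ψ h1 h2 h3
    refine hLL (Y1 (Up r B) Q) (Up r B) (fun i => y1l (BL.b i)) (fun i => y1l (BL.y i))
      (fun i i' => y1l (BL.m i i')) H (fun u => vl Φ (el u * 1)) (fun u => vl Ψ (el u * 1)) S hS
      ?_ ?_ ?_ ?_ ?_ ?_ ?_ ?_ ?_
    · intro i u _
      rw [vl_congr Φ (cl_y α u i), vl_add]
    · intro i u _
      rw [vl_congr Ψ (cl_y α u i), vl_add]
    · intro i i' u _
      rw [vl_congr Φ (cl_m α u i i'), vl_add, vl_add]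
    · intro i i' u _
      rw [vl_congr Ψ (cl_m α u i i'), vl_add, vl_add]
    · exact fun u _ u' _ => vl_comm Φ _ _
    · exact fun u _ u' _ => vl_comm Ψ _ _
    · exact fun u hu => h1 u hu
    · exact fun u hu u' hu' => h2 u hu u' hu'
    · exact fun u hu u' hu' => h3 u hu u' hu'
  · have key : ∀ q : Q, ∃ s ∈ S, ∀ y : Y1 (Up r B) Q,
        cl Rl (el (y * y1q q)) = cl Rl (el (y * s)) := by
      intro q
      have hq : q ∈ Subgroup.closure (Set.range α) := by rw [hα]; exact Subgroup.mem_top q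
      induction hq using Subgroup.closure_induction with
      | mem x hx =>
        obtain ⟨i, rfl⟩ := hx
        exact ⟨_, S.mul_mem (S.inv_mem (hbS _)) (hbS _), fun y => cl_x α y i⟩
      | one => exact ⟨1, S.one_mem, fun y => rfl⟩
      | mul q q' _ _ ih ih' =>
        obtain ⟨s, hs, h⟩ := ih
        obtain ⟨s', hs', h'⟩ := ih'
        refine ⟨s * s', S.mul_mem hs hs', fun y => ?_⟩
        have e1 : y * y1q (q * q') = (y * y1q q) * y1q q' := by
          rw [mul_assoc]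
          congr 1
        rw [e1, h', mul_assoc, mul_comm (y1q q) s', ← mul_assoc, h, mul_assoc, mul_comm s' s]
      | inv q _ ih =>
        obtain ⟨s, hs, h⟩ := ih
        refine ⟨s⁻¹, S.inv_mem hs, fun y => ?_⟩
        have e1 : (y1q q⁻¹ : Y1 (Up r B) Q) = (y1q q)⁻¹ := by simp [y1q]
        have h2 := h (y * (y1q q)⁻¹ * s⁻¹)
        have e2 : y * (y1q q)⁻¹ * s⁻¹ * y1q q = y * s⁻¹ := by
          rw [mul_assoc, mul_comm s⁻¹, ← mul_assoc, inv_mul_cancel_right]
        have e3 : y * (y1q q)⁻¹ * s⁻¹ * s = y * (y1q q)⁻¹ := by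
          rw [inv_mul_cancel_right]
        rw [e2, e3] at h2
        rw [e1, h2]
    intro q β
    obtain ⟨s, hs, h⟩ := key q
    refine AddSubgroup.subset_closure ⟨y1l (BL.b β) * s, S.mul_mem (hbS β) hs, ?_⟩
    simp only [mul_one]
    rw [← h, mul_comm]

end Pool.Agent.HIG
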