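import Pool.Agent.HIG.Basic

/-! Helper file for BASEUNITS and STEPUNITS: Hahn series with invertible leading coefficient, and a
ring with many units and a derivation-like additive map. -/

set_option autoImplicit false
set_option linter.unusedSectionVars false

noncomputable section

namespace Pool.Agent.HIG.HU

open Function

section
variable {Γ C : Type} [AddCommGroup Γ] [LinearOrder Γ] [IsOrderedAddMonoid Γ] [CommRing C]

/-- invertible leading coefficient -/
def UL (x : HahnSeries Γ C) : Prop := IsUnit x.leadingCoeff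

theorem UL.isUnit {x : HahnSeries Γ C} (hx : UL x) : IsUnit x :=
  HahnSeries.isUnit_of_isUnit_leadingCoeff_AddUnitOrder hx (AddGroup.isAddUnit _)

theorem UL.one : UL (1 : HahnSeries Γ C) := by
  unfold UL
  rw [HahnSeries.leadingCoeff_one]
  exact isUnit_one

theorem UL.mul [Nontrivial C] {x y : HahnSeries Γ C} (hx : UL x) (hy : UL y) : UL (x * y) := by
  unfold UL at *
  rw [HahnSeries.leadingCoeff_mul_of_ne_zero (hx.mul hy).ne_zero]
  exact hx.mul hy

theorem UL.ne_zero [Nontrivial C] {x : HahnSeries Γ C} (hx : UL x) : x ≠ 0 := by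
  rintro rfl
  unfold UL at hx
  rw [HahnSeries.leadingCoeff_zero] at hx
  exact not_isUnit_zero hx

theorem UL.of_mul_eq_one [Nontrivial C] {x y : HahnSeries Γ C} (hx : UL x) (h : x * y = 1) :
    UL y := by
  have hy : y ≠ 0 := by
    rintro rfl
    rw [mul_zero] at h
    exact zero_ne_one h
  have hly : y.leadingCoeff ≠ 0 := HahnSeries.leadingCoeff_ne_zero.2 hy
  have h1 : x.leadingCoeff * y.leadingCoeff ≠ 0 := by
    intro h2
    exact hly ((IsUnit.mul_right_eq_zero hx).1 h2)
  have h2 := HahnSeries.leadingCoeff_mul_of_ne_zero h1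
  rw [h, HahnSeries.leadingCoeff_one] at h2
  exact IsUnit.of_mul_eq_one_right _ h2.symm

theorem UL.ofC [Nontrivial C] {c : C} (hc : IsUnit c) : UL (HahnSeries.C c : HahnSeries Γ C) := by
  unfold UL
  rw [HahnSeries.C_apply, HahnSeries.leadingCoeff_of_single]
  exact hc

theorem UL.single {g : Γ} {c : C} (hc : IsUnit c) : UL (HahnSeries.single g c : HahnSeries Γ C) := by
  unfold UL
  rw [HahnSeries.leadingCoeff_of_single]
  exact hc

theorem Good.ul {x : HahnSeries Γ C} (hx : Good x) : UL x := hx.2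

theorem UL.one_add [Nontrivial C] {x : HahnSeries Γ C} (hx : 0 < x.orderTop) : UL (1 + x) := by
  unfold UL
  rw [HahnSeries.leadingCoeff_add_eq_left, HahnSeries.leadingCoeff_one]
  · exact isUnit_one
  · rw [HahnSeries.orderTop_one]
    exact hx

theorem Good.one_add [Nontrivial C] {x : HahnSeries Γ C} (hx : Good x) : UL (1 + x) := by
  unfold UL
  have hx0 : x ≠ 0 := UL.ne_zero hx.2
  rw [HahnSeries.leadingCoeff_add_eq_left, HahnSeries.leadingCoeff_one]
  · exact isUnit_one
  · rw [HahnSeries.orderTop_one]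
    rw [← HahnSeries.order_eq_orderTop_of_ne_zero hx0]
    exact_mod_cast hx.1

theorem Good.add_order {x y : HahnSeries Γ C} (hx : 0 < x.order) (hy : 0 < y.order)
    (hu : UL (x + y)) [Nontrivial C] : Good (x + y) := by
  refine ⟨?_, hu⟩
  exact lt_of_lt_of_le (lt_min hx hy) (HahnSeries.min_order_le_order_add hu.ne_zero)

/-- the group of units with invertible leading coefficient -/
def UU (Γ C : Type) [AddCommGroup Γ] [LinearOrder Γ] [IsOrderedAddMonoid Γ] [CommRing C]
    [Nontrivial C] : Subgroup (HahnSeries Γ C)ˣ where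
  carrier := {u | UL (u : HahnSeries Γ C)}
  one_mem' := UL.one
  mul_mem' := fun {_ _} ha hb => UL.mul ha hb
  inv_mem' := fun {u} hu => UL.of_mul_eq_one hu u.mul_inv

/-- an element of `UU` -/
def UU.mk [Nontrivial C] (x : HahnSeries Γ C) (hx : UL x) : UU Γ C :=
  ⟨hx.isUnit.unit, by show UL ((hx.isUnit.unit : (HahnSeries Γ C)ˣ) : HahnSeries Γ C); simpa using hx⟩

/-- the value of an element of `UU` -/
def vU [Nontrivial C] : UU Γ C →* HahnSeries Γ C :=
  (Units.coeHom _).comp (UU Γ C).subtype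

theorem vU_mk [Nontrivial C] (x : HahnSeries Γ C) (hx : UL x) : vU (UU.mk x hx) = x := by
  show ((hx.isUnit.unit : (HahnSeries Γ C)ˣ) : HahnSeries Γ C) = x
  simp

theorem vU_ul [Nontrivial C] (u : UU Γ C) : UL (vU u) := u.2

theorem vU_inj [Nontrivial C] {u v : UU Γ C} (h : vU u = vU v) : u = v :=
  Subtype.ext (Units.ext h)

end

/-- a ring with many units -/
theorem exists_ring (A : Type) [CommGroup A] (B : Type) (C : Type) [CommRing C] [Nontrivial C]
    (χ : B → A → C) :
    ∃ (C1 : Type) (_ : CommRing C1) (_ : Nontrivial C1) (ρ : A →* C1ˣ) (u : B → C1ˣ)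
      (aug : C1 →+* C) (Ψ : C1 →+ C),
      (∀ b a, aug ((ρ a : C1) * ((u b : C1) - 1)) = 0) ∧
      (∀ b a, Ψ ((ρ a : C1) * ((u b : C1) - 1)) = χ b a) ∧ Injective ρ := by
  classical
  let ZA := MonoidAlgebra ℤ A
  let M1 := B →₀ ZA
  let C1 := TrivSqZeroExt ZA M1
  let inl' : ZA →+* C1 := TrivSqZeroExt.inlHom ZA M1
  let ρ0 : A →* C1 := (inl' : ZA →* C1).comp (MonoidAlgebra.of ℤ A)
  let ρ : A →* C1ˣ := ρ0.toHomUnits
  have hρ : ∀ a, ((ρ a : C1ˣ) : C1) = TrivSqZeroExt.inl (MonoidAlgebra.of ℤ A a) := fun a => rfl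
  have hsq : ∀ m m' : M1, (TrivSqZeroExt.inr m * TrivSqZeroExt.inr m' : C1) = 0 := fun m m' =>
    TrivSqZeroExt.inr_mul_inr ZA m m'
  let u : B → C1ˣ := fun b =>
    { val := 1 + TrivSqZeroExt.inr (Finsupp.single b 1)
      inv := 1 - TrivSqZeroExt.inr (Finsupp.single b 1)
      val_inv := by
        have := hsq (Finsupp.single b 1) (Finsupp.single b 1)
        linear_combination -this
      inv_val := by
        have := hsq (Finsupp.single b 1) (Finsupp.single b 1)
        linear_combination -this }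
  have hu : ∀ b a, ((ρ a : C1ˣ) : C1) * (((u b : C1ˣ) : C1) - 1) =
      TrivSqZeroExt.inr (Finsupp.single b (MonoidAlgebra.of ℤ A a)) := by
    intro b a
    have h1 : ((u b : C1ˣ) : C1) - 1 = TrivSqZeroExt.inr (Finsupp.single b 1) := by
      show (1 + TrivSqZeroExt.inr (Finsupp.single b 1) : C1) - 1 = _
      ring
    rw [h1, hρ, TrivSqZeroExt.inl_mul_inr, Finsupp.smul_single, smul_eq_mul, mul_one]
  let aug : C1 →+* C := (MonoidAlgebra.liftNCRingHom (Int.castRingHom C) (1 : A →* C)
    (fun _ _ => Commute.all _ _)).comp (TrivSqZeroExt.fstHom ℤ ZA M1).toRingHom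
  let Ψ : C1 →+ C := (Finsupp.liftAddHom (fun b => RG.lift (fun a => χ b a)) : M1 →+ C).comp
    (AddMonoidHom.mk' (TrivSqZeroExt.snd : C1 → M1) (fun _ _ => rfl))
  refine ⟨C1, inferInstance, inferInstance, ρ, u, aug, Ψ, ?_, ?_, ?_⟩
  · intro b a
    rw [hu]
    show (MonoidAlgebra.liftNCRingHom (Int.castRingHom C) (1 : A →* C)
      (fun _ _ => Commute.all _ _)) (TrivSqZeroExt.fst (TrivSqZeroExt.inr
        (Finsupp.single b (MonoidAlgebra.of ℤ A a)) : C1)) = 0
    rw [TrivSqZeroExt.fst_inr, map_zero]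
  · intro b a
    rw [hu]
    show (Finsupp.liftAddHom (fun b => RG.lift (fun a => χ b a)) : M1 →+ C)
      (TrivSqZeroExt.snd (TrivSqZeroExt.inr (Finsupp.single b (MonoidAlgebra.of ℤ A a)) : C1)) = _
    rw [TrivSqZeroExt.snd_inr]
    rw [Finsupp.liftAddHom_apply_single]
    exact RG.lift_el (fun a => χ b a) a
  · intro a a' h
    have h1 : ((ρ a : C1ˣ) : C1) = ((ρ a' : C1ˣ) : C1) := by rw [h]
    rw [hρ, hρ] at h1
    exact MonoidAlgebra.of_injective (TrivSqZeroExt.inl_injective h1)

end Pool.Agent.HIG.HU
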