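import Pool.Agent.HIG.Extra
import Pool.Agent.HIG.HUnits

/-! Module BASEUNITS -/

set_option autoImplicit false
set_option linter.unusedSectionVars false

noncomputable section

namespace Pool.Agent.HIG.BaseUnits

open Function HU

variable {I Q : Type} [CommGroup Q] {C1 : Type} [CommRing C1] [Nontrivial C1]

theorem top_pos (c : C1) : (0 : WithTop ℤ) < (HahnSeries.single (1 : ℤ) c).orderTop := by
  by_cases h : c = 0
  · rw [h, HahnSeries.single_eq_zero, HahnSeries.orderTop_zero]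
    exact WithTop.coe_lt_top 0
  · rw [HahnSeries.orderTop_single h]
    exact_mod_cast Int.one_pos

theorem top_pos2 (c c' : C1) :
    (0 : WithTop ℤ) < (HahnSeries.single (1 : ℤ) c + HahnSeries.single (1 : ℤ) c').orderTop :=
  lt_of_lt_of_le (lt_min (top_pos c) (top_pos c')) HahnSeries.min_orderTop_le_orderTop_add

/-- values of letters -/
def L (c : I → C1ˣ) : BL I → UU ℤ C1
  | BL.b i => UU.mk (HahnSeries.single 1 (c i : C1)) (UL.single (c i).isUnit)
  | BL.y i => UU.mk (1 + HahnSeries.single 1 (c i : C1)) (UL.one_add (top_pos _))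
  | BL.m i j => UU.mk (1 + (HahnSeries.single 1 (c i : C1) + HahnSeries.single 1 (c j : C1)))
      (UL.one_add (top_pos2 _ _))

/-- values of elements of `Q` -/
def hQ (ρ : Q →* C1ˣ) : Q →* UU ℤ C1 :=
  ((Units.map (HahnSeries.C : C1 →+* HahnSeries ℤ C1).toMonoidHom).comp ρ).codRestrict (UU ℤ C1)
    (fun q => UL.ofC (ρ q).isUnit)

/-- values of the acting group -/
def hY (c : I → C1ˣ) (ρ : Q →* C1ˣ) : Y1 I Q →* UU ℤ C1 :=
  MonoidHom.coprod
    (AddMonoidHom.toMultiplicativeLeft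
      (Finsupp.liftAddHom (fun l => zmultiplesHom _ (Additive.ofMul (L c l)))))
    (hQ ρ)

theorem hY_letter (c : I → C1ˣ) (ρ : Q →* C1ˣ) (l : BL I) : hY c ρ (y1l l) = L c l := by
  unfold hY y1l
  rw [MonoidHom.coprod_apply, map_one, mul_one]
  show Additive.toMul ((Finsupp.liftAddHom (fun l => zmultiplesHom _ (Additive.ofMul (L c l))))
    (Finsupp.single l (1 : ℤ))) = L c l
  rw [Finsupp.liftAddHom_apply_single]
  simp

theorem hY_q (c : I → C1ˣ) (ρ : Q →* C1ˣ) (q : Q) :
    vU (hY c ρ (y1q q)) = HahnSeries.C (ρ q : C1) := by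
  unfold hY y1q
  rw [MonoidHom.coprod_apply, map_one, one_mul]
  rfl

theorem v_b (c : I → C1ˣ) (ρ : Q →* C1ˣ) (i : I) :
    vU (hY c ρ (y1l (BL.b i))) = HahnSeries.single 1 (c i : C1) := by
  rw [hY_letter]
  exact vU_mk _ (UL.single (c i).isUnit)

theorem v_y (c : I → C1ˣ) (ρ : Q →* C1ˣ) (i : I) :
    vU (hY c ρ (y1l (BL.y i))) = 1 + HahnSeries.single 1 (c i : C1) := by
  rw [hY_letter]
  exact vU_mk _ (UL.one_add (top_pos _))

theorem v_m (c : I → C1ˣ) (ρ : Q →* C1ˣ) (i j : I) :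
    vU (hY c ρ (y1l (BL.m i j))) =
      1 + (HahnSeries.single 1 (c i : C1) + HahnSeries.single 1 (c j : C1)) := by
  rw [hY_letter]
  exact vU_mk _ (UL.one_add (top_pos2 _ _))

end Pool.Agent.HIG.BaseUnits

namespace Pool.Agent.HIG

open Function HU BaseUnits

theorem baseUnits_proof : Stmt_BaseUnitsAsm := by
  intro xi r B Q _ _ α C _ _ χ
  obtain ⟨C1, _, _, ρ, u, aug, Ψ, haug, hΨ, -⟩ := HU.exists_ring Q B C (fun b q => (χ b q : C))
  let c : Up r B → C1ˣ := fun β => match β with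
    | Sum.inl _ => 1
    | Sum.inr (Sum.inl i) => ρ (α i)
    | Sum.inr (Sum.inr b) => u b
  let h : Y1 (Up r B) Q →* UU ℤ C1 := hY c ρ
  let f : RG (Y1 (Up r B) Q) →+ HahnSeries ℤ C1 := RG.lift (fun l => vU (h l))
  have hf : ∀ g, f (el g) = vU (h g) := fun g => RG.lift_el _ g
  have hfm : ∀ g g', f (el g * el g') = vU (h g) * vU (h g') := by
    intro g g'
    rw [← el_mul, hf, map_mul, map_mul]
  have hrel : ∀ (g : Y1 (Up r B) Q), ∀ s ∈ Rel1 r B Q α, f (el g * s) = 0 := by
    rintro g s ((⟨i, rfl⟩ | ⟨⟨i, j⟩, rfl⟩) | ⟨i, rfl⟩)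
    · simp only
      rw [mul_sub, mul_sub, mul_one, map_sub, map_sub, hfm, hfm, hf]
      have h1 : vU (h (y1l (BL.y i))) = 1 + HahnSeries.single 1 (c i : C1) := v_y c ρ i
      have h2 : vU (h (y1l (BL.b i))) = HahnSeries.single 1 (c i : C1) := v_b c ρ i
      rw [h1, h2]
      ring
    · simp only
      rw [mul_sub, mul_sub, mul_sub, mul_one, map_sub, map_sub, map_sub, hfm, hfm, hfm, hf]
      have h1 : vU (h (y1l (BL.m i j))) =
          1 + (HahnSeries.single 1 (c i : C1) + HahnSeries.single 1 (c j : C1)) := v_m c ρ i j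
      have h2 : ∀ i, vU (h (y1l (BL.b i))) = HahnSeries.single 1 (c i : C1) := v_b c ρ
      rw [h1, h2, h2]
      ring
    · simp only
      rw [mul_sub, ← el_mul (y1l _) (y1q _), map_sub, hfm, hfm, map_mul, map_mul]
      have h2 : ∀ i, vU (h (y1l (BL.b i))) = HahnSeries.single 1 (c i : C1) := v_b c ρ
      have h3 : vU (h (y1q (α i))) = HahnSeries.C (ρ (α i) : C1) := hY_q c ρ _
      rw [h2, h2, h3]
      have h4 : (HahnSeries.single 1 (c (Sum.inr (Sum.inl i)) : C1) : HahnSeries ℤ C1) =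
          HahnSeries.single 1 (c (Sum.inl ()) : C1) * HahnSeries.C (ρ (α i) : C1) := by
        show (HahnSeries.single 1 (ρ (α i) : C1) : HahnSeries ℤ C1) =
          HahnSeries.single 1 ((1 : C1ˣ) : C1) * HahnSeries.C (ρ (α i) : C1)
        rw [HahnSeries.C_apply, HahnSeries.single_mul_single]
        simp
      rw [h4]
      ring
  let F : EE (Y1 (Up r B) Q) (Rel1 r B Q α) →+ HahnSeries ℤ C1 := EE.lift f hrel
  have hF : ∀ x, F (cl _ x) = f x := fun x => EE.lift_cl f hrel x
  obtain ⟨Γ', i1, i2, i3, Ξ, κ', hκ', hgood, hform⟩ :=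
    xi Unit () C1 C ℤ aug Ψ (HahnSeries.single (1 : ℤ) (1 : ℤ)) (by
      rw [HahnSeries.leadingCoeff_of_single]; exact isUnit_one)
  let φ : EE (Y1 (Up r B) Q) (Rel1 r B Q α) →+ HahnSeries Γ' C :=
    Ξ.comp (AddMonoidHom.mk' (fun x => fun _ => F x) (fun x y => by
      funext _; exact map_add F x y))
  have hφ : ∀ x, φ (cl _ x) = Ξ (fun _ => f x) := fun x => by
    show Ξ (fun _ => F (cl _ x)) = _
    rw [hF]
  have hg1 : ∀ l, Good (φ (cl (Rel1 r B Q α) (el l))) := by
    intro l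
    rw [hφ, hf]
    apply hgood
    · intro h0
      exact (vU_ul (h l)).ne_zero (congrFun h0 ())
    · intro _
      exact Or.inr (vU_ul (h l))
  refine ⟨Γ', i1, i2, i3, φ, κ', hκ', hg1, ?_, ?_⟩
  · intro l
    rw [mul_one]
    exact hg1 l
  · intro b q
    rw [mul_one, hφ]
    have h2 : ∀ i, vU (h (y1l (BL.b i))) = HahnSeries.single 1 (c i : C1) := v_b c ρ
    have h3 : vU (h (y1q q)) = HahnSeries.C (ρ q : C1) := hY_q c ρ _
    have h5 : f (el (y1q q) * (el (y1l (BL.b (Sum.inr (Sum.inr b)))) -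
        el (y1l (BL.b (Sum.inl ()))))) =
        HahnSeries.single 1 ((ρ q : C1) * ((u b : C1) - 1)) := by
      rw [mul_sub, map_sub, hfm, hfm, h2, h2, h3]
      show HahnSeries.C (ρ q : C1) * (HahnSeries.single 1 (u b : C1) : HahnSeries ℤ C1) -
        HahnSeries.C (ρ q : C1) * (HahnSeries.single 1 ((1 : C1ˣ) : C1)) = _
      rw [HahnSeries.C_apply, HahnSeries.single_mul_single, HahnSeries.single_mul_single]
      rw [← HahnSeries.single_sub]
      simp [mul_sub]
    have h6 := hform (fun _ => f (el (y1q q) * (el (y1l (BL.b (Sum.inr (Sum.inr b)))) -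
        el (y1l (BL.b (Sum.inl ())))))) ((ρ q : C1) * ((u b : C1) - 1)) ?_ ?_
    · rw [h6, hΨ]
    · intro _ γ
      rw [h5, HahnSeries.coeff_single]
      split_ifs
      · exact haug b q
      · exact map_zero aug
    · rw [h5]
      have h7 : ((HahnSeries.single (1 : ℤ) (1 : ℤ)).map (Int.castRingHom C1)
          : HahnSeries ℤ C1) = HahnSeries.single 1 1 := by
        ext g
        rw [HahnSeries.map_coeff]
        simp only [HahnSeries.coeff_single]
        split_ifs <;> simp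
      rw [h7, HahnSeries.C_apply, HahnSeries.single_mul_single]
      simp

end Pool.Agent.HIG
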