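import Mathlib
import Pool.Agent.HIG.Basic

/-!
# Module LAYER: letters on top of a recursively presented group
-/

noncomputable section

namespace Pool.Agent.HIG
namespace LayerX

open Function

/-- shift of the letters of a word -/
def sh (L : ℕ) (w : Word) : Word := w.map fun x => (x.1 + L, x.2)

/-- inverse word -/
def wi (w : Word) : Word := (w.map fun x => (x.1, !x.2)).reverse

/-- the word of the conjugate of the letter `i` by the shifted word `v` -/
def cw (L : ℕ) (v : Word) (i : ℕ) : Word := sh L v ++ ([(i, true)] ++ wi (sh L v))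

/-- commutator word -/
def comw (a b : Word) : Word := (a ++ b) ++ (wi a ++ wi b)

def crel (L : ℕ) (t : (Word × Word) × (ℕ × ℕ)) : Word :=
  if t.2.1 < L then (if t.2.2 < L then comw (cw L t.1.1 t.2.1) (cw L t.1.2 t.2.2) else []) else []

/-- index type of the relators -/
abbrev Ix : Type := ℕ ⊕ (((Word × Word) × (ℕ × ℕ)) ⊕ ℕ)

def gr (L : ℕ) (ρ σ : ℕ → Word) : Ix → Word
  | Sum.inl m => sh L (ρ m)
  | Sum.inr (Sum.inl t) => crel L t
  | Sum.inr (Sum.inr m) => σ m

def tau (L : ℕ) (ρ σ : ℕ → Word) (n : ℕ) : Word :=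
  ((Encodable.decode (α := Ix) n).map (gr L ρ σ)).getD []

theorem primrec_sh (L : ℕ) : Primrec (sh L) := by
  unfold sh
  exact Primrec.list_map Primrec.id
    ((Primrec.pair (Primrec.nat_add.comp (Primrec.fst.comp Primrec.snd) (Primrec.const L))
      (Primrec.snd.comp Primrec.snd)).to₂)

theorem primrec_wi : Primrec wi := by
  unfold wi
  refine Primrec.list_reverse.comp (Primrec.list_map Primrec.id ?_)
  exact ((Primrec.pair (Primrec.fst.comp Primrec.snd)
    (Primrec.not.comp (Primrec.snd.comp Primrec.snd))).to₂)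

theorem primrec_cw (L : ℕ) : Primrec₂ (cw L) := by
  unfold cw
  have h1 : Primrec fun p : Word × ℕ => sh L p.1 := (primrec_sh L).comp Primrec.fst
  have h2 : Primrec fun p : Word × ℕ => ([(p.2, true)] : Word) :=
    Primrec.list_cons.comp (Primrec.pair Primrec.snd (Primrec.const true)) (Primrec.const [])
  have h3 : Primrec fun p : Word × ℕ => wi (sh L p.1) := primrec_wi.comp h1
  exact (Primrec.list_append.comp h1 (Primrec.list_append.comp h2 h3)).to₂

theorem primrec_comw : Primrec₂ comw := by
  unfold comw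
  exact (Primrec.list_append.comp (Primrec.list_append.comp Primrec.fst Primrec.snd)
    (Primrec.list_append.comp (primrec_wi.comp Primrec.fst) (primrec_wi.comp Primrec.snd))).to₂

theorem primrec_crel (L : ℕ) : Primrec (crel L) := by
  unfold crel
  have h1 : PrimrecPred fun t : (Word × Word) × (ℕ × ℕ) => t.2.1 < L :=
    Primrec.nat_lt.comp (Primrec.fst.comp Primrec.snd) (Primrec.const L)
  have h2 : PrimrecPred fun t : (Word × Word) × (ℕ × ℕ) => t.2.2 < L :=
    Primrec.nat_lt.comp (Primrec.snd.comp Primrec.snd) (Primrec.const L)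
  have h3 : Primrec fun t : (Word × Word) × (ℕ × ℕ) => cw L t.1.1 t.2.1 :=
    (primrec_cw L).comp (Primrec.fst.comp Primrec.fst) (Primrec.fst.comp Primrec.snd)
  have h4 : Primrec fun t : (Word × Word) × (ℕ × ℕ) => cw L t.1.2 t.2.2 :=
    (primrec_cw L).comp (Primrec.snd.comp Primrec.fst) (Primrec.snd.comp Primrec.snd)
  exact Primrec.ite h1 (Primrec.ite h2 (primrec_comw.comp h3 h4) (Primrec.const []))
    (Primrec.const [])

theorem primrec_gr (L : ℕ) (ρ σ : ℕ → Word) (hρ : Primrec ρ) (hσ : Primrec σ) :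
    Primrec (gr L ρ σ) := by
  have h0 : Primrec fun y : ((Word × Word) × (ℕ × ℕ)) ⊕ ℕ =>
      (Sum.casesOn y (fun t => crel L t) (fun m => σ m) : Word) := by
    refine Primrec.sumCasesOn (α := ((Word × Word) × (ℕ × ℕ)) ⊕ ℕ) (f := fun y => y)
      (g := fun _ t => crel L t) (h := fun _ m => σ m) Primrec.id ?_ ?_
    · exact ((primrec_crel L).comp Primrec.snd).to₂
    · exact (hσ.comp Primrec.snd).to₂
  have h : Primrec fun x : Ix => (Sum.casesOn x (fun m => sh L (ρ m)) (fun y =>
      (Sum.casesOn y (fun t => crel L t) (fun m => σ m) : Word)) : Word) := by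
    refine Primrec.sumCasesOn (α := Ix) (f := fun y => y) (g := fun _ m => sh L (ρ m))
      (h := fun _ y => (Sum.casesOn y (fun t => crel L t) (fun m => σ m) : Word)) Primrec.id ?_ ?_
    · exact (((primrec_sh L).comp hρ).comp Primrec.snd).to₂
    · exact (h0.comp Primrec.snd).to₂
  refine h.of_eq ?_
  rintro (m | t | m) <;> rfl

theorem primrec_tau (L : ℕ) (ρ σ : ℕ → Word) (hρ : Primrec ρ) (hσ : Primrec σ) :
    Primrec (tau L ρ σ) := by
  unfold tau
  exact Primrec.option_getD.comp
    ((Primrec.option_map₁ (primrec_gr L ρ σ hρ hσ)).comp Primrec.decode) (Primrec.const [])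

/-! values of words -/
variable {G : Type} [Group G]

theorem evw_sh (ev : ℕ → G) (L : ℕ) (w : Word) : evw ev (sh L w) = evw (fun i => ev (i + L)) w := by
  induction w with
  | nil => simp [sh, evw_nil]
  | cons x w ih =>
    obtain ⟨i, b⟩ := x
    have h : sh L ((i, b) :: w) = (i + L, b) :: sh L w := rfl
    rw [h, evw_cons, evw_cons, ih]

theorem evw_wi (ev : ℕ → G) (w : Word) : evw ev (wi w) = (evw ev w)⁻¹ := by
  have h : wi w = FreeGroup.invRev w := rfl
  rw [h, evw, ← FreeGroup.inv_mk, map_inv]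
  rfl

theorem evw_single (ev : ℕ → G) (i : ℕ) : evw ev [(i, true)] = ev i := by
  rw [evw_cons, evw_nil]
  simp

theorem evw_cw (ev : ℕ → G) (L : ℕ) (v : Word) (i : ℕ) :
    evw ev (cw L v i) = cj (evw (fun i => ev (i + L)) v) (ev i) := by
  rw [cw, evw_append, evw_append, evw_wi, evw_single, evw_sh, cj, mul_assoc]

theorem evw_comw (ev : ℕ → G) (a b : Word) :
    evw ev (comw a b) = 1 ↔ Commute (evw ev a) (evw ev b) := by
  rw [comw, evw_append, evw_append, evw_append, evw_wi, evw_wi, ← mul_assoc]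
  constructor
  · intro h
    have h' : evw ev a * evw ev b = evw ev b * evw ev a := by
      rw [mul_inv_eq_one, mul_inv_eq_iff_eq_mul] at h
      exact h
    exact h'
  · intro h
    rw [h.eq]
    group

/-- a map into `G` respects all relators as soon as it respects the three kinds -/
theorem tau_eq_one (L : ℕ) (ρ σ : ℕ → Word) (ev : ℕ → G)
    (h1 : ∀ n, evw (fun i => ev (i + L)) (ρ n) = 1)
    (h2 : ∀ (v v' : Word) (i j : ℕ), i < L → j < L →
      Commute (cj (evw (fun i => ev (i + L)) v) (ev i)) (cj (evw (fun i => ev (i + L)) v') (ev j)))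
    (h3 : ∀ n, evw ev (σ n) = 1) (n : ℕ) : evw ev (tau L ρ σ n) = 1 := by
  unfold tau
  rcases h : (Encodable.decode (α := Ix) n) with _ | x
  · simp [evw_nil]
  · rw [Option.map_some, Option.getD_some]
    rcases x with m | t | m
    · show evw ev (sh L (ρ m)) = 1
      rw [evw_sh]
      exact h1 m
    · show evw ev (crel L t) = 1
      unfold crel
      split_ifs with ha hb
      · rw [evw_comw, evw_cw, evw_cw]
        exact h2 _ _ _ _ ha hb
      · exact evw_nil ev
      · exact evw_nil ev
    · exact h3 m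

theorem of_tau (L : ℕ) (ρ σ : ℕ → Word) (ev : ℕ → G) (h : ∀ n, evw ev (tau L ρ σ n) = 1) :
    (∀ n, evw (fun i => ev (i + L)) (ρ n) = 1) ∧
    (∀ (v v' : Word) (i j : ℕ), i < L → j < L →
      Commute (cj (evw (fun i => ev (i + L)) v) (ev i)) (cj (evw (fun i => ev (i + L)) v') (ev j))) ∧
    (∀ n, evw ev (σ n) = 1) := by
  have hx : ∀ x : Ix, evw ev (gr L ρ σ x) = 1 := by
    intro x
    have := h (Encodable.encode x)
    unfold tau at this
    rw [Encodable.encodek, Option.map_some, Option.getD_some] at this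
    exact this
  refine ⟨fun n => ?_, fun v v' i j hi hj => ?_, fun n => ?_⟩
  · have := hx (Sum.inl n)
    rw [← evw_sh]
    exact this
  · have := hx (Sum.inr (Sum.inl ((v, v'), (i, j))))
    have h' : gr L ρ σ (Sum.inr (Sum.inl ((v, v'), (i, j)))) = comw (cw L v i) (cw L v' j) := by
      show crel L ((v, v'), (i, j)) = _
      unfold crel
      rw [if_pos hi, if_pos hj]
    rw [h', evw_comw, evw_cw, evw_cw] at this
    exact this
  · exact hx (Sum.inr (Sum.inr n))

/-- homomorphisms out of a presented group -/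
theorem exists_hom {Y : Type} [Group Y] (evY : ℕ → Y) (ρ : ℕ → Word)
    (hgen : Subgroup.closure (Set.range evY) = ⊤)
    (hker : (FreeGroup.lift evY).ker = Subgroup.normalClosure (Set.range fun n => FreeGroup.mk (ρ n)))
    (ev' : ℕ → G) (h : ∀ n, evw ev' (ρ n) = 1) : ∃ f : Y →* G, ∀ i, f (evY i) = ev' i := by
  have hs : Surjective (FreeGroup.lift evY) := by
    rw [← MonoidHom.range_eq_top, FreeGroup.range_lift_eq_closure, hgen]
  have hk : (FreeGroup.lift evY).ker ≤ (FreeGroup.lift ev').ker := by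
    rw [hker]
    refine Subgroup.normalClosure_le_normal ?_
    rintro _ ⟨n, rfl⟩
    exact h n
  refine ⟨(FreeGroup.lift evY).liftOfSurjective hs ⟨FreeGroup.lift ev', hk⟩, fun i => ?_⟩
  have h1 := MonoidHom.liftOfRightInverse_comp_apply (FreeGroup.lift evY) _
    (Function.rightInverse_surjInv hs) ⟨FreeGroup.lift ev', hk⟩ (FreeGroup.of i)
  rw [FreeGroup.lift_apply_of] at h1
  exact h1.trans (FreeGroup.lift_apply_of)

section P
variable (τ : ℕ → Word)

/-- the presented group -/
abbrev PP : Type :=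
  FreeGroup ℕ ⧸ Subgroup.normalClosure (Set.range fun n => FreeGroup.mk (τ n))

def gen (i : ℕ) : PP τ := QuotientGroup.mk (FreeGroup.of i)

theorem lift_gen : FreeGroup.lift (gen τ) =
    QuotientGroup.mk' (Subgroup.normalClosure (Set.range fun n => FreeGroup.mk (τ n))) := by
  ext i
  simp [gen]

theorem ker_gen : (FreeGroup.lift (gen τ)).ker =
    Subgroup.normalClosure (Set.range fun n => FreeGroup.mk (τ n)) := by
  rw [lift_gen, QuotientGroup.ker_mk']

theorem closure_gen : Subgroup.closure (Set.range (gen τ)) = ⊤ := by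
  rw [← FreeGroup.range_lift_eq_closure, lift_gen, MonoidHom.range_eq_top]
  exact QuotientGroup.mk'_surjective _

theorem rel_gen (n : ℕ) : evw (gen τ) (τ n) = 1 := by
  show FreeGroup.lift (gen τ) (FreeGroup.mk (τ n)) = 1
  rw [← MonoidHom.mem_ker, ker_gen]
  exact Subgroup.subset_normalClosure ⟨n, rfl⟩
end P

/-! the kernel of the retraction -/
section ker
variable {Y P : Type} [Group Y] [Group P] (inc : Y →* P) (ret : P →* Y) (a : ℕ → P)

def KK : Subgroup P := Subgroup.closure (Set.range fun x : Y × ℕ => cj (inc x.1) (a x.2))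

theorem KK_conj {k : P} (hk : k ∈ KK inc a) (y : Y) : cj (inc y) k ∈ KK inc a := by
  unfold KK at hk ⊢
  induction hk using Subgroup.closure_induction with
  | mem x hx =>
    obtain ⟨⟨z, i⟩, rfl⟩ := hx
    refine Subgroup.subset_closure ⟨(y * z, i), ?_⟩
    simp only [cj_cj, map_mul]
  | one =>
    rw [cj_one]
    exact one_mem _
  | mul x z _ _ hx hz =>
    rw [cj_mul]
    exact mul_mem hx hz
  | inv x _ hx =>
    rw [cj_inv]
    exact inv_mem hx

theorem mem_KK (h1 : ∀ y, ret (inc y) = y) (h2 : ∀ i, ret (a i) = 1) (p : P)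
    (hp : p ∈ Subgroup.closure (Set.range a ∪ Set.range inc)) :
    p * (inc (ret p))⁻¹ ∈ KK inc a := by
  induction hp using Subgroup.closure_induction with
  | mem x hx =>
    rcases hx with ⟨i, rfl⟩ | ⟨y, rfl⟩
    · rw [h2, map_one, inv_one, mul_one]
      refine Subgroup.subset_closure ⟨(1, i), ?_⟩
      simp only [map_one, one_cj]
    · rw [h1, mul_inv_cancel]
      exact one_mem _
  | one => simp
  | mul x z _ _ hx hz =>
    have h : x * z * (inc (ret (x * z)))⁻¹ =
        (x * (inc (ret x))⁻¹) * cj (inc (ret x)) (z * (inc (ret z))⁻¹) := by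
      rw [map_mul, map_mul, cj]
      group
    rw [h]
    exact mul_mem hx (KK_conj inc a hz _)
  | inv x _ hx =>
    have h : x⁻¹ * (inc (ret x⁻¹))⁻¹ = cj (inc (ret x)⁻¹) (x * (inc (ret x))⁻¹)⁻¹ := by
      rw [map_inv, map_inv, cj]
      group
    rw [h]
    exact KK_conj inc a (inv_mem hx) _

theorem comm_ker (hP : Subgroup.closure (Set.range a ∪ Set.range inc) = ⊤)
    (h1 : ∀ y, ret (inc y) = y) (h2 : ∀ i, ret (a i) = 1)
    (hc : ∀ x y i j, Commute (cj (inc x) (a i)) (cj (inc y) (a j))) (p q : P)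
    (hp : ret p = 1) (hq : ret q = 1) : Commute p q := by
  have h : ∀ p, ret p = 1 → p ∈ KK inc a := by
    intro p hp
    have := mem_KK inc ret a h1 h2 p (by rw [hP]; trivial)
    rwa [hp, map_one, inv_one, mul_one] at this
  have hcc : ∀ x ∈ (Set.range fun x : Y × ℕ => cj (inc x.1) (a x.2)),
      ∀ y ∈ (Set.range fun x : Y × ℕ => cj (inc x.1) (a x.2)), x * y = y * x := by
    rintro _ ⟨x, rfl⟩ _ ⟨y, rfl⟩
    exact (hc x.1 y.1 x.2 y.2).eq
  have h5 := (Subgroup.isMulCommutative_closure hcc).is_comm.comm ⟨p, h p hp⟩ ⟨q, h q hq⟩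
  exact congrArg Subtype.val h5

theorem derived (hP : Subgroup.closure (Set.range a ∪ Set.range inc) = ⊤)
    (h1 : ∀ y, ret (inc y) = y) (h2 : ∀ i, ret (a i) = 1)
    (hc : ∀ x y i j, Commute (cj (inc x) (a i)) (cj (inc y) (a j))) (d : ℕ)
    (hd : derivedSeries Y d = ⊥) : derivedSeries P (d + 1) = ⊥ := by
  have hk : ∀ p ∈ derivedSeries P d, ret p = 1 := by
    intro p hp
    have h := map_derivedSeries_le_derivedSeries ret d (Subgroup.mem_map_of_mem ret hp)
    rw [hd, Subgroup.mem_bot] at h
    exact h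
  rw [derivedSeries_succ, eq_bot_iff, Subgroup.commutator_le]
  intro p hp q hq
  rw [Subgroup.mem_bot, commutatorElement_eq_one_iff_commute]
  exact comm_ker inc ret a hP h1 h2 hc p q (hk p hp) (hk q hq)
end ker

end LayerX

theorem layer_proof : Stmt_Layer := by
  intro Y _ evY hY L σ hσ hσ1
  obtain ⟨⟨k, hk⟩, hgen, ρ, hρ, hker⟩ := hY
  set τ := LayerX.tau L ρ σ with hτ
  have hrel := LayerX.of_tau L ρ σ (LayerX.gen τ) (LayerX.rel_gen τ)
  obtain ⟨hr1, hr2, hr3⟩ := hrel
  obtain ⟨inc, hinc⟩ := LayerX.exists_hom evY ρ hgen hker (fun i => LayerX.gen τ (i + L)) hr1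
  have hY1 : ∀ n, evw evY (ρ n) = 1 := by
    intro n
    show FreeGroup.lift evY (FreeGroup.mk (ρ n)) = 1
    rw [← MonoidHom.mem_ker, hker]
    exact Subgroup.subset_normalClosure ⟨n, rfl⟩
  have hP : ∀ (G : Type) [Group G] (ev : ℕ → G),
      (∀ n, evw (fun i => ev (i + L)) (ρ n) = 1) →
      (∀ (v v' : Word) (i j : ℕ), i < L → j < L →
        Commute (cj (evw (fun i => ev (i + L)) v) (ev i)) (cj (evw (fun i => ev (i + L)) v') (ev j))) →
      (∀ n, evw ev (σ n) = 1) → ∃ f : LayerX.PP τ →* G, ∀ i, f (LayerX.gen τ i) = ev i := by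
    intro G _ ev h1 h2 h3
    exact LayerX.exists_hom (LayerX.gen τ) τ (LayerX.closure_gen τ) (LayerX.ker_gen τ) ev
      (LayerX.tau_eq_one L ρ σ ev h1 h2 h3)
  -- every element of Y is the value of a word
  have hw : ∀ y : Y, ∃ v : Word, evw evY v = y := by
    intro y
    have hs : Function.Surjective (FreeGroup.lift evY) := by
      rw [← MonoidHom.range_eq_top, FreeGroup.range_lift_eq_closure, hgen]
    obtain ⟨w, hw⟩ := hs y
    refine ⟨w.toWord, ?_⟩
    rw [evw, FreeGroup.mk_toWord, hw]
  have hincw : ∀ v : Word, inc (evw evY v) = evw (fun i => LayerX.gen τ (i + L)) v := by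
    intro v
    rw [map_evw]
    simp only [hinc]
  -- retraction
  have hret : ∃ ret : LayerX.PP τ →* Y, ∀ i, ret (LayerX.gen τ i) = if i < L then 1 else evY (i - L) := by
    refine hP Y (fun i => if i < L then 1 else evY (i - L)) ?_ ?_ hσ1
    · intro n
      have : (fun i => (if i + L < L then 1 else evY (i + L - L) : Y)) = evY := by
        funext i
        rw [if_neg (by omega), Nat.add_sub_cancel]
      simp only [this]
      exact hY1 n
    · intro v v' i j hi hj
      simp only [if_pos hi, if_pos hj, cj_one]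
      exact Commute.one_left _
  obtain ⟨ret, hret⟩ := hret
  let a : ℕ → LayerX.PP τ := fun i => if i < L then LayerX.gen τ i else 1
  have haL : ∀ i, i < L → a i = LayerX.gen τ i := fun i hi => if_pos hi
  have haL' : ∀ i, L ≤ i → a i = 1 := fun i hi => if_neg (by omega)
  have hev : (fun i => if i < L then a i else inc (evY (i - L))) = LayerX.gen τ := by
    funext i
    by_cases hi : i < L
    · rw [if_pos hi, haL i hi]
    · rw [if_neg hi, hinc, Nat.sub_add_cancel (by omega)]
  have h1 : ∀ y, ret (inc y) = y := by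
    intro y
    obtain ⟨v, rfl⟩ := hw y
    rw [hincw, map_evw]
    simp only [hret]
    have : (fun i => (if i + L < L then 1 else evY (i + L - L) : Y)) = evY := by
      funext i
      rw [if_neg (by omega), Nat.add_sub_cancel]
    simp only [this]
  have h2 : ∀ i, ret (a i) = 1 := by
    intro i
    by_cases hi : i < L
    · rw [haL i hi, hret, if_pos hi]
    · rw [haL' i (by omega), map_one]
  have hc : ∀ (x y : Y) (i j : ℕ), Commute (cj (inc x) (a i)) (cj (inc y) (a j)) := by
    intro x y i j
    by_cases hi : i < L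
    · by_cases hj : j < L
      · obtain ⟨v, rfl⟩ := hw x
        obtain ⟨v', rfl⟩ := hw y
        rw [haL i hi, haL j hj, hincw, hincw]
        exact hr2 v v' i j hi hj
      · rw [haL' j (by omega), cj_one]
        exact Commute.one_right _
    · rw [haL' i (by omega), cj_one]
      exact Commute.one_left _
  have hclo : Subgroup.closure (Set.range a ∪ Set.range inc) = ⊤ := by
    rw [eq_top_iff, ← LayerX.closure_gen τ, Subgroup.closure_le]
    rintro _ ⟨i, rfl⟩
    by_cases hi : i < L
    · exact Subgroup.subset_closure (Or.inl ⟨i, haL i hi⟩)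
    · refine Subgroup.subset_closure (Or.inr ⟨evY (i - L), ?_⟩)
      rw [hinc, Nat.sub_add_cancel (by omega)]
  refine ⟨LayerX.PP τ, inferInstance, inc, ret, a, haL', ?_, h1, h2, hc, ?_, ?_, ?_⟩
  · rw [hev]
    refine ⟨⟨k + L, fun i hi => ?_⟩, LayerX.closure_gen τ, τ,
      LayerX.primrec_tau L ρ σ hρ hσ, LayerX.ker_gen τ⟩
    have : LayerX.gen τ i = inc (evY (i - L)) := by
      rw [hinc, Nat.sub_add_cancel (by omega)]
    rw [this, hk _ (by omega), map_one]
  · rw [hev]
    exact hr3
  · intro d hd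
    exact LayerX.derived inc ret a hclo h1 h2 hc d hd
  · intro G _ θ b hb hbc hbσ
    have hθ : (fun i => (if i + L < L then b (i + L) else θ (evY (i + L - L)) : G)) =
        fun i => θ (evY i) := by
      funext i
      rw [if_neg (by omega), Nat.add_sub_cancel]
    obtain ⟨F, hF⟩ := hP G (fun i => if i < L then b i else θ (evY (i - L))) (by
      intro n
      simp only [hθ]
      rw [← map_evw, hY1, map_one]) (by
      intro v v' i j hi hj
      simp only [hθ, if_pos hi, if_pos hj]
      rw [← map_evw, ← map_evw]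
      exact hbc _ _ _ _) hbσ
    refine ⟨F, fun y => ?_, fun i => ?_⟩
    · obtain ⟨v, rfl⟩ := hw y
      rw [hincw, map_evw, map_evw]
      simp only [hF, hθ]
    · by_cases hi : i < L
      · rw [haL i hi, hF, if_pos hi]
      · rw [haL' i (by omega), map_one, hb i (by omega)]

end Pool.Agent.HIG
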