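import Mathlib
import Pool.Agent.HIG.Layer
import Pool.Agent.HIG.Extra

/-!
# Module CTRASM: the counter group
-/

noncomputable section

namespace Pool.Agent.HIG
namespace CtrX

open Function

/-- the free abelian group -/
abbrev Z (K : ℕ) : Type := Fin K → Multiplicative ℤ

/-- basis element -/
def bs {K : ℕ} (i : Fin K) : Z K := Pi.mulSingle i (Multiplicative.ofAdd 1)

theorem exists_theta {K : ℕ} {G : Type} [Group G] (x : Fin K → G)
    (hx : ∀ i j, Commute (x i) (x j)) :
    ∃ θ : Z K →* G, (∀ i, θ (bs i) = x i) ∧
      ∀ (g : G) (i : Fin K), (∀ j, j ≠ i → Commute (x j) g) →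
        ∀ z : Z K, ∃ n : ℤ, cj (θ z) g = cj (x i ^ n) g := by
  have hc : Pairwise fun i j : Fin K => ∀ (a : Multiplicative ℤ) (b : Multiplicative ℤ),
      Commute (zpowersHom G (x i) a) (zpowersHom G (x j) b) := by
    intro i j _ a b
    simp only [zpowersHom_apply]
    exact ((hx i j).zpow_left _).zpow_right _
  refine ⟨MonoidHom.noncommPiCoprod (fun i => zpowersHom G (x i)) hc, ?_, ?_⟩
  · intro i
    unfold bs
    rw [MonoidHom.noncommPiCoprod_mulSingle]
    simp
  · intro g i hg z
    refine ⟨Multiplicative.toAdd (z i), ?_⟩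
    have hz : z = Pi.mulSingle i (z i) * Function.update z i 1 := by
      funext j
      by_cases hj : j = i
      · subst hj
        simp
      · simp [hj]
    have h1 : Commute g ((MonoidHom.noncommPiCoprod (fun i => zpowersHom G (x i)) hc)
        (Function.update z i 1)) := by
      refine Finset.noncommProd_commute Finset.univ
        (fun j => zpowersHom G (x j) (Function.update z i 1 j)) (fun _ _ _ _ h => hc h _ _) g ?_
      intro j _
      by_cases hj : j = i
      · subst hj
        simp
      · simp only [zpowersHom_apply]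
        exact ((hg j hj).zpow_left _).symm
    rw [hz, map_mul, MonoidHom.noncommPiCoprod_mulSingle, ← cj_cj, cj_of_commute h1.symm]
    simp

/-- the finite list of the additional relators -/
def rl (K : ℕ) (V : Fin K → Word) : List Word :=
  (Finset.univ : Finset (Fin K × Fin K)).toList.map fun p =>
    if p.1 = p.2 then [] else LayerX.comw (LayerX.sh K (V p.1)) [((p.2 : ℕ), true)]

theorem rl_forall {K : ℕ} (V : Fin K → Word) {G : Type} [Group G] (ev : ℕ → G) :
    (∀ n, evw ev ((rl K V).getD n []) = 1) ↔
      ∀ i j : Fin K, i ≠ j → Commute (evw (fun i => ev (i + K)) (V i)) (ev j) := by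
  have hval : ∀ i j : Fin K, evw ev (LayerX.comw (LayerX.sh K (V i)) [((j : ℕ), true)]) = 1 ↔
      Commute (evw (fun i => ev (i + K)) (V i)) (ev j) := by
    intro i j
    rw [LayerX.evw_comw, LayerX.evw_sh, LayerX.evw_single]
  constructor
  · intro h i j hij
    rw [← hval]
    have hm : LayerX.comw (LayerX.sh K (V i)) [((j : ℕ), true)] ∈ rl K V := by
      unfold rl
      rw [List.mem_map]
      exact ⟨(i, j), by simp, by simp [hij]⟩
    obtain ⟨n, hn, hn'⟩ := List.getElem_of_mem hm
    have := h n
    rwa [List.getD_eq_getElem _ _ hn, hn'] at this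
  · intro h n
    by_cases hn : n < (rl K V).length
    · rw [List.getD_eq_getElem _ _ hn]
      have hm := List.getElem_mem hn
      generalize (rl K V)[n] = w at hm
      unfold rl at hm
      rw [List.mem_map] at hm
      obtain ⟨⟨i, j⟩, -, rfl⟩ := hm
      by_cases hij : i = j
      · simp [hij, evw_nil]
      · simp only [hij, if_false]
        exact (hval i j).2 (h i j hij)
    · rw [List.getD_eq_default _ _ (by omega), evw_nil]

end CtrX

theorem ctrAsm_proof : Stmt_CtrAsm := by
  intro hLayer hComm K
  obtain ⟨evY, hY⟩ := hComm (CtrX.Z K) inferInstance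
  have hgen := hY.2.1
  have hw : ∀ y : CtrX.Z K, ∃ v : Word, evw evY v = y := by
    intro y
    have hs : Function.Surjective (FreeGroup.lift evY) := by
      rw [← MonoidHom.range_eq_top, FreeGroup.range_lift_eq_closure, hgen]
    obtain ⟨w, hw⟩ := hs y
    refine ⟨w.toWord, ?_⟩
    rw [evw, FreeGroup.mk_toWord, hw]
  choose V hV using fun i : Fin K => hw (CtrX.bs i)
  have hσ : Primrec fun n => (CtrX.rl K V).getD n [] :=
    (Primrec.list_getD []).comp (Primrec.const _) Primrec.id
  obtain ⟨P, _, inc, ret, a, ha, hRP, h1, h2, hc, hs, hd, hu⟩ :=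
    hLayer (CtrX.Z K) evY hY K (fun n => (CtrX.rl K V).getD n []) hσ (by
      rw [CtrX.rl_forall]
      intro i j _
      simp only [Fin.is_lt, if_true]
      exact Commute.one_right _)
  have hsh : ∀ {G : Type} (b : ℕ → G) (e : ℕ → G),
      (fun i => (if i + K < K then b (i + K) else e (i + K - K) : G)) = e := by
    intro G b e
    funext i
    rw [if_neg (by omega), Nat.add_sub_cancel]
  rw [CtrX.rl_forall] at hs
  refine ⟨P, inferInstance, fun i => inc (CtrX.bs i), fun i => a i, ⟨_, hRP⟩, ?_, ?_, ?_, ?_, ?_⟩
  · refine hd 1 ?_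
    rw [derivedSeries_one]
    rw [eq_bot_iff, commutator_def, Subgroup.commutator_le]
    intro p _ q _
    rw [Subgroup.mem_bot, commutatorElement_eq_one_iff_commute]
    exact Commute.all p q
  · intro i j
    exact (Commute.all (CtrX.bs i) (CtrX.bs j)).map inc
  · intro i j hij
    have := hs i j hij
    simp only [hsh a (fun i => inc (evY i)), Fin.is_lt, if_true] at this
    rw [← map_evw, hV] at this
    exact this
  · intro i j
    have := hc 1 1 i j
    simpa only [map_one, one_cj] using this
  · intro G _ x' g' hxx hxg hgg hgc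
    obtain ⟨θ, hθ, hθ'⟩ := CtrX.exists_theta x' hxx
    let b : ℕ → G := fun i => if h : i < K then g' ⟨i, h⟩ else 1
    have hb : ∀ i : Fin K, b i = g' i := fun i => by simp [b]
    have hb' : ∀ i, K ≤ i → b i = 1 := fun i hi => dif_neg (by omega)
    have hcc : ∀ (i j : Fin K) (n m : ℤ), Commute (cj (x' i ^ n) (g' i)) (cj (x' j ^ m) (g' j)) := by
      intro i j n m
      by_cases hij : i = j
      · subst hij
        have h3 := Commute.cj (hgc i (-n + m)) (x' i ^ n)
        rw [cj_cj, ← zpow_add] at h3
        simpa using h3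
      · have e1 : Commute (x' i ^ n) (cj (x' j ^ m) (g' j)) := by
          unfold cj
          exact (((hxx i j).zpow_left _).zpow_right _).mul_right ((hxg i j hij).zpow_left _)
            |>.mul_right (((hxx i j).zpow_left _).zpow_right _).inv_right
        have e2 : Commute (g' i) (cj (x' j ^ m) (g' j)) := by
          unfold cj
          have := (hxg j i (Ne.symm hij)).symm.zpow_right m
          exact (this.mul_right (hgg i j)).mul_right this.inv_right
        have : Commute (cj (x' i ^ n) (g' i)) (cj (x' j ^ m) (g' j)) :=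
          (e1.mul_left e2).mul_left e1.inv_left
        exact this
    obtain ⟨F, hF1, hF2⟩ := hu G θ b hb' (by
      intro x y i j
      by_cases hi : i < K
      · by_cases hj : j < K
        · obtain ⟨n, hn⟩ := hθ' (g' ⟨i, hi⟩) ⟨i, hi⟩ (fun k hk => hxg _ _ hk) x
          obtain ⟨m, hm⟩ := hθ' (g' ⟨j, hj⟩) ⟨j, hj⟩ (fun k hk => hxg _ _ hk) y
          have hbi : b i = g' ⟨i, hi⟩ := dif_pos hi
          have hbj : b j = g' ⟨j, hj⟩ := dif_pos hj
          rw [hbi, hbj, hn, hm]
          exact hcc _ _ _ _
        · rw [hb' j (by omega), cj_one]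
          exact Commute.one_right _
      · rw [hb' i (by omega), cj_one]
        exact Commute.one_left _) (by
      rw [CtrX.rl_forall]
      intro i j hij
      simp only [hsh b (fun i => θ (evY i)), Fin.is_lt, if_true, hb]
      rw [← map_evw, hV, hθ]
      exact hxg i j hij)
    refine ⟨F, fun i => ?_, fun i => ?_⟩
    · rw [hF1, hθ]
    · rw [hF2, hb]

end Pool.Agent.HIG
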