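import Mathlib
import Pool.Agent.HIG.Stmts

/-!
# r.e. sets of words are ranges of primitive recursive families
-/

noncomputable section

namespace Pool.Agent.HIG

open Function

theorem enum_proof : Stmt_Enum := by
  intro k R hR
  classical
  -- the code
  have hp : Partrec fun a : List (Fin k × Bool) => Part.assert (a ∈ R) fun _ => Part.some () := hR
  obtain ⟨c, hc⟩ := Nat.Partrec.Code.exists_code.1 hp
  have hmem : ∀ w : List (Fin k × Bool), w ∈ R ↔ ∃ m, (Nat.Partrec.Code.evaln m c (Encodable.encode w)).isSome := by
    intro w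
    have h1 : (Nat.Partrec.Code.eval c (Encodable.encode w)).Dom ↔ w ∈ R := by
      rw [hc]
      simp [Part.assert]
    rw [← h1, Part.dom_iff_mem]
    constructor
    · rintro ⟨y, hy⟩
      obtain ⟨m, hm⟩ := Nat.Partrec.Code.evaln_complete.1 hy
      exact ⟨m, by rw [Option.mem_def] at hm; rw [hm]; rfl⟩
    · rintro ⟨m, hm⟩
      obtain ⟨y, hy⟩ := Option.isSome_iff_exists.1 hm
      exact ⟨y, Nat.Partrec.Code.evaln_sound hy⟩
  let g : ℕ → List (Fin k × Bool) → List (Fin k × Bool) := fun m w =>
    bif (Nat.Partrec.Code.evaln m c (Encodable.encode w)).isSome then w else []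
  have hg : Primrec₂ g := by
    have h1 : Primrec fun p : ℕ × List (Fin k × Bool) =>
        Nat.Partrec.Code.evaln p.1 c (Encodable.encode p.2) :=
      Nat.Partrec.Code.primrec_evaln.comp
        ((Primrec.fst.pair (Primrec.const c)).pair (Primrec.encode.comp Primrec.snd))
    exact Primrec.cond (Primrec.option_isSome.comp h1) Primrec.snd (Primrec.const [])
  refine ⟨fun n => (Encodable.decode (α := List (Fin k × Bool)) n.unpair.2).elim []
    (g n.unpair.1), ?_, ?_⟩
  · have h2 : Primrec fun n : ℕ => Encodable.decode (α := List (Fin k × Bool)) n.unpair.2 :=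
      Primrec.decode.comp (Primrec.snd.comp Primrec.unpair)
    have h3 : Primrec₂ fun (n : ℕ) (w : List (Fin k × Bool)) => g n.unpair.1 w :=
      hg.comp (Primrec.fst.comp (Primrec.unpair.comp Primrec.fst)) Primrec.snd
    refine (Primrec.option_casesOn h2 (Primrec.const []) h3).of_eq fun n => ?_
    cases Encodable.decode (α := List (Fin k × Bool)) n.unpair.2 <;> rfl
  · ext w
    constructor
    · rintro ⟨n, rfl⟩
      dsimp only
      cases h : Encodable.decode (α := List (Fin k × Bool)) n.unpair.2 with
      | none => left; rfl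
      | some w =>
        dsimp only [Option.elim, g]
        cases h' : (Nat.Partrec.Code.evaln n.unpair.1 c (Encodable.encode w)).isSome with
        | false => left; rfl
        | true => right; exact (hmem w).2 ⟨_, h'⟩
    · rintro (rfl | hw)
      · refine ⟨Nat.pair 0 (Encodable.encode ([] : List (Fin k × Bool))), ?_⟩
        simp only [Nat.unpair_pair, Encodable.encodek, Option.elim, g]
        cases (Nat.Partrec.Code.evaln 0 c (Encodable.encode ([] : List (Fin k × Bool)))).isSome <;> rfl
      · obtain ⟨m, hm⟩ := (hmem w).1 hw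
        refine ⟨Nat.pair m (Encodable.encode w), ?_⟩
        simp only [Nat.unpair_pair, Encodable.encodek, Option.elim, g, hm, cond_true]

end Pool.Agent.HIG
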