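import Mathlib
import Pool.Agent.HIG.Basic

/-!
# FINAL: from `W n` to the Higman property of the variety of groups solvable of index `n`
-/

noncomputable section

set_option linter.unusedSectionVars false

namespace Pool.Agent.HIG

open Function
open scoped commutatorElement

namespace Final

/-- the composition of the two projections is onto, and its kernel -/
theorem ker_comp {F : Type} [Group F] (N : Subgroup F) [N.Normal] {G : Type} [Group G]
    (π : F →* G) (_hπ : Surjective π) (M : Subgroup G) [M.Normal] (K : Subgroup F)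
    (hM : M = K.map π) (hker : π.ker = N) :
    ((QuotientGroup.mk' M).comp π).ker = K ⊔ N := by
  rw [← MonoidHom.comap_ker, QuotientGroup.ker_mk', hM, Subgroup.comap_map_eq, hker]

/-- interchanging the two quotients -/
theorem exists_iso {F : Type} [Group F] (T : Set F) (n : ℕ) :
    Nonempty (((F ⧸ Subgroup.normalClosure T) ⧸ derivedSeries (F ⧸ Subgroup.normalClosure T) n) ≃*
      ((F ⧸ derivedSeries F n) ⧸ Subgroup.normalClosure
        ((QuotientGroup.mk : F → F ⧸ derivedSeries F n) '' T))) := by
  set N := Subgroup.normalClosure T with hN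
  set D := derivedSeries F n with hD
  set M₁ := derivedSeries (F ⧸ N) n with hM₁
  set M₂ := Subgroup.normalClosure ((QuotientGroup.mk : F → F ⧸ D) '' T) with hM₂
  set p₁ : F →* (F ⧸ N) ⧸ M₁ := (QuotientGroup.mk' M₁).comp (QuotientGroup.mk' N) with hp₁
  set p₂ : F →* (F ⧸ D) ⧸ M₂ := (QuotientGroup.mk' M₂).comp (QuotientGroup.mk' D) with hp₂
  have h1 : M₁ = D.map (QuotientGroup.mk' N) := by
    rw [hM₁, hD, map_derivedSeries_eq (QuotientGroup.mk'_surjective N)]
  have h2 : M₂ = N.map (QuotientGroup.mk' D) := by
    rw [hM₂, hN, Subgroup.map_normalClosure T _ (QuotientGroup.mk'_surjective D)]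
    rfl
  have k1 : p₁.ker = D ⊔ N :=
    ker_comp N (QuotientGroup.mk' N) (QuotientGroup.mk'_surjective N) M₁ D h1
      (QuotientGroup.ker_mk' N)
  have k2 : p₂.ker = D ⊔ N := by
    rw [sup_comm]
    exact ker_comp D (QuotientGroup.mk' D) (QuotientGroup.mk'_surjective D) M₂ N h2
      (QuotientGroup.ker_mk' D)
  have s1 : Surjective p₁ := (QuotientGroup.mk'_surjective M₁).comp (QuotientGroup.mk'_surjective N)
  have s2 : Surjective p₂ := (QuotientGroup.mk'_surjective M₂).comp (QuotientGroup.mk'_surjective D)
  exact ⟨(QuotientGroup.quotientKerEquivOfSurjective p₁ s1).symm.trans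
    ((QuotientGroup.quotientMulEquivOfEq (k1.trans k2.symm)).trans
      (QuotientGroup.quotientKerEquivOfSurjective p₂ s2))⟩

/-- the presented group is recursively presented -/
theorem rp_presented (k : ℕ) (R : Set (List (Fin k × Bool))) (ρ : ℕ → List (Fin k × Bool))
    (hρ : Primrec ρ) (hR : Set.range ρ = insert [] R) :
    RPg (FreeGroup (Fin k) ⧸ Subgroup.normalClosure (FreeGroup.mk '' R))
      (fun i => if h : i < k then QuotientGroup.mk (FreeGroup.of (⟨i, h⟩ : Fin k)) else 1) := by
  set N := Subgroup.normalClosure (FreeGroup.mk '' R) with hN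
  set ev : ℕ → FreeGroup (Fin k) ⧸ N :=
    fun i => if h : i < k then QuotientGroup.mk (FreeGroup.of (⟨i, h⟩ : Fin k)) else 1 with hev
  refine ⟨⟨k, fun i hi => dif_neg (not_lt.2 hi)⟩, ?_, ?_⟩
  · rw [← FreeGroup.range_lift_eq_closure, MonoidHom.range_eq_top]
    intro x
    obtain ⟨y, rfl⟩ := QuotientGroup.mk_surjective x
    refine ⟨FreeGroup.map (fun i : Fin k => (i : ℕ)) y, ?_⟩
    have h1 : (FreeGroup.lift ev).comp (FreeGroup.map (fun i : Fin k => (i : ℕ))) =
        QuotientGroup.mk' N := by
      refine FreeGroup.ext_hom _ _ fun i => ?_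
      rw [MonoidHom.comp_apply, FreeGroup.map.of, FreeGroup.lift_apply_of, hev]
      simp
    exact DFunLike.congr_fun h1 y
  · refine ⟨fun m => if m.unpair.1 = 0 then (ρ m.unpair.2).map (fun p => ((p.1 : ℕ), p.2)) else
      [(k + m.unpair.2, true)], ?_, ?_⟩
    · refine Primrec.ite ?_ ?_ ?_
      · exact Primrec.eq.comp (Primrec.fst.comp Primrec.unpair) (Primrec.const 0)
      · refine Primrec.list_map (hρ.comp (Primrec.snd.comp Primrec.unpair)) ?_
        exact ((Primrec.fin_val.comp (Primrec.fst.comp Primrec.snd)).pair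
          (Primrec.snd.comp Primrec.snd)).to₂
      · exact Primrec.list_cons.comp
          ((Primrec.nat_add.comp (Primrec.const k) (Primrec.snd.comp Primrec.unpair)).pair
            (Primrec.const true)) (Primrec.const [])
    · set rl : ℕ → List (ℕ × Bool) := fun m => if m.unpair.1 = 0 then
        (ρ m.unpair.2).map (fun p => ((p.1 : ℕ), p.2)) else [(k + m.unpair.2, true)] with hrl
      set N' := Subgroup.normalClosure (Set.range fun n => FreeGroup.mk (rl n)) with hN'
      set θ : FreeGroup ℕ →* FreeGroup (Fin k) :=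
        FreeGroup.lift fun i => if h : i < k then FreeGroup.of (⟨i, h⟩ : Fin k) else 1 with hθ
      set σ : FreeGroup (Fin k) →* FreeGroup ℕ := FreeGroup.map (fun i : Fin k => (i : ℕ)) with hσ
      have hLθ : FreeGroup.lift ev = (QuotientGroup.mk' N).comp θ := by
        refine FreeGroup.ext_hom _ _ fun i => ?_
        rw [MonoidHom.comp_apply, FreeGroup.lift_apply_of, hθ, FreeGroup.lift_apply_of, hev]
        by_cases h : i < k
        · simp [h]
        · simp [h]
      have hσmk : ∀ w : List (Fin k × Bool), σ (FreeGroup.mk w) =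
          FreeGroup.mk (w.map fun p => ((p.1 : ℕ), p.2)) := fun w => by
        rw [hσ, FreeGroup.map.mk]
      have hθσ : θ.comp σ = MonoidHom.id _ := by
        refine FreeGroup.ext_hom _ _ fun i => ?_
        rw [MonoidHom.comp_apply, hσ, FreeGroup.map.of, hθ, FreeGroup.lift_apply_of]
        simp
      apply le_antisymm
      · intro x hx
        rw [hLθ, MonoidHom.mem_ker, MonoidHom.comp_apply, QuotientGroup.mk'_apply,
          QuotientGroup.eq_one_iff] at hx
        have hq : (QuotientGroup.mk' N').comp (σ.comp θ) = QuotientGroup.mk' N' := by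
          refine FreeGroup.ext_hom _ _ fun i => ?_
          rw [MonoidHom.comp_apply, MonoidHom.comp_apply, hθ, FreeGroup.lift_apply_of]
          by_cases h : i < k
          · rw [dif_pos h, hσ, FreeGroup.map.of]
          · rw [dif_neg h, map_one, map_one, eq_comm, QuotientGroup.mk'_apply,
              QuotientGroup.eq_one_iff]
            refine Subgroup.subset_normalClosure ⟨Nat.pair 1 (i - k), ?_⟩
            simp only [hrl, Nat.unpair_pair, one_ne_zero, if_false]
            rw [Nat.add_sub_cancel' (not_lt.1 h)]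
            rfl
        have hker : N ≤ ((QuotientGroup.mk' N').comp σ).ker := by
          rw [hN]
          refine Subgroup.normalClosure_le_normal ?_
          rintro _ ⟨w, hw, rfl⟩
          rw [SetLike.mem_coe, MonoidHom.mem_ker, MonoidHom.comp_apply, QuotientGroup.mk'_apply,
            QuotientGroup.eq_one_iff, hσmk]
          have hw' : w ∈ Set.range ρ := by rw [hR]; exact Or.inr hw
          obtain ⟨m, rfl⟩ := hw'
          refine Subgroup.subset_normalClosure ⟨Nat.pair 0 m, ?_⟩
          simp only [hrl, Nat.unpair_pair, if_true]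
        have h1 := hker hx
        rw [MonoidHom.mem_ker, MonoidHom.comp_apply] at h1
        have h2 := DFunLike.congr_fun hq x
        rw [MonoidHom.comp_apply, MonoidHom.comp_apply, h1] at h2
        rw [eq_comm, QuotientGroup.mk'_apply, QuotientGroup.eq_one_iff] at h2
        exact h2
      · rw [hN']
        refine Subgroup.normalClosure_le_normal ?_
        rintro _ ⟨m, rfl⟩
        rw [SetLike.mem_coe, MonoidHom.mem_ker, hLθ, MonoidHom.comp_apply]
        simp only [hrl]
        split_ifs with h0
        · rw [← hσmk]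
          have h1 := DFunLike.congr_fun hθσ (FreeGroup.mk (ρ m.unpair.2))
          rw [MonoidHom.comp_apply, MonoidHom.id_apply] at h1
          rw [h1, QuotientGroup.mk'_apply, QuotientGroup.eq_one_iff]
          have h2 : ρ m.unpair.2 ∈ insert [] R := by rw [← hR]; exact ⟨_, rfl⟩
          rcases h2 with h2 | h2
          · rw [h2]
            exact N.one_mem
          · exact Subgroup.subset_normalClosure ⟨_, h2, rfl⟩
        · have h1 : FreeGroup.mk [(k + m.unpair.2, true)] = FreeGroup.of (k + m.unpair.2) := rfl
          rw [h1, hθ, FreeGroup.lift_apply_of, dif_neg (by omega), map_one]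

end Final

open Final in
theorem final_proof : Stmt_Final := by
  intro hEnum hRPQ hRPE n hW G _ hG
  obtain ⟨k, R, hRe, ⟨iso⟩⟩ := hG
  obtain ⟨ρ, hρ, hρR⟩ := hEnum k R hRe
  -- `G` is recursively presented
  have hset : ((fun w => (QuotientGroup.mk (FreeGroup.mk w) : RelFree n k)) '' R) =
      (QuotientGroup.mk : FreeGroup (Fin k) → RelFree n k) '' (FreeGroup.mk '' R) := by
    rw [Set.image_image]
  obtain ⟨i₁⟩ := exists_iso (FreeGroup.mk '' R) n
  have hRP : RP G := by
    refine hRPE _ G ?_ ⟨_, hRPQ _ _ (rp_presented k R ρ hρ hρR) n⟩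
    exact (i₁.trans (QuotientGroup.quotientMulEquivOfEq (by rw [hset]))).trans iso.symm
  -- `G` is solvable of index `n`
  have hsol : derivedSeries G n = ⊥ := by
    have h1 : derivedSeries (RelFree n k) n = ⊥ := by
      rw [← map_derivedSeries_eq (QuotientGroup.mk'_surjective (derivedSeries (FreeGroup (Fin k)) n)),
        QuotientGroup.map_mk'_self]
    set M := Subgroup.normalClosure
      ((fun w => (QuotientGroup.mk (FreeGroup.mk w) : RelFree n k)) '' R) with hM
    have h2 : derivedSeries (RelFree n k ⧸ M) n = ⊥ := by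
      rw [← map_derivedSeries_eq (QuotientGroup.mk'_surjective M), h1, Subgroup.map_bot]
    rw [← map_derivedSeries_eq (f := (iso.symm : (RelFree n k ⧸ M) →* G)) iso.symm.surjective, h2,
      Subgroup.map_bot]
  obtain ⟨P, _, f, hP, hf, hf'⟩ := hW G hRP hsol
  refine ⟨P ⧸ derivedSeries P n, inferInstance, ?_, (QuotientGroup.mk' _).comp f, ?_⟩
  · obtain ⟨l, s, hs, ⟨i₂⟩⟩ := Group.IsFinitelyPresented.exists_mulEquiv_presentedGroup (G := P)
    obtain ⟨i₃⟩ := exists_iso s n
    refine ⟨l, QuotientGroup.mk '' s, hs.image _, ⟨?_⟩⟩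
    have h1 : (derivedSeries P n).map (i₂ : P →* PresentedGroup s) =
        derivedSeries (PresentedGroup s) n := map_derivedSeries_eq i₂.surjective n
    exact (QuotientGroup.congr _ _ i₂ h1).trans i₃
  · rw [injective_iff_map_eq_one]
    intro a ha
    rw [MonoidHom.comp_apply, QuotientGroup.mk'_apply, QuotientGroup.eq_one_iff] at ha
    exact hf' a ha

end Pool.Agent.HIG
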