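import Mathlib
import Pool.Agent.HIG.Basic

/-!
# Module IND: base change of modules along an injective homomorphism
-/

noncomputable section

set_option linter.unusedSectionVars false

namespace Pool.Agent.HIG.Ind

open Function
open scoped Classical

section chg
variable {Q Y : Type} [Group Q] [Group Y] (θ : Q →* Y)

/-- the homomorphism of group rings -/
def cr : RG Q →+* RG Y := MonoidAlgebra.mapDomainRingHom ℤ θ

theorem cr_el (q : Q) : cr θ (el q) = el (θ q) := by
  simp [cr, el]

theorem chg_single {ι : Type} (i : ι) (a : RG Q) :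
    chg θ (Finsupp.single i a) = Finsupp.single i (cr θ a) := by
  simp [chg, cr]

theorem chg_apply {ι : Type} (v : ι →₀ RG Q) (i : ι) : chg θ v i = cr θ (v i) := rfl

theorem chg_add {ι : Type} (v w : ι →₀ RG Q) : chg θ (v + w) = chg θ v + chg θ w := by
  ext1 i
  rw [Finsupp.add_apply, chg_apply, chg_apply, chg_apply, Finsupp.add_apply, map_add]

theorem chg_zero {ι : Type} : chg θ (0 : ι →₀ RG Q) = 0 := by
  ext1 i
  simp [chg]

theorem chg_smul {ι : Type} (a : RG Q) (v : ι →₀ RG Q) : chg θ (a • v) = cr θ a • chg θ v := by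
  ext1 i
  rw [Finsupp.smul_apply, chg_apply, chg_apply, Finsupp.smul_apply, smul_eq_mul, smul_eq_mul,
    map_mul]

/-- change of groups, additive version -/
def chgHom (ι : Type) : (ι →₀ RG Q) →+ (ι →₀ RG Y) where
  toFun := chg θ
  map_zero' := chg_zero θ
  map_add' := chg_add θ

end chg

section coind
variable {Q Y : Type} [Group Q] [Group Y] (θ : Q →* Y) (D : Type) [AddCommGroup D]
  [Module (RG Q) D]

/-- functions on `Y` -/
def MM (Y D : Type) : Type := Y → D

instance : AddCommGroup (MM Y D) := inferInstanceAs (AddCommGroup (Y → D))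

/-- the shift action -/
def shift : Y →* Module.End ℤ (MM Y D) where
  toFun y :=
    { toFun := fun F x => F (x * y)
      map_add' := fun _ _ => rfl
      map_smul' := fun _ _ => rfl }
  map_one' := by
    ext F
    funext x
    change F (x * 1) = F x
    rw [mul_one]
  map_mul' y y' := by
    ext F
    funext x
    change F (x * (y * y')) = F (x * y * y')
    rw [mul_assoc]

instance : Module (RG Y) (MM Y D) :=
  Module.compHom (MM Y D) (MonoidAlgebra.lift ℤ (Module.End ℤ (MM Y D)) Y (shift D)).toRingHom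

theorem el_smul_MM (y : Y) (F : MM Y D) (x : Y) : (el y • F : MM Y D) x = F (x * y) := by
  change (MonoidAlgebra.lift ℤ (Module.End ℤ (MM Y D)) Y (shift D) (el y) F) x = _
  rw [el, MonoidAlgebra.lift_single, one_smul]
  rfl

/-- the coinduced function of an element -/
def fn (d : D) : MM Y D := fun x => if h : ∃ q, θ q = x then el h.choose • d else 0

theorem fn_of (hθ : Injective θ) (d : D) (q : Q) : fn θ D d (θ q) = el q • d := by
  have h : ∃ q', θ q' = θ q := ⟨q, rfl⟩
  rw [fn, dif_pos h, hθ h.choose_spec]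

theorem fn_of_not (d : D) {x : Y} (h : ¬ ∃ q, θ q = x) : fn θ D d x = 0 := by
  rw [fn, dif_neg h]

theorem fn_add (d d' : D) : fn θ D (d + d') = fn θ D d + fn θ D d' := by
  funext x
  change _ = fn θ D d x + fn θ D d' x
  unfold fn
  split_ifs with h
  · rw [smul_add]
  · rw [add_zero]

/-- additive version -/
def fnHom : D →+ MM Y D := AddMonoidHom.mk' (fn θ D) (fn_add θ D)

theorem fn_el (hθ : Injective θ) (q : Q) (d : D) :
    fn θ D (el q • d) = (el (θ q) • fn θ D d : MM Y D) := by
  funext x
  rw [el_smul_MM]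
  by_cases h : ∃ q', θ q' = x
  · obtain ⟨q', rfl⟩ := h
    rw [← map_mul, fn_of θ D hθ, fn_of θ D hθ, el_mul, mul_smul]
  · rw [fn_of_not θ D _ h, fn_of_not θ D]
    rintro ⟨q', hq'⟩
    exact h ⟨q' * q⁻¹, by rw [map_mul, hq', map_inv, mul_inv_cancel_right]⟩

theorem fn_smul (hθ : Injective θ) (a : RG Q) (d : D) :
    fnHom θ D (a • d) = (cr θ a • fnHom θ D d : MM Y D) := by
  refine RG.induction (p := fun a => fnHom θ D (a • d) = (cr θ a • fnHom θ D d : MM Y D))
    ?_ ?_ ?_ ?_ a
  · rw [zero_smul, map_zero, map_zero, zero_smul]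
  · intro x y hx hy
    rw [add_smul, map_add, hx, hy, map_add, add_smul]
  · intro x hx
    rw [neg_smul, map_neg, hx, map_neg, neg_smul]
  · intro g
    rw [cr_el]
    exact fn_el θ D hθ g d

end coind

end Pool.Agent.HIG.Ind

namespace Pool.Agent.HIG

open Function Ind

theorem ind_proof : Stmt_Ind := by
  intro Q Y _ _ θ hθ ι D _ _ f R hspan hker
  let N : Submodule (RG Y) (ι →₀ RG Y) := Submodule.span (RG Y) (chg θ '' R)
  let Lc : (ι →₀ RG Q) →ₗ[RG Q] D := Finsupp.linearCombination (RG Q) f
  have hLc : Function.Surjective Lc := by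
    rw [← LinearMap.range_eq_top, Finsupp.range_linearCombination]
    exact hspan
  -- the coinduced module
  let E : (ι →₀ RG Y) →ₗ[RG Y] MM Y D := Finsupp.linearCombination (RG Y) fun i => fn θ D (f i)
  have hE : ∀ v : ι →₀ RG Q, E (chg θ v) = fnHom θ D (Lc v) := by
    intro v
    induction v using Finsupp.induction_linear with
    | zero => rw [chg_zero, map_zero, map_zero, map_zero]
    | add v w hv hw => rw [chg_add, map_add, hv, hw, map_add, map_add]
    | single i a =>
      rw [chg_single]
      simp only [E, Lc, Finsupp.linearCombination_single]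
      rw [fn_smul θ D hθ]
      rfl
  have hNE : N ≤ LinearMap.ker E := by
    apply Submodule.span_le.2
    rintro _ ⟨v, hv, rfl⟩
    change E (chg θ v) = 0
    have h1 : v ∈ LinearMap.ker Lc := by
      rw [hker]
      exact Submodule.subset_span hv
    rw [hE, LinearMap.mem_ker.1 h1, map_zero]
  have hchg : ∀ v ∈ Submodule.span (RG Q) R, chg θ v ∈ N := by
    intro v hv
    induction hv using Submodule.span_induction with
    | mem x hx => exact Submodule.subset_span ⟨x, hx, rfl⟩
    | zero => rw [chg_zero]; exact N.zero_mem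
    | add x y _ _ hx hy => rw [chg_add]; exact N.add_mem hx hy
    | smul a x _ hx => rw [chg_smul]; exact N.smul_mem _ hx
  let g : (ι →₀ RG Q) →+ ((ι →₀ RG Y) ⧸ N) := N.mkQ.toAddMonoidHom.comp (chgHom θ ι)
  have hg : Lc.toAddMonoidHom.ker ≤ g.ker := by
    intro v hv
    have h1 : v ∈ Submodule.span (RG Q) R := by
      rw [← hker]
      exact hv
    exact (Submodule.Quotient.mk_eq_zero N).2 (hchg v h1)
  let j : D →+ ((ι →₀ RG Y) ⧸ N) :=
    (Lc.toAddMonoidHom.liftOfSurjective hLc) ⟨g, hg⟩
  have hj : ∀ v, j (Lc v) = N.mkQ (chg θ v) := fun v =>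
    AddMonoidHom.liftOfRightInverse_comp_apply _ _ _ ⟨g, hg⟩ v
  have hel : ∀ (q : Q) (v : ι →₀ RG Q), j (el q • Lc v) = el (θ q) • j (Lc v) := by
    intro q v
    rw [← map_smul, hj, hj, chg_smul, cr_el, map_smul]
  refine ⟨(ι →₀ RG Y) ⧸ N, inferInstance, inferInstance, fun i => N.mkQ (Finsupp.single i 1), j,
    ?_, ?_, ?_, ?_, ?_⟩
  · rw [eq_top_iff]
    rintro x -
    obtain ⟨v, rfl⟩ := N.mkQ_surjective x
    induction v using Finsupp.induction_linear with
    | zero => rw [map_zero]; exact Submodule.zero_mem _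
    | add v w hv hw => rw [map_add]; exact Submodule.add_mem _ hv hw
    | single i a =>
      have h1 : Finsupp.single i a = a • (Finsupp.single i 1 : ι →₀ RG Y) := by
        rw [Finsupp.smul_single, smul_eq_mul, mul_one]
      rw [h1, map_smul]
      exact Submodule.smul_mem _ _ (Submodule.subset_span ⟨i, rfl⟩)
  · have h1 : Finsupp.linearCombination (RG Y) (fun i => N.mkQ (Finsupp.single i 1)) = N.mkQ := by
      apply Finsupp.lhom_ext
      intro i a
      rw [Finsupp.linearCombination_single, ← map_smul, Finsupp.smul_single, smul_eq_mul, mul_one]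
    rw [h1, Submodule.ker_mkQ]
  · rw [injective_iff_map_eq_zero]
    intro d hd
    obtain ⟨v, rfl⟩ := hLc d
    rw [hj] at hd
    have h1 : chg θ v ∈ N := (Submodule.Quotient.mk_eq_zero N).1 hd
    have h2 : E (chg θ v) = 0 := hNE h1
    rw [hE] at h2
    have h3 := congrFun h2 (θ 1)
    have h4 : (fnHom θ D (Lc v) : MM Y D) (θ 1) = el (1 : Q) • Lc v := fn_of θ D hθ _ 1
    rw [h4, el_one, one_smul] at h3
    exact h3
  · intro i
    have h1 : f i = Lc (Finsupp.single i 1) := by
      simp only [Lc, Finsupp.linearCombination_single, one_smul]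
    rw [h1, hj, chg_single, map_one]
  · intro q d
    obtain ⟨v, rfl⟩ := hLc d
    exact hel q v

end Pool.Agent.HIG
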