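import Mathlib
import Pool.Agent.HIG.Extra

/-!
# Module KK : Kaloujnine-Krasner embedding with a primitive recursive module presentation
-/

noncomputable section

set_option linter.unusedSectionVars false

namespace Pool.Agent.HIG.KKX

open Function Pool.Agent.HIG

/-! ### Fox derivatives of words -/

/-- the first term -/
def ft (a : ℕ × Bool) : Bool × ℕ × Word := (a.2, a.1, if a.2 then [] else [a])

/-- prepend a letter to the word of a term -/
def pre (a : ℕ × Bool) (t : Bool × ℕ × Word) : Bool × ℕ × Word := (t.1, t.2.1, a :: t.2.2)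

/-- the Fox relation of a word -/
def fox : Word → MRel
  | [] => []
  | a :: w => ft a :: (fox w).map (pre a)

theorem primrec_ft : Primrec ft := by
  unfold ft
  refine Primrec.pair Primrec.snd (Primrec.pair Primrec.fst ?_)
  have h : Primrec fun a : ℕ × Bool => cond a.2 ([] : Word) [a] := by
    refine Primrec.cond Primrec.snd (Primrec.const _) ?_
    exact Primrec.list_cons.comp Primrec.id (Primrec.const _)
  refine h.of_eq ?_
  rintro ⟨i, b⟩
  cases b <;> rfl

theorem primrec_pre : Primrec₂ pre := by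
  unfold pre
  refine Primrec.pair (Primrec.fst.comp Primrec.snd)
    (Primrec.pair (Primrec.fst.comp (Primrec.snd.comp Primrec.snd)) ?_)
  exact Primrec.list_cons.comp Primrec.fst (Primrec.snd.comp (Primrec.snd.comp Primrec.snd))

theorem primrec_fox : Primrec fox := by
  have hstep : Primrec₂ fun (_ : Word) (x : (ℕ × Bool) × Word × MRel) =>
      ft x.1 :: x.2.2.map (pre x.1) := by
    refine Primrec.list_cons.comp ?_ ?_
    · exact primrec_ft.comp (Primrec.fst.comp Primrec.snd)
    · refine Primrec.list_map (Primrec.snd.comp (Primrec.snd.comp Primrec.snd)) ?_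
      exact primrec_pre.comp (Primrec.fst.comp (Primrec.snd.comp Primrec.fst)) Primrec.snd
  have h : Primrec fun w : Word => List.recOn (motive := fun _ => MRel) w []
      (fun a _ IH => ft a :: IH.map (pre a)) :=
    Primrec.list_rec Primrec.id (Primrec.const []) hstep
  refine h.of_eq ?_
  intro w
  induction w with
  | nil => rfl
  | cons a w ih => simp only [fox, ← ih]

/-! ### Values -/

theorem evw_nil {G : Type} [Group G] (ev : ℕ → G) : evw ev [] = 1 := by
  simp [evw]

theorem evw_cons {G : Type} [Group G] (ev : ℕ → G) (a : ℕ × Bool) (w : Word) :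
    evw ev (a :: w) = evw ev [a] * evw ev w := by
  unfold evw
  rw [← map_mul, FreeGroup.mul_mk]
  rfl

theorem evw_single {G : Type} [Group G] (ev : ℕ → G) (i : ℕ) (b : Bool) :
    evw ev [(i, b)] = if b then ev i else (ev i)⁻¹ := by
  cases b <;> simp [evw]

theorem evw_map {G H : Type} [Group G] [Group H] (θ : G →* H) (ev : ℕ → G) (w : Word) :
    θ (evw ev w) = evw (fun i => θ (ev i)) w := by
  induction w with
  | nil => simp [evw_nil]
  | cons a w ih =>
    obtain ⟨i, b⟩ := a
    rw [evw_cons, map_mul, ih, evw_cons (fun i => θ (ev i))]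
    congr 1
    cases b <;> simp [evw_single]

section
variable {Q : Type} [Group Q] (ev : ℕ → Q)

theorem mrel_nil : mrel ev [] = 0 := rfl

theorem mrel_cons (t : Bool × ℕ × Word) (R : MRel) :
    mrel ev (t :: R) = Finsupp.single t.2.1 (sgn t.1 • el (evw ev t.2.2)) + mrel ev R := by
  simp [mrel]

theorem mrel_map_pre (a : ℕ × Bool) (R : MRel) :
    mrel ev (R.map (pre a)) = el (evw ev [a]) • mrel ev R := by
  induction R with
  | nil => simp [mrel_nil]
  | cons t R ih =>
    rw [List.map_cons, mrel_cons, mrel_cons, ih, smul_add]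
    congr 1
    simp only [pre]
    rw [evw_cons ev a, el_mul, Finsupp.smul_single, smul_eq_mul, mul_smul_comm]

variable {D : Type} [AddCommGroup D] [Module (RG Q) D] (f : ℕ → D)

theorem evw_q (w : Word) : (evw (fun i => (⟨f i, ev i⟩ : Sd Q D)) w).q = evw ev w := by
  induction w with
  | nil => simp [evw_nil, Sd.one_q]
  | cons a w ih =>
    obtain ⟨i, b⟩ := a
    rw [evw_cons, Sd.mul_q, ih, evw_cons ev]
    congr 1
    cases b <;> simp [evw_single, Sd.inv_q]

theorem evw_d (w : Word) : (evw (fun i => (⟨f i, ev i⟩ : Sd Q D)) w).d =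
    Finsupp.linearCombination (RG Q) f (mrel ev (fox w)) := by
  induction w with
  | nil => simp [evw_nil, Sd.one_d, fox, mrel_nil]
  | cons a w ih =>
    obtain ⟨i, b⟩ := a
    rw [evw_cons, Sd.mul_d, ih, fox, mrel_cons, mrel_map_pre, map_add, map_smul, evw_q]
    congr 1
    cases b
    · simp [evw_single, Sd.inv_d, ft, sgn]
    · simp [evw_single, ft, sgn, evw_nil, el_one]

end

/-! ### The coinduced module -/

section
variable {Q A : Type} [Group Q] [AddCommGroup A]

/-- right translation of functions -/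
def coRep (Q A : Type) [Group Q] [AddCommGroup A] : Representation ℤ Q (Q → A) where
  toFun l :=
    { toFun := fun f c => f (c * l)
      map_add' := fun _ _ => rfl
      map_smul' := fun _ _ => rfl }
  map_one' := by
    ext f c
    simp
  map_mul' l m := by
    ext f c
    simp [mul_assoc]

end

/-! ### The Frobenius embedding -/

section
variable {G : Type} [Group G] (K : Subgroup G) [K.Normal]
  (hK : ∀ x ∈ K, ∀ y ∈ K, x * y = y * x)

/-- the commutative kernel -/
@[reducible] def commK {G : Type} [Group G] (K : Subgroup G)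
    (hK : ∀ x ∈ K, ∀ y ∈ K, x * y = y * x) : CommGroup K :=
  { (inferInstance : Group K) with
    mul_comm := fun a b => Subtype.ext (hK a.1 a.2 b.1 b.2) }

/-- section of the quotient map -/
def sec (c : G ⧸ K) : G := Quotient.out c

theorem mk_sec (c : G ⧸ K) : (QuotientGroup.mk (sec K c) : G ⧸ K) = c := by
  unfold sec
  exact Quotient.out_eq' c

theorem frob_mem (g : G) (c : G ⧸ K) :
    sec K c * g * (sec K (c * (QuotientGroup.mk g : G ⧸ K)))⁻¹ ∈ K := by
  rw [← QuotientGroup.eq_one_iff]
  simp [mk_sec]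

/-- the Frobenius functions -/
def frob (g : G) (c : G ⧸ K) : Additive K :=
  Additive.ofMul ⟨sec K c * g * (sec K (c * (QuotientGroup.mk g : G ⧸ K)))⁻¹, frob_mem K g c⟩

end

/-- the Frobenius embedding into a coinduced module, abstractly -/
theorem frob_exists {G : Type} [Group G] (K : Subgroup G) [K.Normal]
    (hK : ∀ x ∈ K, ∀ y ∈ K, x * y = y * x) :
    ∃ (D : Type) (_ : AddCommGroup D) (_ : Module (RG (G ⧸ K)) D) (F : G → D),
      (∀ g h, F (g * h) = F g + el (QuotientGroup.mk g : G ⧸ K) • F h) ∧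
      ∀ g, F g = 0 → (QuotientGroup.mk g : G ⧸ K) = 1 → g = 1 := by
  let _ : CommGroup K := commK K hK
  let rep : Representation ℤ (G ⧸ K) (G ⧸ K → Additive K) := coRep (G ⧸ K) (Additive K)
  refine ⟨rep.asModule, inferInstance, inferInstance,
    fun g => rep.asModuleEquiv.symm (frob K g), ?_, ?_⟩
  · intro g h
    have h1 : el (QuotientGroup.mk g : G ⧸ K) • rep.asModuleEquiv.symm (frob K h) =
        rep.asModuleEquiv.symm (rep (QuotientGroup.mk g) (frob K h)) := by
      rw [el, Representation.single_smul]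
      simp only [one_smul, LinearEquiv.apply_symm_apply]
      rfl
    rw [h1, ← map_add]
    congr 1
    funext c
    change frob K (g * h) c = frob K g c + frob K h (c * QuotientGroup.mk g)
    apply Additive.toMul.injective
    rw [toMul_add]
    apply Subtype.ext
    change sec K c * (g * h) * (sec K (c * (QuotientGroup.mk (g * h) : G ⧸ K)))⁻¹ =
      (sec K c * g * (sec K (c * (QuotientGroup.mk g : G ⧸ K)))⁻¹) *
      (sec K (c * QuotientGroup.mk g) * h *
        (sec K (c * QuotientGroup.mk g * (QuotientGroup.mk h : G ⧸ K)))⁻¹)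
    rw [QuotientGroup.mk_mul, mul_assoc c]
    group
  · intro g hg h1
    rw [LinearEquiv.map_eq_zero_iff] at hg
    have h2 : frob K g 1 = 0 := congrFun hg 1
    have h3 : sec K 1 * g * (sec K (1 * (QuotientGroup.mk g : G ⧸ K)))⁻¹ = 1 :=
      congrArg (fun x : Additive K => ((Additive.toMul x : K) : G)) h2
    rw [h1, mul_one, mul_inv_eq_one] at h3
    exact mul_left_cancel (h3.trans (mul_one _).symm)

/-- everything after the choice of the kernel -/
theorem main {G : Type} [Group G] (K : Subgroup G) [K.Normal]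
    (hK : ∀ x ∈ K, ∀ y ∈ K, x * y = y * x) (ev : ℕ → G) (hG : RPg G ev) :
    ∃ (D : Type) (_ : AddCommGroup D) (_ : Module (RG (G ⧸ K)) D)
      (f : ℕ → D) (ρ : ℕ → MRel) (φ : G →* Sd (G ⧸ K) D),
      PMod (G ⧸ K) (fun i => QuotientGroup.mk (ev i)) D f ρ ∧ Injective φ := by
  obtain ⟨⟨k, hk⟩, hgen, ρ₀, hρ₀, hker⟩ := hG
  let Q : Type := G ⧸ K
  let evQ : ℕ → Q := fun i => QuotientGroup.mk (ev i)
  -- the relations
  let ρ : ℕ → MRel := fun m => if m % 2 = 0 then fox (ρ₀ (m / 2)) else [(true, k + m / 2, [])]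
  have hρ : Primrec ρ := by
    refine Primrec.ite ?_ ?_ ?_
    · exact PrimrecRel.comp Primrec.eq
        (Primrec.nat_mod.comp Primrec.id (Primrec.const 2)) (Primrec.const 0)
    · exact primrec_fox.comp (hρ₀.comp (Primrec.nat_div.comp Primrec.id (Primrec.const 2)))
    · refine Primrec.list_cons.comp ?_ (Primrec.const [])
      refine Primrec.pair (Primrec.const true) (Primrec.pair ?_ (Primrec.const []))
      exact Primrec.nat_add.comp (Primrec.const k)
        (Primrec.nat_div.comp Primrec.id (Primrec.const 2))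
  let S : Submodule (RG Q) (ℕ →₀ RG Q) :=
    Submodule.span (RG Q) (Set.range fun n => mrel evQ (ρ n))
  let D : Type := (ℕ →₀ RG Q) ⧸ S
  let f : ℕ → D := fun i => S.mkQ (Finsupp.single i 1)
  have hlin : Finsupp.linearCombination (RG Q) f = S.mkQ := by
    ext i
    simp only [LinearMap.comp_apply, Finsupp.lsingle_apply, Finsupp.linearCombination_single,
      one_smul]
    rfl
  have hrel : ∀ n, Finsupp.linearCombination (RG Q) f (mrel evQ (ρ n)) = 0 := by
    intro n
    rw [hlin, Submodule.mkQ_apply, Submodule.Quotient.mk_eq_zero]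
    exact Submodule.subset_span ⟨n, rfl⟩
  have hodd : ∀ j, mrel evQ (ρ (2 * j + 1)) = Finsupp.single (k + j) 1 := by
    intro j
    have h1 : (2 * j + 1) % 2 = 1 := by omega
    have h2 : (2 * j + 1) / 2 = j := by omega
    simp [ρ, h1, h2, mrel_cons, mrel_nil, sgn, evw_nil, el_one]
  have heven : ∀ j, mrel evQ (ρ (2 * j)) = mrel evQ (fox (ρ₀ j)) := by
    intro j
    have h1 : (2 * j) % 2 = 0 := by omega
    have h2 : (2 * j) / 2 = j := by omega
    simp [ρ, h2]
  have hsurj : Surjective (FreeGroup.lift ev) := by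
    rw [← MonoidHom.range_eq_top, FreeGroup.range_lift_eq_closure, hgen]
  have hword : ∀ g : G, ∃ w : Word, evw ev w = g := by
    intro g
    obtain ⟨x, hx⟩ := hsurj g
    refine ⟨x.toWord, ?_⟩
    rw [evw, FreeGroup.mk_toWord, hx]
  have hρ₀1 : ∀ n, evw ev (ρ₀ n) = 1 := by
    intro n
    have : FreeGroup.mk (ρ₀ n) ∈ (FreeGroup.lift ev).ker := by
      rw [hker]
      exact Subgroup.subset_normalClosure ⟨n, rfl⟩
    exact this
  -- the homomorphism
  let G₁ : FreeGroup ℕ →* Sd Q D := FreeGroup.lift (fun i => (⟨f i, evQ i⟩ : Sd Q D))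
  have hevwQ : ∀ w : Word, evw evQ w = QuotientGroup.mk (evw ev w) := by
    intro w
    exact (evw_map (QuotientGroup.mk' K) ev w).symm
  have hkle : (FreeGroup.lift ev).ker ≤ G₁.ker := by
    rw [hker]
    refine Subgroup.normalClosure_le_normal ?_
    rintro _ ⟨n, rfl⟩
    change evw (fun i => (⟨f i, evQ i⟩ : Sd Q D)) (ρ₀ n) = 1
    ext
    · rw [evw_d, Sd.one_d, ← heven]
      exact hrel _
    · rw [evw_q, Sd.one_q, hevwQ, hρ₀1]
      rfl
  let φ : G →* Sd Q D := (FreeGroup.lift ev).liftOfSurjective hsurj ⟨G₁, hkle⟩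
  have hφ : ∀ w : Word, φ (evw ev w) = evw (fun i => (⟨f i, evQ i⟩ : Sd Q D)) w := by
    intro w
    have := MonoidHom.liftOfRightInverse_comp_apply (FreeGroup.lift ev)
      (Function.surjInv hsurj) (Function.rightInverse_surjInv hsurj) ⟨G₁, hkle⟩ (FreeGroup.mk w)
    exact this
  refine ⟨D, inferInstance, inferInstance, f, ρ, φ, ⟨?_, ?_, ?_, hρ, ?_⟩, ?_⟩
  · refine ⟨k, fun i hi => ?_⟩
    change (QuotientGroup.mk (ev i) : G ⧸ K) = 1
    rw [hk i hi]
    rfl
  · refine ⟨k, fun i hi => ?_⟩
    obtain ⟨j, rfl⟩ := Nat.exists_eq_add_of_le hi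
    have h := hrel (2 * j + 1)
    rw [hodd, Finsupp.linearCombination_single, one_smul] at h
    exact h
  · rw [← Finsupp.range_linearCombination]
    change LinearMap.range (Finsupp.linearCombination (RG Q) f) = ⊤
    rw [hlin]
    exact Submodule.range_mkQ S
  · change LinearMap.ker (Finsupp.linearCombination (RG Q) f) = S
    rw [hlin, Submodule.ker_mkQ]
  · -- injectivity
    obtain ⟨D₂, _, _, F, hF, hinj⟩ := frob_exists K hK
    let ψ : G →* Sd Q D₂ :=
      MonoidHom.mk' (fun g => (⟨F g, QuotientGroup.mk g⟩ : Sd Q D₂)) (by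
        intro g h
        ext
        · rw [Sd.mul_d]
          exact hF g h
        · rfl)
    have hψ : ∀ w : Word, (ψ (evw ev w)).d =
        Finsupp.linearCombination (RG Q) (fun i => F (ev i)) (mrel evQ (fox w)) := by
      intro w
      rw [evw_map ψ, ← evw_d evQ (fun i => F (ev i)) w]
      rfl
    have hle : S ≤ LinearMap.ker (Finsupp.linearCombination (RG Q) (fun i => F (ev i))) := by
      refine Submodule.span_le.2 ?_
      rintro _ ⟨n, rfl⟩
      rw [SetLike.mem_coe, LinearMap.mem_ker]
      obtain ⟨j, rfl | rfl⟩ : ∃ j, n = 2 * j ∨ n = 2 * j + 1 := ⟨n / 2, by omega⟩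
      · change Finsupp.linearCombination (RG Q) (fun i => F (ev i)) (mrel evQ (ρ (2 * j))) = 0
        rw [heven, ← hψ, hρ₀1, map_one]
        rfl
      · change Finsupp.linearCombination (RG Q) (fun i => F (ev i)) (mrel evQ (ρ (2 * j + 1))) = 0
        rw [hodd, Finsupp.linearCombination_single, one_smul, hk (k + j) (by omega)]
        have h1 : (ψ 1).d = 0 := by
          rw [map_one]
          rfl
        exact h1
    rw [injective_iff_map_eq_one]
    intro g hg
    obtain ⟨w, rfl⟩ := hword g
    have h1 : (φ (evw ev w)).d = 0 := by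
      rw [hg]
      rfl
    have h2 : (φ (evw ev w)).q = 1 := by
      rw [hg]
      rfl
    rw [hφ, evw_d, hlin, Submodule.mkQ_apply, Submodule.Quotient.mk_eq_zero] at h1
    have h3 := hle h1
    rw [LinearMap.mem_ker, ← hψ] at h3
    rw [hφ, evw_q, hevwQ] at h2
    exact hinj _ h3 h2

end Pool.Agent.HIG.KKX

namespace Pool.Agent.HIG

open Function
open scoped commutatorElement

/-- Kaloujnine-Krasner -/
theorem kk_proof : Stmt_KKAsm := by
  intro hq n G _ hRP hder
  obtain ⟨ev, hG⟩ := hRP
  have hcomm : ∀ x ∈ derivedSeries G n, ∀ y ∈ derivedSeries G n, x * y = y * x := by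
    intro x hx y hy
    have h1 : ⁅x, y⁆ ∈ derivedSeries G (n + 1) := by
      rw [derivedSeries_succ]
      exact Subgroup.commutator_mem_commutator hx hy
    rw [hder, Subgroup.mem_bot, commutatorElement_eq_one_iff_mul_comm] at h1
    exact h1
  obtain ⟨D, hD1, hD2, f, ρ, φ, h1, h2⟩ := KKX.main (derivedSeries G n) hcomm ev hG
  refine ⟨G ⧸ derivedSeries G n, inferInstance, fun i => QuotientGroup.mk (ev i), D, hD1, hD2,
    f, ρ, φ, hq G ev hG n, ?_, h1, h2⟩
  have h3 : (derivedSeries G n).map (QuotientGroup.mk' (derivedSeries G n)) =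
      derivedSeries (G ⧸ derivedSeries G n) n :=
    map_derivedSeries_eq (QuotientGroup.mk'_surjective _) n
  rw [← h3, Subgroup.map_eq_bot_iff, QuotientGroup.ker_mk']

end Pool.Agent.HIG

end
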