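import Mathlib
import Pool.Agent.HIG.Basic

/-!
# Bookkeeping for layers: letters indexed by a finite type, commutation with elements of `Y`,
and the relations of a module
-/

noncomputable section

set_option linter.unusedSectionVars false

namespace Pool.Agent.HIG

open Function

/-! ### more about words -/

section words
variable {G : Type} [Group G]

/-- inverse word -/
def winv (w : Word) : Word := (w.map fun p => (p.1, !p.2)).reverse

theorem evw_winv (ev : ℕ → G) (w : Word) : evw ev (winv w) = (evw ev w)⁻¹ := by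
  induction w with
  | nil => simp [winv, evw_nil]
  | cons a w ih =>
    obtain ⟨i, b⟩ := a
    have e : winv ((i, b) :: w) = winv w ++ [(i, !b)] := by simp [winv]
    rw [e, evw_append, ih, evw_cons, evw_cons, evw_nil, mul_inv_rev, mul_one]
    cases b <;> simp

theorem winv_primrec : Primrec winv := by
  refine Primrec.list_reverse.comp (Primrec.list_map Primrec.id ?_)
  exact (Primrec.fst.comp Primrec.snd).pair (Primrec.not.comp (Primrec.snd.comp Primrec.snd))

theorem evw_flatMap {α : Type} (ev : ℕ → G) (g : α → Word) (l : List α) :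
    evw ev (l.flatMap g) = (l.map fun a => evw ev (g a)).prod := by
  induction l with
  | nil => simp [evw_nil]
  | cons a l ih =>
    rw [List.flatMap_cons, evw_append, ih, List.map_cons, List.prod_cons]

/-- shift of the letters -/
def sh (L : ℕ) (w : Word) : Word := w.map fun p => (p.1 + L, p.2)

theorem evw_sh (L : ℕ) (u v : ℕ → G) (w : Word) :
    evw (fun i => if i < L then u i else v (i - L)) (sh L w) = evw v w := by
  induction w with
  | nil => simp [sh, evw_nil]
  | cons a w ih =>
    obtain ⟨i, b⟩ := a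
    have e : sh L ((i, b) :: w) = (i + L, b) :: sh L w := rfl
    rw [e, evw_cons, evw_cons, ih]
    have : ¬ (i + L < L) := by omega
    simp [this]

/-- substitution of words given by a finite table -/
def tr (tbl : List Word) (w : Word) : Word :=
  w.flatMap fun p => bif p.2 then tbl.getD p.1 [] else winv (tbl.getD p.1 [])

theorem tr_primrec (tbl : List Word) : Primrec (tr tbl) := by
  refine Primrec.list_flatMap Primrec.id ?_
  have h1 : Primrec fun x : Word × ℕ × Bool => tbl.getD x.2.1 [] :=
    (Primrec.list_getD []).comp (Primrec.const tbl) (Primrec.fst.comp Primrec.snd)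
  exact Primrec.cond (Primrec.snd.comp Primrec.snd) h1 (winv_primrec.comp h1)

theorem evw_tr (tbl : List Word) (ev' : ℕ → G) (ev : ℕ → G)
    (h : ∀ i, evw ev' (tbl.getD i []) = ev i) (w : Word) : evw ev' (tr tbl w) = evw ev w := by
  induction w with
  | nil => simp [tr, evw_nil]
  | cons a w ih =>
    obtain ⟨i, b⟩ := a
    have e : tr tbl ((i, b) :: w) = (bif b then tbl.getD i [] else winv (tbl.getD i [])) ++
      tr tbl w := by simp [tr]
    rw [e, evw_append, evw_cons, ih]
    cases b
    · simp only [cond_false, evw_winv, h]; rfl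
    · simp only [cond_true, h]; rfl

theorem exists_word {ev : ℕ → G} (hc : Subgroup.closure (Set.range ev) = ⊤) (g : G) :
    ∃ w : Word, evw ev w = g := by
  have h1 : Surjective (FreeGroup.lift ev) := by
    rw [← MonoidHom.range_eq_top, FreeGroup.range_lift_eq_closure, hc]
  obtain ⟨x, rfl⟩ := h1 g
  exact ⟨x.toWord, by simp [evw, FreeGroup.mk_toWord]⟩

end words

/-! ### homomorphisms from modules -/

section psi
variable {Q A P : Type} [Group Q] [AddCommGroup A] [Module (RG Q) A] [Group P]

theorem psi_exists {ev : ℕ → Q} {f : ℕ → A} {ρ : ℕ → MRel} (hP : PMod Q ev A f ρ)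
    (i0 : Q →* P) (c : ℕ → P)
    (hc : ∀ x y i j, Commute (cj (i0 x) (c i)) (cj (i0 y) (c j)))
    (hr : ∀ n, ((ρ n).map fun t => cj (i0 (evw ev t.2.2)) (c t.2.1) ^ (sgn t.1)).prod = 1) :
    ∃ ψ : Multiplicative A →* P, (∀ i, ψ (Multiplicative.ofAdd (f i)) = c i) ∧
      ∀ (q : Q) (t : A), ψ (Multiplicative.ofAdd (el q • t)) =
        cj (i0 q) (ψ (Multiplicative.ofAdd t)) := by
  obtain ⟨-, -, hspan, -, hker⟩ := hP
  let F : Q × ℕ → P := fun p => cj (i0 p.1) (c p.2)
  let N : Subgroup P := Subgroup.closure (Set.range F)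
  have hcN : ∀ a ∈ Set.range F, ∀ b ∈ Set.range F, a * b = b * a := by
    rintro _ ⟨x, rfl⟩ _ ⟨y, rfl⟩
    exact (hc x.1 y.1 x.2 y.2).eq
  let _ : CommGroup N := { (inferInstance : Group N) with
    mul_comm := fun a b => by
      have := (Subgroup.isMulCommutative_closure hcN).is_comm.comm a b
      exact this }
  let F₀ : (ℕ →₀ RG Q) →+ Additive N := Finsupp.liftAddHom fun i =>
    RG.lift fun q => Additive.ofMul (⟨F (q, i), Subgroup.subset_closure ⟨(q, i), rfl⟩⟩ : N)
  let Φ : (ℕ →₀ RG Q) → P := fun v => ((F₀ v).toMul : N)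
  have hsingle : ∀ i q, Φ (Finsupp.single i (el q)) = cj (i0 q) (c i) := by
    intro i q
    change (((F₀ (Finsupp.single i (el q))).toMul : N) : P) = _
    rw [show F₀ (Finsupp.single i (el q)) = _ from Finsupp.liftAddHom_apply_single _ _ _,
      RG.lift_el]
    rfl
  have hadd : ∀ v w, Φ (v + w) = Φ v * Φ w := by
    intro v w
    change (((F₀ (v + w)).toMul : N) : P) = _
    rw [map_add]; rfl
  have hzero : Φ 0 = 1 := by
    change (((F₀ 0).toMul : N) : P) = _
    rw [map_zero]; rfl
  have hneg : ∀ v, Φ (-v) = (Φ v)⁻¹ := by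
    intro v
    change (((F₀ (-v)).toMul : N) : P) = _
    rw [map_neg]; rfl
  have hz : ∀ (n : ℤ) v, Φ (n • v) = Φ v ^ n := by
    intro n v
    change (((F₀ (n • v)).toMul : N) : P) = _
    rw [map_zsmul]; rfl
  have heq : ∀ q v, Φ (el q • v) = cj (i0 q) (Φ v) := by
    intro q v
    induction v using Finsupp.induction_linear with
    | zero => rw [smul_zero, hzero, cj_one]
    | add v w hv hw => rw [smul_add, hadd, hv, hw, hadd, cj_mul]
    | single i x =>
      rw [Finsupp.smul_single]
      refine RG.induction (p := fun x => Φ (Finsupp.single i (el q • x)) =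
        cj (i0 q) (Φ (Finsupp.single i x))) ?_ ?_ ?_ ?_ x
      · rw [smul_zero, Finsupp.single_zero, hzero, cj_one]
      · intro x y hx hy
        rw [smul_add, Finsupp.single_add, hadd, hx, hy, Finsupp.single_add, hadd, cj_mul]
      · intro x hx
        rw [smul_neg, Finsupp.single_neg, hneg, hx, Finsupp.single_neg, hneg, cj_inv]
      · intro g
        rw [smul_eq_mul, ← el_mul, hsingle, hsingle, cj_cj, map_mul]
  have hmrel : ∀ R : MRel, Φ (mrel ev R) =
      (R.map fun t => cj (i0 (evw ev t.2.2)) (c t.2.1) ^ (sgn t.1)).prod := by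
    intro R
    induction R with
    | nil => simp only [mrel, List.map_nil, List.sum_nil, List.prod_nil, hzero]
    | cons a R ih =>
      have e : mrel ev (a :: R) =
          Finsupp.single a.2.1 (sgn a.1 • el (evw ev a.2.2)) + mrel ev R := by simp [mrel]
      rw [e, hadd, ih, List.map_cons, List.prod_cons, ← Finsupp.smul_single, hz, hsingle]
  have hspan0 : ∀ v ∈ Submodule.span (RG Q) (Set.range fun n => mrel ev (ρ n)), Φ v = 1 := by
    intro v hv
    induction hv using Submodule.span_induction with
    | mem x hx =>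
      obtain ⟨n, rfl⟩ := hx
      change Φ (mrel ev (ρ n)) = 1
      rw [hmrel]
      exact hr n
    | zero => exact hzero
    | add x y _ _ hx hy => rw [hadd, hx, hy, mul_one]
    | smul a x _ hx =>
      refine RG.induction (p := fun a => Φ (a • x) = 1) ?_ ?_ ?_ ?_ a
      · rw [zero_smul, hzero]
      · intro b d hb hd; rw [add_smul, hadd, hb, hd, mul_one]
      · intro b hb; rw [neg_smul, hneg, hb, inv_one]
      · intro g; rw [heq, hx, cj_one]
  let lc : (ℕ →₀ RG Q) →+ A := (Finsupp.linearCombination (RG Q) f).toAddMonoidHom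
  have hlc : Surjective lc := by
    have h1 : LinearMap.range (Finsupp.linearCombination (RG Q) f) = ⊤ := by
      rw [Finsupp.range_linearCombination, hspan]
    exact LinearMap.range_eq_top.1 h1
  have hk : lc.ker ≤ F₀.ker := by
    intro v hv
    have h1 : v ∈ LinearMap.ker (Finsupp.linearCombination (RG Q) f) := hv
    rw [hker] at h1
    have h2 := hspan0 v h1
    have h3 : (F₀ v).toMul = (1 : N) := Subtype.ext h2
    exact h3
  let g : A →+ Additive N := lc.liftOfSurjective hlc ⟨F₀, hk⟩
  have hg : ∀ v, g (lc v) = F₀ v := by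
    intro v
    exact AddMonoidHom.liftOfRightInverse_comp_apply _ _ _ _ _
  refine ⟨N.subtype.comp (AddMonoidHom.toMultiplicativeLeft g), ?_, ?_⟩
  · intro i
    have h1 : lc (Finsupp.single i 1) = f i := by
      change Finsupp.linearCombination (RG Q) f (Finsupp.single i 1) = f i
      rw [Finsupp.linearCombination_single, one_smul]
    have h2 := hsingle i 1
    rw [map_one, one_cj, el_one] at h2
    rw [← h2, ← h1]
    change (((g (lc (Finsupp.single i 1))).toMul : N) : P) = _
    rw [hg]
  · intro q t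
    obtain ⟨v, rfl⟩ := hlc t
    have h1 : el q • lc v = lc (el q • v) :=
      ((Finsupp.linearCombination (RG Q) f).map_smul (el q) v).symm
    rw [h1]
    change (((g (lc (el q • v))).toMul : N) : P) = cj (i0 q) (((g (lc v)).toMul : N) : P)
    rw [hg, hg]
    exact heq q v

theorem psi_rel {ev : ℕ → Q} {f : ℕ → A} {ρ : ℕ → MRel} (hP : PMod Q ev A f ρ)
    (θ : Q →* P) (ψ : Multiplicative A →* P)
    (h : ∀ (q : Q) (t : A), ψ (Multiplicative.ofAdd (el q • t)) =
      cj (θ q) (ψ (Multiplicative.ofAdd t))) (n : ℕ) :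
    ((ρ n).map fun t => cj (θ (evw ev t.2.2)) (ψ (Multiplicative.ofAdd (f t.2.1))) ^
      (sgn t.1)).prod = 1 := by
  obtain ⟨-, -, -, -, hker⟩ := hP
  have h1 : ∀ R : MRel, (R.map fun t => cj (θ (evw ev t.2.2))
      (ψ (Multiplicative.ofAdd (f t.2.1))) ^ (sgn t.1)).prod =
      ψ (Multiplicative.ofAdd (Finsupp.linearCombination (RG Q) f (mrel ev R))) := by
    intro R
    induction R with
    | nil => simp [mrel]
    | cons a R ih =>
      have e : mrel ev (a :: R) =
          Finsupp.single a.2.1 (sgn a.1 • el (evw ev a.2.2)) + mrel ev R := by simp [mrel]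
      rw [e, map_add, ofAdd_add, map_mul, ← ih, List.map_cons, List.prod_cons, ← h,
        Finsupp.linearCombination_single, ← map_zpow, ← ofAdd_zsmul]
      congr 3
      rw [smul_assoc]
  rw [h1]
  have h2 : mrel ev (ρ n) ∈ LinearMap.ker (Finsupp.linearCombination (RG Q) f) := by
    rw [hker]
    exact Submodule.subset_span ⟨n, rfl⟩
  rw [LinearMap.mem_ker.1 h2, ofAdd_zero, map_one]

end psi

/-! ### the layer -/

/-- relators: commutators `[a l, y]` for the pairs of the list, and the module relations -/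
theorem layPlus (hL : Stmt_Layer) (Y : Type) [Group Y] (hY : RP Y) (Λ : Type) [Finite Λ]
    (Q : Type) [Group Q] (i0 : Q →* Y) (ev : ℕ → Q) (A : Type) [AddCommGroup A]
    [Module (RG Q) A] (f : ℕ → A) (ρ : ℕ → MRel) (hP : PMod Q ev A f ρ) (r : ℕ)
    (hf : ∀ i, r ≤ i → f i = 0) (al : Fin r → Λ) (𝒦 : List (Λ × Y)) :
    ∃ (P : Type) (_ : Group P) (inc : Y →* P) (ret : P →* Y) (a : Λ → P)
      (ψ : Multiplicative A →* P),
      (∀ y, ret (inc y) = y) ∧ (∀ l, ret (a l) = 1) ∧
      (∀ (x y : Y) (l l' : Λ), Commute (cj (inc x) (a l)) (cj (inc y) (a l'))) ∧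
      (∀ k ∈ 𝒦, Commute (a k.1) (inc k.2)) ∧
      (∀ i : Fin r, ψ (Multiplicative.ofAdd (f i)) = a (al i)) ∧
      (∀ (q : Q) (t : A), ψ (Multiplicative.ofAdd (el q • t)) =
        cj (inc (i0 q)) (ψ (Multiplicative.ofAdd t))) ∧
      RP P ∧ (∀ d, derivedSeries Y d = ⊥ → derivedSeries P (d + 1) = ⊥) ∧
      ∀ (G : Type) [Group G] (θ : Y →* G) (b : Λ → G) (ψ' : Multiplicative A →* G),
        (∀ (x y : Y) (l l' : Λ), Commute (cj (θ x) (b l)) (cj (θ y) (b l'))) →
        (∀ k ∈ 𝒦, Commute (b k.1) (θ k.2)) →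
        (∀ i : Fin r, ψ' (Multiplicative.ofAdd (f i)) = b (al i)) →
        (∀ (q : Q) (t : A), ψ' (Multiplicative.ofAdd (el q • t)) =
          cj (θ (i0 q)) (ψ' (Multiplicative.ofAdd t))) →
        ∃ F : P →* G, (∀ y, F (inc y) = θ y) ∧ ∀ l, F (a l) = b l := by
  classical
  obtain ⟨evY, hevY⟩ := hY
  have hP' := hP
  obtain ⟨⟨k, hk⟩, -, -, hρ, -⟩ := hP
  obtain ⟨L, ⟨e⟩⟩ := Finite.exists_equiv_fin Λ
  have hwd := exists_word hevY.2.1
  choose wd hwd using hwd
  -- the relators
  let C : List Word := 𝒦.map fun p => [((e p.1 : ℕ), true)] ++ sh L (wd p.2) ++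
    [((e p.1 : ℕ), false)] ++ winv (sh L (wd p.2))
  let tbl : List Word := (List.range k).map fun i => sh L (wd (i0 (ev i)))
  let E : List ℕ := List.ofFn fun i : Fin r => (e (al i) : ℕ)
  let g2 : Bool × ℕ × Word → Word := fun t =>
    if t.2.1 < r then tr tbl t.2.2 ++ [(E.getD t.2.1 0, t.1)] ++ winv (tr tbl t.2.2) else []
  let σ : ℕ → Word := fun n => bif n.bodd then C.getD n.div2 [] else (ρ n.div2).flatMap g2
  have hσ : Primrec σ := by
    have hg2 : Primrec g2 := by
      have h1 : Primrec fun t : Bool × ℕ × Word => tr tbl t.2.2 :=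
        (tr_primrec tbl).comp (Primrec.snd.comp Primrec.snd)
      have h2 : Primrec fun t : Bool × ℕ × Word => E.getD t.2.1 0 :=
        (Primrec.list_getD 0).comp (Primrec.const E) (Primrec.fst.comp Primrec.snd)
      refine Primrec.ite (Primrec.nat_lt.comp (Primrec.fst.comp Primrec.snd) (Primrec.const r))
        ?_ (Primrec.const [])
      exact Primrec.list_append.comp (Primrec.list_append.comp h1
        (Primrec.list_cons.comp (h2.pair Primrec.fst) (Primrec.const []))) (winv_primrec.comp h1)
    refine Primrec.cond Primrec.nat_bodd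
      ((Primrec.list_getD []).comp (Primrec.const C) Primrec.nat_div2) ?_
    exact Primrec.list_flatMap (hρ.comp Primrec.nat_div2) (hg2.comp Primrec.snd)
  -- evaluation of the relators
  have htbl : ∀ (G : Type) [Group G] (θ : Y →* G) (u : ℕ → G) (i : ℕ),
      evw (fun i => if i < L then u i else θ (evY (i - L))) (tbl.getD i []) = θ (i0 (ev i)) := by
    intro G _ θ u i
    by_cases hi : i < k
    · have e1 : tbl.getD i [] = sh L (wd (i0 (ev i))) := by
        simp [tbl, List.getD_eq_getElem?_getD, hi]
      rw [e1, evw_sh L u (fun i => θ (evY i)), ← map_evw, hwd]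
    · have e1 : tbl.getD i [] = [] := by
        simp [tbl, List.getD_eq_getElem?_getD, hi]
      rw [e1, evw_nil, hk i (not_lt.1 hi), map_one, map_one]
  have hE : ∀ (i : ℕ) (hi : i < r), E.getD i 0 = (e (al ⟨i, hi⟩) : ℕ) := by
    intro i hi
    simp [E, List.getD_eq_getElem?_getD, hi]
  have hC : ∀ (G : Type) [Group G] (θ : Y →* G) (b : Λ → G) (u : ℕ → G),
      (∀ l, u (e l) = b l) → ∀ p : Λ × Y,
      (evw (fun i => if i < L then u i else θ (evY (i - L))) ([((e p.1 : ℕ), true)] ++
        sh L (wd p.2) ++ [((e p.1 : ℕ), false)] ++ winv (sh L (wd p.2))) = 1 ↔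
        Commute (b p.1) (θ p.2)) := by
    intro G _ θ b u hu p
    rw [evw_append, evw_append, evw_append, evw_winv, evw_sh L u (fun i => θ (evY i)), ← map_evw,
      hwd, evw_cons, evw_cons, evw_nil]
    simp only [(e p.1).isLt, if_true, hu, mul_one]
    rw [mul_inv_eq_one, if_neg (by simp), mul_inv_eq_iff_eq_mul]
    rfl
  have hR : ∀ (G : Type) [Group G] (θ : Y →* G) (b : Λ → G) (u : ℕ → G),
      (∀ l, u (e l) = b l) → ∀ n,
      evw (fun i => if i < L then u i else θ (evY (i - L))) ((ρ n).flatMap g2) =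
        ((ρ n).map fun t => cj (θ (i0 (evw ev t.2.2)))
          (if h : t.2.1 < r then b (al ⟨t.2.1, h⟩) else 1) ^ (sgn t.1)).prod := by
    intro G _ θ b u hu n
    rw [evw_flatMap]
    congr 1
    apply List.map_congr_left
    intro t _
    by_cases ht : t.2.1 < r
    · have e1 : g2 t = tr tbl t.2.2 ++ [(E.getD t.2.1 0, t.1)] ++ winv (tr tbl t.2.2) := by
        simp [g2, ht]
      rw [e1, evw_append, evw_append, evw_winv, evw_tr tbl _ (fun i => θ (i0 (ev i)))
        (htbl G θ u), dif_pos ht, evw_cons, evw_nil, hE _ ht, if_pos (e _).isLt, hu, mul_one]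
      have e2 : evw (fun i => θ (i0 (ev i))) t.2.2 = θ (i0 (evw ev t.2.2)) := by
        rw [map_evw, map_evw]
      rw [e2]
      cases t.1
      · simp [sgn, cj, mul_assoc]
      · simp [sgn, cj]
    · have e1 : g2 t = [] := by simp [g2, ht]
      rw [e1, evw_nil, dif_neg ht, cj_one, one_zpow]
  have hσ1 : ∀ (G : Type) [Group G] (θ : Y →* G) (b : Λ → G) (u : ℕ → G),
      (∀ l, u (e l) = b l) →
      ((∀ n, evw (fun i => if i < L then u i else θ (evY (i - L))) (σ n) = 1) ↔
        (∀ p ∈ 𝒦, Commute (b p.1) (θ p.2)) ∧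
        ∀ n, ((ρ n).map fun t => cj (θ (i0 (evw ev t.2.2)))
          (if h : t.2.1 < r then b (al ⟨t.2.1, h⟩) else 1) ^ (sgn t.1)).prod = 1) := by
    intro G _ θ b u hu
    constructor
    · intro h
      constructor
      · intro p hp
        rw [← hC G θ b u hu p]
        obtain ⟨m, hm, hm'⟩ := List.getElem_of_mem hp
        have h1 := h (2 * m + 1)
        have e1 : σ (2 * m + 1) = C.getD m [] := by
          have hb : (2 * m + 1).bodd = true := by simp
          have hd : (2 * m + 1).div2 = m := by rw [Nat.div2_val]; omega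
          simp only [σ, hb, hd, cond_true]
        have e2 : C.getD m [] = [((e p.1 : ℕ), true)] ++ sh L (wd p.2) ++
            [((e p.1 : ℕ), false)] ++ winv (sh L (wd p.2)) := by
          simp [C, List.getD_eq_getElem?_getD, hm, hm']
        rw [e1, e2] at h1
        exact h1
      · intro n
        rw [← hR G θ b u hu n]
        have h1 := h (2 * n)
        have e1 : σ (2 * n) = (ρ n).flatMap g2 := by
          simp [σ, Nat.div2_val]
        rw [e1] at h1
        exact h1
    · rintro ⟨h1, h2⟩ n
      cases hn : n.bodd with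
      | true =>
        have e1 : σ n = C.getD n.div2 [] := by simp [σ, hn]
        rw [e1]
        by_cases hm : n.div2 < 𝒦.length
        · have e2 : C.getD n.div2 [] = [((e (𝒦[n.div2]).1 : ℕ), true)] ++
              sh L (wd (𝒦[n.div2]).2) ++
              [((e (𝒦[n.div2]).1 : ℕ), false)] ++ winv (sh L (wd (𝒦[n.div2]).2)) := by
            simp [C, List.getD_eq_getElem?_getD, hm]
          rw [e2, hC G θ b u hu]
          exact h1 _ (List.getElem_mem hm)
        · have e2 : C.getD n.div2 [] = [] := by
            simp [C, List.getD_eq_getElem?_getD, hm]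
          rw [e2, evw_nil]
      | false =>
        have e1 : σ n = (ρ n.div2).flatMap g2 := by simp [σ, hn]
        rw [e1, hR G θ b u hu]
        exact h2 _
  have h0 : ∀ n, evw (fun i => if i < L then 1 else evY (i - L)) (σ n) = 1 := by
    refine (hσ1 Y (MonoidHom.id Y) (fun _ => 1) (fun _ => 1) (fun _ => rfl)).2 ?_
    constructor
    · intro p _
      exact Commute.one_left _
    · intro n
      apply List.prod_eq_one
      intro x hx
      rw [List.mem_map] at hx
      obtain ⟨t, -, rfl⟩ := hx
      have : (if h : t.2.1 < r then (1 : Y) else 1) = 1 := by split_ifs <;> rfl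
      rw [this, cj_one, one_zpow]
  obtain ⟨P, _, inc, ret, a, ha1, hRP, hri, hra, hcomm, hrel, hsol, huniv⟩ :=
    hL Y evY hevY L σ hσ h0
  obtain ⟨hK, hM⟩ := (hσ1 P inc (fun l => a (e l)) a (fun _ => rfl)).1 hrel
  obtain ⟨ψ, hψ1, hψ2⟩ := psi_exists hP' (inc.comp i0)
    (fun i => if h : i < r then a (e (al ⟨i, h⟩)) else 1)
    (by
      intro x y i j
      split_ifs
      · exact hcomm _ _ _ _
      · rw [cj_one]; exact Commute.one_right _
      · rw [cj_one]; exact Commute.one_left _
      · rw [cj_one]; exact Commute.one_left _)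
    hM
  refine ⟨P, inferInstance, inc, ret, fun l => a (e l), ψ, hri, fun l => hra _,
    fun x y l l' => hcomm _ _ _ _, hK, ?_, hψ2, ⟨_, hRP⟩, hsol, ?_⟩
  · intro i
    have := hψ1 i
    rw [dif_pos i.isLt] at this
    exact this
  · intro G _ θ b ψ' hb hbK hbψ hbq
    let u : ℕ → G := fun i => if h : i < L then b (e.symm ⟨i, h⟩) else 1
    have hu : ∀ l, u (e l) = b l := by
      intro l
      simp [u]
    have hu1 : ∀ i, L ≤ i → u i = 1 := by
      intro i hi
      simp [u, not_lt.2 hi]
    obtain ⟨F, hF1, hF2⟩ := huniv G θ u hu1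
      (by
        intro x y i j
        by_cases hi : i < L
        · by_cases hj : j < L
          · have e1 : u i = b (e.symm ⟨i, hi⟩) := by simp [u, hi]
            have e2 : u j = b (e.symm ⟨j, hj⟩) := by simp [u, hj]
            rw [e1, e2]
            exact hb _ _ _ _
          · rw [hu1 j (not_lt.1 hj), cj_one]; exact Commute.one_right _
        · rw [hu1 i (not_lt.1 hi), cj_one]; exact Commute.one_left _)
      (by
        rw [hσ1 G θ b u hu]
        refine ⟨hbK, ?_⟩
        intro n
        have h3 := psi_rel hP' (θ.comp i0) ψ' hbq n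
        refine Eq.trans ?_ h3
        congr 1
        apply List.map_congr_left
        intro t _
        congr 2
        split_ifs with ht
        · rw [← hbψ ⟨t.2.1, ht⟩]
        · rw [hf _ (not_lt.1 ht), ofAdd_zero, map_one])
    exact ⟨F, hF1, fun l => by rw [hF2, hu]⟩

end Pool.Agent.HIG
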