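import Mathlib
import Pool.Agent.HIG.Basic

/-!
# Module Higman: assembly from systems, counter groups and the function model
-/

noncomputable section

set_option linter.unusedSectionVars false

namespace Pool.Agent.HIG

open Function

namespace MHASM

/-! ### products of commuting families -/

section prods
variable {R ι : Type} [Monoid R]

theorem prod_update [DecidableEq ι] (a : ι → R) (ha : ∀ i j, Commute (a i) (a j)) (w w' : ι → ℕ)
    (j : ι) (hw : w' j = w j + 1) (hw' : ∀ i, i ≠ j → w' i = w i) :
    ∀ l : List ι, l.Nodup → j ∈ l →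
      (l.map fun i => a i ^ w' i).prod = (l.map fun i => a i ^ w i).prod * a j := by
  intro l
  induction l with
  | nil => intro _ h; simp at h
  | cons b l ih =>
    intro hn hj
    rw [List.nodup_cons] at hn
    rw [List.map_cons, List.map_cons, List.prod_cons, List.prod_cons]
    by_cases hb : b = j
    · subst hb
      have e : (l.map fun i => a i ^ w' i) = (l.map fun i => a i ^ w i) := by
        apply List.map_congr_left
        intro i hi
        rw [hw' i (fun h => hn.1 (h ▸ hi))]
      have hc : Commute (a b) ((l.map fun i => a i ^ w i).prod) := by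
        apply Commute.list_prod_right
        intro y hy
        obtain ⟨i, -, rfl⟩ := List.mem_map.1 hy
        exact (ha b i).pow_right _
      rw [e, hw, pow_succ, mul_assoc, hc.eq, mul_assoc]
    · have hj' : j ∈ l := by
        rcases List.mem_cons.1 hj with h | h
        · exact absurd h.symm hb
        · exact h
      rw [hw' b hb, ih hn.2 hj', mul_assoc]
end prods

section
variable {K : ℕ} {Q C : Type} [Group Q] [Group C] (x g : Fin K → C)

/-- `x_j + x_j⁻¹` -/
def xx (Q : Type) [Group Q] (x : Fin K → C) (j : Fin K) : RG (Q × C) :=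
  el ((1, x j) : Q × C) + el ((1, (x j)⁻¹) : Q × C)

/-- the product of the `xx j ^ v j` -/
def PV (Q : Type) [Group Q] (x : Fin K → C) (v : St) : RG (Q × C) :=
  ((List.finRange K).map fun j => xx Q x j ^ v (j : ℕ)).prod

theorem commute_el {G : Type} [Group G] {a b : G} (h : Commute a b) : Commute (el a) (el b) := by
  unfold Commute SemiconjBy
  rw [← el_mul, ← el_mul, h.eq]

theorem commute_pair {c d : C} (h : Commute c d) :
    Commute ((1, c) : Q × C) ((1, d) : Q × C) := by
  unfold Commute SemiconjBy
  ext
  · rfl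
  · exact h.eq

theorem commute_q (q : Q) (d : C) : Commute ((q, 1) : Q × C) ((1, d) : Q × C) := by
  unfold Commute SemiconjBy
  ext <;> simp

theorem commute_xx (hx : ∀ i j, Commute (x i) (x j)) (i j : Fin K) :
    Commute (xx Q x i) (xx Q x j) := by
  have h := hx i j
  unfold xx
  refine Commute.add_left (Commute.add_right ?_ ?_) (Commute.add_right ?_ ?_)
  · exact commute_el (commute_pair h)
  · exact commute_el (commute_pair h.inv_right)
  · exact commute_el (commute_pair h.inv_left)
  · exact commute_el (commute_pair h.inv_inv)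

theorem commute_gx {i j : Fin K} (h : Commute (x j) (g i)) :
    Commute (el ((1, g i) : Q × C) - 1) (xx Q x j) := by
  unfold xx
  refine Commute.sub_left (Commute.add_right ?_ ?_) (Commute.one_left _)
  · exact commute_el (commute_pair h.symm)
  · exact commute_el (commute_pair h.symm.inv_right)

theorem commute_gg (h : ∀ i j, Commute (g i) (g j)) (i j : Fin K) :
    Commute (el ((1, g i) : Q × C) - 1) (el ((1, g j) : Q × C) - 1) := by
  refine Commute.sub_left (Commute.sub_right ?_ (Commute.one_right _)) (Commute.one_left _)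
  exact commute_el (commute_pair (h i j))

theorem PV_zero : PV Q x 0 = 1 := by
  unfold PV
  apply List.prod_eq_one
  intro y hy
  obtain ⟨i, -, rfl⟩ := List.mem_map.1 hy
  simp

theorem PV_update (hx : ∀ i j, Commute (x i) (x j)) (v : St) (j : Fin K) :
    PV Q x (update v (j : ℕ) (v j + 1)) = PV Q x v * xx Q x j := by
  unfold PV
  refine prod_update (xx Q x) (commute_xx x hx) (fun i => v (i : ℕ))
    (fun i => update v (j : ℕ) (v j + 1) (i : ℕ)) j ?_ ?_ _ (List.nodup_finRange K)
    (List.mem_finRange j)
  · simp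
  · intro i hi
    exact update_of_ne (fun h => hi (Fin.ext h)) _ _

/-- the indices of a finite set of counters -/
def Jl (K : ℕ) (J : Finset ℕ) : List (Fin K) := (List.finRange K).filter fun i => (i : ℕ) ∈ J

theorem key (hxg : ∀ i j, i ≠ j → Commute (x i) (g j)) (hg : ∀ i j, Commute (g i) (g j))
    (J : Finset ℕ) (v : St) (hv : ∀ i ∈ J, v i = 0) :
    ∃ G' : RG (Q × C), gprod Q g (List.finRange K) * PV Q x v = G' * gprod Q g (Jl K J) := by
  refine ⟨gprod Q g ((List.finRange K).filter fun i => !decide ((i : ℕ) ∈ J)) * PV Q x v, ?_⟩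
  have h1 : gprod Q g (List.finRange K) =
      gprod Q g ((List.finRange K).filter fun i => !decide ((i : ℕ) ∈ J)) * gprod Q g (Jl K J) := by
    unfold gprod Jl
    rw [← List.prod_append, ← List.map_append]
    refine List.Perm.prod_eq' (List.Perm.map _ ?_) ?_
    · exact ((List.perm_append_comm).trans (List.filter_append_perm _ _)).symm
    · rw [List.pairwise_map]
      exact List.pairwise_of_forall fun i j => commute_gg g hg i j
  have h2 : Commute (gprod Q g (Jl K J)) (PV Q x v) := by
    unfold gprod PV
    apply Commute.list_prod_left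
    intro y hy
    obtain ⟨i, hi, rfl⟩ := List.mem_map.1 hy
    apply Commute.list_prod_right
    intro z hz
    obtain ⟨j, -, rfl⟩ := List.mem_map.1 hz
    have hiJ : (i : ℕ) ∈ J := by
      have := (List.mem_filter.1 hi).2
      simpa using this
    by_cases hij : j = i
    · subst hij
      rw [hv _ hiJ, pow_zero]
      exact Commute.one_right _
    · exact (commute_gx x g (hxg j i hij)).pow_right _
  rw [h1, mul_assoc, h2.eq, mul_assoc]

theorem commute_q_all (q : Q) (v : St) :
    Commute (el ((q, 1) : Q × C)) (gprod Q g (List.finRange K) * PV Q x v) := by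
  refine Commute.mul_right ?_ ?_
  · unfold gprod
    apply Commute.list_prod_right
    intro z hz
    obtain ⟨j, -, rfl⟩ := List.mem_map.1 hz
    exact Commute.sub_right (commute_el (commute_q q _)) (Commute.one_right _)
  · unfold PV
    apply Commute.list_prod_right
    intro z hz
    obtain ⟨j, -, rfl⟩ := List.mem_map.1 hz
    refine Commute.pow_right ?_ _
    unfold xx
    exact Commute.add_right (commute_el (commute_q q _)) (commute_el (commute_q q _))
end

theorem derivedSeries_prod {Q C : Type} [Group Q] [Group C] {m : ℕ} (h1 : derivedSeries Q m = ⊥)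
    (h2 : derivedSeries C m = ⊥) : derivedSeries (Q × C) m = ⊥ := by
  rw [eq_bot_iff]
  intro y hy
  have e1 : y.1 ∈ derivedSeries Q m :=
    map_derivedSeries_le_derivedSeries (MonoidHom.fst Q C) m (Subgroup.mem_map_of_mem _ hy)
  have e2 : y.2 ∈ derivedSeries C m :=
    map_derivedSeries_le_derivedSeries (MonoidHom.snd Q C) m (Subgroup.mem_map_of_mem _ hy)
  rw [h1, Subgroup.mem_bot] at e1
  rw [h2, Subgroup.mem_bot] at e2
  rw [Subgroup.mem_bot]
  exact Prod.ext e1 e2

/-! ### the module -/

section module
variable {K : ℕ} {Q C : Type} [Group Q] [Group C] (x g : Fin K → C) (ev : ℕ → Q) (s : ℕ)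

/-- generators of the free module -/
def X (s : ℕ) (i : ℕ) : Fin s →₀ RG (Q × C) :=
  if h : i < s then Finsupp.single ⟨i, h⟩ 1 else 0

/-- the sum of a linear constraint -/
def lsum {R M : Type} [Ring R] [AddCommGroup M] [Module R M] (E : Word → R) (e : ℕ → M)
    (L : List (ℤ × Word × ℕ)) : M :=
  (L.map fun t => t.1 • (E t.2.1 • e t.2.2)).sum

/-- relation of a constraint -/
def relOf : Con → (Fin s →₀ RG (Q × C))
  | .shift j F G => (if h : j < K then xx Q x ⟨j, h⟩ else 0) • X s F - X s G
  | .lin J L => gprod Q g (Jl K J) • lsum (fun w => el ((evw ev w, 1) : Q × C)) (X s) L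

/-- submodule of relations -/
def NN (cs : List Con) : Submodule (RG (Q × C)) (Fin s →₀ RG (Q × C)) :=
  Submodule.span _ ((relOf x g ev s) '' {c | c ∈ cs})

/-- the module -/
abbrev DD (cs : List Con) : Type := (Fin s →₀ RG (Q × C)) ⧸ NN x g ev s cs

theorem fp (cs : List Con) : Module.FinitePresentation (RG (Q × C)) (DD x g ev s cs) := by
  refine Module.finitePresentation_of_surjective (NN x g ev s cs).mkQ
    (Submodule.mkQ_surjective _) ?_
  rw [Submodule.ker_mkQ]
  refine Submodule.fg_span (Set.Finite.image _ ?_)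
  exact List.finite_toSet cs

theorem lsum_map {R M M' : Type} [Ring R] [AddCommGroup M] [Module R M] [AddCommGroup M']
    [Module R M'] (E : Word → R) (e : ℕ → M) (L : List (ℤ × Word × ℕ)) (φ : M →ₗ[R] M') :
    φ (lsum E e L) = lsum E (fun i => φ (e i)) L := by
  unfold lsum
  rw [map_list_sum, List.map_map]
  congr 1
  apply List.map_congr_left
  intro t _
  simp

end module

theorem lc_mrel {Q M : Type} [Group Q] [AddCommGroup M] [Module (RG Q) M] (ev : ℕ → Q) (m : ℕ → M)
    (R : MRel) : Finsupp.linearCombination (RG Q) m (mrel ev R) = mval ev m R := by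
  unfold mrel mval
  rw [map_list_sum, List.map_map]
  congr 1
  apply List.map_congr_left
  intro t _
  rw [comp_apply, Finsupp.linearCombination_single, smul_assoc]

end MHASM

open MHASM

theorem mhasm_proof : Stmt_MHAsm := by
  intro hSys hCtr hProd hModel m hm Q _ ev hQ hQm D _ _ f ρ hD
  obtain ⟨⟨k, hk⟩, ⟨r, hr⟩, hspan, hρ, hker⟩ := hD
  obtain ⟨K, s, cs, hrs, hbdd, hsound, hcomp⟩ := hSys k r ρ hρ
  obtain ⟨C, _, x, g, hC, hC2, hxx, hxg, hgg, hU⟩ := hCtr K
  obtain ⟨M, _, _, br, τ, m1, m2, m3, m4⟩ := hModel K Q D C x g hU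
  -- the relations of `D` hold for `f`
  have hrel : ∀ n, mval ev f (ρ n) = 0 := by
    intro n
    have h1 : mrel ev (ρ n) ∈ LinearMap.ker (Finsupp.linearCombination (RG Q) f) := by
      rw [hker]
      exact Submodule.subset_span ⟨n, rfl⟩
    rwa [LinearMap.mem_ker, lc_mrel] at h1
  obtain ⟨𝓕s, hsat, hs0⟩ := hcomp Q ev hk D f hr hrel
  -- the module
  let D₁ : Type := DD x g ev s cs
  let e : ℕ → D₁ := fun i => (NN x g ev s cs).mkQ (X s i)
  let modQ : Module (RG Q) D₁ :=
    Module.compHom D₁ (MonoidAlgebra.mapDomainRingHom ℤ (MonoidHom.inl Q C))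
  have hsm : ∀ (q : Q) (d : D₁), (el q : RG Q) • d = (el ((q, 1) : Q × C) : RG (Q × C)) • d := by
    intro q d
    show (MonoidAlgebra.mapDomainRingHom ℤ (MonoidHom.inl Q C)) (el q) • d = _
    congr 1
    simp [el]
  have hx0 : ∀ c ∈ cs, (NN x g ev s cs).mkQ (relOf x g ev s c) = 0 := by
    intro c hc
    rw [Submodule.mkQ_apply, Submodule.Quotient.mk_eq_zero]
    exact Submodule.subset_span ⟨c, hc, rfl⟩
  -- values
  let GP : RG (Q × C) := gprod Q g (List.finRange K)
  let 𝓥 : ℕ → St → D₁ := fun i v => (GP * PV Q x v) • e i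
  have hV : ∀ c ∈ cs, c.Sat ev 𝓥 := by
    intro c hc
    have h0 := hx0 c hc
    have hb := hbdd c hc
    cases c with
    | shift j F G =>
      intro v
      have hj : j < K := hb.1
      simp only [relOf, dif_pos hj, map_sub, map_smul] at h0
      rw [sub_eq_zero] at h0
      show (GP * PV Q x (update v j (v j + 1))) • e F = (GP * PV Q x v) • e G
      have := PV_update (Q := Q) x hxx v ⟨j, hj⟩
      simp only at this
      rw [this, ← mul_assoc, mul_smul]
      congr 1
    | lin J L =>
      intro v hv
      obtain ⟨G', hG'⟩ := key (Q := Q) x g hxg hgg J v hv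
      have h2 : (L.map fun t => t.1 • (el (evw ev t.2.1) • 𝓥 t.2.2 v)).sum =
          (GP * PV Q x v) • lsum (fun w => el ((evw ev w, 1) : Q × C)) e L := by
        unfold lsum
        rw [List.smul_sum, List.map_map]
        congr 1
        apply List.map_congr_left
        intro t _
        rw [comp_apply, hsm, smul_comm (GP * PV Q x v) t.1]
        congr 1
        show el ((evw ev t.2.1, 1) : Q × C) • (GP * PV Q x v) • e t.2.2 =
          (GP * PV Q x v) • el ((evw ev t.2.1, 1) : Q × C) • e t.2.2
        rw [← mul_smul, ← mul_smul]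
        congr 1
        exact (commute_q_all x g (evw ev t.2.1) v).eq
      rw [h2]
      show (gprod Q g (List.finRange K) * PV Q x v) • _ = _
      rw [hG', mul_smul]
      simp only [relOf, map_smul] at h0
      rw [lsum_map] at h0
      rw [show (gprod Q g (Jl K J) • lsum (fun w => el ((evw ev w, 1) : Q × C)) e L) = 0 from h0,
        smul_zero]
  have hsnd := hsound Q ev hk D₁ 𝓥 hV
  -- the map D → D₁
  let Λ : (ℕ →₀ RG Q) →ₗ[RG Q] D₁ :=
    Finsupp.linearCombination (RG Q) (fun i => if i < r then 𝓥 i 0 else 0)
  have hΛ : LinearMap.ker (Finsupp.linearCombination (RG Q) f) ≤ LinearMap.ker Λ := by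
    rw [hker, Submodule.span_le]
    rintro _ ⟨n, rfl⟩
    show Λ (mrel ev (ρ n)) = 0
    rw [← hsnd n]
    exact lc_mrel ev _ _
  let L : (ℕ →₀ RG Q) →ₗ[RG Q] D := Finsupp.linearCombination (RG Q) f
  have hLs : Surjective L := by
    rw [← LinearMap.range_eq_top, Finsupp.range_linearCombination]
    exact hspan
  let δ : D →ₗ[RG Q] D₁ :=
    ((LinearMap.ker L).liftQ Λ hΛ).comp (L.quotKerEquivOfSurjective hLs).symm.toLinearMap
  have hδ : ∀ v, δ (L v) = Λ v := by
    intro v
    have : (L.quotKerEquivOfSurjective hLs).symm (L v) = (LinearMap.ker L).mkQ v := by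
      rw [LinearEquiv.symm_apply_eq]
      rfl
    show (LinearMap.ker L).liftQ Λ hΛ ((L.quotKerEquivOfSurjective hLs).symm (L v)) = _
    rw [this]
    rfl
  have hδf : ∀ i, δ (f i) = if i < r then 𝓥 i 0 else 0 := by
    intro i
    have := hδ (Finsupp.single i 1)
    simp only [L, Λ, Finsupp.linearCombination_single, one_smul] at this
    exact this
  -- the model
  let μ₀ : (Fin s →₀ RG (Q × C)) →ₗ[RG (Q × C)] M :=
    Finsupp.linearCombination (RG (Q × C)) (fun i : Fin s => br (𝓕s i))
  have hμX : ∀ i, i < s → μ₀ (X s i) = br (𝓕s i) := by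
    intro i hi
    simp only [X, dif_pos hi, μ₀, Finsupp.linearCombination_single, one_smul]
  have hμ : NN x g ev s cs ≤ LinearMap.ker μ₀ := by
    unfold NN
    rw [Submodule.span_le]
    rintro _ ⟨c, hc, rfl⟩
    have hb := hbdd c hc
    have hs := hsat c hc
    show μ₀ (relOf x g ev s c) = 0
    cases c with
    | shift j F G =>
      have hj : j < K := hb.1
      simp only [relOf, dif_pos hj, map_sub, map_smul]
      rw [hμX F hb.2.1, hμX G hb.2.2, sub_eq_zero]
      exact m1 ⟨j, hj⟩ _ _ hs
    | lin J L =>
      simp only [relOf, map_smul]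
      rw [lsum_map]
      have h2 : lsum (fun w => el ((evw ev w, 1) : Q × C)) (fun i => μ₀ (X s i)) L =
          br (fun v => (L.map fun t => t.1 • (el (evw ev t.2.1) • 𝓕s t.2.2 v)).sum) := by
        have h3 : ∀ L' : List (ℤ × Word × ℕ), (∀ t ∈ L', t.2.2 < s) →
            lsum (fun w => el ((evw ev w, 1) : Q × C)) (fun i => μ₀ (X s i)) L' =
            br (fun v => (L'.map fun t => t.1 • (el (evw ev t.2.1) • 𝓕s t.2.2 v)).sum) := by
          intro L'
          induction L' with
          | nil =>
            intro _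
            unfold lsum
            simp only [List.map_nil, List.sum_nil]
            exact (map_zero br).symm
          | cons t L' ih =>
            intro ht
            have h4 := ih fun t' ht' => ht t' (List.mem_cons_of_mem _ ht')
            unfold lsum at h4 ⊢
            simp only [List.map_cons, List.sum_cons]
            rw [h4, hμX _ (ht t List.mem_cons_self), m3, ← map_zsmul, ← map_add]
            rfl
        exact h3 L hb.2
      rw [h2]
      refine m2 (Jl K J) ((List.nodup_finRange K).filter _) _ ?_
      intro v hv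
      refine hs v fun i hi => ?_
      have := hv ⟨i, hb.1 i hi⟩ (by
        unfold Jl
        rw [List.mem_filter]
        exact ⟨List.mem_finRange _, by simpa using hi⟩)
      exact this
  let μ : D₁ →ₗ[RG (Q × C)] M := (NN x g ev s cs).liftQ μ₀ hμ
  have hμe : ∀ i, i < s → μ (e i) = br (𝓕s i) := fun i hi => hμX i hi
  -- the composition
  have hall : ∀ d : D, ∃ F : St → D, F 0 = d ∧ μ (δ d) = GP • br F := by
    intro d
    have hd : d ∈ Submodule.span (RG Q) (Set.range f) := by rw [hspan]; trivial
    induction hd using Submodule.span_induction with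
    | mem d hd =>
      obtain ⟨i, rfl⟩ := hd
      rw [hδf]
      by_cases hi : i < r
      · refine ⟨𝓕s i, hs0 i hi 0, ?_⟩
        rw [if_pos hi]
        show μ ((GP * PV Q x 0) • e i) = _
        rw [PV_zero, mul_one, map_smul, hμe i (lt_of_lt_of_le hi hrs)]
      · refine ⟨0, ?_, ?_⟩
        · rw [hr i (not_lt.1 hi)]; rfl
        · rw [if_neg hi, map_zero, map_zero, smul_zero]
    | zero => exact ⟨0, rfl, by rw [map_zero, map_zero, map_zero, smul_zero]⟩
    | add a b _ _ ha hb =>
      obtain ⟨F1, h1, h1'⟩ := ha
      obtain ⟨F2, h2, h2'⟩ := hb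
      exact ⟨F1 + F2, by rw [Pi.add_apply, h1, h2], by
        rw [map_add, map_add, h1', h2', map_add, smul_add]⟩
    | smul a b _ hb =>
      refine RG.induction (p := fun a => ∃ F : St → D, F 0 = a • b ∧ μ (δ (a • b)) = GP • br F)
        ?_ ?_ ?_ ?_ a
      · exact ⟨0, by rw [zero_smul]; rfl, by
          rw [zero_smul, map_zero, map_zero, map_zero, smul_zero]⟩
      · rintro a a' ⟨F1, h1, h1'⟩ ⟨F2, h2, h2'⟩
        exact ⟨F1 + F2, by rw [Pi.add_apply, h1, h2, add_smul], by
          rw [add_smul, map_add, map_add, h1', h2', map_add, smul_add]⟩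
      · rintro a ⟨F1, h1, h1'⟩
        exact ⟨-F1, by rw [Pi.neg_apply, h1, neg_smul], by
          rw [neg_smul, map_neg, map_neg, h1', map_neg, smul_neg]⟩
      · intro q
        obtain ⟨F1, h1, h1'⟩ := hb
        refine ⟨fun v => el q • F1 v, by rw [← h1], ?_⟩
        rw [map_smul, hsm, map_smul, h1', ← m3, ← mul_smul, ← mul_smul]
        congr 1
        have := (commute_q_all (Q := Q) x g q 0).eq
        rw [PV_zero, mul_one] at this
        exact this
  have hδi : Injective δ := by
    have : ∀ d, τ (μ (δ d)) = d := by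
      intro d
      obtain ⟨F, h1, h2⟩ := hall d
      rw [h2, ← h1]
      exact m4 F
    intro a b hab
    rw [← this a, ← this b, hab]
  refine ⟨Q × C, inferInstance, D₁, inferInstance, inferInstance,
    Sd.map (MonoidHom.inl Q C) δ.toAddMonoidHom ?_, hProd Q C ⟨ev, hQ⟩ hC, ?_, fp x g ev s cs, ?_⟩
  · intro q d
    show δ (el q • d) = el ((q, 1) : Q × C) • δ d
    rw [map_smul, hsm]
  · refine derivedSeries_prod hQm ?_
    rw [eq_bot_iff, ← hC2]
    exact derivedSeries_antitone C hm
  · refine Sd.map_injective _ ?_ hδi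
    intro a b hab
    exact congrArg Prod.fst hab

end Pool.Agent.HIG
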