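import Mathlib
import Pool.Agent.HIG.Basic

/-!
# The function model of a counter module
-/

noncomputable section

namespace Pool.Agent.HIG

open Function

namespace MHM

/-- points of one coordinate -/
inductive T : Type
  | a (m : ℕ) | b (m : ℕ) | s
  deriving DecidableEq

section local_ops
variable {R : Type} [Ring R] {D : Type} [AddCommGroup D] [Module R D]

/-- the operator `x` in one coordinate -/
def xi : Module.End R (T → D) where
  toFun φ := fun t => match t with
    | .a m => -φ (.b m)
    | .b m => φ (.a m) + φ (.b (m + 1))
    | .s => φ .s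
  map_add' φ ψ := by
    funext t
    cases t with
    | a m => simp; abel
    | b m => simp; abel
    | s => simp
  map_smul' c φ := by
    funext t
    cases t with
    | a m => simp
    | b m => simp
    | s => simp

/-- its inverse -/
def xi' : Module.End R (T → D) where
  toFun φ := fun t => match t with
    | .a m => φ (.b m) + φ (.a (m + 1))
    | .b m => -φ (.a m)
    | .s => φ .s
  map_add' φ ψ := by
    funext t
    cases t with
    | a m => simp; abel
    | b m => simp; abel
    | s => simp
  map_smul' c φ := by
    funext t
    cases t with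
    | a m => simp
    | b m => simp
    | s => simp

/-- the operator `g - 1` in one coordinate -/
def eps : Module.End R (T → D) where
  toFun φ := fun t => match t with
    | .a _ => 0
    | .b _ => 0
    | .s => φ (.a 0)
  map_add' φ ψ := by
    funext t
    cases t with
    | a m => simp
    | b m => simp
    | s => simp
  map_smul' c φ := by
    funext t
    cases t with
    | a m => simp
    | b m => simp
    | s => simp

theorem xi_xi' : (xi : Module.End R (T → D)) * xi' = 1 := by
  ext φ t
  cases t with
  | a m => simp [xi, xi', Module.End.mul_apply]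
  | b m => simp [xi, xi', Module.End.mul_apply]
  | s => simp [xi, xi', Module.End.mul_apply]

theorem xi'_xi : (xi' : Module.End R (T → D)) * xi = 1 := by
  ext φ t
  cases t with
  | a m => simp [xi, xi', Module.End.mul_apply]
  | b m => simp [xi, xi', Module.End.mul_apply]
  | s => simp [xi, xi', Module.End.mul_apply]

theorem eps_eps : (eps : Module.End R (T → D)) * eps = 0 := by
  ext φ t
  cases t with
  | a m => simp [eps, Module.End.mul_apply]
  | b m => simp [eps, Module.End.mul_apply]
  | s => simp [eps, Module.End.mul_apply]

theorem xi_eps : (xi : Module.End R (T → D)) * eps = eps := by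
  ext φ t
  cases t with
  | a m => simp [eps, xi, Module.End.mul_apply]
  | b m => simp [eps, xi, Module.End.mul_apply]
  | s => simp [eps, xi, Module.End.mul_apply]

/-- unit version of `xi` -/
def X : (Module.End R (T → D))ˣ := ⟨xi, xi', xi_xi', xi'_xi⟩

/-- unit version of `1 + eps` -/
def Γ : (Module.End R (T → D))ˣ where
  val := 1 + eps
  inv := 1 - eps
  val_inv := by
    have := (eps_eps : (eps : Module.End R (T → D)) * eps = 0)
    rw [mul_sub, mul_one, add_mul, one_mul, this]
    abel
  inv_val := by
    have := (eps_eps : (eps : Module.End R (T → D)) * eps = 0)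
    rw [mul_add, mul_one, sub_mul, one_mul, this]
    abel

theorem Γ_comm (n : ℤ) : Commute (Γ : (Module.End R (T → D))ˣ) (cj (X ^ n) Γ) := by
  have h0 : X ∈ MulAction.stabilizer (Module.End R (T → D))ˣ (eps : Module.End R (T → D)) := by
    rw [MulAction.mem_stabilizer_iff]
    exact xi_eps
  have h1 := Subgroup.zpow_mem _ h0 n
  have h2 := Subgroup.inv_mem _ h1
  rw [MulAction.mem_stabilizer_iff] at h1 h2
  set u : (Module.End R (T → D))ˣ := X ^ n
  have h1' : (u : Module.End R (T → D)) * eps = eps := h1
  have h2' : ((u⁻¹ : (Module.End R (T → D))ˣ) : Module.End R (T → D)) * eps = eps := h2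
  have he : (eps : Module.End R (T → D)) * eps = 0 := eps_eps
  apply Commute.units_of_val
  have e1 : ((cj u Γ : (Module.End R (T → D))ˣ) : Module.End R (T → D)) =
      1 + eps * ((u⁻¹ : (Module.End R (T → D))ˣ) : Module.End R (T → D)) := by
    simp only [cj, Units.val_mul]
    change (u : Module.End R (T → D)) * (1 + eps) * ((u⁻¹ : (Module.End R (T → D))ˣ) :
      Module.End R (T → D)) = _
    rw [mul_add, mul_one, h1', add_mul, Units.mul_inv]
  rw [e1]
  change Commute (1 + eps) _
  unfold Commute SemiconjBy
  have h3 : (eps : Module.End R (T → D)) * (eps * ((u⁻¹ : (Module.End R (T → D))ˣ) :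
      Module.End R (T → D))) = 0 := by rw [← mul_assoc, he, zero_mul]
  have h4 : (eps : Module.End R (T → D)) * ((u⁻¹ : (Module.End R (T → D))ˣ) :
      Module.End R (T → D)) * eps = 0 := by rw [mul_assoc, h2', he]
  rw [mul_add, mul_one, mul_add, mul_one, add_mul, add_mul, h3, h4, one_mul, one_mul]
  abel

/-- operators given by integral combinations of values -/
def Loc (L : Module.End R (T → D)) : Prop :=
  ∀ x, ∃ l : List (ℤ × T), ∀ φ, L φ x = (l.map fun p => p.1 • φ p.2).sum

theorem xi_loc : Loc (xi : Module.End R (T → D)) := by
  intro t
  cases t with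
  | a m => exact ⟨[(-1, .b m)], fun φ => by simp [xi]⟩
  | b m => exact ⟨[(1, .a m), (1, .b (m + 1))], fun φ => by simp [xi]⟩
  | s => exact ⟨[(1, .s)], fun φ => by simp [xi]⟩

theorem eps_loc : Loc (1 + eps : Module.End R (T → D)) := by
  intro t
  cases t with
  | a m => exact ⟨[(1, .a m)], fun φ => by simp [eps]⟩
  | b m => exact ⟨[(1, .b m)], fun φ => by simp [eps]⟩
  | s => exact ⟨[(1, .s), (1, .a 0)], fun φ => by simp [eps]⟩

variable {K : ℕ}

/-- a local operator acting on one coordinate -/
def lft (j : Fin K) : Module.End R (T → D) →+* Module.End R ((Fin K → T) → D) where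
  toFun L :=
    { toFun := fun F t => L (fun u => F (update t j u)) (t j)
      map_add' := by
        intro F F'
        funext t
        have : (fun u => (F + F') (update t j u)) =
          (fun u => F (update t j u)) + fun u => F' (update t j u) := rfl
        rw [this, map_add]
        rfl
      map_smul' := by
        intro c F
        funext t
        have : (fun u => (c • F) (update t j u)) = c • fun u => F (update t j u) := rfl
        rw [this, map_smul]
        rfl }
  map_one' := by
    ext F t
    simp
  map_mul' L L' := by
    refine LinearMap.ext fun F => funext fun t => ?_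
    change L (L' fun u => F (update t j u)) (t j) =
      L (fun u => L' (fun w => F (update (update t j u) j w)) (update t j u j)) (t j)
    have e : (fun u => L' (fun w => F (update (update t j u) j w)) (update t j u j)) =
        L' fun u => F (update t j u) := by
      funext u
      simp only [update_idem, update_self]
    rw [e]
  map_zero' := by
    ext F t
    simp
  map_add' L L' := by
    ext F t
    simp

theorem lft_apply (j : Fin K) (L : Module.End R (T → D)) (F : (Fin K → T) → D) (t : Fin K → T) :
    lft j L F t = L (fun u => F (update t j u)) (t j) := rfl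

theorem loc_sum (L : Module.End R (T → D)) (l : List (ℤ × T)) (Φ : T → T → D) (x : T) :
    L (fun u => (l.map fun p => p.1 • Φ u p.2).sum) x =
      (l.map fun p => p.1 • L (fun u => Φ u p.2) x).sum := by
  induction l with
  | nil =>
    simp only [List.map_nil, List.sum_nil]
    have : (fun _ : T => (0 : D)) = 0 := rfl
    rw [this, map_zero]
    rfl
  | cons a l ih =>
    simp only [List.map_cons, List.sum_cons]
    have : (fun u => a.1 • Φ u a.2 + (l.map fun p => p.1 • Φ u p.2).sum) =
      a.1 • (fun u => Φ u a.2) + fun u => (l.map fun p => p.1 • Φ u p.2).sum := rfl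
    rw [this, map_add, map_zsmul, Pi.add_apply, Pi.smul_apply, ih]

theorem lft_comm {i j : Fin K} (hij : i ≠ j) (L L' : Module.End R (T → D)) (h : Loc L') :
    Commute (lft i L : Module.End R ((Fin K → T) → D)) (lft j L') := by
  unfold Commute SemiconjBy
  refine LinearMap.ext fun F => funext fun t => ?_
  simp only [Module.End.mul_apply, lft_apply]
  obtain ⟨l, hl⟩ := h (t j)
  rw [hl]
  have e : (fun u => L' (fun w => F (update (update t i u) j w)) (update t i u j)) =
      fun u => (l.map fun p => p.1 • F (update (update t i u) j p.2)).sum := by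
    funext u
    rw [update_of_ne (Ne.symm hij), hl]
  rw [e]
  rw [loc_sum L l (fun u w => F (update (update t i u) j w)) (t i)]
  congr 1
  apply List.map_congr_left
  intro p _
  rw [update_of_ne hij]
  have e3 : (fun u => F (update (update t i u) j p.2)) = fun u =>
      F (update (update t j p.2) i u) := by
    funext u
    rw [update_comm hij]
  rw [e3]

end local_ops

section global
variable {R : Type} [Ring R] {D : Type} [AddCommGroup D] [Module R D] {K : ℕ}

theorem units_comm {i j : Fin K} (hij : i ≠ j) (u v : (Module.End R (T → D))ˣ)
    (h : Loc (v : Module.End R (T → D))) :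
    Commute (Units.map (lft i : Module.End R (T → D) →+* Module.End R ((Fin K → T) → D)).toMonoidHom u)
      (Units.map (lft j : Module.End R (T → D) →+* Module.End R ((Fin K → T) → D)).toMonoidHom v) := by
  apply Commute.units_of_val
  exact lft_comm hij _ _ h

/-- index of a point `a m` -/
def T.idx : T → ℕ
  | .a m => m
  | .b _ => 0
  | .s => 0

/-- is the point of the form `a m` -/
def T.isA : T → Bool
  | .a _ => true
  | .b _ => false
  | .s => false

/-- the state belonging to a tuple of points -/
def vec (t : Fin K → T) : St := fun i => if h : i < K then (t ⟨i, h⟩).idx else 0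

open Classical in
/-- the bracket -/
def br : (St → D) →+ ((Fin K → T) → D) where
  toFun F := fun t => if ∀ j, (t j).isA = true then F (vec t) else 0
  map_zero' := by
    funext t
    simp
  map_add' F F' := by
    funext t
    simp only [Pi.add_apply]
    split_ifs <;> simp

open Classical in
theorem br_apply (F : St → D) (t : Fin K → T) :
    br F t = if ∀ j, (t j).isA = true then F (vec t) else 0 := rfl

theorem br_of (F : St → D) (t : Fin K → T) (h : ∀ j, (t j).isA = true) : br F t = F (vec t) := by
  rw [br_apply, if_pos h]

theorem br_not (F : St → D) (t : Fin K → T) (j : Fin K) (h : (t j).isA = false) :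
    br F t = 0 := by
  rw [br_apply, if_neg]
  intro h'
  rw [h' j] at h
  cases h

theorem vec_update (t : Fin K → T) (j : Fin K) (x : T) :
    vec (update t j x) = update (vec t) (j : ℕ) x.idx := by
  funext i
  unfold vec
  by_cases hi : i = (j : ℕ)
  · subst hi
    simp
  · rw [update_of_ne hi]
    by_cases h : i < K
    · have : (⟨i, h⟩ : Fin K) ≠ j := fun h' => hi (congrArg Fin.val h')
      simp only [h, dite_true]
      rw [update_of_ne this]
    · simp [h]

theorem vec_apply (t : Fin K → T) (j : Fin K) : vec t (j : ℕ) = (t j).idx := by
  simp [vec]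

theorem shift_br (j : Fin K) (F F' : St → D)
    (h : ∀ v, F (update v (j : ℕ) (v (j : ℕ) + 1)) = F' v) :
    lft (R := R) j (xi + xi') (br F) = br F' := by
  funext t
  rw [lft_apply]
  by_cases hA : ∀ i, i ≠ j → (t i).isA = true
  · cases htj : t j with
    | a m =>
      have hall : ∀ i, (t i).isA = true := by
        intro i
        by_cases hi : i = j
        · subst hi; rw [htj]; rfl
        · exact hA i hi
      have h1 : (br F (update t j (.b m)) : D) = 0 := br_not F _ j (by simp [T.isA])
      have h2 : (br F (update t j (.a (m + 1))) : D) = F' (vec t) := by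
        rw [br_of]
        · rw [vec_update, ← h (vec t), vec_apply, htj]
          rfl
        · intro i
          by_cases hi : i = j
          · subst hi; simp [T.isA]
          · rw [update_of_ne hi]; exact hA i hi
      rw [br_of F' t hall, ← h2]
      simp [xi, xi']
    | b m =>
      have h1 : (br F (update t j (.b (m + 1))) : D) = 0 := br_not F _ j (by simp [T.isA])
      rw [br_not F' t j (by rw [htj]; rfl)]
      simp [xi, xi', h1]
    | s =>
      have h1 : (br F (update t j .s) : D) = 0 := br_not F _ j (by simp [T.isA])
      rw [br_not F' t j (by rw [htj]; rfl)]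
      simp [xi, xi', h1]
  · push Not at hA
    obtain ⟨i, hi, hiA⟩ := hA
    have hiA' : (t i).isA = false := by simpa using hiA
    rw [br_not F' t i hiA']
    have h0 : ∀ u, (br F (update t j u) : D) = 0 := by
      intro u
      exact br_not F _ i (by rw [update_of_ne hi]; exact hiA')
    have h1 : (fun u => (br F (update t j u) : D)) = 0 := funext h0
    rw [h1, map_zero]
    rfl

/-- product of the operators `eps` -/
def epr (l : List (Fin K)) : Module.End R ((Fin K → T) → D) :=
  (l.map fun j => lft j eps).prod

theorem epr_ne (l : List (Fin K)) (H : (Fin K → T) → D) (t : Fin K → T)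
    (hl : l.Nodup) (h : ∃ j ∈ l, t j ≠ .s) : epr (R := R) l H t = 0 := by
  induction l generalizing t with
  | nil => simp at h
  | cons j l ih =>
    rw [List.nodup_cons] at hl
    simp only [epr, List.map_cons, List.prod_cons, Module.End.mul_apply]
    rw [lft_apply]
    obtain ⟨i, hi, hti⟩ := h
    rcases List.mem_cons.1 hi with hij | hi'
    · subst hij
      cases ht : t i with
      | a m => simp [eps]
      | b m => simp [eps]
      | s => exact absurd ht hti
    · have h0 : ∀ u, epr (R := R) l H (update t j u) = 0 := by
        intro u
        apply ih _ hl.2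
        refine ⟨i, hi', ?_⟩
        rw [update_of_ne]
        · exact hti
        · intro hij; rw [hij] at hi'; exact hl.1 hi'
      have h1 : (fun u => epr (R := R) l H (update t j u)) = 0 := funext h0
      have h2 : (fun u => (l.map fun j => (lft j eps : Module.End R ((Fin K → T) → D))).prod H
        (update t j u)) = 0 := h1
      rw [h2, map_zero]
      rfl

theorem epr_eq (l : List (Fin K)) (H : (Fin K → T) → D) (t : Fin K → T)
    (hl : l.Nodup) (h : ∀ j ∈ l, t j = .s) :
    epr (R := R) l H t = H (fun i => if i ∈ l then .a 0 else t i) := by
  induction l generalizing t with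
  | nil => simp [epr]
  | cons j l ih =>
    rw [List.nodup_cons] at hl
    have e0 : epr (R := R) (j :: l) H t = epr (R := R) l H (update t j (.a 0)) := by
      simp only [epr, List.map_cons, List.prod_cons, Module.End.mul_apply]
      rw [lft_apply, h j List.mem_cons_self]
      rfl
    rw [e0, ih _ hl.2]
    · congr 1
      funext i
      by_cases hi : i = j
      · subst hi
        simp [hl.1]
      · simp [hi]
    · intro i hi
      rw [update_of_ne]
      · exact h i (List.mem_cons_of_mem _ hi)
      · intro hij; rw [hij] at hi; exact hl.1 hi

theorem epr_br (l : List (Fin K)) (hl : l.Nodup) (F : St → D)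
    (h : ∀ v : St, (∀ i ∈ l, v (i : ℕ) = 0) → F v = 0) : epr (R := R) l (br F) = 0 := by
  funext t
  by_cases ht : ∀ j ∈ l, t j = .s
  · rw [epr_eq l _ t hl ht, br_apply]
    split_ifs with hA
    · apply h
      intro i hi
      rw [vec_apply]
      simp [hi, T.idx]
    · rfl
  · push Not at ht
    exact epr_ne l _ t hl ht

end global

end MHM

open MHM in
theorem mhModel_proof : Stmt_MHModel := by
  intro K Q _ D _ _ C _ x g huniv
  let M : Type := (Fin K → T) → D
  let E : Type := Module.End (RG Q) M
  -- the action of the counter group
  obtain ⟨F, hFx, hFg⟩ := huniv (Module.End (RG Q) ((Fin K → T) → D))ˣ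
    (fun j => Units.map (lft j : Module.End (RG Q) (T → D) →+*
      Module.End (RG Q) ((Fin K → T) → D)).toMonoidHom X)
    (fun j => Units.map (lft j : Module.End (RG Q) (T → D) →+*
      Module.End (RG Q) ((Fin K → T) → D)).toMonoidHom Γ)
    (by
      intro i j
      by_cases hij : i = j
      · subst hij; exact Commute.refl _
      · exact units_comm hij _ _ xi_loc)
    (by
      intro i j hij
      exact units_comm hij _ _ eps_loc)
    (by
      intro i j
      by_cases hij : i = j
      · subst hij; exact Commute.refl _
      · exact units_comm hij _ _ eps_loc)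
    (by
      intro i n
      have h := (Γ_comm (R := RG Q) (D := D) n).map
        (Units.map (lft i : Module.End (RG Q) (T → D) →+*
          Module.End (RG Q) ((Fin K → T) → D)).toMonoidHom)
      rw [map_cj, map_zpow] at h
      exact h)
  let ρC : C →* AddMonoid.End M :=
    (Module.toAddMonoidEnd (Module.End (RG Q) M) M : Module.End (RG Q) M →* AddMonoid.End M).comp
      ((Units.coeHom (Module.End (RG Q) M)).comp F)
  let ρQ : Q →* AddMonoid.End M :=
    (Module.toAddMonoidEnd (RG Q) M : RG Q →* AddMonoid.End M).comp (MonoidAlgebra.of ℤ Q)
  have hQC : ∀ q c, Commute (ρQ q) (ρC c) := by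
    intro q c
    refine AddMonoidHom.ext fun m => ?_
    change el q • ((F c : Module.End (RG Q) M) m) = (F c : Module.End (RG Q) M) (el q • m)
    rw [map_smul]
  let ρ : Q × C →* AddMonoid.End M := ρQ.noncommCoprod ρC hQC
  let Λ : RG (Q × C) →+* AddMonoid.End M := (MonoidAlgebra.lift ℤ (AddMonoid.End M) (Q × C) ρ).toRingHom
  let iM : Module (RG (Q × C)) M := Module.compHom M Λ
  have hel : ∀ (p : Q × C) (m : M), el p • m = el p.1 • ((F p.2 : Module.End (RG Q) M) m) := by
    intro p m
    change (Λ (el p)) m = _
    have e : Λ (el p) = ρ p := by
      change MonoidAlgebra.lift ℤ (AddMonoid.End M) (Q × C) ρ (MonoidAlgebra.single p 1) = _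
      rw [MonoidAlgebra.lift_single, one_smul]
    rw [e]
    rfl
  have helC : ∀ (c : C) (m : M), el ((1, c) : Q × C) • m = (F c : Module.End (RG Q) M) m := by
    intro c m
    rw [hel]
    change (el 1 : RG Q) • _ = _
    rw [el_one, one_smul]
  have hgp : ∀ (l : List (Fin K)) (m : M), gprod Q g l • m = epr (R := RG Q) l m := by
    intro l m
    induction l with
    | nil =>
      simp only [gprod, List.map_nil, List.prod_nil, epr, one_smul]
      rfl
    | cons j l ih =>
      have e1 : gprod Q g (j :: l) = (el ((1, g j) : Q × C) - 1) * gprod Q g l := by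
        simp [gprod]
      have e2 : epr (R := RG Q) (D := D) (j :: l) = lft j eps * epr (R := RG Q) l := by
        simp [epr]
      rw [e1, mul_smul, ih, sub_smul, one_smul, helC, hFg, e2]
      change (lft j (1 + eps) : Module.End (RG Q) M) (epr (R := RG Q) l m) -
        epr (R := RG Q) l m = _
      rw [map_add, map_one, LinearMap.add_apply, Module.End.one_apply, add_sub_cancel_left]
      rfl
  refine ⟨M, inferInstance, iM, br, ⟨⟨fun m => m fun _ => .s, rfl⟩, fun _ _ => rfl⟩, ?_, ?_, ?_, ?_⟩
  · intro j F₁ F' h
    rw [add_smul, helC, helC, map_inv, hFx]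
    rw [← shift_br (R := RG Q) j F₁ F' h, map_add]
    rfl
  · intro l hl F₁ h
    rw [hgp]
    exact epr_br l hl F₁ h
  · intro q F₁
    rw [hel]
    change el q • ((F 1 : Module.End (RG Q) M) (br F₁)) = _
    rw [map_one]
    funext t
    change el q • br F₁ t = _
    rw [br_apply, br_apply]
    split_ifs
    · rfl
    · exact smul_zero _
  · intro F₁
    rw [hgp]
    change epr (R := RG Q) (List.finRange K) (br F₁) (fun _ => .s) = F₁ 0
    rw [epr_eq _ _ _ (List.nodup_finRange K) (fun _ _ => rfl), br_of]
    · congr 1
      funext i
      simp [vec, T.idx]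
    · intro j
      simp [T.isA]

end Pool.Agent.HIG
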