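import Mathlib
import Pool.Agent.HIG.Extra

/-!
# HIG module PRIM: loop programs compute primitive recursive functions
-/

noncomputable section

namespace Pool.Agent.HIG

open Function

namespace PRIM

/-- do nothing -/
def skp (t : ℕ) : Prog := .seq (.inc t) (.dec t)

/-- clear `x` with the help of `t` -/
def clr (x t : ℕ) : Prog := .loop x (skp t)

/-- move `x` to `y` -/
def mv (x y : ℕ) : Prog := .loop x (.inc y)

/-- copy `x` to `y` with the help of `t` -/
def cp (x y t : ℕ) : Prog := .seq (.loop x (.seq (.inc y) (.inc t))) (.loop t (.inc x))

lemma run_skp (t : ℕ) (v : St) : (skp t).run v = v := by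
  funext i
  simp only [skp, Prog.run, update_apply]
  split_ifs <;> simp_all

lemma run_skp_iter (t m : ℕ) (v : St) : ((skp t).run)^[m] v = v := by
  induction m with
  | zero => rfl
  | succ m ih => rw [iterate_succ_apply, run_skp, ih]

lemma run_clr (x t : ℕ) (v : St) : (clr x t).run v = update v x 0 := by
  simp only [clr, Prog.run]
  exact run_skp_iter _ _ _

lemma run_inc_iter (y m : ℕ) (v : St) : ((Prog.inc y).run)^[m] v = update v y (v y + m) := by
  induction m with
  | zero => simp
  | succ m ih =>
    rw [iterate_succ_apply', ih]
    funext i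
    by_cases h : i = y
    · subst h
      simp only [Prog.run, update_self]
      omega
    · simp only [Prog.run, update_of_ne h]

lemma run_mv (x y : ℕ) (h : x ≠ y) (v : St) :
    (mv x y).run v = update (update v x 0) y (v y + v x) := by
  have : (mv x y).run v = ((Prog.inc y).run)^[v x] (update v x 0) := rfl
  rw [this, run_inc_iter, update_of_ne h.symm]

lemma run_inc2_iter (y t m : ℕ) (h : y ≠ t) (v : St) :
    ((Prog.seq (.inc y) (.inc t)).run)^[m] v = update (update v y (v y + m)) t (v t + m) := by
  induction m with
  | zero => simp
  | succ m ih =>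
    rw [iterate_succ_apply', ih]
    funext i
    simp only [Prog.run, update_apply]
    split_ifs <;> simp_all <;> omega

lemma run_cp (x y t : ℕ) (h1 : x ≠ y) (h2 : x ≠ t) (h3 : y ≠ t) (v : St) (hv : v t = 0) :
    (cp x y t).run v = update v y (v y + v x) := by
  have : (cp x y t).run v = ((Prog.inc x).run)^[(((Prog.seq (.inc y) (.inc t)).run)^[v x]
      (update v x 0)) t] (update (((Prog.seq (.inc y) (.inc t)).run)^[v x] (update v x 0)) t 0) :=
    rfl
  rw [this, run_inc2_iter _ _ _ h3, run_inc_iter]
  funext i
  simp only [update_apply]
  split_ifs <;> simp_all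

/-- `p` computes `f` of the registers `xs` into `y` using extra registers in `[b, K)` -/
structure Spec {n : ℕ} (f : List.Vector ℕ n → ℕ) (xs : Fin n → ℕ) (y b K : ℕ) (p : Prog) :
    Prop where
  wf : p.WF
  uses : ∀ i, p.Uses i → (∃ j, xs j = i) ∨ i = y ∨ (b ≤ i ∧ i < K)
  run : ∀ v : St, v y = 0 → (∀ i, b ≤ i → i < K → v i = 0) →
    p.run v = update v y (f (List.Vector.ofFn fun j => v (xs j)))

/-- clear the registers in `[b, b + k)` -/
def clrAll (b t : ℕ) : ℕ → Prog
  | 0 => skp t
  | k + 1 => .seq (clrAll b t k) (clr (b + k) t)

lemma run_clrAll (b t k : ℕ) (v : St) :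
    (clrAll b t k).run v = fun i => if b ≤ i ∧ i < b + k then 0 else v i := by
  induction k with
  | zero =>
    rw [clrAll, run_skp]
    funext i
    rw [if_neg (by omega)]
  | succ k ih =>
    simp only [clrAll, Prog.run]
    rw [ih, run_clr]
    funext i
    simp only [update_apply]
    split_ifs <;> first | rfl | omega

lemma wf_clrAll (b t k : ℕ) (h : t < b) : (clrAll b t k).WF := by
  induction k with
  | zero => exact ⟨trivial, trivial⟩
  | succ k ih =>
    refine ⟨ih, ?_, trivial, trivial⟩
    simp only [skp, Prog.Uses, or_self]
    omega

lemma uses_clrAll (b t k : ℕ) (i : ℕ) (h : (clrAll b t k).Uses i) :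
    i = t ∨ (b ≤ i ∧ i < b + k) := by
  induction k with
  | zero =>
    simp only [clrAll, skp, Prog.Uses, or_self] at h
    exact Or.inl h.symm
  | succ k ih =>
    simp only [clrAll, clr, skp, Prog.Uses, or_self] at h
    rcases h with h | h | h
    · rcases ih h with h | h
      · exact Or.inl h
      · right; omega
    · right; omega
    · exact Or.inl h.symm

theorem mainP : ∀ {n : ℕ} {f : List.Vector ℕ n → ℕ}, Nat.Primrec' f →
    ∀ (xs : Fin n → ℕ) (y b : ℕ), (∀ j, xs j < b) → y < b → (∀ j, xs j ≠ y) →
      ∃ K p, Spec f xs y b K p := by
  intro n f hf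
  induction hf with
  | zero =>
    intro xs y b hxs hy hxy
    refine ⟨b, skp y, ⟨trivial, trivial⟩, ?_, ?_⟩
    · intro i hi
      simp only [skp, Prog.Uses, or_self] at hi
      exact Or.inr (Or.inl hi.symm)
    · intro v hv _
      rw [run_skp, ← hv, update_eq_self]
  | succ =>
    intro xs y b hxs hy hxy
    refine ⟨b + 1, .seq (cp (xs 0) y b) (.inc y), ?_, ?_, ?_⟩
    · have h0 := hxs 0
      have h1 := hxy 0
      refine ⟨⟨⟨?_, trivial, trivial⟩, ?_, trivial⟩, trivial⟩
      · simp only [Prog.Uses]; omega
      · simp only [Prog.Uses]; omega
    · intro i hi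
      simp only [cp, Prog.Uses] at hi
      rcases hi with ((hi | hi | hi) | hi | hi) | hi
      · exact Or.inl ⟨0, hi⟩
      · exact Or.inr (Or.inl hi.symm)
      · right; right; omega
      · right; right; omega
      · exact Or.inl ⟨0, hi⟩
      · exact Or.inr (Or.inl hi.symm)
    · intro v hv hb
      have h0 := hxs 0
      have h1 := hxy 0
      have hvb := hb b le_rfl (by omega)
      show (Prog.inc y).run ((cp (xs 0) y b).run v) = _
      rw [run_cp _ _ _ h1 (by omega) (by omega) v hvb]
      funext i
      simp only [Prog.run, update_apply]
      split_ifs <;> simp_all [List.Vector.head_ofFn]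
  | get i =>
    intro xs y b hxs hy hxy
    refine ⟨b + 1, cp (xs i) y b, ?_, ?_, ?_⟩
    · have h0 := hxs i
      have h1 := hxy i
      refine ⟨⟨?_, trivial, trivial⟩, ?_, trivial⟩
      · simp only [Prog.Uses]; omega
      · simp only [Prog.Uses]; omega
    · intro j hj
      simp only [cp, Prog.Uses] at hj
      rcases hj with (hi | hi | hi) | hi | hi
      · exact Or.inl ⟨i, hi⟩
      · exact Or.inr (Or.inl hi.symm)
      · right; right; omega
      · right; right; omega
      · exact Or.inl ⟨i, hi⟩
    · intro v hv hb
      have h0 := hxs i
      have h1 := hxy i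
      have hvb := hb b le_rfl (by omega)
      rw [run_cp _ _ _ h1 (by omega) (by omega) v hvb, hv, List.Vector.get_ofFn]
      simp
  | @comp m n f g hf hg ihf ihg =>
    intro xs y b hxs hy hxy
    have hp : ∀ i : Fin n, ∃ K p, Spec (g i) xs (b + i) (b + n) K p := fun i =>
      ihg i xs (b + i) (b + n) (fun j => by have := hxs j; omega) (by have := i.2; omega)
        (fun j => by have := hxs j; omega)
    choose Kg pg hpg using hp
    obtain ⟨Kf, pf, hpf⟩ := ihf (fun i => b + i) y (b + n) (fun j => by have := j.2; omega)
      (by omega) (fun j => by omega)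
    obtain ⟨K, hK1, hK2, hK3⟩ : ∃ K, b + n ≤ K ∧ Kf ≤ K ∧ ∀ i, Kg i ≤ K := by
      refine ⟨max (b + n) (max Kf (Finset.univ.sup Kg)), le_max_left _ _,
        le_trans (le_max_left _ _) (le_max_right _ _), fun i => ?_⟩
      exact le_trans (Finset.le_sup (f := Kg) (Finset.mem_univ i))
        (le_trans (le_max_right _ _) (le_max_right _ _))
    -- the first k values
    have hk : ∀ k ≤ n, ∃ q : Prog, q.WF ∧ (∀ i, q.Uses i → (∃ j, xs j = i) ∨ i = y ∨
        (b ≤ i ∧ i < K)) ∧ ∀ v : St, (∀ i, b ≤ i → i < K → v i = 0) →
        q.run v = fun i => if h : b ≤ i ∧ i < b + k ∧ i - b < n then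
          g ⟨i - b, h.2.2⟩ (List.Vector.ofFn fun j => v (xs j)) else v i := by
      intro k
      induction k with
      | zero =>
        intro _
        refine ⟨skp y, ⟨trivial, trivial⟩, ?_, ?_⟩
        · intro i hi
          simp only [skp, Prog.Uses, or_self] at hi
          exact Or.inr (Or.inl hi.symm)
        · intro v _
          rw [run_skp]
          funext i
          rw [dif_neg (by omega)]
      | succ k ih =>
        intro hkn
        obtain ⟨q, hq1, hq2, hq3⟩ := ih (by omega)
        have hs := hpg ⟨k, by omega⟩
        refine ⟨.seq q (pg ⟨k, by omega⟩), ⟨hq1, hs.wf⟩, ?_, ?_⟩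
        · intro i hi
          rcases hi with hi | hi
          · exact hq2 i hi
          · rcases hs.uses i hi with h | h | h
            · exact Or.inl h
            · right; right
              simp only at h
              omega
            · right; right
              have := hK3 ⟨k, by omega⟩
              omega
        · intro v hv
          show (pg ⟨k, by omega⟩).run (q.run v) = _
          have hqv := hq3 v hv
          have hx : ∀ j, (q.run v) (xs j) = v (xs j) := by
            intro j
            rw [hqv]
            have := hxs j
            simp only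
            rw [dif_neg (by omega)]
          rw [hs.run (q.run v)]
          · rw [show (fun j => (q.run v) (xs j)) = fun j => v (xs j) from funext hx]
            funext i
            simp only [update_apply]
            split_ifs with h1 h2 h2
            · subst h1
              congr 2
              omega
            · omega
            · rw [hqv]
              simp only
              rw [dif_pos (by omega)]
            · rw [hqv]
              simp only
              rw [dif_neg (by omega)]
          · rw [hqv]
            simp only
            rw [dif_neg (by omega)]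
            exact hv _ (by omega) (by omega)
          · intro i hi1 hi2
            rw [hqv]
            simp only
            rw [dif_neg (by omega)]
            exact hv i (by omega) (by have := hK3 ⟨k, by omega⟩; omega)
    obtain ⟨q, hq1, hq2, hq3⟩ := hk n le_rfl
    refine ⟨K, .seq (.seq q pf) (clrAll b y n), ⟨⟨hq1, hpf.wf⟩, wf_clrAll _ _ _ hy⟩, ?_, ?_⟩
    · intro i hi
      rcases hi with (hi | hi) | hi
      · exact hq2 i hi
      · rcases hpf.uses i hi with ⟨j, h⟩ | h | h
        · right; right
          have := j.2
          omega
        · exact Or.inr (Or.inl h)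
        · right; right; omega
      · rcases uses_clrAll _ _ _ _ hi with h | h
        · exact Or.inr (Or.inl h)
        · right; right; omega
    · intro v hv hb
      show (clrAll b y n).run (pf.run (q.run v)) = _
      have hqv := hq3 v hb
      have hx : ∀ j : Fin n, (q.run v) (b + j) = g j (List.Vector.ofFn fun j => v (xs j)) := by
        intro j
        rw [hqv]
        have := j.2
        simp only
        rw [dif_pos (by omega)]
        congr 2
        omega
      rw [hpf.run (q.run v), run_clrAll]
      · rw [show (fun j : Fin n => (q.run v) (b + j)) =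
          fun j => g j (List.Vector.ofFn fun j => v (xs j)) from funext hx]
        funext i
        simp only [update_apply]
        split_ifs with h1 h2 h3
        · omega
        · exact (hb i h1.1 (by omega)).symm
        · rfl
        · rw [hqv]
          simp only
          rw [dif_neg (by omega)]
      · rw [hqv]
        simp only
        rw [dif_neg (by omega)]
        exact hv
      · intro i hi1 hi2
        rw [hqv]
        simp only
        rw [dif_neg (by omega)]
        exact hb i (by omega) (by omega)
  | @prec n f g hf hg ihf ihg =>
    intro xs y b hxs hy hxy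
    obtain ⟨Kf, pf, hpf⟩ := ihf (fun j => xs j.succ) y (b + 4)
      (fun j => by have := hxs j.succ; omega) (by omega) (fun j => hxy j.succ)
    obtain ⟨Kg, pg, hpg⟩ := ihg (Fin.cons (b + 1) (Fin.cons y (fun j => xs j.succ))) (b + 2) (b + 4)
      (by
        intro j
        refine Fin.cases ?_ (fun j => Fin.cases ?_ (fun j => ?_) j) j
        · simp
        · simp only [Fin.cons_succ, Fin.cons_zero]; omega
        · simp only [Fin.cons_succ]
          have := hxs j.succ; omega)
      (by omega)
      (by
        intro j
        refine Fin.cases ?_ (fun j => Fin.cases ?_ (fun j => ?_) j) j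
        · simp
        · simp only [Fin.cons_succ, Fin.cons_zero]; omega
        · simp only [Fin.cons_succ]
          have := hxs j.succ; omega)
    obtain ⟨K, hK1, hK2, hK3⟩ : ∃ K, b + 4 ≤ K ∧ Kf ≤ K ∧ Kg ≤ K :=
      ⟨max (b + 4) (max Kf Kg), le_max_left _ _,
        le_trans (le_max_left _ _) (le_max_right _ _),
        le_trans (le_max_right _ _) (le_max_right _ _)⟩
    have h0 := hxs 0
    have h0y := hxy 0
    have hguses : ∀ i, pg.Uses i → (∃ j, xs j = i) ∨ i = y ∨ (b + 1 ≤ i ∧ i < K) := by
      intro i hi
      rcases hpg.uses i hi with ⟨j, h⟩ | h | h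
      · revert h
        refine Fin.cases ?_ (fun j => Fin.cases ?_ (fun j => ?_) j) j
        · intro h
          rw [Fin.cons_zero] at h
          right; right; omega
        · intro h
          rw [Fin.cons_succ, Fin.cons_zero] at h
          exact Or.inr (Or.inl h.symm)
        · intro h
          rw [Fin.cons_succ, Fin.cons_succ] at h
          exact Or.inl ⟨j.succ, h⟩
      · right; right; omega
      · right; right; omega
    obtain ⟨body, hbody⟩ : ∃ body : Prog, body =
      .seq (.seq (.seq pg (clr y (b + 3))) (mv (b + 2) y)) (.inc (b + 1)) := ⟨_, rfl⟩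
    have hbuses : ∀ i, body.Uses i → (∃ j, xs j = i) ∨ i = y ∨ (b + 1 ≤ i ∧ i < K) := by
      intro i hi
      rw [hbody] at hi
      simp only [clr, skp, mv, Prog.Uses] at hi
      rcases hi with ((hi | hi | hi | hi) | hi | hi) | hi
      · exact hguses i hi
      · exact Or.inr (Or.inl hi.symm)
      · right; right; omega
      · right; right; omega
      · right; right; omega
      · exact Or.inr (Or.inl hi.symm)
      · right; right; omega
    have hbWF : body.WF := by
      rw [hbody]
      refine ⟨⟨⟨hpg.wf, ?_, trivial, trivial⟩, ?_, trivial⟩, trivial⟩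
      · simp only [skp, Prog.Uses]; omega
      · simp only [Prog.Uses]; omega
    refine ⟨K, .seq (.seq (.seq pf (cp (xs 0) b (b + 3))) (.loop b body)) (clr (b + 1) (b + 3)),
      ⟨⟨⟨hpf.wf, ⟨?_, trivial, trivial⟩, ?_, trivial⟩, ?_, hbWF⟩, ?_, trivial, trivial⟩, ?_, ?_⟩
    · simp only [Prog.Uses]; omega
    · simp only [Prog.Uses]; omega
    · intro hb
      rcases hbuses b hb with ⟨j, h⟩ | h | h
      · have := hxs j; omega
      · omega
      · omega
    · simp only [skp, Prog.Uses]; omega
    · intro i hi
      rcases hi with ((hi | hi) | hi) | hi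
      · rcases hpf.uses i hi with ⟨j, h⟩ | h | h
        · exact Or.inl ⟨j.succ, h⟩
        · exact Or.inr (Or.inl h)
        · right; right; omega
      · simp only [cp, Prog.Uses] at hi
        rcases hi with (hi | hi | hi) | hi | hi
        · exact Or.inl ⟨0, hi⟩
        · right; right; omega
        · right; right; omega
        · right; right; omega
        · exact Or.inl ⟨0, hi⟩
      · rcases hi with hi | hi
        · right; right; omega
        · rcases hbuses i hi with h | h | h
          · exact Or.inl h
          · exact Or.inr (Or.inl h)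
          · right; right; omega
      · simp only [clr, skp, Prog.Uses] at hi
        right; right; omega
    · intro v hv hb
      have hR : ∃ R : ℕ → ℕ, ∀ m, R m = (Nat.rec (f (List.Vector.ofFn fun j => v (xs j.succ)))
          (fun y IH => g (y ::ᵥ IH ::ᵥ (List.Vector.ofFn fun j => v (xs j.succ)))) m : ℕ) :=
        ⟨_, fun m => rfl⟩
      obtain ⟨R, hR⟩ := hR
      have hvb0 := hb b le_rfl (by omega)
      have hvb1 := hb (b + 1) (by omega) (by omega)
      have hvb2 := hb (b + 2) (by omega) (by omega)
      have hvb3 := hb (b + 3) (by omega) (by omega)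
      have hstep : ∀ m, body.run (update (update v y (R m)) (b + 1) m) =
          update (update v y (R (m + 1))) (b + 1) (m + 1) := by
        intro m
        obtain ⟨u, hu⟩ : ∃ u, u = update (update v y (R m)) (b + 1) m := ⟨_, rfl⟩
        rw [← hu, hbody]
        show (Prog.inc (b + 1)).run ((mv (b + 2) y).run ((clr y (b + 3)).run (pg.run u))) = _
        have hu1 : u (b + 1) = m := by rw [hu]; simp
        have huy : u y = R m := by
          rw [hu, update_of_ne (by omega)]; simp
        have huo : ∀ i, i ≠ y → i ≠ b + 1 → u i = v i := by
          intro i hi1 hi2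
          rw [hu, update_of_ne hi2, update_of_ne hi1]
        have hvec : (List.Vector.ofFn fun j =>
            u ((Fin.cons (b + 1) (Fin.cons y (fun j => xs j.succ)) : Fin (n + 2) → ℕ) j)) =
            m ::ᵥ R m ::ᵥ (List.Vector.ofFn fun j => v (xs j.succ)) := by
          show (_ ::ᵥ _ ::ᵥ List.Vector.ofFn _) = _
          simp only [Fin.cons_succ, Fin.cons_zero]
          rw [hu1, huy]
          congr 3
          funext j
          exact huo _ (hxy j.succ) (by have := hxs j.succ; omega)
        rw [hpg.run u (by rw [huo _ (by omega) (by omega)]; exact hvb2)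
          (fun i hi1 hi2 => by
            rw [huo _ (by omega) (by omega)]; exact hb i (by omega) (by omega)),
          hvec, run_clr, run_mv _ _ (by omega)]
        have hR1 : R (m + 1) = g (m ::ᵥ R m ::ᵥ (List.Vector.ofFn fun j => v (xs j.succ))) := by
          rw [hR, hR]
        rw [← hR1]
        funext i
        simp only [Prog.run, update_apply]
        split_ifs <;> first | omega | simp_all
      have hiter : ∀ m, (body.run)^[m] (update v y (R 0)) =
          update (update v y (R m)) (b + 1) m := by
        intro m
        induction m with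
        | zero =>
          have h1 : (update v y (R 0)) (b + 1) = 0 := by
            rw [update_of_ne (by omega)]; exact hvb1
          exact (update_eq_self_iff.2 h1.symm).symm
        | succ m ih => rw [iterate_succ_apply', ih, hstep]
      show (clr (b + 1) (b + 3)).run ((Prog.loop b body).run
        ((cp (xs 0) b (b + 3)).run (pf.run v))) = _
      rw [hpf.run v hv (fun i hi1 hi2 => hb i (by omega) (by omega))]
      have hR0 : R 0 = f (List.Vector.ofFn fun j => v (xs j.succ)) := hR 0
      rw [← hR0, run_cp _ _ _ (by omega) (by omega) (by omega) _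
        (by rw [update_of_ne (by omega)]; exact hvb3)]
      obtain ⟨w, hw⟩ : ∃ w, w = update v y (R 0) := ⟨_, rfl⟩
      rw [← hw]
      have hwb : w b = 0 := by rw [hw, update_of_ne (by omega)]; exact hvb0
      have hwx : w (xs 0) = v (xs 0) := by rw [hw, update_of_ne h0y]
      rw [hwb, hwx, zero_add]
      have hl : (Prog.loop b body).run (update w b (v (xs 0))) =
          (body.run)^[v (xs 0)] w := by
        show (body.run)^[(update w b (v (xs 0))) b] (update (update w b (v (xs 0))) b 0) = _
        rw [update_self, update_idem, update_eq_self_iff.2 hwb.symm]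
      rw [hl, hw, hiter, run_clr, update_idem]
      have hfin : ((List.Vector.ofFn fun j => v (xs j)).head.rec
          (f (List.Vector.ofFn fun j => v (xs j)).tail)
          fun y IH => g (y ::ᵥ IH ::ᵥ (List.Vector.ofFn fun j => v (xs j)).tail) : ℕ) =
          R (v (xs 0)) := by
        rw [hR]
        rfl
      rw [hfin]
      funext i
      simp only [update_apply]
      split_ifs <;> simp_all

end PRIM

open PRIM in
theorem prim_proof : Stmt_Prim1 ∧ Stmt_Prim2 := by
  constructor
  · intro f hf
    have hf' := Nat.Primrec'.prim_iff₁.2 hf
    obtain ⟨K, p, hp⟩ := mainP hf' (fun _ => 0) 1 2 (fun _ => by omega) (by omega)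
      (fun _ => by omega)
    refine ⟨max K 2, .seq (.seq p (clr 0 1)) (mv 1 0), by omega, ?_, ?_, ?_⟩
    · refine ⟨⟨hp.wf, ?_, trivial, trivial⟩, ?_, trivial⟩
      · simp only [skp, Prog.Uses]; omega
      · simp only [Prog.Uses]; omega
    · intro i hi
      rcases hi with (hi | hi) | hi
      · rcases hp.uses i hi with ⟨j, h⟩ | h | h <;> omega
      · simp only [clr, skp, Prog.Uses] at hi
        omega
      · simp only [mv, Prog.Uses] at hi
        omega
    · intro v hv
      show (mv 1 0).run ((clr 0 1).run (p.run v)) = _
      have hv1 := hv 1 (by omega) (by omega)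
      rw [hp.run v hv1 (fun i hi1 hi2 => hv i (by omega) (by omega)), run_clr,
        run_mv _ _ (by omega)]
      funext i
      simp only [update_apply]
      split_ifs <;> simp_all [List.Vector.ofFn]
  · intro f hf
    have hf' := Nat.Primrec'.prim_iff₂.2 hf
    obtain ⟨K, p, hp⟩ := mainP hf' (fun j => (j : ℕ)) 2 3 (fun j => by omega) (by omega)
      (fun j => by omega)
    refine ⟨max K 3, .seq (.seq (.seq p (clr 0 2)) (clr 1 2)) (mv 2 0), by omega, ?_, ?_, ?_⟩
    · refine ⟨⟨⟨hp.wf, ?_, trivial, trivial⟩, ?_, trivial, trivial⟩, ?_, trivial⟩
      · simp only [skp, Prog.Uses]; omega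
      · simp only [skp, Prog.Uses]; omega
      · simp only [Prog.Uses]; omega
    · intro i hi
      rcases hi with ((hi | hi) | hi) | hi
      · rcases hp.uses i hi with ⟨j, h⟩ | h | h <;> omega
      · simp only [clr, skp, Prog.Uses] at hi
        omega
      · simp only [clr, skp, Prog.Uses] at hi
        omega
      · simp only [mv, Prog.Uses] at hi
        omega
    · intro v hv
      show (mv 2 0).run ((clr 1 2).run ((clr 0 2).run (p.run v))) = _
      have hv1 := hv 2 (by omega) (by omega)
      rw [hp.run v hv1 (fun i hi1 hi2 => hv i (by omega) (by omega)), run_clr, run_clr,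
        run_mv _ _ (by omega)]
      funext i
      simp only [update_apply]
      split_ifs <;> simp_all [List.Vector.ofFn]

theorem prim1_proof : Stmt_Prim1 := prim_proof.1

theorem prim2_proof : Stmt_Prim2 := prim_proof.2

end Pool.Agent.HIG
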