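import Mathlib
import Pool.Agent.HIG.Stmts

/-!
# RPQUOT: quotients of recursively presented groups by terms of the derived series
-/

noncomputable section

namespace Pool.Agent.HIG.RPQuot

open Function
open scoped commutatorElement

/-- the inverse word -/
def inv' (w : Word) : Word := (w.map fun g => (g.1, !g.2)).reverse

theorem inv'_eq (w : Word) : inv' w = FreeGroup.invRev w := rfl

theorem primrec_inv' : Primrec inv' := by
  unfold inv'
  refine Primrec.list_reverse.comp (Primrec.list_map Primrec.id ?_)
  exact (Primrec.pair (Primrec.fst.comp Primrec.snd)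
    (Primrec.not.comp (Primrec.snd.comp Primrec.snd))).to₂

/-- the commutator word -/
def com (u v : Word) : Word := u ++ (v ++ (inv' u ++ inv' v))

theorem mk_com (u v : Word) :
    (FreeGroup.mk (com u v) : FreeGroup ℕ) = ⁅FreeGroup.mk u, FreeGroup.mk v⁆ := by
  rw [commutatorElement_def, FreeGroup.inv_mk, FreeGroup.inv_mk, FreeGroup.mul_mk,
    FreeGroup.mul_mk, FreeGroup.mul_mk, com, inv'_eq, inv'_eq]
  simp [List.append_assoc]

theorem primrec_com {f g : ℕ → Word} (hf : Primrec f) (hg : Primrec g) :
    Primrec fun n => com (f n) (g n) := by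
  unfold com
  exact Primrec.list_append.comp hf (Primrec.list_append.comp hg
    (Primrec.list_append.comp (primrec_inv'.comp hf) (primrec_inv'.comp hg)))

/-- iterated commutators -/
def T (F : Type) [Group F] : ℕ → Set F
  | 0 => Set.univ
  | n + 1 => {x | ∃ s ∈ T F n, ∃ t ∈ T F n, x = ⁅s, t⁆}

theorem T_conj {F : Type} [Group F] (n : ℕ) (g : F) : ∀ x ∈ T F n, g * x * g⁻¹ ∈ T F n := by
  induction n with
  | zero => intro x _; trivial
  | succ n ih =>
    rintro x ⟨s, hs, t, ht, rfl⟩
    refine ⟨g * s * g⁻¹, ih s hs, g * t * g⁻¹, ih t ht, ?_⟩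
    simp only [commutatorElement_def]
    group

theorem closure_normal {F : Type} [Group F] (S : Set F) (hS : ∀ g, ∀ x ∈ S, g * x * g⁻¹ ∈ S) :
    (Subgroup.closure S).Normal := by
  refine ⟨fun x hx g => ?_⟩
  induction hx using Subgroup.closure_induction with
  | mem x hx => exact Subgroup.subset_closure (hS g x hx)
  | one => simp
  | mul x y _ _ hx hy =>
    have : g * (x * y) * g⁻¹ = (g * x * g⁻¹) * (g * y * g⁻¹) := by group
    rw [this]; exact Subgroup.mul_mem _ hx hy
  | inv x _ hx =>
    have : g * x⁻¹ * g⁻¹ = (g * x * g⁻¹)⁻¹ := by group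
    rw [this]; exact Subgroup.inv_mem _ hx

theorem derived_eq {F : Type} [Group F] (n : ℕ) :
    derivedSeries F n = Subgroup.closure (T F n) := by
  induction n with
  | zero => simp [T]
  | succ n ih =>
    apply le_antisymm
    · rw [derivedSeries_succ, ih]
      have hN : (Subgroup.closure (T F (n + 1))).Normal := closure_normal _ (T_conj (n + 1))
      -- work modulo `N`
      have h1 : ∀ s ∈ Subgroup.closure (T F n), ∀ t ∈ T F n,
          ⁅s, t⁆ ∈ Subgroup.closure (T F (n + 1)) := by
        intro s hs t ht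
        have h2 : Subgroup.closure (T F n) ≤ (Subgroup.centralizer
            {(QuotientGroup.mk t : F ⧸ Subgroup.closure (T F (n + 1)))}).comap
            (QuotientGroup.mk' _) := by
          rw [Subgroup.closure_le]
          intro s hs
          show _ ∈ Subgroup.centralizer _
          rw [Subgroup.mem_centralizer_singleton_iff]
          have h3 : ⁅s, t⁆ ∈ Subgroup.closure (T F (n + 1)) :=
            Subgroup.subset_closure ⟨s, hs, t, ht, rfl⟩
          have h4 := (QuotientGroup.eq_one_iff _).mpr h3
          rw [commutatorElement_def] at h4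
          have h5 : (QuotientGroup.mk s : F ⧸ Subgroup.closure (T F (n + 1))) *
            QuotientGroup.mk t * (QuotientGroup.mk s)⁻¹ * (QuotientGroup.mk t)⁻¹ = 1 := h4
          have h6 := mul_inv_eq_one.mp h5
          have h7 := mul_inv_eq_iff_eq_mul.mp h6
          exact h7
        have h3 := h2 hs
        have h4 := Subgroup.mem_centralizer_singleton_iff.mp h3
        rw [← QuotientGroup.eq_one_iff, commutatorElement_def]
        show (QuotientGroup.mk s : F ⧸ Subgroup.closure (T F (n + 1))) *
            QuotientGroup.mk t * (QuotientGroup.mk s)⁻¹ * (QuotientGroup.mk t)⁻¹ = 1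
        rw [mul_inv_eq_one, mul_inv_eq_iff_eq_mul]
        exact h4
      rw [Subgroup.commutator_le]
      intro s hs t ht
      have h2 : Subgroup.closure (T F n) ≤ (Subgroup.centralizer
          {(QuotientGroup.mk s : F ⧸ Subgroup.closure (T F (n + 1)))}).comap
          (QuotientGroup.mk' _) := by
        rw [Subgroup.closure_le]
        intro t ht
        show _ ∈ Subgroup.centralizer _
        rw [Subgroup.mem_centralizer_singleton_iff]
        have h4 := (QuotientGroup.eq_one_iff _).mpr (h1 s hs t ht)
        rw [commutatorElement_def] at h4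
        have h5 : (QuotientGroup.mk s : F ⧸ Subgroup.closure (T F (n + 1))) *
          QuotientGroup.mk t * (QuotientGroup.mk s)⁻¹ * (QuotientGroup.mk t)⁻¹ = 1 := h4
        have h6 := mul_inv_eq_one.mp h5
        have h7 := mul_inv_eq_iff_eq_mul.mp h6
        exact h7.symm
      have h4 := Subgroup.mem_centralizer_singleton_iff.mp (h2 ht)
      rw [← QuotientGroup.eq_one_iff, commutatorElement_def]
      show (QuotientGroup.mk s : F ⧸ Subgroup.closure (T F (n + 1))) *
          QuotientGroup.mk t * (QuotientGroup.mk s)⁻¹ * (QuotientGroup.mk t)⁻¹ = 1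
      rw [mul_inv_eq_one, mul_inv_eq_iff_eq_mul]
      exact h4.symm
    · rw [Subgroup.closure_le]
      rintro x ⟨s, hs, t, ht, rfl⟩
      rw [derivedSeries_succ, ih]
      exact Subgroup.commutator_mem_commutator (Subgroup.subset_closure hs)
        (Subgroup.subset_closure ht)

theorem exists_fam (n : ℕ) : ∃ τ : ℕ → Word, Primrec τ ∧
    Set.range (fun m => (FreeGroup.mk (τ m) : FreeGroup ℕ)) = T (FreeGroup ℕ) n := by
  induction n with
  | zero =>
    refine ⟨fun m => (Encodable.decode (α := Word) m).getD [], ?_, ?_⟩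
    · exact Primrec.option_getD.comp Primrec.decode (Primrec.const [])
    · rw [T, Set.range_eq_univ]
      intro x
      refine ⟨Encodable.encode x.toWord, ?_⟩
      simp [FreeGroup.mk_toWord]
  | succ n ih =>
    obtain ⟨τ, h1, h2⟩ := ih
    refine ⟨fun m => com (τ m.unpair.1) (τ m.unpair.2), primrec_com
      (h1.comp (Primrec.fst.comp Primrec.unpair)) (h1.comp (Primrec.snd.comp Primrec.unpair)), ?_⟩
    ext x
    constructor
    · rintro ⟨m, rfl⟩
      refine ⟨FreeGroup.mk (τ m.unpair.1), ?_, FreeGroup.mk (τ m.unpair.2), ?_, mk_com _ _⟩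
      · rw [← h2]; exact ⟨_, rfl⟩
      · rw [← h2]; exact ⟨_, rfl⟩
    · rintro ⟨s, hs, t, ht, rfl⟩
      rw [← h2] at hs ht
      obtain ⟨a, rfl⟩ := hs
      obtain ⟨b, rfl⟩ := ht
      refine ⟨Nat.pair a b, ?_⟩
      simp only [Nat.unpair_pair]
      exact mk_com _ _

/-- merging two families -/
theorem merge {ρ σ : ℕ → Word} (hρ : Primrec ρ) (hσ : Primrec σ) :
    ∃ τ : ℕ → Word, Primrec τ ∧ Set.range (fun n => (FreeGroup.mk (τ n) : FreeGroup ℕ)) =
      Set.range (fun n => FreeGroup.mk (ρ n)) ∪ Set.range (fun n => FreeGroup.mk (σ n)) := by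
  refine ⟨fun n => bif n.bodd then ρ n.div2 else σ n.div2, ?_, ?_⟩
  · exact Primrec.cond Primrec.nat_bodd (hρ.comp Primrec.nat_div2) (hσ.comp Primrec.nat_div2)
  · ext x
    constructor
    · rintro ⟨n, rfl⟩
      dsimp only
      cases n.bodd
      · right; exact ⟨_, rfl⟩
      · left; exact ⟨_, rfl⟩
    · rintro (⟨n, rfl⟩ | ⟨n, rfl⟩)
      · refine ⟨2 * n + 1, ?_⟩
        simp [Nat.bodd_mul, Nat.div2_val]
      · refine ⟨2 * n, ?_⟩
        simp [Nat.bodd_mul, Nat.div2_val]

theorem rpquot_proof : Stmt_RPQuot := by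
  rintro G _ ev ⟨⟨k, hk⟩, hgen, ρ, hρ, hker⟩ n
  have hlift : FreeGroup.lift (fun i => (QuotientGroup.mk (ev i) : G ⧸ derivedSeries G n)) =
      (QuotientGroup.mk' (derivedSeries G n)).comp (FreeGroup.lift ev) := by
    ext i
    simp
  have hsurj : Surjective (FreeGroup.lift ev) := by
    rw [← MonoidHom.range_eq_top, FreeGroup.range_lift_eq_closure]
    exact hgen
  obtain ⟨τ, hτ, hτ'⟩ := exists_fam n
  obtain ⟨σ, hσ, hσ'⟩ := merge hρ hτ
  refine ⟨⟨k, fun i hi => ?_⟩, ?_, σ, hσ, ?_⟩
  · show (QuotientGroup.mk (ev i) : G ⧸ derivedSeries G n) = 1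
    rw [hk i hi]; rfl
  · rw [← FreeGroup.range_lift_eq_closure, hlift, MonoidHom.range_eq_top]
    exact (QuotientGroup.mk'_surjective _).comp hsurj
  · rw [hlift, ← MonoidHom.comap_ker, QuotientGroup.ker_mk',
      ← map_derivedSeries_eq hsurj n, Subgroup.comap_map_eq, hker, hσ']
    apply le_antisymm
    · rw [sup_le_iff]
      constructor
      · rw [derived_eq, ← hτ', Subgroup.closure_le]
        intro x hx
        exact Subgroup.subset_normalClosure (Or.inr hx)
      · exact Subgroup.normalClosure_mono Set.subset_union_left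
    · have : (derivedSeries (FreeGroup ℕ) n ⊔ Subgroup.normalClosure
          (Set.range fun n => (FreeGroup.mk (ρ n) : FreeGroup ℕ))).Normal := inferInstance
      apply Subgroup.normalClosure_le_normal
      rintro x (hx | hx)
      · exact (le_sup_right : _ ≤ derivedSeries (FreeGroup ℕ) n ⊔ _)
          (Subgroup.subset_normalClosure hx)
      · apply (le_sup_left : derivedSeries (FreeGroup ℕ) n ≤ _)
        rw [derived_eq, ← hτ']
        exact Subgroup.subset_closure hx

end Pool.Agent.HIG.RPQuot

namespace Pool.Agent.HIG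

theorem rpquot_proof : Stmt_RPQuot := RPQuot.rpquot_proof

end Pool.Agent.HIG
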