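import Mathlib
import Pool.Agent.HIG.Stmts
import Pool.Agent.HIG.RPQuot

/-!
# RPCOMM: finitely generated commutative groups are recursively presented
-/

noncomputable section

namespace Pool.Agent.HIG.RPComm

open Function
open scoped commutatorElement

theorem fg_sub {A : Type} [CommGroup A] [Group.FG A] (K : Subgroup A) : K.FG := by
  have : Module.Finite ℤ (Additive A) := Module.Finite.iff_addGroup_fg.mpr inferInstance
  rw [Subgroup.fg_iff_add_fg, ← AddSubgroup.toIntSubmodule_toAddSubgroup K.toAddSubgroup,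
    ← Submodule.fg_iff_addSubgroup_fg]
  exact IsNoetherian.noetherian _

/-- the relators that do not depend on the group -/
def rel0 (k n : ℕ) : Word :=
  bif n.bodd then RPQuot.com [(n.div2.unpair.1, true)] [(n.div2.unpair.2, true)]
  else [(n.div2 + k, true)]

theorem primrec_rel0 (k : ℕ) : Primrec (rel0 k) := by
  have h1 : Primrec fun n : ℕ => ([(n.div2.unpair.1, true)] : Word) :=
    Primrec.list_cons.comp (Primrec.pair (Primrec.fst.comp (Primrec.unpair.comp Primrec.nat_div2))
      (Primrec.const true)) (Primrec.const [])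
  have h2 : Primrec fun n : ℕ => ([(n.div2.unpair.2, true)] : Word) :=
    Primrec.list_cons.comp (Primrec.pair (Primrec.snd.comp (Primrec.unpair.comp Primrec.nat_div2))
      (Primrec.const true)) (Primrec.const [])
  have h3 : Primrec fun n : ℕ => ([(n.div2 + k, true)] : Word) :=
    Primrec.list_cons.comp (Primrec.pair (Primrec.nat_add.comp Primrec.nat_div2
      (Primrec.const k)) (Primrec.const true)) (Primrec.const [])
  exact Primrec.cond Primrec.nat_bodd (RPQuot.primrec_com h1 h2) h3

/-- the normal subgroup they generate -/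
def N0 (k : ℕ) : Subgroup (FreeGroup ℕ) :=
  Subgroup.normalClosure (Set.range fun n => FreeGroup.mk (rel0 k n))

instance (k : ℕ) : (N0 k).Normal := Subgroup.normalClosure_normal

theorem mk_comm_of (k i j : ℕ) :
    (QuotientGroup.mk (FreeGroup.of i) : FreeGroup ℕ ⧸ N0 k) * QuotientGroup.mk (FreeGroup.of j) =
      QuotientGroup.mk (FreeGroup.of j) * QuotientGroup.mk (FreeGroup.of i) := by
  have h1 : ⁅(FreeGroup.of i : FreeGroup ℕ), FreeGroup.of j⁆ ∈ N0 k := by
    apply Subgroup.subset_normalClosure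
    refine ⟨2 * Nat.pair i j + 1, ?_⟩
    show FreeGroup.mk (rel0 k (2 * Nat.pair i j + 1)) = _
    have h2 : rel0 k (2 * Nat.pair i j + 1) = RPQuot.com [(i, true)] [(j, true)] := by
      simp [rel0, Nat.bodd_mul, Nat.div2_val]
    rw [h2, RPQuot.mk_com]
    rfl
  have h4 := (QuotientGroup.eq_one_iff _).mpr h1
  rw [commutatorElement_def] at h4
  have h5 : (QuotientGroup.mk (FreeGroup.of i) : FreeGroup ℕ ⧸ N0 k) *
    QuotientGroup.mk (FreeGroup.of j) * (QuotientGroup.mk (FreeGroup.of i))⁻¹ *
      (QuotientGroup.mk (FreeGroup.of j))⁻¹ = 1 := h4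
  exact mul_inv_eq_iff_eq_mul.mp (mul_inv_eq_one.mp h5)

theorem mk_large (k i : ℕ) (h : k ≤ i) :
    (QuotientGroup.mk (FreeGroup.of i) : FreeGroup ℕ ⧸ N0 k) = 1 := by
  rw [QuotientGroup.eq_one_iff]
  apply Subgroup.subset_normalClosure
  refine ⟨2 * (i - k), ?_⟩
  show FreeGroup.mk (rel0 k (2 * (i - k))) = _
  have h2 : rel0 k (2 * (i - k)) = [(i, true)] := by
    simp [rel0, Nat.bodd_mul, Nat.div2_val, Nat.sub_add_cancel h]
  rw [h2]
  rfl

theorem mk_comm (k : ℕ) (u v : FreeGroup ℕ ⧸ N0 k) : u * v = v * u := by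
  have key : ∀ (w : FreeGroup ℕ ⧸ N0 k), (∀ i, w * QuotientGroup.mk (FreeGroup.of i) =
      QuotientGroup.mk (FreeGroup.of i) * w) → ∀ x : FreeGroup ℕ,
      w * QuotientGroup.mk x = QuotientGroup.mk x * w := by
    intro w hw x
    induction x using FreeGroup.induction_on with
    | C1 => exact (Commute.one_right w).eq
    | of i => exact hw i
    | inv_of i h =>
      have h1 : Commute w (QuotientGroup.mk (FreeGroup.of i)) := h
      exact h1.inv_right.eq
    | mul x y hx hy =>
      have h1 : Commute w (QuotientGroup.mk x) := hx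
      have h2 : Commute w (QuotientGroup.mk y) := hy
      exact (h1.mul_right h2).eq
  induction v using QuotientGroup.induction_on with
  | H y =>
    apply key
    intro i
    induction u using QuotientGroup.induction_on with
    | H x =>
      symm
      apply key
      intro j
      exact mk_comm_of k i j

instance commG (k : ℕ) : CommGroup (FreeGroup ℕ ⧸ N0 k) :=
  { (inferInstance : Group (FreeGroup ℕ ⧸ N0 k)) with mul_comm := mk_comm k }

theorem fg_quot (k : ℕ) : Group.FG (FreeGroup ℕ ⧸ N0 k) := by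
  rw [Group.fg_iff]
  refine ⟨(fun i : ℕ => (QuotientGroup.mk (FreeGroup.of i) : FreeGroup ℕ ⧸ N0 k)) '' Set.Iio k,
    ?_, (Set.finite_Iio k).image _⟩
  rw [Subgroup.eq_top_iff']
  intro x
  induction x using QuotientGroup.induction_on with
  | H y =>
    induction y using FreeGroup.induction_on with
    | C1 => exact Subgroup.one_mem _
    | of i =>
      rcases lt_or_ge i k with h | h
      · exact Subgroup.subset_closure ⟨i, h, rfl⟩
      · rw [mk_large k i h]; exact Subgroup.one_mem _
    | inv_of i h => exact Subgroup.inv_mem _ h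
    | mul x y hx hy => exact Subgroup.mul_mem _ hx hy

/-- adding finitely many relators -/
theorem add_list {ρ : ℕ → Word} (hρ : Primrec ρ) (L : List Word) : ∃ τ : ℕ → Word, Primrec τ ∧
    Set.range (fun n => (FreeGroup.mk (τ n) : FreeGroup ℕ)) ⊆
      Set.range (fun n => FreeGroup.mk (ρ n)) ∪ {x | ∃ w ∈ L, x = FreeGroup.mk w} ∪ {1} ∧
    Set.range (fun n => FreeGroup.mk (ρ n)) ∪ {x | ∃ w ∈ L, x = FreeGroup.mk w} ⊆
      Set.range (fun n => (FreeGroup.mk (τ n) : FreeGroup ℕ)) := by
  have hσ : Primrec fun n : ℕ => L.getD n [] :=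
    (Primrec.list_getD ([] : Word)).comp (Primrec.const L) Primrec.id
  obtain ⟨τ, h1, h2⟩ := RPQuot.merge hρ hσ
  refine ⟨τ, h1, ?_, ?_⟩
  · rw [h2]
    rintro x (hx | ⟨n, rfl⟩)
    · exact Or.inl (Or.inl hx)
    · dsimp only
      rcases lt_or_ge n L.length with h | h
      · left; right
        refine ⟨L[n], List.getElem_mem h, ?_⟩
        rw [List.getD_eq_getElem _ _ h]
      · right
        rw [List.getD_eq_default _ _ h]
        rfl
  · rw [h2]
    rintro x (hx | ⟨w, hw, rfl⟩)
    · exact Or.inl hx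
    · right
      obtain ⟨n, hn, rfl⟩ := List.getElem_of_mem hw
      refine ⟨n, ?_⟩
      dsimp only
      rw [List.getD_eq_getElem _ _ hn]

theorem rpcomm_proof : Stmt_RPComm := by
  intro G _ hG
  obtain ⟨S, hS⟩ := hG.out
  set l := S.toList with hl
  set k := l.length with hk
  set ev : ℕ → G := fun i => l.getD i 1 with hev
  have hev0 : ∀ i, k ≤ i → ev i = 1 := fun i hi => List.getD_eq_default _ _ hi
  have hgen : Subgroup.closure (Set.range ev) = ⊤ := by
    rw [eq_top_iff, ← hS]
    apply Subgroup.closure_mono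
    intro x hx
    have hx' : x ∈ l := by rw [hl, Finset.mem_toList]; exact hx
    obtain ⟨n, hn, rfl⟩ := List.getElem_of_mem hx'
    exact ⟨n, List.getD_eq_getElem _ _ hn⟩
  have hker0 : N0 k ≤ (FreeGroup.lift ev).ker := by
    apply Subgroup.normalClosure_le_normal
    rintro x ⟨n, rfl⟩
    show FreeGroup.lift ev (FreeGroup.mk (rel0 k n)) = 1
    unfold rel0
    cases n.bodd
    · have h1 : (FreeGroup.mk [(n.div2 + k, true)] : FreeGroup ℕ) = FreeGroup.of (n.div2 + k) := rfl
      simp only [cond_false]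
      rw [h1, FreeGroup.lift_apply_of]
      exact hev0 _ (by omega)
    · simp only [cond_true]
      rw [RPQuot.mk_com, map_commutatorElement, commutatorElement_eq_one_iff_mul_comm, mul_comm]
  set A := FreeGroup ℕ ⧸ N0 k
  have : Group.FG A := fg_quot k
  set θ : A →* G := QuotientGroup.lift (N0 k) (FreeGroup.lift ev) hker0 with hθ
  obtain ⟨S', hS'⟩ := fg_sub θ.ker
  -- words for the generators of the kernel
  have hword : ∀ a : A, ∃ w : Word, (QuotientGroup.mk (FreeGroup.mk w) : A) = a := by
    intro a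
    obtain ⟨x, rfl⟩ := QuotientGroup.mk_surjective a
    exact ⟨x.toWord, by rw [FreeGroup.mk_toWord]⟩
  choose wd hwd using hword
  obtain ⟨τ, hτ, hτ1, hτ2⟩ := add_list (primrec_rel0 k) (S'.toList.map wd)
  refine ⟨ev, ⟨k, hev0⟩, hgen, τ, hτ, ?_⟩
  apply le_antisymm
  · intro x hx
    have h1 : (QuotientGroup.mk x : A) ∈ θ.ker := hx
    rw [← hS'] at h1
    have h2 : Subgroup.closure (S' : Set A) ≤ (Subgroup.normalClosure
        (Set.range fun n => (FreeGroup.mk (τ n) : FreeGroup ℕ))).map (QuotientGroup.mk' (N0 k)) := by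
      rw [Subgroup.closure_le]
      intro a ha
      refine ⟨FreeGroup.mk (wd a), ?_, hwd a⟩
      apply Subgroup.subset_normalClosure
      apply hτ2
      right
      exact ⟨wd a, List.mem_map.mpr ⟨a, Finset.mem_toList.mpr ha, rfl⟩, rfl⟩
    obtain ⟨y, hy, hyx⟩ := h2 h1
    have h3 : y⁻¹ * x ∈ N0 k := QuotientGroup.eq.mp hyx
    have h4 : N0 k ≤ Subgroup.normalClosure
        (Set.range fun n => (FreeGroup.mk (τ n) : FreeGroup ℕ)) :=
      Subgroup.normalClosure_mono (Set.subset_union_left.trans hτ2)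
    have h5 := Subgroup.mul_mem _ hy (h4 h3)
    rwa [mul_inv_cancel_left] at h5
  · apply Subgroup.normalClosure_le_normal
    intro x hx
    rcases hτ1 hx with (h | ⟨w, hw, rfl⟩) | h
    · exact hker0 (Subgroup.subset_normalClosure h)
    · rw [List.mem_map] at hw
      obtain ⟨a, ha, rfl⟩ := hw
      have h1 : a ∈ θ.ker := by
        rw [← hS']; exact Subgroup.subset_closure (Finset.mem_toList.mp ha)
      rw [← hwd a] at h1
      exact h1
    · rw [Set.mem_singleton_iff] at h
      rw [h]; exact Subgroup.one_mem _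

end Pool.Agent.HIG.RPComm

namespace Pool.Agent.HIG

theorem rpcomm_proof : Stmt_RPComm := RPComm.rpcomm_proof

end Pool.Agent.HIG
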