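import Mathlib
import Pool.Agent.HIG.Basic

/-!
# Module RPPROD: direct products of recursively presented groups
-/

noncomputable section

set_option linter.unusedSectionVars false

namespace Pool.Agent.HIG.RPProd

open Function

/-- words in the even letters -/
def dbl0 (w : Word) : Word := w.map fun p => (2 * p.1, p.2)
/-- words in the odd letters -/
def dbl1 (w : Word) : Word := w.map fun p => (2 * p.1 + 1, p.2)
/-- commutators -/
def cw (i j : ℕ) : Word := [(2 * i, true), (2 * j + 1, true), (2 * i, false), (2 * j + 1, false)]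

theorem primrec_dbl0 : Primrec dbl0 := by
  unfold dbl0
  refine Primrec.list_map Primrec.id ?_
  exact (Primrec.pair (Primrec.nat_mul.comp (Primrec.const 2) (Primrec.fst.comp Primrec.snd))
    (Primrec.snd.comp Primrec.snd)).to₂

theorem primrec_dbl1 : Primrec dbl1 := by
  unfold dbl1
  refine Primrec.list_map Primrec.id ?_
  exact (Primrec.pair (Primrec.nat_add.comp (Primrec.nat_mul.comp (Primrec.const 2)
    (Primrec.fst.comp Primrec.snd)) (Primrec.const 1)) (Primrec.snd.comp Primrec.snd)).to₂

theorem primrec_cw : Primrec₂ cw := by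
  unfold cw
  have h0 : Primrec fun p : ℕ × ℕ => 2 * p.1 := Primrec.nat_mul.comp (Primrec.const 2) Primrec.fst
  have h1 : Primrec fun p : ℕ × ℕ => 2 * p.2 + 1 :=
    Primrec.nat_add.comp (Primrec.nat_mul.comp (Primrec.const 2) Primrec.snd) (Primrec.const 1)
  have ht : Primrec fun _ : ℕ × ℕ => true := Primrec.const _
  have hf : Primrec fun _ : ℕ × ℕ => false := Primrec.const _
  refine Primrec.list_cons.comp (Primrec.pair h0 ht) ?_
  refine Primrec.list_cons.comp (Primrec.pair h1 ht) ?_
  refine Primrec.list_cons.comp (Primrec.pair h0 hf) ?_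
  exact Primrec.list_cons.comp (Primrec.pair h1 hf) (Primrec.const [])

/-- the relators of the product -/
def rel (ρ σ : ℕ → Word) (n : ℕ) : Word :=
  if n.unpair.1 = 0 then dbl0 (ρ n.unpair.2)
  else if n.unpair.1 = 1 then dbl1 (σ n.unpair.2)
  else cw n.unpair.2.unpair.1 n.unpair.2.unpair.2

theorem primrec_rel {ρ σ : ℕ → Word} (hρ : Primrec ρ) (hσ : Primrec σ) : Primrec (rel ρ σ) := by
  unfold rel
  have h1 : Primrec fun n : ℕ => n.unpair.1 := Primrec.fst.comp Primrec.unpair
  have h2 : Primrec fun n : ℕ => n.unpair.2 := Primrec.snd.comp Primrec.unpair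
  refine Primrec.ite (Primrec.eq.comp h1 (Primrec.const 0)) (primrec_dbl0.comp (hρ.comp h2)) ?_
  refine Primrec.ite (Primrec.eq.comp h1 (Primrec.const 1)) (primrec_dbl1.comp (hσ.comp h2)) ?_
  exact primrec_cw.comp (h1.comp h2) (h2.comp h2)

theorem evw_dbl0 {G : Type} [Group G] (ev : ℕ → G) (w : Word) :
    evw ev (dbl0 w) = evw (fun i => ev (2 * i)) w := by
  induction w with
  | nil => rw [dbl0, List.map_nil, evw_nil, evw_nil]
  | cons a w ih =>
    obtain ⟨i, b⟩ := a
    rw [dbl0, List.map_cons, evw_cons, evw_cons]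
    rw [dbl0] at ih
    rw [ih]

theorem evw_dbl1 {G : Type} [Group G] (ev : ℕ → G) (w : Word) :
    evw ev (dbl1 w) = evw (fun i => ev (2 * i + 1)) w := by
  induction w with
  | nil => rw [dbl1, List.map_nil, evw_nil, evw_nil]
  | cons a w ih =>
    obtain ⟨i, b⟩ := a
    rw [dbl1, List.map_cons, evw_cons, evw_cons]
    rw [dbl1] at ih
    rw [ih]

theorem evw_cw {G : Type} [Group G] (ev : ℕ → G) (i j : ℕ) :
    evw ev (cw i j) = ev (2 * i) * ev (2 * j + 1) * (ev (2 * i))⁻¹ * (ev (2 * j + 1))⁻¹ := by
  simp [cw, evw_cons, evw_nil, mul_assoc]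

/-- descending along a presentation -/
theorem descend {G K : Type} [Group G] [Group K] {ev : ℕ → G} (h : Surjective (FreeGroup.lift ev))
    {ρ : ℕ → Word} (hker : (FreeGroup.lift ev).ker =
      Subgroup.normalClosure (Set.range fun n => FreeGroup.mk (ρ n)))
    (b : ℕ → K) (hb : ∀ n, evw b (ρ n) = 1) : ∃ θ : G →* K, ∀ i, θ (ev i) = b i := by
  have hle : (FreeGroup.lift ev).ker ≤ (FreeGroup.lift b).ker := by
    rw [hker]
    apply Subgroup.normalClosure_le_normal
    rintro _ ⟨n, rfl⟩
    exact hb n
  refine ⟨(FreeGroup.lift ev).liftOfSurjective h ⟨FreeGroup.lift b, hle⟩, fun i => ?_⟩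
  have h1 := MonoidHom.liftOfRightInverse_comp_apply (FreeGroup.lift ev) _
    (Function.rightInverse_surjInv h) ⟨FreeGroup.lift b, hle⟩ (FreeGroup.of i)
  rw [FreeGroup.lift_apply_of] at h1
  exact h1.trans (FreeGroup.lift_apply_of ..)

theorem surj_of {G : Type} [Group G] {ev : ℕ → G} (h : Subgroup.closure (Set.range ev) = ⊤) :
    Surjective (FreeGroup.lift ev) := by
  rw [← MonoidHom.range_eq_top, FreeGroup.range_lift_eq_closure, h]

/-- the generators of the product -/
def evp {G H : Type} [Group G] [Group H] (a : ℕ → G) (b : ℕ → H) (n : ℕ) : G × H :=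
  if n % 2 = 0 then (a (n / 2), 1) else (1, b (n / 2))

section
variable {G H : Type} [Group G] [Group H] (a : ℕ → G) (b : ℕ → H)

theorem evp_even (i : ℕ) : evp a b (2 * i) = (a i, 1) := by
  have h1 : 2 * i % 2 = 0 := by omega
  have h2 : 2 * i / 2 = i := by omega
  rw [evp, if_pos h1, h2]

theorem evp_odd (i : ℕ) : evp a b (2 * i + 1) = (1, b i) := by
  have h1 : ¬ (2 * i + 1) % 2 = 0 := by omega
  have h2 : (2 * i + 1) / 2 = i := by omega
  rw [evp, if_neg h1, h2]

theorem evw_rel {K : Type} [Group K] (c : ℕ → K) {ρ σ : ℕ → Word}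
    (h0 : ∀ n, evw (fun i => c (2 * i)) (ρ n) = 1) (h1 : ∀ n, evw (fun i => c (2 * i + 1)) (σ n) = 1)
    (h2 : ∀ i j, Commute (c (2 * i)) (c (2 * j + 1))) (n : ℕ) : evw c (rel ρ σ n) = 1 := by
  unfold rel
  split_ifs
  · rw [evw_dbl0]; exact h0 _
  · rw [evw_dbl1]; exact h1 _
  · rw [evw_cw, (h2 _ _).eq]
    group

theorem evw_rel' {K : Type} [Group K] (c : ℕ → K) {ρ σ : ℕ → Word}
    (h : ∀ n, evw c (rel ρ σ n) = 1) : (∀ n, evw (fun i => c (2 * i)) (ρ n) = 1) ∧
      (∀ n, evw (fun i => c (2 * i + 1)) (σ n) = 1) ∧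
      ∀ i j, Commute (c (2 * i)) (c (2 * j + 1)) := by
  refine ⟨fun n => ?_, fun n => ?_, fun i j => ?_⟩
  · have h1 := h (Nat.pair 0 n)
    rw [rel, Nat.unpair_pair, if_pos rfl, evw_dbl0] at h1
    exact h1
  · have h1 := h (Nat.pair 1 n)
    rw [rel, Nat.unpair_pair, if_neg one_ne_zero, if_pos rfl, evw_dbl1] at h1
    exact h1
  · have h1 := h (Nat.pair 2 (Nat.pair i j))
    rw [rel, Nat.unpair_pair, if_neg (by norm_num), if_neg (by norm_num)] at h1
    simp only [Nat.unpair_pair] at h1
    rw [evw_cw, mul_inv_eq_one, mul_inv_eq_iff_eq_mul] at h1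
    exact h1

end

end Pool.Agent.HIG.RPProd

namespace Pool.Agent.HIG

open Function RPProd

theorem rpprod_proof : Stmt_RPProd := by
  rintro G H _ _ ⟨a, ⟨k, hk⟩, ha, ρ, hρ, hker⟩ ⟨b, ⟨l, hl⟩, hb, σ, hσ, hker'⟩
  have hsa := surj_of ha
  have hsb := surj_of hb
  refine ⟨evp a b, ⟨2 * k + 2 * l, fun i hi => ?_⟩, ?_, rel ρ σ, primrec_rel hρ hσ, ?_⟩
  · rcases Nat.even_or_odd' i with ⟨j, rfl | rfl⟩
    · rw [evp_even, hk j (by omega)]; rfl
    · rw [evp_odd, hl j (by omega)]; rfl
  · rw [eq_top_iff]
    rintro ⟨g, h⟩ -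
    have h1 : (g, (1 : H)) ∈ Subgroup.closure (Set.range (evp a b)) := by
      have h2 : (Subgroup.closure (Set.range a)).map (MonoidHom.inl G H) ≤
          Subgroup.closure (Set.range (evp a b)) := by
        rw [MonoidHom.map_closure]
        apply Subgroup.closure_mono
        rintro _ ⟨_, ⟨i, rfl⟩, rfl⟩
        exact ⟨2 * i, evp_even a b i⟩
      apply h2
      rw [ha]
      exact ⟨g, trivial, rfl⟩
    have h3 : ((1 : G), h) ∈ Subgroup.closure (Set.range (evp a b)) := by
      have h2 : (Subgroup.closure (Set.range b)).map (MonoidHom.inr G H) ≤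
          Subgroup.closure (Set.range (evp a b)) := by
        rw [MonoidHom.map_closure]
        apply Subgroup.closure_mono
        rintro _ ⟨_, ⟨i, rfl⟩, rfl⟩
        exact ⟨2 * i + 1, evp_odd a b i⟩
      apply h2
      rw [hb]
      exact ⟨h, trivial, rfl⟩
    have h4 := Subgroup.mul_mem _ h1 h3
    simpa using h4
  · apply le_antisymm
    · -- the quotient
      let N := Subgroup.normalClosure (Set.range fun n => FreeGroup.mk (rel ρ σ n))
      let π : FreeGroup ℕ →* FreeGroup ℕ ⧸ N := QuotientGroup.mk' N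
      let c : ℕ → FreeGroup ℕ ⧸ N := fun i => π (FreeGroup.of i)
      have hc : FreeGroup.lift c = π := by
        apply FreeGroup.ext_hom
        intro i
        rw [FreeGroup.lift_apply_of]
      have hrel : ∀ n, evw c (rel ρ σ n) = 1 := by
        intro n
        rw [evw, hc]
        exact (QuotientGroup.eq_one_iff _).2 (Subgroup.subset_normalClosure ⟨n, rfl⟩)
      obtain ⟨h0, h1, h2⟩ := evw_rel' c hrel
      obtain ⟨θ, hθ⟩ := descend hsa hker (fun i => c (2 * i)) h0
      obtain ⟨θ', hθ'⟩ := descend hsb hker' (fun i => c (2 * i + 1)) h1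
      have hcomm : ∀ g h, Commute (θ g) (θ' h) := by
        intro g h
        have hg : g ∈ Subgroup.closure (Set.range a) := by rw [ha]; trivial
        have hh : h ∈ Subgroup.closure (Set.range b) := by rw [hb]; trivial
        induction hg using Subgroup.closure_induction with
        | mem x hx =>
          obtain ⟨i, rfl⟩ := hx
          induction hh using Subgroup.closure_induction with
          | mem y hy =>
            obtain ⟨j, rfl⟩ := hy
            rw [hθ, hθ']
            exact h2 i j
          | one => rw [map_one]; exact Commute.one_right _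
          | mul y z _ _ hy hz => rw [map_mul]; exact hy.mul_right hz
          | inv y _ hy => rw [map_inv]; exact hy.inv_right
        | one => rw [map_one]; exact Commute.one_left _
        | mul y z _ _ hy hz => rw [map_mul]; exact hy.mul_left hz
        | inv y _ hy => rw [map_inv]; exact hy.inv_left
      let Θ : G × H →* FreeGroup ℕ ⧸ N := θ.noncommCoprod θ' hcomm
      have hΘ : Θ.comp (FreeGroup.lift (evp a b)) = π := by
        apply FreeGroup.ext_hom
        intro i
        rw [MonoidHom.comp_apply, FreeGroup.lift_apply_of]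
        rcases Nat.even_or_odd' i with ⟨j, rfl | rfl⟩
        · rw [evp_even]
          change θ (a j) * θ' 1 = _
          rw [map_one, mul_one, hθ]
        · rw [evp_odd]
          change θ 1 * θ' (b j) = _
          rw [map_one, one_mul, hθ']
      intro x hx
      have h3 : π x = 1 := by
        rw [← hΘ, MonoidHom.comp_apply, MonoidHom.mem_ker.1 hx, map_one]
      exact (QuotientGroup.eq_one_iff _).1 h3
    · apply Subgroup.normalClosure_le_normal
      rintro _ ⟨n, rfl⟩
      change evw (evp a b) (rel ρ σ n) = 1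
      apply evw_rel
      · intro n
        have h1 : (fun i => evp a b (2 * i)) = fun i => MonoidHom.inl G H (a i) := by
          funext i; exact evp_even a b i
        rw [h1, ← map_evw]
        have h2 : evw a (ρ n) = 1 := by
          have h3 : FreeGroup.mk (ρ n) ∈ (FreeGroup.lift a).ker := by
            rw [hker]; exact Subgroup.subset_normalClosure ⟨n, rfl⟩
          exact h3
        rw [h2, map_one]
      · intro n
        have h1 : (fun i => evp a b (2 * i + 1)) = fun i => MonoidHom.inr G H (b i) := by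
          funext i; exact evp_odd a b i
        rw [h1, ← map_evw]
        have h2 : evw b (σ n) = 1 := by
          have h3 : FreeGroup.mk (σ n) ∈ (FreeGroup.lift b).ker := by
            rw [hker']; exact Subgroup.subset_normalClosure ⟨n, rfl⟩
          exact h3
        rw [h2, map_one]
      · intro i j
        rw [evp_even, evp_odd]
        ext <;> simp

theorem rpequiv_proof : Stmt_RPEquiv := by
  rintro G H _ _ f ⟨a, ⟨k, hk⟩, ha, ρ, hρ, hker⟩
  refine ⟨fun i => f (a i), ⟨k, fun i hi => by
    change f (a i) = 1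
    rw [hk i hi, map_one]⟩, ?_, ρ, hρ, ?_⟩
  · have h1 : Set.range (fun i => f (a i)) = f.toMonoidHom '' Set.range a := by
      ext x
      simp
    rw [h1, ← MonoidHom.map_closure, ha]
    exact Subgroup.map_top_of_surjective _ f.surjective
  · rw [← hker]
    have h1 : FreeGroup.lift (fun i => f (a i)) = f.toMonoidHom.comp (FreeGroup.lift a) := by
      apply FreeGroup.ext_hom
      intro i
      simp
    rw [h1]
    ext x
    simp [MonoidHom.mem_ker]

end Pool.Agent.HIG
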