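import Mathlib
import Pool.Agent.HIG.Extra

/-!
# HIG module SYSASM: primitive recursive families of relations are implemented by finite systems
-/

noncomputable section

namespace Pool.Agent.HIG

open Function

namespace SYSASM

/-! ### codes -/

def dec (c : ℕ) : MRel := (Encodable.decode c).getD []
def enc (R : MRel) : ℕ := Encodable.encode R

lemma dec_enc (R : MRel) : dec (enc R) = R := by simp [dec, enc]

lemma primrec_dec : Primrec dec := Primrec.option_getD.comp Primrec.decode (Primrec.const [])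
lemma primrec_enc : Primrec enc := Primrec.encode

def fapp (a b : ℕ) : ℕ := enc (dec a ++ dec b)

lemma primrec_fapp : Primrec₂ fapp :=
  primrec_enc.comp (Primrec.list_append.comp (primrec_dec.comp Primrec.fst)
    (primrec_dec.comp Primrec.snd))

def negR (R : MRel) : MRel := R.map fun t => (!t.1, t.2)

lemma primrec_negR : Primrec negR :=
  Primrec.list_map Primrec.id (Primrec.pair (Primrec.not.comp (Primrec.fst.comp Primrec.snd))
    (Primrec.snd.comp Primrec.snd))

def preR (l : ℕ) (e : Bool) (R : MRel) : MRel := R.map fun t => (t.1, t.2.1, (l, e) :: t.2.2)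

lemma primrec_preR (l : ℕ) (e : Bool) : Primrec (preR l e) :=
  Primrec.list_map Primrec.id (Primrec.pair (Primrec.fst.comp Primrec.snd)
    (Primrec.pair (Primrec.fst.comp (Primrec.snd.comp Primrec.snd))
      (Primrec.list_cons.comp (Primrec.const (l, e))
        (Primrec.snd.comp (Primrec.snd.comp Primrec.snd)))))

def fltR (k r : ℕ) (R : MRel) : MRel :=
  R.filterMap fun t => if t.2.1 < r then some (t.1, t.2.1, t.2.2.filter fun x => x.1 < k) else none

lemma primrec_fltR (k r : ℕ) : Primrec (fltR k r) := by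
  unfold fltR
  refine Primrec.listFilterMap Primrec.id ?_
  refine Primrec.ite ?_ ?_ (Primrec.const none)
  · exact Primrec.nat_lt.comp (Primrec.fst.comp (Primrec.snd.comp Primrec.snd)) (Primrec.const r)
  · refine Primrec.option_some.comp (Primrec.pair (Primrec.fst.comp Primrec.snd)
      (Primrec.pair (Primrec.fst.comp (Primrec.snd.comp Primrec.snd)) ?_))
    have : Primrec (fun L : Word => L.filter fun x => x.1 < k) :=
      Primrec.listFilter (Primrec.nat_lt.comp Primrec.fst (Primrec.const k))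
    exact this.comp (Primrec.snd.comp (Primrec.snd.comp Primrec.snd))

/-! ### values -/

section
variable {Q : Type} [Group Q] (ev : ℕ → Q) {M : Type} [AddCommGroup M] [Module (RG Q) M]
  (m : ℕ → M)

lemma evw_nil : evw ev [] = 1 := by
  simp [evw]

lemma evw_cons (x : ℕ × Bool) (w : Word) : evw ev (x :: w) = evw ev [x] * evw ev w := by
  unfold evw
  rw [← map_mul, FreeGroup.mul_mk]
  rfl

lemma evw_single_one (x : ℕ × Bool) (h : ev x.1 = 1) : evw ev [x] = 1 := by
  unfold evw
  simp [h]

lemma evw_filter (k : ℕ) (hk : ∀ i, k ≤ i → ev i = 1) (w : Word) :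
    evw ev (w.filter fun x => x.1 < k) = evw ev w := by
  induction w with
  | nil => rfl
  | cons x w ih =>
    rw [evw_cons ev x w, List.filter_cons]
    split_ifs with h
    · rw [evw_cons, ih]
    · rw [evw_single_one ev x (hk _ (by simpa using h)), one_mul, ih]

lemma mval_nil : mval ev m [] = 0 := rfl

lemma mval_append (R S : MRel) : mval ev m (R ++ S) = mval ev m R + mval ev m S := by
  simp [mval]

lemma mval_cons (t : Bool × ℕ × Word) (R : MRel) :
    mval ev m (t :: R) = sgn t.1 • (el (evw ev t.2.2) • m t.2.1) + mval ev m R := by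
  simp [mval]

lemma mval_negR (R : MRel) : mval ev m (negR R) = -mval ev m R := by
  induction R with
  | nil => simp [negR, mval]
  | cons t R ih =>
    have : negR (t :: R) = (!t.1, t.2) :: negR R := rfl
    rw [this, mval_cons, mval_cons, ih, neg_add]
    congr 1
    rcases t with ⟨b, i, w⟩
    cases b <;> simp [sgn]

lemma mval_preR (l : ℕ) (e : Bool) (R : MRel) :
    mval ev m (preR l e R) = el (evw ev [(l, e)]) • mval ev m R := by
  induction R with
  | nil => simp [preR, mval]
  | cons t R ih =>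
    have : preR l e (t :: R) = (t.1, t.2.1, (l, e) :: t.2.2) :: preR l e R := rfl
    rw [this, mval_cons, mval_cons, ih, smul_add]
    congr 1
    simp only
    rw [evw_cons, el_mul, mul_smul, smul_comm]

lemma mval_fltR (k r : ℕ) (hk : ∀ i, k ≤ i → ev i = 1) (hr : ∀ i, r ≤ i → m i = 0) (R : MRel) :
    mval ev m (fltR k r R) = mval ev m R := by
  induction R with
  | nil => rfl
  | cons t R ih =>
    by_cases h : t.2.1 < r
    · have : fltR k r (t :: R) = (t.1, t.2.1, t.2.2.filter fun x => x.1 < k) :: fltR k r R := by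
        simp [fltR, h]
      rw [this, mval_cons, mval_cons, ih]
      simp only
      rw [evw_filter ev k hk]
    · have : fltR k r (t :: R) = fltR k r R := by
        simp [fltR, h]
      rw [this, mval_cons, ih, hr _ (not_lt.1 h)]
      simp

end

lemma fltR_mem (k r : ℕ) (R : MRel) : ∀ t ∈ fltR k r R, t.2.1 < r ∧ ∀ x ∈ t.2.2, x.1 < k := by
  intro t ht
  unfold fltR at ht
  rw [List.mem_filterMap] at ht
  obtain ⟨u, -, hu⟩ := ht
  split_ifs at hu with h
  rw [Option.some.injEq] at hu
  subst hu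
  refine ⟨h, fun x hx => ?_⟩
  simpa using (List.mem_filter.1 hx).2

/-! ### compiling several programs -/

lemma bdd_mono {K s s' : ℕ} (h : s ≤ s') (c : Con) (hc : c.Bdd K s) : c.Bdd K s' := by
  cases c with
  | shift j F G => exact ⟨hc.1, lt_of_lt_of_le hc.2.1 h, lt_of_lt_of_le hc.2.2 h⟩
  | lin J L => exact ⟨hc.1, fun t ht => lt_of_lt_of_le (hc.2 t ht) h⟩

lemma sat_congr {Q : Type} [Group Q] (ev : ℕ → Q) {M : Type} [AddCommGroup M] [Module (RG Q) M]
    {K s : ℕ} {𝓕 𝓖 : ℕ → St → M} (h : ∀ i, i < s → 𝓕 i = 𝓖 i) (c : Con) (hc : c.Bdd K s)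
    (hs : c.Sat ev 𝓕) : c.Sat ev 𝓖 := by
  cases c with
  | shift j F G =>
    intro v
    rw [← h F hc.2.1, ← h G hc.2.2]
    exact hs v
  | lin J L =>
    intro v hv
    rw [← hs v hv]
    congr 1
    apply List.map_congr_left
    intro t ht
    rw [h _ (hc.2 t ht)]

lemma multi (hC : Stmt_Compile) {ι : Type} [DecidableEq ι] (K : ℕ) (ps : ι → Prog)
    (hwf : ∀ i, (ps i).WF) (hu : ∀ i j, (ps i).Uses j → j < K) (F n : ℕ) (hF : F < n)
    (L : List ι) :
    ∃ (s : ℕ) (C : List Con) (G : ι → ℕ), n ≤ s ∧ (∀ i ∈ L, G i < s) ∧ (∀ c ∈ C, c.Bdd K s) ∧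
      ∀ (Q : Type) [Group Q] (ev : ℕ → Q) (M : Type) [AddCommGroup M] [Module (RG Q) M]
        (𝓕 : ℕ → St → M),
        ((∀ c ∈ C, c.Sat ev 𝓕) → ∀ i ∈ L, ∀ v, 𝓕 (G i) v = 𝓕 F ((ps i).run v)) ∧
        ∃ 𝓕' : ℕ → St → M, (∀ i, i < n → 𝓕' i = 𝓕 i) ∧ (∀ c ∈ C, c.Sat ev 𝓕') ∧
          ∀ i ∈ L, ∀ v, 𝓕' (G i) v = 𝓕 F ((ps i).run v) := by
  induction L with
  | nil =>
    refine ⟨n, [], fun _ => 0, le_rfl, by simp, by simp, ?_⟩
    intro Q _ ev M _ _ 𝓕
    exact ⟨by simp, 𝓕, by simp, by simp, by simp⟩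
  | cons a L ih =>
    obtain ⟨s0, C0, G0, h1, h2, h3, h4⟩ := ih
    obtain ⟨s1, C1, G1, k1, k2, k3, k4⟩ := hC K (ps a) (hwf a) (hu a) F s0 (by omega)
    refine ⟨s1, C0 ++ C1, update G0 a G1, by omega, ?_, ?_, ?_⟩
    · intro i hi
      rw [update_apply]
      split_ifs with h
      · exact k2
      · have := h2 i ((List.mem_cons.1 hi).resolve_left h)
        omega
    · intro c hc
      rcases List.mem_append.1 hc with hc | hc
      · exact bdd_mono k1 c (h3 c hc)
      · exact k3 c hc
    · intro Q _ ev M _ _ 𝓕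
      constructor
      · intro hsat i hi v
        rw [update_apply]
        split_ifs with h
        · rw [h]
          exact (k4 Q ev M 𝓕).1 (fun c hc => hsat c (List.mem_append.2 (Or.inr hc))) v
        · exact (h4 Q ev M 𝓕).1 (fun c hc => hsat c (List.mem_append.2 (Or.inl hc))) i
            ((List.mem_cons.1 hi).resolve_left h) v
      · obtain ⟨𝓕0, f1, f2, f3⟩ := (h4 Q ev M 𝓕).2
        obtain ⟨𝓕1, g1, g2, g3⟩ := (k4 Q ev M 𝓕0).2
        refine ⟨𝓕1, ?_, ?_, ?_⟩
        · intro i hi
          rw [g1 i (by omega), f1 i hi]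
        · intro c hc
          rcases List.mem_append.1 hc with hc | hc
          · exact sat_congr ev (fun i hi => (g1 i hi).symm) c (h3 c hc) (f2 c hc)
          · exact g2 c hc
        · intro i hi v
          rw [update_apply]
          split_ifs with h
          · rw [h, g3 v, f1 F hF]
          · have hiL := (List.mem_cons.1 hi).resolve_left h
            rw [g1 _ (h2 i hiL)]
            exact f3 i hiL v

/-! ### the requests -/

/-- the functions that have to be compiled -/
inductive Req (k r : ℕ) : Type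
  | app | snd | neg | rho
  | cst (i : Fin r)
  | pre (l : Fin k) (e : Bool)
  deriving DecidableEq, Fintype

variable {k r : ℕ}

def T (ρ : ℕ → MRel) : Req k r → St → St
  | .app => fun v => update (update v 0 (fapp (v 0) (v 1))) 1 0
  | .snd => fun v => update (update v 0 (v 1)) 1 0
  | .neg => fun v => update v 0 (enc (negR (dec (v 0))))
  | .rho => fun v => update v 0 (enc (ρ (v 0)))
  | .cst i => fun v => update v 0 (enc [(true, (i : ℕ), [])])
  | .pre l e => fun v => update v 0 (enc (preR l e (dec (v 0))))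

def J : Req k r → ℕ
  | .app => 2
  | .snd => 2
  | _ => 1

lemma exProg1 (h1 : Stmt_Prim1) (f : ℕ → ℕ) (hf : Primrec f) :
    ∃ (K : ℕ) (p : Prog), 2 ≤ K ∧ p.WF ∧ (∀ i, p.Uses i → i < K) ∧
      ∀ v : St, (∀ i, 1 ≤ i → i < K → v i = 0) → p.run v = update v 0 (f (v 0)) := by
  obtain ⟨K, p, -, hp2, hp3, hp4⟩ := h1 f hf
  refine ⟨max K 2, p, le_max_right _ _, hp2, fun i hi => lt_of_lt_of_le (hp3 i hi)
    (le_max_left _ _), fun v hv => hp4 v fun i hi hi' => hv i hi
      (lt_of_lt_of_le hi' (le_max_left _ _))⟩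

lemma exProg (h1 : Stmt_Prim1) (h2 : Stmt_Prim2) (ρ : ℕ → MRel) (hρ : Primrec ρ)
    (q : Req k r) : ∃ (K : ℕ) (p : Prog), 2 ≤ K ∧ p.WF ∧ (∀ i, p.Uses i → i < K) ∧
      ∀ v : St, (∀ i, J q ≤ i → i < K → v i = 0) → p.run v = T ρ q v := by
  cases q with
  | app => exact h2 fapp primrec_fapp
  | snd => exact h2 (fun _ b => b) Primrec.snd
  | neg => exact exProg1 h1 _ (primrec_enc.comp (primrec_negR.comp primrec_dec))
  | rho => exact exProg1 h1 _ (primrec_enc.comp hρ)
  | cst i => exact exProg1 h1 _ (Primrec.const (enc [(true, (i : ℕ), [])]))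
  | pre l e => exact exProg1 h1 _ (primrec_enc.comp ((primrec_preR l e).comp primrec_dec))

/-- the linear constraints -/
def con (K : ℕ) (G : Req k r → ℕ) : Req k r → Con
  | .app => .lin (Finset.Ico 2 K) [(1, [], G .app), (-1, [], r), (-1, [], G .snd)]
  | .snd => .lin ∅ []
  | .neg => .lin (Finset.Ico 1 K) [(1, [], G .neg), (1, [], r)]
  | .rho => .lin (Finset.Ico 1 K) [(1, [], G .rho)]
  | .cst i => .lin (Finset.Ico 1 K) [(1, [], G (.cst i)), (-1, [], (i : ℕ))]
  | .pre l e => .lin (Finset.Ico 1 K) [(1, [], G (.pre l e)), (-1, [((l : ℕ), e)], r)]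

/-- all constraints except those of the compilation -/
def cons0 (K : ℕ) (G : Req k r → ℕ) : List Con :=
  (List.range r).flatMap (fun i => (List.range K).map fun j => Con.shift j i i) ++
    ((List.range K).filter (fun j => 1 ≤ j)).map (fun j => Con.shift j r r) ++
      (Finset.univ : Finset (Req k r)).toList.map (con K G)

lemma cons0_bdd (K s : ℕ) (G : Req k r → ℕ) (hs : r < s) (hG : ∀ q, G q < s) :
    ∀ c ∈ cons0 K G, c.Bdd K s := by
  intro c hc
  simp only [cons0, List.mem_append, List.mem_flatMap, List.mem_map, List.mem_range,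
    List.mem_filter, Finset.mem_toList, Finset.mem_univ, true_and] at hc
  rcases hc with (⟨i, hi, j, hj, rfl⟩ | ⟨j, hj, rfl⟩) | ⟨q, rfl⟩
  · exact ⟨hj, by omega, by omega⟩
  · exact ⟨hj.1, hs, hs⟩
  · cases q with
    | app => refine ⟨by simp, ?_⟩; simp [hG, hs]
    | snd => exact ⟨by simp, by simp⟩
    | neg => refine ⟨by simp, ?_⟩; simp [hG, hs]
    | rho => refine ⟨by simp, ?_⟩; simp [hG]
    | cst i => refine ⟨by simp, ?_⟩; simp [hG]; omega
    | pre l e => refine ⟨by simp, ?_⟩; simp [hG, hs]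

/-- state with one counter -/
def S (c : ℕ) : St := update (fun _ => 0) 0 c

/-- state with two counters -/
def S2 (a b : ℕ) : St := update (update (fun _ => 0) 0 a) 1 b

lemma S2_zero (a : ℕ) : S2 a 0 = S a := by
  funext i
  simp only [S2, S, update_apply]
  split_ifs <;> simp_all

lemma S_zero : S 0 = 0 := by
  funext i
  simp only [S, update_apply]
  split_ifs <;> rfl

section sound

variable {Q : Type} [Group Q] {ev : ℕ → Q} {M : Type} [AddCommGroup M] [Module (RG Q) M]
  {𝓕 : ℕ → St → M} {K : ℕ} {G : Req k r → ℕ} {ρ : ℕ → MRel}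

lemma sound_F (hK : 2 ≤ K) (h0 : ∀ c ∈ cons0 K G, c.Sat ev 𝓕) (i : ℕ) (hi : i < r) (c : ℕ) :
    𝓕 i (S c) = 𝓕 i 0 := by
  have hs : (Con.shift 0 i i).Sat ev 𝓕 := by
    apply h0
    simp only [cons0, List.mem_append, List.mem_flatMap, List.mem_map, List.mem_range]
    exact Or.inl (Or.inl ⟨i, hi, 0, by omega, rfl⟩)
  induction c with
  | zero => rw [S_zero]
  | succ c ih =>
    have := hs (S c)
    rw [← ih, ← this]
    congr 1
    funext j
    simp only [S, update_apply]
    split_ifs <;> simp_all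

lemma sound_U (hK : 2 ≤ K) (h0 : ∀ c ∈ cons0 K G, c.Sat ev 𝓕) (a b : ℕ) :
    𝓕 r (S2 a b) = 𝓕 r (S a) := by
  have hs : (Con.shift 1 r r).Sat ev 𝓕 := by
    apply h0
    simp only [cons0, List.mem_append, List.mem_map, List.mem_filter, List.mem_range]
    exact Or.inl (Or.inr ⟨1, ⟨by omega, by simp⟩, rfl⟩)
  induction b with
  | zero => rw [S2_zero]
  | succ b ih =>
    have := hs (S2 a b)
    rw [← ih, ← this]
    congr 1
    funext j
    simp only [S2, update_apply]
    split_ifs <;> simp_all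

lemma con_mem (q : Req k r) : con K G q ∈ cons0 K G := by
  simp only [cons0, List.mem_append, List.mem_map, Finset.mem_toList, Finset.mem_univ, true_and]
  exact Or.inr ⟨q, rfl⟩

set_option linter.unusedSectionVars false

variable (hK : 2 ≤ K) (h0 : ∀ c ∈ cons0 K G, c.Sat ev 𝓕)
  (hG : ∀ (q : Req k r) (v : St), (∀ i, J q ≤ i → i < K → v i = 0) →
    𝓕 (G q) v = 𝓕 r (T ρ q v))

include hK h0 hG

lemma sound_app (a b : ℕ) : 𝓕 r (S (fapp a b)) = 𝓕 r (S a) + 𝓕 r (S b) := by
  have hv : ∀ i, 2 ≤ i → i < K → (S2 a b) i = 0 := by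
    intro i hi _
    simp only [S2, update_apply]
    split_ifs <;> omega
  have h1 := h0 _ (con_mem (.app : Req k r)) (S2 a b) (fun i hi => by
    rw [Finset.mem_Ico] at hi
    exact hv i hi.1 hi.2)
  have h2 := hG .app (S2 a b) hv
  have h3 := hG .snd (S2 a b) hv
  have h4 : T ρ (.app : Req k r) (S2 a b) = S (fapp a b) := by
    funext j
    simp only [T, S2, S, update_apply]
    split_ifs <;> simp_all
  have h5 : T ρ (.snd : Req k r) (S2 a b) = S b := by
    funext j
    simp only [T, S2, S, update_apply]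
    split_ifs <;> simp_all
  rw [h4] at h2
  rw [h5] at h3
  simp only [List.map_cons, List.map_nil, List.sum_cons, List.sum_nil, evw_nil, el_one,
    one_smul, h2, h3, sound_U hK h0, add_zero, neg_smul] at h1
  rw [← sub_eq_zero, ← h1]
  abel

lemma sound_neg (a : ℕ) : 𝓕 r (S (enc (negR (dec a)))) = -𝓕 r (S a) := by
  have hv : ∀ i, 1 ≤ i → i < K → (S a) i = 0 := by
    intro i hi _
    simp only [S, update_apply]
    split_ifs <;> omega
  have h1 := h0 _ (con_mem (.neg : Req k r)) (S a) (fun i hi => by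
    rw [Finset.mem_Ico] at hi
    exact hv i hi.1 hi.2)
  have h2 := hG .neg (S a) hv
  have h4 : T ρ (.neg : Req k r) (S a) = S (enc (negR (dec a))) := by
    funext j
    simp only [T, S, update_apply]
    split_ifs <;> simp_all
  rw [h4] at h2
  simp only [List.map_cons, List.map_nil, List.sum_cons, List.sum_nil, evw_nil, el_one,
    one_smul, h2, add_zero] at h1
  exact eq_neg_of_add_eq_zero_left h1

lemma sound_rho (n : ℕ) : 𝓕 r (S (enc (ρ n))) = 0 := by
  have hv : ∀ i, 1 ≤ i → i < K → (S n) i = 0 := by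
    intro i hi _
    simp only [S, update_apply]
    split_ifs <;> omega
  have h1 := h0 _ (con_mem (.rho : Req k r)) (S n) (fun i hi => by
    rw [Finset.mem_Ico] at hi
    exact hv i hi.1 hi.2)
  have h2 := hG .rho (S n) hv
  have h4 : T ρ (.rho : Req k r) (S n) = S (enc (ρ n)) := by
    funext j
    simp only [T, S, update_apply]
    split_ifs <;> simp_all
  rw [h4] at h2
  simp only [List.map_cons, List.map_nil, List.sum_cons, List.sum_nil, evw_nil, el_one,
    one_smul, h2, add_zero] at h1
  exact h1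

lemma sound_cst (i : Fin r) : 𝓕 r (S (enc [(true, (i : ℕ), [])])) = 𝓕 i 0 := by
  have hv : ∀ i, 1 ≤ i → i < K → (S 0) i = 0 := by
    intro i hi _
    simp only [S, update_apply]
    split_ifs <;> omega
  have h1 := h0 _ (con_mem (.cst i : Req k r)) (S 0) (fun i hi => by
    rw [Finset.mem_Ico] at hi
    exact hv i hi.1 hi.2)
  have h2 := hG (.cst i) (S 0) hv
  have h4 : T ρ (.cst i : Req k r) (S 0) = S (enc [(true, (i : ℕ), [])]) := by
    funext j
    simp only [T, S, update_apply]
    split_ifs <;> simp_all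
  rw [h4] at h2
  simp only [List.map_cons, List.map_nil, List.sum_cons, List.sum_nil, evw_nil, el_one,
    one_smul, h2, add_zero, neg_smul, sound_F hK h0 i i.2] at h1
  exact eq_of_sub_eq_zero (by rw [← h1]; abel)

lemma sound_pre (l : Fin k) (e : Bool) (a : ℕ) :
    𝓕 r (S (enc (preR l e (dec a)))) = el (evw ev [((l : ℕ), e)]) • 𝓕 r (S a) := by
  have hv : ∀ i, 1 ≤ i → i < K → (S a) i = 0 := by
    intro i hi _
    simp only [S, update_apply]
    split_ifs <;> omega
  have h1 := h0 _ (con_mem (.pre l e : Req k r)) (S a) (fun i hi => by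
    rw [Finset.mem_Ico] at hi
    exact hv i hi.1 hi.2)
  have h2 := hG (.pre l e) (S a) hv
  have h4 : T ρ (.pre l e : Req k r) (S a) = S (enc (preR l e (dec a))) := by
    funext j
    simp only [T, S, update_apply]
    split_ifs <;> simp_all
  rw [h4] at h2
  simp only [List.map_cons, List.map_nil, List.sum_cons, List.sum_nil, evw_nil, el_one,
    one_smul, h2, add_zero, neg_smul] at h1
  exact eq_of_sub_eq_zero (by rw [← h1]; abel)

lemma sound_single (b : Bool) (i : ℕ) (hi : i < r) (w : Word) (hw : ∀ x ∈ w, x.1 < k) :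
    𝓕 r (S (enc [(b, i, w)])) =
      mval ev (fun i => if i < r then 𝓕 i 0 else 0) [(b, i, w)] := by
  induction w with
  | nil =>
    have h1 : 𝓕 r (S (enc [(true, i, [])])) = 𝓕 i 0 := sound_cst hK h0 hG ⟨i, hi⟩
    cases b with
    | true =>
      rw [h1]
      simp [mval, sgn, evw_nil, el_one, hi]
    | false =>
      have h2 := sound_neg hK h0 hG (enc [(true, i, [])])
      rw [dec_enc, h1] at h2
      have h3 : negR [(true, i, [])] = [(false, i, [])] := rfl
      rw [h3] at h2
      rw [h2]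
      simp [mval, sgn, evw_nil, el_one, hi]
  | cons x w ih =>
    have hx := hw x (List.mem_cons_self ..)
    have h1 := sound_pre hK h0 hG ⟨x.1, hx⟩ x.2 (enc [(b, i, w)])
    rw [dec_enc, ih (fun y hy => hw y (List.mem_cons_of_mem _ hy))] at h1
    have h3 : preR x.1 x.2 [(b, i, w)] = [(b, i, x :: w)] := rfl
    simp only at h1
    rw [h3] at h1
    rw [h1, ← mval_preR, h3]

lemma sound_list (L : MRel) (hL : ∀ t ∈ L, t.2.1 < r ∧ ∀ x ∈ t.2.2, x.1 < k) :
    𝓕 r (S (enc L)) = mval ev (fun i => if i < r then 𝓕 i 0 else 0) L := by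
  induction L with
  | nil =>
    have h1 := sound_app hK h0 hG (enc []) (enc [])
    have h2 : fapp (enc []) (enc []) = enc [] := by simp [fapp, dec_enc]
    rw [h2] at h1
    rw [mval_nil]
    exact add_eq_left.1 h1.symm
  | cons t L ih =>
    have h1 := sound_app hK h0 hG (enc [t]) (enc L)
    have h2 : fapp (enc [t]) (enc L) = enc (t :: L) := by simp [fapp, dec_enc]
    rw [h2] at h1
    rw [h1, ih (fun y hy => hL y (List.mem_cons_of_mem _ hy))]
    have ht := hL t (List.mem_cons_self ..)
    rw [show t = (t.1, t.2.1, t.2.2) from rfl, sound_single hK h0 hG _ _ ht.1 _ ht.2,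
      ← mval_append]
    rfl

end sound

end SYSASM

open SYSASM in
theorem sysAsm_proof : Stmt_SysAsm := by
  intro h1 h2 hC k r ρ hρ
  obtain ⟨ρ', hρ'⟩ : ∃ ρ' : ℕ → MRel, ρ' = fun n => fltR k r (ρ n) := ⟨_, rfl⟩
  have hρp : Primrec ρ' := by
    rw [hρ']
    exact (primrec_fltR k r).comp hρ
  choose Kq pq hK2 hWF hU hrun using fun q : Req k r => exProg h1 h2 ρ' hρp q
  obtain ⟨K, hKq⟩ : ∃ K, ∀ q, Kq q ≤ K :=
    ⟨Finset.univ.sup Kq, fun q => Finset.le_sup (f := Kq) (Finset.mem_univ q)⟩
  have hK : 2 ≤ K := (hK2 .app).trans (hKq .app)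
  obtain ⟨s, C, G, hs, hGs, hCb, hCC⟩ := multi hC K pq hWF
    (fun q j hj => lt_of_lt_of_le (hU q j hj) (hKq q)) r (r + 1) (by omega)
    (Finset.univ : Finset (Req k r)).toList
  have hmem : ∀ q : Req k r, q ∈ (Finset.univ : Finset (Req k r)).toList := fun q => by simp
  have hGT : ∀ (Q : Type) [Group Q] (M : Type) [AddCommGroup M]
      [Module (RG Q) M] (𝓕 : ℕ → St → M) (𝓕0 : St → M),
      (∀ i ∈ (Finset.univ : Finset (Req k r)).toList, ∀ v, 𝓕 (G i) v = 𝓕0 ((pq i).run v)) →
      ∀ (q : Req k r) (v : St), (∀ i, J q ≤ i → i < K → v i = 0) →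
        𝓕 (G q) v = 𝓕0 (T ρ' q v) := by
    intro Q _ M _ _ 𝓕 𝓕0 h q v hv
    rw [h q (hmem q) v, hrun q v (fun i hi hi' => hv i hi (lt_of_lt_of_le hi' (hKq q)))]
  refine ⟨K, s, cons0 K G ++ C, by omega, ?_, ?_, ?_⟩
  · intro c hc
    rcases List.mem_append.1 hc with hc | hc
    · exact cons0_bdd K s G (by omega) (fun q => hGs q (hmem q)) c hc
    · exact hCb c hc
  · -- soundness
    intro Q _ ev hev M _ _ 𝓕 hsat n
    have h0 : ∀ c ∈ cons0 K G, c.Sat ev 𝓕 := fun c hc => hsat c (List.mem_append.2 (Or.inl hc))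
    have hG := hGT Q M 𝓕 (𝓕 r)
      ((hCC Q ev M 𝓕).1 (fun c hc => hsat c (List.mem_append.2 (Or.inr hc))))
    have e1 := sound_rho hK h0 hG n
    have e2 := sound_list hK h0 hG (ρ' n) (by rw [hρ']; exact fltR_mem k r (ρ n))
    rw [e1, hρ'] at e2
    simp only at e2
    rw [mval_fltR ev _ k r hev (fun i hi => if_neg (not_lt.2 hi))] at e2
    exact e2.symm
  · -- completeness
    intro Q _ ev hev M _ _ m hm hrel
    obtain ⟨𝓕0, h𝓕0⟩ : ∃ 𝓕0 : ℕ → St → M, 𝓕0 = fun i v => if i < r then m i else
      if i = r then mval ev m (dec (v 0)) else 0 := ⟨_, rfl⟩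
    obtain ⟨𝓕, f1, f2, f3⟩ := (hCC Q ev M 𝓕0).2
    have hr : 𝓕 r = fun v => mval ev m (dec (v 0)) := by
      rw [f1 r (by omega), h𝓕0]
      funext v
      simp
    have hi : ∀ i, i < r → ∀ v, 𝓕 i v = m i := by
      intro i hi v
      rw [f1 i (by omega), h𝓕0]
      simp [hi]
    have hG := hGT Q M 𝓕 (𝓕0 r) f3
    rw [show 𝓕0 r = fun v => mval ev m (dec (v 0)) by rw [← f1 r (by omega), hr]] at hG
    refine ⟨𝓕, ?_, hi⟩
    intro c hc
    rcases List.mem_append.1 hc with hc | hc
    · simp only [cons0, List.mem_append, List.mem_flatMap, List.mem_map, List.mem_range,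
        List.mem_filter, Finset.mem_toList, Finset.mem_univ, true_and] at hc
      rcases hc with (⟨i, hir, j, hj, rfl⟩ | ⟨j, hj, rfl⟩) | ⟨q, rfl⟩
      · intro v
        rw [hi i hir, hi i hir]
      · intro v
        rw [hr]
        simp only
        have : j ≠ 0 := by
          have := hj.2
          simp at this
          omega
        rw [update_of_ne this.symm]
      · cases q with
        | app =>
          intro v hv
          have hv' : ∀ i, 2 ≤ i → i < K → v i = 0 := fun i hi hi' =>
            hv i (Finset.mem_Ico.2 ⟨hi, hi'⟩)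
          simp only [List.map_cons, List.map_nil, List.sum_cons, List.sum_nil, evw_nil, el_one,
            one_smul, hG .app v hv', hG .snd v hv', hr, add_zero, neg_smul]
          simp only [T, fapp, dec_enc, mval_append, update_of_ne zero_ne_one, update_self]
          abel
        | snd => intro v _; rfl
        | neg =>
          intro v hv
          have hv' : ∀ i, 1 ≤ i → i < K → v i = 0 := fun i hi hi' =>
            hv i (Finset.mem_Ico.2 ⟨hi, hi'⟩)
          simp only [List.map_cons, List.map_nil, List.sum_cons, List.sum_nil, evw_nil, el_one,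
            one_smul, hG .neg v hv', hr, add_zero]
          simp [T, dec_enc, mval_negR]
        | rho =>
          intro v hv
          have hv' : ∀ i, 1 ≤ i → i < K → v i = 0 := fun i hi hi' =>
            hv i (Finset.mem_Ico.2 ⟨hi, hi'⟩)
          simp only [List.map_cons, List.map_nil, List.sum_cons, List.sum_nil, evw_nil, el_one,
            one_smul, hG .rho v hv', add_zero]
          simp only [T, update_self, dec_enc, hρ']
          rw [mval_fltR ev m k r hev hm]
          exact hrel _
        | cst i =>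
          intro v hv
          have hv' : ∀ i, 1 ≤ i → i < K → v i = 0 := fun i hi hi' =>
            hv i (Finset.mem_Ico.2 ⟨hi, hi'⟩)
          simp only [List.map_cons, List.map_nil, List.sum_cons, List.sum_nil, evw_nil, el_one,
            one_smul, hG (.cst i) v hv', add_zero, neg_smul, hi i i.2]
          simp [T, dec_enc, mval, sgn, evw_nil, el_one]
        | pre l e =>
          intro v hv
          have hv' : ∀ i, 1 ≤ i → i < K → v i = 0 := fun i hi hi' =>
            hv i (Finset.mem_Ico.2 ⟨hi, hi'⟩)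
          simp only [List.map_cons, List.map_nil, List.sum_cons, List.sum_nil, evw_nil, el_one,
            one_smul, hG (.pre l e) v hv', hr, add_zero, neg_smul]
          simp [T, dec_enc, mval_preR]
    · exact f2 c hc

end Pool.Agent.HIG
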