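import Mathlib
import Pool.Agent.HIG.Basic

/-!
# The stage step
-/

noncomputable section

namespace Pool.Agent.HIG

open Function
open scoped commutatorElement

/-- `Sd Q D` is finitely generated -/
theorem Sd.fg {Q D : Type} [Group Q] [AddCommGroup D] [Module (RG Q) D] (hQ : Group.FG Q)
    {ι : Type} [Finite ι] (f : ι → D) (hf : Submodule.span (RG Q) (Set.range f) = ⊤) :
    Group.FG (Sd Q D) := by
  rw [Group.fg_iff] at hQ ⊢
  obtain ⟨s, hs, hsf⟩ := hQ
  refine ⟨(Sd.inr '' s) ∪ Set.range (fun i => (⟨f i, 1⟩ : Sd Q D)), ?_,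
    (hsf.image _).union (Set.finite_range _)⟩
  set N := Subgroup.closure ((Sd.inr '' s) ∪ Set.range (fun i => (⟨f i, 1⟩ : Sd Q D))) with hN
  have h1 : ∀ q : Q, Sd.inr q ∈ N := by
    intro q
    have hq : q ∈ Subgroup.closure s := by rw [hs]; trivial
    have : Subgroup.closure s ≤ N.comap Sd.inr := by
      rw [Subgroup.closure_le]
      intro x hx
      exact Subgroup.subset_closure (Or.inl ⟨x, hx, rfl⟩)
    exact this hq
  have h2 : ∀ d : D, (⟨d, 1⟩ : Sd Q D) ∈ N := by
    intro d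
    have hd : d ∈ Submodule.span (RG Q) (Set.range f) := by rw [hf]; trivial
    induction hd using Submodule.span_induction with
    | mem x hx =>
      obtain ⟨i, rfl⟩ := hx
      exact Subgroup.subset_closure (Or.inr ⟨i, rfl⟩)
    | zero => exact N.one_mem
    | add x y _ _ hx hy => rw [← Sd.mul_inl]; exact N.mul_mem hx hy
    | smul a x _ hx =>
      refine RG.induction (p := fun a => (⟨a • x, 1⟩ : Sd Q D) ∈ N) ?_ ?_ ?_ ?_ a
      · rw [zero_smul]; exact N.one_mem
      · intro a b ha hb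
        rw [add_smul, ← Sd.mul_inl]; exact N.mul_mem ha hb
      · intro a ha
        rw [neg_smul, ← Sd.inv_inl]; exact N.inv_mem ha
      · intro g
        rw [← Sd.cj_inr]
        exact N.mul_mem (N.mul_mem (h1 g) hx) (N.inv_mem (h1 g))
  rw [eq_top_iff]
  rintro ⟨d, q⟩ -
  rw [Sd.mk_eq]
  exact N.mul_mem (h2 d) (h1 q)

section
variable {j r : ℕ} {B : Type} {S : Stage j (Up r B)} {A : Type} [AddCommGroup A]
  [Module (RG S.Q) A] {α : Fin r → A}

/-- `io` as a homomorphism -/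
def StepLay.ioHom (T : StepLay S A α) : Sd S.Q A →* T.P where
  toFun := T.io
  map_one' := by simp [StepLay.io, Sd.one_d, Sd.one_q]
  map_mul' x y := by
    simp only [StepLay.io, Sd.mul_d, Sd.mul_q, ofAdd_add, map_mul, T.ψq, cj]
    group

/-- `io` as a homomorphism -/
def TopLay.ioHom (T : TopLay S A α) : Sd S.Q A →* T.P where
  toFun := T.io
  map_one' := by simp [TopLay.io, Sd.one_d, Sd.one_q]
  map_mul' x y := by
    simp only [TopLay.io, Sd.mul_d, Sd.mul_q, ofAdd_add, map_mul, T.ψq, cj]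
    group

theorem TopLay.ioHom_apply (T : TopLay S A α) (x : Sd S.Q A) : T.ioHom x = T.io x := rfl
theorem StepLay.ioHom_apply (T : StepLay S A α) (x : Sd S.Q A) : T.ioHom x = T.io x := rfl

theorem StepLay.Rel_finite [Finite B] (T : StepLay S A α) {gens : Set S.Y} (hg : gens.Finite) :
    (T.Rel gens).Finite := by
  unfold StepLay.Rel
  refine (((((hg.image _).union (Set.finite_singleton _)).union (Set.finite_singleton _)).union
    (S.Rel_fin.image _)).union (Set.finite_range _)).union (Set.finite_range _)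

end

/-- common part of the stage step and of the top level: from a recursively presented group `Q` of
index `j+1` to a stage and a module over it -/
theorem stage_data (hKK : Stmt_KK) (hInd : Stmt_Ind) {j : ℕ} (hS : StageEx j) (B : Type) [Finite B]
    (Q : Type) [Group Q] (hQ : RP Q) (hs : derivedSeries Q (j + 1) = ⊥) :
    ∃ (r : ℕ) (S : Stage j (Up r B)) (ev : ℕ → S.Q) (A : Type) (_ : AddCommGroup A)
      (_ : Module (RG S.Q) A) (f : ℕ → A) (ρ : ℕ → MRel) (η : Q →* Sd S.Q A),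
      PMod S.Q ev A f ρ ∧ (∀ i, r ≤ i → f i = 0) ∧
      Submodule.span (RG S.Q) (Set.range fun i : Fin r => f i) = ⊤ ∧ Injective η := by
  obtain ⟨Q', _, ev', A', _, _, f', ρ, φ, hQ', hQs, hD, hφ⟩ := hKK j Q hQ hs
  obtain ⟨r, hr⟩ := hD.2.1
  obtain ⟨S, η, hη⟩ := hS (Up r B) Q' ⟨ev', hQ'⟩ hQs
  obtain ⟨A, _, _, f, J, h1, h2, h3, h4, h5⟩ := hInd Q' S.Q η hη ℕ A' f'
    (Set.range fun n => mrel ev' (ρ n)) hD.2.2.1 hD.2.2.2.2
  have hf0 : ∀ i, r ≤ i → f i = 0 := by
    intro i hi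
    rw [← h4, hr i hi, map_zero]
  refine ⟨r, S, fun i => η (ev' i), A, inferInstance, inferInstance, f, ρ,
    (Sd.map η J h5).comp φ, ⟨?_, ⟨r, hf0⟩, h1, hD.2.2.2.1, ?_⟩, hf0, ?_, ?_⟩
  · obtain ⟨k, hk⟩ := hD.1
    exact ⟨k, fun i hi => by simp only [hk i hi, map_one]⟩
  · rw [h2]
    congr 1
    rw [← Set.range_comp]
    congr 1
    ext1 n
    exact mrel_chg η ev' (ρ n)
  · rw [eq_top_iff, ← h1, Submodule.span_le]
    rintro _ ⟨i, rfl⟩
    by_cases hi : i < r
    · exact Submodule.subset_span ⟨⟨i, hi⟩, rfl⟩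
    · rw [hf0 i (not_lt.1 hi)]
      exact Submodule.zero_mem _
  · exact (Sd.map_injective h5 hη h3).comp hφ

theorem stageasm_proof : Stmt_StageAsm := by
  intro hKK hInd hLay hLink hUnits j _ hS B _ Q _ hQ hs
  obtain ⟨r, S, ev, A, _, _, f, ρ, η, hP, hf0, hspan, hη⟩ := stage_data hKK hInd hS B Q hQ hs
  obtain ⟨T⟩ := hLay j r B S ev A f ρ hP hf0
  obtain ⟨gens, hgens, hgf⟩ := Group.fg_iff.1 S.rpY.fg
  have hU := hUnits j r B S A (fun i : Fin r => f i) hspan T gens
  refine ⟨{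
    Y := T.P
    Q := Sd S.Q A
    rpY := T.rpP
    solY := T.solP
    fgQ := Sd.fg S.fgQ _ hspan
    ι := T.ioHom
    ι_inj := hU.1
    Rel := T.Rel gens
    Rel_fin := T.Rel_finite hgf
    δ := el (T.a SL.g) - 1
    ξ := fun b => T.a (SL.xp b)
    ω := T.a SL.w
    link := hLink j r B S A (fun i : Fin r => f i) hspan T gens hgens
    units := hU.2 }, η, hη⟩

end Pool.Agent.HIG
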