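import Mathlib
import Pool.Agent.HIG.LayPlus

/-!
# The layers of the stage step and of the top level
-/

noncomputable section

namespace Pool.Agent.HIG

open Function

instance SL.finite {r : ℕ} {B : Type} [Finite B] : Finite (SL r B) := by
  let c : SL r B → (Fin 5 ⊕ Fin r) ⊕ (Fin r ⊕ B) := fun l => match l with
    | .z => .inl (.inl 0)
    | .ze => .inl (.inl 1)
    | .y => .inl (.inl 2)
    | .g => .inl (.inl 3)
    | .w => .inl (.inl 4)
    | .al i => .inl (.inr i)
    | .x i => .inr (.inl i)
    | .xp b => .inr (.inr b)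
  refine Finite.of_injective c ?_
  intro a b h
  cases a <;> cases b <;> simp_all [c]

instance TL.finite {r : ℕ} {B : Type} [Finite B] : Finite (TL r B) := by
  let c : TL r B → (Fin 6 ⊕ Fin r) ⊕ (Fin r ⊕ B) := fun l => match l with
    | .z => .inl (.inl 0)
    | .ze => .inl (.inl 1)
    | .y => .inl (.inl 2)
    | .yz => .inl (.inl 3)
    | .w => .inl (.inl 4)
    | .t => .inl (.inl 5)
    | .al i => .inl (.inr i)
    | .x i => .inr (.inl i)
    | .xp b => .inr (.inr b)
  refine Finite.of_injective c ?_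
  intro a b h
  cases a <;> cases b <;> simp_all [c]

/-- commutation with a generating set -/
theorem commute_of_gen {Q P : Type} [Group Q] [Group P] {s : Set Q}
    (hs : Subgroup.closure s = ⊤) (i0 : Q →* P) (g : P) (h : ∀ q ∈ s, Commute g (i0 q)) (q : Q) :
    Commute g (i0 q) := by
  have hq : q ∈ Subgroup.closure s := by rw [hs]; trivial
  induction hq using Subgroup.closure_induction with
  | mem x hx => exact h x hx
  | one => rw [map_one]; exact Commute.one_right _
  | mul x y _ _ hx hy => rw [map_mul]; exact hx.mul_right hy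
  | inv x _ hx => rw [map_inv]; exact hx.inv_right

theorem stepLayAsm_proof : Stmt_StepLayAsm := by
  intro hL j r B _ S ev A _ _ f ρ hP hf
  obtain ⟨s, hs⟩ := S.fgQ.out
  obtain ⟨P, _, inc, ret, a, ψ, h1, h2, h3, h4, h5, h6, h7, h8, h9⟩ :=
    layPlus hL S.Y S.rpY (SL r B) S.Q S.ι ev A f ρ hP r hf SL.al
      (s.toList.map fun q => (SL.g, S.ι q))
  refine ⟨{ P := P, inc := inc, ret := ret, a := a, ψ := ψ, ret_inc := h1, ret_a := h2,
            comm := h3, gcomm := ?_, ψα := h5, ψq := h6, rpP := h7, solP := h8 _ S.solY,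
            univ := ?_ }⟩
  · intro q
    refine commute_of_gen hs (inc.comp S.ι) _ ?_ q
    intro q hq
    refine h4 (SL.g, S.ι q) ?_
    rw [List.mem_map]
    exact ⟨q, by simpa using hq, rfl⟩
  · intro G _ θ b ψ' hb hg hα hq
    refine h9 G θ b ψ' hb ?_ hα hq
    intro k hk
    rw [List.mem_map] at hk
    obtain ⟨q, -, rfl⟩ := hk
    exact hg q

theorem derivedSeries_prod_int {Y : Type} [Group Y] {j : ℕ} (hj : 1 ≤ j)
    (h : derivedSeries Y j = ⊥) : derivedSeries (Y × Multiplicative ℤ) j = ⊥ := by
  rw [eq_bot_iff]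
  intro x hx
  have h1 : x.1 ∈ derivedSeries Y j := by
    have := map_derivedSeries_le_derivedSeries (MonoidHom.fst Y (Multiplicative ℤ)) j
    exact this (Subgroup.mem_map_of_mem _ hx)
  have h2 : x.2 ∈ derivedSeries (Multiplicative ℤ) j := by
    have := map_derivedSeries_le_derivedSeries (MonoidHom.snd Y (Multiplicative ℤ)) j
    exact this (Subgroup.mem_map_of_mem _ hx)
  have h3 : derivedSeries (Multiplicative ℤ) j = ⊥ := by
    have h4 : derivedSeries (Multiplicative ℤ) 1 = ⊥ := by
      rw [derivedSeries_one]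
      exact (commutator_eq_bot_iff_center_eq_top _).2 CommGroup.center_eq_top
    exact eq_bot_iff.2 (h4 ▸ derivedSeries_antitone _ hj)
  rw [h] at h1
  rw [h3] at h2
  rw [Subgroup.mem_bot] at *
  exact Prod.ext h1 h2

theorem topLayAsm_proof : Stmt_TopLayAsm := by
  intro hL hProd hComm j r B _ hj S ev A _ _ f ρ hP hf
  classical
  obtain ⟨s, hs⟩ := S.fgQ.out
  have hZ : RP (Multiplicative ℤ) := hComm _ inferInstance
  have hY : RP (S.Y × Multiplicative ℤ) := hProd _ _ S.rpY hZ
  let _ : Fintype (TL r B) := Fintype.ofFinite _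
  obtain ⟨P, _, inc, ret, a, ψ, h1, h2, h3, h4, h5, h6, h7, h8, h9⟩ :=
    layPlus hL (S.Y × Multiplicative ℤ) hY (TL r B) S.Q
      ((MonoidHom.inl S.Y (Multiplicative ℤ)).comp S.ι) ev A f ρ hP r hf TL.al
      ((s.toList.map fun q => (TL.t, (S.ι q, 1))) ++
        ((Finset.univ.filter fun l : TL r B => l ≠ TL.t).toList.map fun l =>
          (l, ((1 : S.Y), Multiplicative.ofAdd (1 : ℤ)))))
  refine ⟨{ P := P, inc := inc.comp (MonoidHom.inl S.Y (Multiplicative ℤ)),
            ϖ := inc (1, Multiplicative.ofAdd 1), a := a, ψ := ψ,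
            comm := fun x y l l' => h3 _ _ _ _, ϖinc := ?_, ϖa := ?_, tq := ?_, ψα := h5,
            ψq := h6, rpP := h7, solP := h8 _ (derivedSeries_prod_int hj S.solY),
            univ := ?_ }⟩
  · intro y
    change Commute (inc (1, Multiplicative.ofAdd 1)) (inc (y, 1))
    refine Commute.map ?_ inc
    unfold Commute SemiconjBy
    simp
  · intro l hl
    refine (h4 (l, ((1 : S.Y), Multiplicative.ofAdd (1 : ℤ))) ?_).symm
    rw [List.mem_append]
    right
    rw [List.mem_map]
    exact ⟨l, by simpa using hl, rfl⟩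
  · intro q
    refine commute_of_gen hs ((inc.comp (MonoidHom.inl S.Y (Multiplicative ℤ))).comp S.ι) _ ?_ q
    intro q hq
    refine h4 (TL.t, (S.ι q, 1)) ?_
    rw [List.mem_append]
    left
    rw [List.mem_map]
    exact ⟨q, by simpa using hq, rfl⟩
  · intro G _ θ v b ψ' hb hv hvb ht hα hq
    let θ' : S.Y × Multiplicative ℤ →* G := θ.noncommCoprod (zpowersHom G v) (by
      intro y n
      exact ((hv y).symm).zpow_right (Multiplicative.toAdd n))
    have hθ : ∀ p : S.Y × Multiplicative ℤ, θ' p = v ^ (Multiplicative.toAdd p.2) * θ p.1 := by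
      intro p
      change θ p.1 * v ^ (Multiplicative.toAdd p.2) = _
      exact ((hv p.1).symm.zpow_right (Multiplicative.toAdd p.2)).eq
    obtain ⟨F, hF1, hF2⟩ := h9 G θ' b ψ'
      (by
        intro x y l l'
        rw [hθ, hθ]
        exact hb _ _ _ _ _ _)
      (by
        intro k hk
        rw [List.mem_append, List.mem_map, List.mem_map] at hk
        obtain ⟨q, -, rfl⟩ | ⟨l, hl, rfl⟩ := hk
        · change Commute (b TL.t) (θ' (S.ι q, 1))
          rw [hθ]
          simpa using ht q
        · change Commute (b l) (θ' (1, Multiplicative.ofAdd 1))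
          rw [hθ]
          have : l ≠ TL.t := by simpa using hl
          simpa using (hvb l this).symm)
      hα
      (by
        intro q t
        rw [hq]
        congr 1
        rw [hθ]
        simp)
    refine ⟨F, ?_, ?_, hF2⟩
    · intro y
      change F (inc (y, 1)) = _
      rw [hF1, hθ]
      simp
    · rw [hF1, hθ]
      simp

end Pool.Agent.HIG
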