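import Mathlib
import Pool.Agent.HIG.StageAsm

/-!
# Linking classes of the next stage
-/

noncomputable section

namespace Pool.Agent.HIG

open Function
open scoped commutatorElement

namespace StepLink

set_option linter.unusedSectionVars false
set_option linter.unusedVariables false

variable {j r : ℕ} {B : Type} {S : Stage j (Up r B)} {A : Type} [AddCommGroup A]
  [Module (RG S.Q) A] {α : Fin r → A}

/-- the commutative subgroup generated by the conjugates of the letters -/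
def A0 (T : StepLay S A α) : Subgroup T.P :=
  Subgroup.closure (Set.range fun p : S.Y × SL r B => cj (T.inc p.1) (T.a p.2))

theorem mem_A0 (T : StepLay S A α) (l : S.Y) (x : SL r B) : cj (T.inc l) (T.a x) ∈ A0 T :=
  Subgroup.subset_closure ⟨(l, x), rfl⟩

theorem mem_A0' (T : StepLay S A α) (x : SL r B) : T.a x ∈ A0 T := by
  have := mem_A0 T 1 x
  rwa [map_one, one_cj] at this

theorem A0_comm (T : StepLay S A α) {u v : T.P} (hu : u ∈ A0 T) (hv : v ∈ A0 T) : u * v = v * u := by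
  have hc : ∀ a ∈ Set.range (fun p : S.Y × SL r B => cj (T.inc p.1) (T.a p.2)),
      ∀ b ∈ Set.range (fun p : S.Y × SL r B => cj (T.inc p.1) (T.a p.2)), a * b = b * a := by
    rintro _ ⟨p, rfl⟩ _ ⟨q, rfl⟩
    exact (T.comm p.1 q.1 p.2 q.2).eq
  have := (Subgroup.isMulCommutative_closure hc).is_comm.comm ⟨u, hu⟩ ⟨v, hv⟩
  exact congrArg Subtype.val this

instance (T : StepLay S A α) : CommGroup (A0 T) :=
  { (inferInstance : Group (A0 T)) with
    mul_comm := fun a b => Subtype.ext (A0_comm T a.2 b.2) }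

/-- the elements `^q b_beta` -/
def Bq (T : StepLay S A α) (p : S.Q × Up r B) : T.P := cj (T.inc (S.ι p.1)) (T.a (SL.of p.2))

/-- generated subgroup -/
def B' (T : StepLay S A α) : Subgroup T.P := Subgroup.closure (Set.range (Bq T))

theorem B'_le (T : StepLay S A α) : B' T ≤ A0 T := by
  unfold B'
  rw [Subgroup.closure_le]
  rintro _ ⟨p, rfl⟩
  exact mem_A0 T _ _

theorem A0_conj (T : StepLay S A α) (l : S.Y) {u : T.P} (hu : u ∈ A0 T) : cj (T.inc l) u ∈ A0 T := by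
  have : A0 T ≤ (A0 T).comap (cjHom (T.inc l)) := by
    conv_lhs => unfold A0
    rw [Subgroup.closure_le]
    rintro _ ⟨⟨m, x⟩, rfl⟩
    change cj (T.inc l) (cj (T.inc m) (T.a x)) ∈ A0 T
    rw [cj_cj, ← map_mul]
    exact mem_A0 T _ _
  exact this hu

theorem B'_conj (T : StepLay S A α) (q : S.Q) {u : T.P} (hu : u ∈ B' T) :
    cj (T.inc (S.ι q)) u ∈ B' T := by
  have : B' T ≤ (B' T).comap (cjHom (T.inc (S.ι q))) := by
    conv_lhs => unfold B'
    rw [Subgroup.closure_le]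
    rintro _ ⟨⟨m, x⟩, rfl⟩
    refine Subgroup.subset_closure ⟨(q * m, x), ?_⟩
    change cj (T.inc (S.ι (q * m))) _ = cj (T.inc (S.ι q)) (cj (T.inc (S.ι m)) _)
    rw [cj_cj, ← map_mul, ← map_mul]
  exact this hu

/-- products over lists -/
def mon (T : StepLay S A α) (l : List (S.Q × Up r B)) : T.P := (l.map (Bq T)).prod

theorem mon_cons (T : StepLay S A α) (a : S.Q × Up r B) (l : List (S.Q × Up r B)) :
    mon T (a :: l) = Bq T a * mon T l := rfl
theorem mon_append (T : StepLay S A α) (l l' : List (S.Q × Up r B)) :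
    mon T (l ++ l') = mon T l * mon T l' := by simp [mon]
theorem mon_mem (T : StepLay S A α) (l : List (S.Q × Up r B)) : mon T l ∈ A0 T := by
  induction l with
  | nil => exact (A0 T).one_mem
  | cons a l ih => exact (A0 T).mul_mem (mem_A0 T _ _) ih

/-- denominators -/
theorem denom (T : StepLay S A α) {κ : T.P} (hκ : κ ∈ B' T) :
    ∃ a b : List (S.Q × Up r B), κ * mon T a = mon T b := by
  unfold B' at hκ
  induction hκ using Subgroup.closure_induction with
  | mem x hx =>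
    obtain ⟨p, rfl⟩ := hx
    exact ⟨[], [p], by simp [mon]⟩
  | one => exact ⟨[], [], by simp [mon]⟩
  | mul x y hx hy h1 h2 =>
    obtain ⟨a, b, h⟩ := h1
    obtain ⟨a', b', h'⟩ := h2
    refine ⟨a ++ a', b ++ b', ?_⟩
    have hyA : y ∈ A0 T := B'_le T hy
    rw [mon_append, mon_append, ← h, ← h']
    calc x * y * (mon T a * mon T a') = x * (y * mon T a) * mon T a' := by group
      _ = x * (mon T a * y) * mon T a' := by rw [A0_comm T hyA (mon_mem T a)]
      _ = _ := by group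
  | inv x hx h1 =>
    obtain ⟨a, b, h⟩ := h1
    refine ⟨b, a, ?_⟩
    rw [← h]
    group

/-- common denominators of finite sets -/
theorem denoms (T : StepLay S A α) {K : Set T.P} (hK : K.Finite) (hB : ∀ κ ∈ K, κ ∈ B' T) :
    ∃ a : List (S.Q × Up r B), ∀ κ ∈ K, ∃ b : List (S.Q × Up r B), κ * mon T a = mon T b := by
  induction K, hK using Set.Finite.induction_on with
  | empty => exact ⟨[], by simp⟩
  | @insert κ₀ K _ _ ih =>
    obtain ⟨a, ha⟩ := ih (fun κ hκ => hB κ (Set.mem_insert_of_mem _ hκ))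
    obtain ⟨a₀, b₀, h₀⟩ := denom T (hB κ₀ (Set.mem_insert _ _))
    refine ⟨a₀ ++ a, ?_⟩
    rintro κ (rfl | hκ)
    · exact ⟨b₀ ++ a, by rw [mon_append, mon_append, ← h₀, mul_assoc]⟩
    · obtain ⟨b, hb⟩ := ha κ hκ
      refine ⟨b ++ a₀, ?_⟩
      rw [mon_append, mon_append, ← hb, A0_comm T (mon_mem T a₀) (mon_mem T a), mul_assoc]

section
variable {T : StepLay S A α} {gens : Set S.Y} (hg : Subgroup.closure gens = ⊤)

/-- class in the new module -/
abbrev c (T : StepLay S A α) (gens : Set S.Y) (x : RG T.P) : EE T.P (T.Rel gens) :=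
  cl (T.Rel gens) x

/-- `delta` -/
abbrev dl (T : StepLay S A α) : RG T.P := el (T.a SL.g) - 1

theorem dl_comm {u : T.P} (hu : u ∈ A0 T) : el u * dl T = dl T * el u := by
  unfold dl
  rw [mul_sub, sub_mul, ← el_mul, ← el_mul, A0_comm T hu (mem_A0' T _), mul_one, one_mul]

theorem dl_inc (q : S.Q) : el (T.inc (S.ι q)) * dl T = dl T * el (T.inc (S.ι q)) := by
  unfold dl
  rw [mul_sub, sub_mul, ← el_mul, ← el_mul, (T.gcomm q).eq, mul_one, one_mul]

include hg in
theorem c_inc (x : RG T.P) (μ : S.Y) : c T gens (x * el (T.inc μ)) = c T gens x := by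
  have hμ : μ ∈ Subgroup.closure gens := by rw [hg]; trivial
  induction hμ using Subgroup.closure_induction generalizing x with
  | mem μ hμ =>
    have hr : el (T.inc μ) - 1 ∈ T.Rel gens := by
      unfold StepLay.Rel
      exact Or.inl (Or.inl (Or.inl (Or.inl (Or.inl ⟨μ, hμ, rfl⟩))))
    have := cl_rel hr x
    rw [mul_sub, mul_one, cl_sub, sub_eq_zero] at this
    exact this
  | one => rw [map_one, el_one, mul_one]
  | mul μ ν _ _ h1 h2 => rw [map_mul, el_mul, ← mul_assoc, h2, h1]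
  | inv μ _ h1 =>
    have := h1 (x * el (T.inc μ⁻¹))
    rw [mul_assoc, ← el_mul, ← map_mul, inv_mul_cancel, map_one, el_one, mul_one] at this
    exact this.symm

include hg in
/-- conjugate letters acting on the generator -/
theorem c_cj (x : RG T.P) (l : S.Y) (a : T.P) :
    c T gens (x * el (cj (T.inc l) a)) = c T gens (x * el (T.inc l) * el a) := by
  have : cj (T.inc l) a = T.inc l * a * T.inc l⁻¹ := by simp [cj]
  rw [this, el_mul, ← mul_assoc, c_inc hg, el_mul, mul_assoc]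

include hg in
theorem c_y (x : RG T.P) (l : S.Y) : c T gens (x * el (cj (T.inc l) (T.a SL.y))) =
    c T gens x + c T gens (x * el (cj (T.inc l) (T.a SL.ze))) := by
  rw [c_cj hg, c_cj hg]
  have hr : el (T.a SL.y) - 1 - el (T.a SL.ze) ∈ T.Rel gens := by
    unfold StepLay.Rel
    exact Or.inl (Or.inl (Or.inl (Or.inl (Or.inr rfl))))
  have := cl_rel hr (x * el (T.inc l))
  rw [mul_sub, mul_sub, mul_one, cl_sub, cl_sub, sub_sub, sub_eq_zero] at this
  refine Eq.trans this ?_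
  congr 1
  exact c_inc hg x l

include hg in
theorem c_ze (x : RG T.P) (l : S.Y) : c T gens (x * el (cj (T.inc l) (T.a SL.ze))) =
    c T gens (x * odot T.inc (T.a SL.z) (el l * S.δ)) := by
  rw [c_cj hg, odot_mul]
  have hr : el (T.a SL.ze) - odot T.inc (T.a SL.z) S.δ ∈ T.Rel gens := by
    unfold StepLay.Rel
    exact Or.inl (Or.inl (Or.inl (Or.inr rfl)))
  have := cl_rel hr (x * el (T.inc l))
  rw [mul_sub, cl_sub, sub_eq_zero] at this
  refine Eq.trans this ?_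
  rw [← mul_assoc, ← mul_assoc, ← map_inv, c_inc hg]

include hg in
theorem exists_psi (x : RG T.P) : ∃ ψ : EE S.Y S.Rel →+ EE T.P (T.Rel gens),
    (∀ p, ψ (cl S.Rel p) = c T gens (x * odot T.inc (T.a SL.z) p)) ∧
    ∀ l, ψ (cl S.Rel (el l * S.δ)) = c T gens (x * el (cj (T.inc l) (T.a SL.ze))) := by
  let f : RG S.Y →+ EE T.P (T.Rel gens) :=
    { toFun := fun p => c T gens (x * odot T.inc (T.a SL.z) p)
      map_zero' := by rw [odot_zero, mul_zero]; rfl
      map_add' := fun p q => by rw [odot_add, mul_add]; rfl }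
  refine ⟨EE.lift f ?_, fun p => rfl, fun l => ?_⟩
  · intro l p hp
    change c T gens (x * odot T.inc (T.a SL.z) (el l * p)) = 0
    rw [odot_mul, ← mul_assoc, ← mul_assoc, ← map_inv, c_inc hg]
    have hr : odot T.inc (T.a SL.z) p ∈ T.Rel gens := by
      unfold StepLay.Rel
      exact Or.inl (Or.inl (Or.inr ⟨p, hp, rfl⟩))
    exact cl_rel hr _
  · rw [c_ze hg]
    rfl

/-- the function `F u = u delta e` -/
abbrev FF (T : StepLay S A α) (gens : Set S.Y) (u : T.P) : EE T.P (T.Rel gens) :=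
  c T gens (el u * dl T)

include hg in
theorem F_iq (u : T.P) (q : S.Q) : FF T gens (u * T.inc (S.ι q)) = FF T gens u := by
  unfold FF
  rw [el_mul, mul_assoc, dl_inc, ← mul_assoc, c_inc hg]

include hg in
theorem F_mul (u v : T.P) : FF T gens (u * v) = el u • FF T gens v := by
  unfold FF c
  rw [el_mul, mul_assoc, cl_smul]

include hg in
theorem F_cj (u : T.P) (q : S.Q) (x : T.P) :
    FF T gens (u * cj (T.inc (S.ι q)) x) = FF T gens (u * T.inc (S.ι q) * x) := by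
  have : u * T.inc (S.ι q) * x = u * cj (T.inc (S.ι q)) x * T.inc (S.ι q) := by
    unfold cj; group
  rw [this, F_iq hg]

include hg in
/-- consequence of R4 -/
theorem F_Bq (v : T.P) (p : S.Q × Up r B) :
    FF T gens (v * Bq T p) =
      FF T gens (v * cj (T.inc (S.ι p.1 * S.ξ p.2)) (T.a SL.ze)) -
      FF T gens (v * cj (T.inc (S.ι p.1 * S.ω)) (T.a SL.ze)) := by
  unfold Bq
  rw [F_cj hg]
  have hr : (el (T.a (SL.of p.2)) -
    (el (cj (T.inc (S.ξ p.2)) (T.a SL.ze)) - el (cj (T.inc S.ω) (T.a SL.ze)))) *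
      (el (T.a SL.g) - 1) ∈ T.Rel gens := by
    unfold StepLay.Rel
    exact Or.inl (Or.inr ⟨p.2, rfl⟩)
  have h1 := cl_rel hr (el (v * T.inc (S.ι p.1)))
  have e3 : ∀ a b c : T.P, el (v * T.inc (S.ι p.1)) * ((el a - (el b - el c)) *
      (el (T.a SL.g) - 1)) = el (v * T.inc (S.ι p.1) * a) * dl T -
      (el (v * T.inc (S.ι p.1) * b) * dl T - el (v * T.inc (S.ι p.1) * c) * dl T) := by
    intro a b c
    rw [el_mul (v * T.inc (S.ι p.1)) a, el_mul (v * T.inc (S.ι p.1)) b,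
      el_mul (v * T.inc (S.ι p.1)) c]
    unfold dl
    noncomm_ring
  rw [e3, cl_sub, cl_sub, sub_eq_zero] at h1
  have e2 : ∀ l : S.Y, FF T gens (v * cj (T.inc (S.ι p.1 * l)) (T.a SL.ze)) =
      FF T gens (v * T.inc (S.ι p.1) * cj (T.inc l) (T.a SL.ze)) := by
    intro l
    rw [map_mul, ← cj_cj, F_cj hg]
  rw [e2, e2]
  exact h1

include hg in
/-- consequence of R5 -/
theorem F_al (v : T.P) (q : S.Q) (i : Fin r) :
    FF T gens (v * Bq T (q, Sum.inr (Sum.inl i))) =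
      FF T gens (v * (Bq T (q, Sum.inl ()) * cj (T.inc (S.ι q)) (T.a (SL.al i)))) := by
  have hr : (el (T.a (SL.x i)) - el (T.a SL.w) * el (T.a (SL.al i))) *
    (el (T.a SL.g) - 1) ∈ T.Rel gens := by
    unfold StepLay.Rel
    exact Or.inr ⟨i, rfl⟩
  have h1 := cl_rel hr (el (v * T.inc (S.ι q)))
  have e3 : ∀ a b c : T.P, el (v * T.inc (S.ι q)) * ((el a - el b * el c) *
      (el (T.a SL.g) - 1)) = el (v * T.inc (S.ι q) * a) * dl T -
      el (v * T.inc (S.ι q) * (b * c)) * dl T := by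
    intro a b c
    rw [el_mul (v * T.inc (S.ι q)) a, el_mul (v * T.inc (S.ι q)) (b * c), el_mul b c]
    unfold dl
    noncomm_ring
  rw [e3, cl_sub, sub_eq_zero] at h1
  unfold Bq
  rw [F_cj hg, ← cj_mul, F_cj hg]
  exact h1

include hg in
/-- elements of `A` can be replaced by elements of `B'` -/
theorem F_psi (hα : Submodule.span (RG S.Q) (Set.range α) = ⊤) (t : A) :
    T.ψ (Multiplicative.ofAdd t) ∈ A0 T ∧ ∃ κ ∈ B' T, ∀ v ∈ A0 T,
      FF T gens (v * T.ψ (Multiplicative.ofAdd t)) = FF T gens (v * κ) := by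
  have ht : t ∈ Submodule.span (RG S.Q) (Set.range α) := by rw [hα]; trivial
  induction ht using Submodule.span_induction with
  | mem t ht =>
    obtain ⟨i, rfl⟩ := ht
    rw [T.ψα]
    refine ⟨mem_A0' T _, Bq T (1, Sum.inr (Sum.inl i)) * (Bq T (1, Sum.inl ()))⁻¹,
      (B' T).mul_mem (Subgroup.subset_closure ⟨_, rfl⟩)
        ((B' T).inv_mem (Subgroup.subset_closure ⟨_, rfl⟩)), ?_⟩
    intro v hv
    have h1 := F_al hg (v * (Bq T (1, Sum.inl ()))⁻¹) 1 i
    have hw : Bq T (1, Sum.inl ()) ∈ A0 T := mem_A0 T _ _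
    have hx : Bq T (1, Sum.inr (Sum.inl i)) ∈ A0 T := mem_A0 T _ _
    have e1 : v * (Bq T (1, Sum.inl ()))⁻¹ *
        (Bq T (1, Sum.inl ()) * cj (T.inc (S.ι 1)) (T.a (SL.al i))) = v * T.a (SL.al i) := by
      rw [map_one, map_one, one_cj]; group
    rw [e1] at h1
    rw [← h1]
    congr 1
    rw [mul_assoc, A0_comm T ((A0 T).inv_mem hw) hx]
  | zero =>
    rw [ofAdd_zero, map_one]
    exact ⟨(A0 T).one_mem, 1, (B' T).one_mem, fun v _ => rfl⟩
  | add s t _ _ hs ht =>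
    obtain ⟨h1, κ, hκ, h2⟩ := hs
    obtain ⟨h3, κ', hκ', h4⟩ := ht
    rw [ofAdd_add, map_mul]
    refine ⟨(A0 T).mul_mem h1 h3, κ * κ', (B' T).mul_mem hκ hκ', ?_⟩
    intro v hv
    rw [← mul_assoc, h4 _ ((A0 T).mul_mem hv h1), mul_assoc, A0_comm T h1 (B'_le T hκ'), ← mul_assoc,
      h2 _ ((A0 T).mul_mem hv (B'_le T hκ')), mul_assoc, A0_comm T (B'_le T hκ') (B'_le T hκ)]
  | smul a t _ ht =>
    refine RG.induction (p := fun a => T.ψ (Multiplicative.ofAdd (a • t)) ∈ A0 T ∧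
      ∃ κ ∈ B' T, ∀ v ∈ A0 T, FF T gens (v * T.ψ (Multiplicative.ofAdd (a • t))) =
        FF T gens (v * κ)) ?_ ?_ ?_ ?_ a
    · rw [zero_smul, ofAdd_zero, map_one]
      exact ⟨(A0 T).one_mem, 1, (B' T).one_mem, fun v _ => rfl⟩
    · rintro a b ⟨h1, κ, hκ, h2⟩ ⟨h3, κ', hκ', h4⟩
      rw [add_smul, ofAdd_add, map_mul]
      refine ⟨(A0 T).mul_mem h1 h3, κ * κ', (B' T).mul_mem hκ hκ', ?_⟩
      intro v hv
      rw [← mul_assoc, h4 _ ((A0 T).mul_mem hv h1), mul_assoc, A0_comm T h1 (B'_le T hκ'),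
        ← mul_assoc, h2 _ ((A0 T).mul_mem hv (B'_le T hκ')), mul_assoc,
        A0_comm T (B'_le T hκ') (B'_le T hκ)]
    · rintro a ⟨h1, κ, hκ, h2⟩
      rw [neg_smul, ofAdd_neg, map_inv]
      refine ⟨(A0 T).inv_mem h1, κ⁻¹, (B' T).inv_mem hκ, ?_⟩
      intro v hv
      have hκA := B'_le T hκ
      have h3 := h2 (v * (T.ψ (Multiplicative.ofAdd (a • t)))⁻¹ * κ⁻¹)
        ((A0 T).mul_mem ((A0 T).mul_mem hv ((A0 T).inv_mem h1)) ((A0 T).inv_mem hκA))
      have e1 : v * (T.ψ (Multiplicative.ofAdd (a • t)))⁻¹ * κ⁻¹ * κ =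
          v * (T.ψ (Multiplicative.ofAdd (a • t)))⁻¹ := by group
      have e2 : v * (T.ψ (Multiplicative.ofAdd (a • t)))⁻¹ * κ⁻¹ *
          T.ψ (Multiplicative.ofAdd (a • t)) = v * κ⁻¹ := by
        rw [mul_assoc, A0_comm T ((A0 T).inv_mem hκA) h1]
        group
      rw [e1, e2] at h3
      exact h3.symm
    · intro q
      obtain ⟨h1, κ, hκ, h2⟩ := ht
      rw [T.ψq]
      refine ⟨A0_conj T _ h1, cj (T.inc (S.ι q)) κ, B'_conj T q hκ, ?_⟩
      intro v hv
      have hv' : cj (T.inc (S.ι q⁻¹)) v ∈ A0 T := A0_conj T _ hv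
      have h3 := congrArg (fun y => el (T.inc (S.ι q)) • y) (h2 _ hv')
      simp only [← F_mul hg] at h3
      have e1 : ∀ x : T.P, FF T gens (T.inc (S.ι q) * (cj (T.inc (S.ι q⁻¹)) v * x)) =
          FF T gens (v * cj (T.inc (S.ι q)) x) := by
        intro x
        rw [F_cj hg]
        congr 1
        simp only [cj, map_inv]
        group
      rw [e1, e1] at h3
      exact h3

include hg in
/-- `(io x) b_beta delta e` is `kappa delta e` -/
theorem F_io (hα : Submodule.span (RG S.Q) (Set.range α) = ⊤) (x : Sd S.Q A) (β : Up r B) :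
    ∃ κ ∈ B' T, FF T gens (T.io x * T.a (SL.of β)) = FF T gens κ := by
  obtain ⟨h1, κ, hκ, h2⟩ := F_psi hg hα x.d (T := T)
  have hb : Bq T (x.q, β) ∈ B' T := Subgroup.subset_closure ⟨_, rfl⟩
  refine ⟨Bq T (x.q, β) * κ, (B' T).mul_mem hb hκ, ?_⟩
  have e1 : T.io x * T.a (SL.of β) =
      T.ψ (Multiplicative.ofAdd x.d) * Bq T (x.q, β) * T.inc (S.ι x.q) := by
    unfold StepLay.io Bq cj
    group
  rw [e1, F_iq hg, A0_comm T h1 (B'_le T hb), h2 _ (B'_le T hb)]

/-- generated by the class -/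
abbrev SCl (T : StepLay S A α) (𝒞 : Set S.Y) : Subgroup T.P :=
  Subgroup.closure ((fun l => cj (T.inc l) (T.a SL.ze)) '' 𝒞 ∪
    (fun l => cj (T.inc l) (T.a SL.y)) '' 𝒞)

include hg in
/-- new linking classes -/
theorem linkClass (llstep : Stmt_LLStep) {𝒞 : Set S.Y} (h𝒞 : LinkClass S.Y S.Rel S.δ 𝒞)
    {u₀ : T.P} (hu₀ : u₀ ∈ A0 T) :
    LinkClass T.P (T.Rel gens) (dl T) ((fun u => u₀ * u) '' (SCl T 𝒞 : Set T.P)) := by
  intro H _ Φ Ψ h1 h2 h3
  let ζ : 𝒞 → A0 T := fun l => ⟨cj (T.inc l) (T.a SL.ze), mem_A0 T l SL.ze⟩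
  let y : 𝒞 → A0 T := fun l => ⟨cj (T.inc l) (T.a SL.y), mem_A0 T l SL.y⟩
  let SC : Subgroup (A0 T) := Subgroup.closure (Set.range ζ ∪ Set.range y)
  have hmap : SC.map (A0 T).subtype = SCl T 𝒞 := by
    rw [MonoidHom.map_closure]
    congr 1
    rw [Set.image_union, ← Set.range_comp, ← Set.range_comp, Set.image_eq_range,
      Set.image_eq_range]
    rfl
  have hmem : ∀ u ∈ SC, u₀ * (u : T.P) ∈ ((fun u => u₀ * u) '' (SCl T 𝒞 : Set T.P)) := by
    intro u hu
    refine ⟨u, ?_, rfl⟩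
    rw [SetLike.mem_coe, ← hmap]
    exact ⟨u, hu, rfl⟩
  -- moving letters to the right
  have mv : ∀ (u : A0 T) (l : S.Y) (x : SL r B),
      el (u₀ * (cj (T.inc l) (T.a x) * (u : T.P))) * dl T =
        el (u₀ * (u : T.P)) * dl T * el (cj (T.inc l) (T.a x)) := by
    intro u l x
    have hx := mem_A0 T l x
    have e1 : u₀ * (cj (T.inc l) (T.a x) * (u : T.P)) = u₀ * (u : T.P) * cj (T.inc l) (T.a x) := by
      rw [A0_comm T hx u.2, mul_assoc]
    rw [e1, el_mul (u₀ * (u : T.P)), mul_assoc, mul_assoc, dl_comm hx]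
  have ha : ∀ (Φ : Multiplicative (EE T.P (T.Rel gens)) →* H) (l : 𝒞), ∀ u ∈ SC,
      vl Φ (el (u₀ * ((y l * u : A0 T) : T.P)) * dl T) =
      vl Φ (el (u₀ * (u : T.P)) * dl T) *
        vl Φ (el (u₀ * ((ζ l * u : A0 T) : T.P)) * dl T) := by
    intro Φ l u _
    rw [← vl_add]
    apply vl_congr
    rw [cl_add]
    change c T gens (el (u₀ * (cj (T.inc l) (T.a SL.y) * (u : T.P))) * dl T) =
      c T gens _ + c T gens (el (u₀ * (cj (T.inc l) (T.a SL.ze) * (u : T.P))) * dl T)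
    rw [mv, mv, c_y hg]
  have main := llstep (A0 T) 𝒞 ζ y H (fun u => vl Φ (el (u₀ * (u : T.P)) * dl T))
    (fun u => vl Ψ (el (u₀ * (u : T.P)) * dl T)) SC rfl (ha Φ) (ha Ψ)
    (fun l u _ => vl_comm _ _ _) (fun l u _ => vl_comm _ _ _)
    (fun u hu => h1 _ (hmem u hu))
    (fun l u hu => h2 _ (hmem _ (SC.mul_mem (Subgroup.subset_closure (Or.inl ⟨l, rfl⟩)) hu)) _
      (hmem u hu))
    (fun u hu u' hu' => h3 _ (hmem u hu) _ (hmem u' hu'))
    (by
      intro u hu u' hu' k1 k2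
      obtain ⟨ψ, -, hψ⟩ := exists_psi hg (el (u₀ * (u : T.P)) * dl T)
      obtain ⟨ψ', -, hψ'⟩ := exists_psi hg (el (u₀ * (u' : T.P)) * dl T)
      have e1 : ∀ l : S.Y, vl (Φ.comp (AddMonoidHom.toMultiplicative ψ)) (el l * S.δ) =
          vl Φ (el (u₀ * (cj (T.inc l) (T.a SL.ze) * (u : T.P))) * dl T) := by
        intro l
        change Φ (Multiplicative.ofAdd (ψ (cl S.Rel (el l * S.δ)))) = _
        rw [hψ, mv]
        rfl
      have e2 : ∀ l : S.Y, vl (Ψ.comp (AddMonoidHom.toMultiplicative ψ')) (el l * S.δ) =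
          vl Ψ (el (u₀ * (cj (T.inc l) (T.a SL.ze) * (u' : T.P))) * dl T) := by
        intro l
        change Ψ (Multiplicative.ofAdd (ψ' (cl S.Rel (el l * S.δ)))) = _
        rw [hψ', mv]
        rfl
      have m1 : ∀ l (hl : l ∈ 𝒞), ζ ⟨l, hl⟩ * u ∈ SC := fun l hl =>
        SC.mul_mem (Subgroup.subset_closure (Or.inl ⟨_, rfl⟩)) hu
      have m2 : ∀ l (hl : l ∈ 𝒞), ζ ⟨l, hl⟩ * u' ∈ SC := fun l hl =>
        SC.mul_mem (Subgroup.subset_closure (Or.inl ⟨_, rfl⟩)) hu'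
      have := h𝒞 H (Φ.comp (AddMonoidHom.toMultiplicative ψ))
        (Ψ.comp (AddMonoidHom.toMultiplicative ψ')) ?_ ?_ ?_
      · intro l l'
        have k3 := this l l.2 l' l'.2
        rw [e1, e2] at k3
        exact k3
      · intro l hl
        rw [e1, e2]
        exact k1 ⟨l, hl⟩
      · intro l hl m hm
        rw [e1, e2, e1, e2]
        exact k2 ⟨l, hl⟩ ⟨m, hm⟩
      · intro l hl m hm
        rw [e1, e2]
        exact h3 _ (hmem _ (m1 l hl)) _ (hmem _ (m2 m hm)))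
  rintro _ ⟨u, hu, rfl⟩ _ ⟨u', hu', rfl⟩
  rw [SetLike.mem_coe, ← hmap] at hu hu'
  obtain ⟨u, hu, rfl⟩ := hu
  obtain ⟨u', hu', rfl⟩ := hu'
  exact main u hu u' hu'

include hg in
theorem F_span {𝒞 : Set S.Y} {v : T.P} (hv : v ∈ A0 T) (l : S.Y)
    (hl : cl S.Rel (el l * S.δ) ∈ AddSubgroup.closure ((fun m => cl S.Rel (el m * S.δ)) '' 𝒞)) :
    FF T gens (v * cj (T.inc l) (T.a SL.ze)) ∈
      AddSubgroup.closure ((fun m => FF T gens (v * cj (T.inc m) (T.a SL.ze))) '' 𝒞) := by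
  obtain ⟨ψ, -, hψ⟩ := exists_psi hg (el v * dl T)
  have e1 : ∀ m, ψ (cl S.Rel (el m * S.δ)) = FF T gens (v * cj (T.inc m) (T.a SL.ze)) := by
    intro m
    rw [hψ, mul_assoc, ← dl_comm (mem_A0 T m SL.ze), ← mul_assoc, ← el_mul]
  have h1 := AddSubgroup.mem_map_of_mem ψ hl
  rw [AddMonoidHom.map_closure, e1, ← Set.image_comp] at h1
  have e2 : (ψ ∘ fun m => cl S.Rel (el m * S.δ)) =
      fun m => FF T gens (v * cj (T.inc m) (T.a SL.ze)) := by
    ext1 m
    exact e1 m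
  rwa [e2] at h1

end

theorem _root_.Pool.Agent.HIG.steplink_proof : Stmt_StepLinkAsm := by
  intro llstep j r B _ S A _ _ α hα T gens hg K hK hKf
  -- replacing by elements of B'
  have h1 : ∀ k ∈ K, ∃ κ ∈ B' T, FF T gens k = FF T gens κ := by
    intro k hk
    obtain ⟨q, rfl | ⟨b, rfl⟩⟩ := hKf k hk
    · exact F_io hg hα q (Sum.inl ())
    · exact F_io hg hα q (Sum.inr (Sum.inr b))
  choose! κ hκ hFκ using h1
  obtain ⟨a, ha⟩ := denoms T (hK.image κ) (by rintro _ ⟨k, hk, rfl⟩; exact hκ k hk)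
  have h2 : ∀ k ∈ K, ∃ b, κ k * mon T a = mon T b := fun k hk => ha _ ⟨k, hk, rfl⟩
  choose! b hb using h2
  set u₀ : T.P := (mon T a)⁻¹ with hu₀
  have hu₀A : u₀ ∈ A0 T := (A0 T).inv_mem (mon_mem T _)
  have hk0 : ∀ k ∈ K, κ k = u₀ * mon T (b k) := by
    intro k hk
    rw [← hb k hk, A0_comm T (B'_le T (hκ k hk)) (mon_mem T a), hu₀]
    group
  -- linking class
  let K' : Set S.Y := ⋃ k ∈ K, (((fun p : S.Q × Up r B => S.ι p.1 * S.ξ p.2) '' {p | p ∈ b k}) ∪
    ((fun p : S.Q × Up r B => S.ι p.1 * S.ω) '' {p | p ∈ b k}))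
  have hfin : K'.Finite := by
    refine hK.biUnion (fun k _ => ?_)
    have : {p | p ∈ b k}.Finite := List.finite_toSet (b k)
    exact (this.image _).union (this.image _)
  obtain ⟨𝒞, h𝒞, hspan⟩ := S.link K' hfin (by
    intro k hk
    simp only [K', Set.mem_iUnion] at hk
    obtain ⟨k', hk', ⟨p, _, rfl⟩ | ⟨p, _, rfl⟩⟩ := hk
    · exact ⟨p.1, Or.inr ⟨p.2, rfl⟩⟩
    · exact ⟨p.1, Or.inl rfl⟩)
  refine ⟨(fun u => u₀ * u) '' (SCl T 𝒞 : Set T.P), linkClass hg llstep h𝒞 hu₀A, ?_⟩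
  -- expansion
  have expand : ∀ M : List (S.Q × Up r B), (∀ p ∈ M, S.ι p.1 * S.ξ p.2 ∈ K' ∧
      S.ι p.1 * S.ω ∈ K') → ∀ v ∈ A0 T,
      FF T gens (v * mon T M) ∈ AddSubgroup.closure
        ((fun u => FF T gens (v * u)) '' (SCl T 𝒞 : Set T.P)) := by
    intro M
    induction M with
    | nil =>
      intro _ v _
      exact AddSubgroup.subset_closure ⟨1, Subgroup.one_mem _, rfl⟩
    | cons p M ih =>
      intro hM v hv
      have hvM : v * mon T M ∈ A0 T := (A0 T).mul_mem hv (mon_mem T M)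
      have hBp : Bq T p ∈ A0 T := mem_A0 T _ _
      have e1 : v * mon T (p :: M) = v * mon T M * Bq T p := by
        rw [mon_cons, A0_comm T hBp (mon_mem T M), mul_assoc]
      rw [e1, F_Bq hg]
      have step : ∀ l : S.Y, cl S.Rel (el l * S.δ) ∈
          AddSubgroup.closure ((fun m => cl S.Rel (el m * S.δ)) '' 𝒞) →
          FF T gens (v * mon T M * cj (T.inc l) (T.a SL.ze)) ∈ AddSubgroup.closure
        ((fun u => FF T gens (v * u)) '' (SCl T 𝒞 : Set T.P)) := by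
        intro l hl
        have h1 := F_span hg hvM l hl (gens := gens)
        refine (AddSubgroup.closure_le _).2 ?_ h1
        rintro _ ⟨m, hm, rfl⟩
        have hz : cj (T.inc m) (T.a SL.ze) ∈ A0 T := mem_A0 T _ _
        have h2 := ih (fun p hp => hM p (List.mem_cons_of_mem _ hp))
          (v * cj (T.inc m) (T.a SL.ze)) ((A0 T).mul_mem hv hz)
        have e2 : v * mon T M * cj (T.inc m) (T.a SL.ze) =
            v * cj (T.inc m) (T.a SL.ze) * mon T M := by
          rw [mul_assoc, A0_comm T (mon_mem T M) hz, mul_assoc]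
        simp only [SetLike.mem_coe]
        rw [e2]
        refine (AddSubgroup.closure_le _).2 ?_ h2
        rintro _ ⟨u, hu, rfl⟩
        refine AddSubgroup.subset_closure ⟨cj (T.inc m) (T.a SL.ze) * u,
          Subgroup.mul_mem _ (Subgroup.subset_closure (Or.inl ⟨m, hm, rfl⟩)) hu, ?_⟩
        simp only [mul_assoc]
      obtain ⟨p1, p2⟩ := hM p List.mem_cons_self
      exact AddSubgroup.sub_mem _ (step _ (hspan _ p1)) (step _ (hspan _ p2))
  intro k hk
  have h3 := expand (b k) (by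
    intro p hp
    refine ⟨?_, ?_⟩
    · simp only [K', Set.mem_iUnion]
      exact ⟨k, hk, Or.inl ⟨p, hp, rfl⟩⟩
    · simp only [K', Set.mem_iUnion]
      exact ⟨k, hk, Or.inr ⟨p, hp, rfl⟩⟩) u₀ hu₀A
  rw [← hk0 k hk, ← hFκ k hk] at h3
  rw [← Set.image_comp]
  exact h3

end StepLink

end Pool.Agent.HIG
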