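import Pool.Agent.HIG.Stmts

/-! Module XI: combining countably many Hahn series into one. -/

set_option autoImplicit false
set_option linter.unusedSectionVars false

noncomputable section

namespace Pool.Agent.HIG.Xi

open Function
open scoped Classical

variable {I : Type} {C C' Γ : Type} [AddCommGroup C] [AddCommGroup C'] [AddCommGroup Γ] [LinearOrder Γ]

/-- the big group of exponents -/
abbrev Big (Γ : Type) : Type := ℤ ×ₗ (Γ ×ₗ ℤ)

/-- the point with coordinates `n, g, e` -/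
def pt (n : ℤ) (g : Γ) (e : ℤ) : Big Γ := toLex (n, toLex (g, e))

theorem exists_pt (x : Big Γ) : ∃ n g e, x = pt n g e :=
  ⟨(ofLex x).1, (ofLex (ofLex x).2).1, (ofLex (ofLex x).2).2, rfl⟩

theorem pt_lt_pt (n n' : ℤ) (g g' : Γ) (e e' : ℤ) :
    pt n g e < pt n' g' e' ↔ n < n' ∨ n = n' ∧ (g < g' ∨ g = g' ∧ e < e') := by
  unfold pt
  rw [Prod.Lex.toLex_lt_toLex]
  simp only
  rw [Prod.Lex.toLex_lt_toLex]

/-- the coefficients of the combined series -/
def cf (N : I → ℤ) (i₀ : I) (aug Ψ : C →+ C') (f : I → HahnSeries Γ C) (x : Big Γ) : C' :=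
  if h : ∃ i, N i = (ofLex x).1 then
    if (ofLex (ofLex x).2).2 = 0 then aug ((f h.choose).coeff (ofLex (ofLex x).2).1)
    else if (ofLex (ofLex x).2).2 = 1 ∧ h.choose = i₀ then
      Ψ ((f h.choose).coeff (ofLex (ofLex x).2).1)
    else 0
  else 0

theorem cf_pt (N : I → ℤ) (hN : Injective N) (i₀ : I) (aug Ψ : C →+ C') (f : I → HahnSeries Γ C)
    (i : I) (g : Γ) (e : ℤ) :
    cf N i₀ aug Ψ f (pt (N i) g e) =
      if e = 0 then aug ((f i).coeff g) else if e = 1 ∧ i = i₀ then Ψ ((f i).coeff g) else 0 := by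
  have h : ∃ j, N j = (ofLex (pt (N i) g e)).1 := ⟨i, rfl⟩
  have h2 : h.choose = i := hN h.choose_spec
  unfold cf
  rw [dif_pos h, h2]
  rfl

theorem cf_not (N : I → ℤ) (i₀ : I) (aug Ψ : C →+ C') (f : I → HahnSeries Γ C)
    (n : ℤ) (g : Γ) (e : ℤ) (hn : ∀ i, N i ≠ n) :
    cf N i₀ aug Ψ f (pt n g e) = 0 := by
  unfold cf
  rw [dif_neg]
  rintro ⟨i, hi⟩
  exact hn i hi

theorem cf_pwo (N : I → ℤ) (hN : Injective N) (hN1 : ∀ i, 1 ≤ N i) (i₀ : I) (aug Ψ : C →+ C')
    (f : I → HahnSeries Γ C) : (Function.support (cf N i₀ aug Ψ f)).IsPWO := by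
  rw [Set.PartiallyWellOrderedOn.ProdLex_iff]
  constructor
  · rw [Set.isPWO_iff_isWF]
    apply BddBelow.isWF
    refine ⟨1, ?_⟩
    rintro _ ⟨x, hx, rfl⟩
    obtain ⟨n, g, e, rfl⟩ := exists_pt x
    by_contra hlt
    apply hx
    apply cf_not
    intro i hi
    apply hlt
    have := hN1 i
    rw [hi] at this
    exact this
  · intro n
    by_cases h : ∃ i, N i = n
    · obtain ⟨i, rfl⟩ := h
      rw [Set.PartiallyWellOrderedOn.ProdLex_iff]
      constructor
      · refine (f i).isPWO_support.mono ?_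
        rintro _ ⟨y, hy, rfl⟩
        rw [HahnSeries.mem_support]
        intro h0
        apply hy
        have : toLex (N i, y) = pt (N i) (ofLex y).1 (ofLex y).2 := rfl
        rw [this, cf_pt N hN, h0, map_zero, map_zero]
        split_ifs <;> rfl
      · intro g
        apply Set.Finite.isPWO
        refine Set.Finite.subset (Set.toFinite ({0, 1} : Set ℤ)) ?_
        intro e he
        by_contra hne
        simp only [Set.mem_insert_iff, Set.mem_singleton_iff, not_or] at hne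
        apply he
        have : toLex (N i, toLex (g, e)) = pt (N i) g e := rfl
        rw [this, cf_pt N hN, if_neg hne.1, if_neg (fun h => hne.2 h.1)]
    · have : {y | toLex (n, y) ∈ Function.support (cf N i₀ aug Ψ f)} = (∅ : Set (Γ ×ₗ ℤ)) := by
        rw [Set.eq_empty_iff_forall_notMem]
        intro y hy
        apply hy
        have : toLex (n, y) = pt n (ofLex y).1 (ofLex y).2 := rfl
        rw [this]
        apply cf_not
        intro i hi
        exact h ⟨i, hi⟩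
      rw [this]
      exact Set.isPWO_empty

/-- the combined series -/
def ser (N : I → ℤ) (hN : Injective N) (hN1 : ∀ i, 1 ≤ N i) (i₀ : I) (aug Ψ : C →+ C')
    (f : I → HahnSeries Γ C) : HahnSeries (Big Γ) C' :=
  ⟨cf N i₀ aug Ψ f, cf_pwo N hN hN1 i₀ aug Ψ f⟩

/-- a criterion for good series -/
theorem good_of {Γ R : Type} [AddCommGroup Γ] [LinearOrder Γ] [CommRing R] [Nontrivial R]
    (r : HahnSeries Γ R) (a : Γ) (h0 : 0 < a) (hu : IsUnit (r.coeff a))
    (hlt : ∀ b < a, r.coeff b = 0) : Good r := by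
  have h1 : r.order = a := by
    apply le_antisymm (HahnSeries.order_le_of_coeff_ne_zero hu.ne_zero)
    by_contra h
    rw [not_le] at h
    have h2 := hlt _ h
    have h3 : r ≠ 0 := HahnSeries.ne_zero_of_coeff_ne_zero hu.ne_zero
    rw [← HahnSeries.leadingCoeff_eq, HahnSeries.leadingCoeff_eq_zero] at h2
    exact h3 h2
  refine ⟨by rw [h1]; exact h0, ?_⟩
  rw [HahnSeries.leadingCoeff_eq, h1]
  exact hu

end Pool.Agent.HIG.Xi

namespace Pool.Agent.HIG

open Function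

theorem xi_proof : Stmt_Xi := by
  classical
  intro I _ i₀ C C' _ _ _ _ Γ _ _ _ aug Ψ κ hκ
  obtain ⟨N₀, hN₀⟩ := exists_injective_nat I
  let N : I → ℤ := fun i => (N₀ i : ℤ) + 1
  have hN : Injective N := by
    intro i j hij
    apply hN₀
    have h : (N₀ i : ℤ) + 1 = (N₀ j : ℤ) + 1 := hij
    have h2 := add_right_cancel h
    exact_mod_cast h2
  have hN1 : ∀ i, 1 ≤ N i := fun i => by
    have : (0 : ℤ) ≤ N₀ i := Int.natCast_nonneg _
    show 1 ≤ (N₀ i : ℤ) + 1
    omega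
  let κ' : HahnSeries (Xi.Big Γ) ℤ := Xi.ser N hN hN1 i₀ (0 : ℤ →+ ℤ) (AddMonoidHom.id ℤ) (fun _ => κ)
  refine ⟨Xi.Big Γ, inferInstance, inferInstance, inferInstance,
    { toFun := fun f => Xi.ser N hN hN1 i₀ aug.toAddMonoidHom Ψ f
      map_zero' := ?_
      map_add' := ?_ }, κ', ?_, ?_, ?_⟩
  · ext x
    obtain ⟨n, g, e, rfl⟩ := Xi.exists_pt x
    show Xi.cf N i₀ aug.toAddMonoidHom Ψ 0 (Xi.pt n g e) = 0
    by_cases h : ∃ i, N i = n
    · obtain ⟨i, rfl⟩ := h
      rw [Xi.cf_pt N hN]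
      simp
    · exact Xi.cf_not _ _ _ _ _ _ _ _ (fun i hi => h ⟨i, hi⟩)
  · intro f f'
    ext x
    obtain ⟨n, g, e, rfl⟩ := Xi.exists_pt x
    show Xi.cf N i₀ aug.toAddMonoidHom Ψ (f + f') (Xi.pt n g e) =
      Xi.cf N i₀ aug.toAddMonoidHom Ψ f (Xi.pt n g e) +
      Xi.cf N i₀ aug.toAddMonoidHom Ψ f' (Xi.pt n g e)
    by_cases h : ∃ i, N i = n
    · obtain ⟨i, rfl⟩ := h
      rw [Xi.cf_pt N hN, Xi.cf_pt N hN, Xi.cf_pt N hN]
      simp only [Pi.add_apply, HahnSeries.coeff_add, map_add]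
      split_ifs <;> simp
    · have h' : ∀ i, N i ≠ n := fun i hi => h ⟨i, hi⟩
      rw [Xi.cf_not _ _ _ _ _ _ _ _ h', Xi.cf_not _ _ _ _ _ _ _ _ h',
        Xi.cf_not _ _ _ _ _ _ _ _ h', add_zero]
  · -- κ' is good
    apply Xi.good_of κ' (Xi.pt (N i₀) κ.order 1)
    · show Xi.pt 0 0 0 < _
      rw [Xi.pt_lt_pt]
      left
      have := hN1 i₀
      omega
    · show IsUnit (Xi.cf N i₀ (0 : ℤ →+ ℤ) (AddMonoidHom.id ℤ) (fun _ => κ) (Xi.pt (N i₀) κ.order 1))
      rw [Xi.cf_pt N hN, if_neg one_ne_zero, if_pos ⟨rfl, rfl⟩]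
      rw [HahnSeries.leadingCoeff_eq] at hκ
      exact hκ
    · intro b hb
      obtain ⟨n, g, e, rfl⟩ := Xi.exists_pt b
      show Xi.cf N i₀ (0 : ℤ →+ ℤ) (AddMonoidHom.id ℤ) (fun _ => κ) (Xi.pt n g e) = 0
      rw [Xi.pt_lt_pt] at hb
      by_cases h : ∃ i, N i = n
      · obtain ⟨i, rfl⟩ := h
        rw [Xi.cf_pt N hN]
        split_ifs with h1 h2
        · rfl
        · rcases hb with hb | ⟨_, hb | ⟨_, hb⟩⟩
          · rw [h2.2] at hb; exact absurd hb (lt_irrefl _)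
          · exact HahnSeries.coeff_eq_zero_of_lt_order hb
          · rw [h2.1] at hb; exact absurd hb (lt_irrefl _)
        · rfl
      · exact Xi.cf_not _ _ _ _ _ _ _ _ (fun i hi => h ⟨i, hi⟩)
  · -- good values
    intro f hf hfu
    have hex : ∃ m : ℕ, ∃ i, N₀ i = m ∧ f i ≠ 0 := by
      by_contra hcon
      apply hf
      funext i
      by_contra hi
      exact hcon ⟨N₀ i, i, rfl, hi⟩
    obtain ⟨i, hi, hfi⟩ := Nat.find_spec hex
    have hmin : ∀ j, f j ≠ 0 → N₀ i ≤ N₀ j := by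
      intro j hj
      rw [hi]
      exact Nat.find_min' hex ⟨j, rfl, hj⟩
    have hu : IsUnit (f i).leadingCoeff := (hfu i).resolve_left hfi
    show Good (Xi.ser N hN hN1 i₀ aug.toAddMonoidHom Ψ f)
    apply Xi.good_of _ (Xi.pt (N i) (f i).order 0)
    · show Xi.pt 0 0 0 < _
      rw [Xi.pt_lt_pt]
      left
      have := hN1 i
      omega
    · show IsUnit (Xi.cf N i₀ aug.toAddMonoidHom Ψ f (Xi.pt (N i) (f i).order 0))
      rw [Xi.cf_pt N hN, if_pos rfl]
      rw [HahnSeries.leadingCoeff_eq] at hu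
      exact hu.map aug
    · intro b hb
      obtain ⟨n, g, e, rfl⟩ := Xi.exists_pt b
      show Xi.cf N i₀ aug.toAddMonoidHom Ψ f (Xi.pt n g e) = 0
      rw [Xi.pt_lt_pt] at hb
      by_cases h : ∃ j, N j = n
      · obtain ⟨j, rfl⟩ := h
        rw [Xi.cf_pt N hN]
        rcases hb with hb | ⟨hij, hb⟩
        · have hj0 : f j = 0 := by
            by_contra hj
            have h1 := hmin j hj
            have h2 : (N₀ j : ℤ) + 1 < (N₀ i : ℤ) + 1 := hb
            omega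
          rw [hj0]
          simp
        · have hij' := hN hij
          subst hij'
          rcases hb with hb | ⟨_, hb⟩
          · rw [HahnSeries.coeff_eq_zero_of_lt_order hb]
            simp
          · rw [if_neg (ne_of_lt hb), if_neg]
            rintro ⟨h1, _⟩
            omega
      · exact Xi.cf_not _ _ _ _ _ _ _ _ (fun i hi => h ⟨i, hi⟩)
  · -- the formula
    intro f c haug hfi
    show Xi.ser N hN hN1 i₀ aug.toAddMonoidHom Ψ f = _
    rw [mul_comm, HahnSeries.C_mul_eq_smul]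
    ext x
    obtain ⟨n, g, e, rfl⟩ := Xi.exists_pt x
    rw [HahnSeries.coeff_smul]
    show Xi.cf N i₀ aug.toAddMonoidHom Ψ f (Xi.pt n g e) = Ψ c •
      ((Xi.cf N i₀ (0 : ℤ →+ ℤ) (AddMonoidHom.id ℤ) (fun _ => κ) (Xi.pt n g e) : ℤ) : C')
    by_cases h : ∃ j, N j = n
    · obtain ⟨j, rfl⟩ := h
      rw [Xi.cf_pt N hN, Xi.cf_pt N hN]
      split_ifs with h1 h2
      · have : aug.toAddMonoidHom ((f j).coeff g) = 0 := haug j g
        rw [this]
        simp
      · rw [h2.2, hfi, mul_comm, HahnSeries.C_mul_eq_smul, HahnSeries.coeff_smul]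
        show Ψ (c • ((κ.coeff g : ℤ) : C)) = Ψ c • ((κ.coeff g : ℤ) : C')
        rw [smul_eq_mul, smul_eq_mul, mul_comm, mul_comm (Ψ c), ← zsmul_eq_mul, ← zsmul_eq_mul,
          map_zsmul]
      · simp
    · have h' : ∀ i, N i ≠ n := fun i hi => h ⟨i, hi⟩
      rw [Xi.cf_not _ _ _ _ _ _ _ _ h', Xi.cf_not _ _ _ _ _ _ _ _ h']
      simp

end Pool.Agent.HIG
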