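import Pool.Agent.HIG.Extra
import Pool.Agent.HIG.HUnits
import Pool.Agent.HIG.Xi

/-! Module STEPUNITS -/

set_option autoImplicit false
set_option linter.unusedSectionVars false

noncomputable section

namespace Pool.Agent.HIG.StepUnits

open Function HU

section wreath
variable {Y U : Type} [Group Y] [CommGroup U]

/-- the action of `Y` on functions -/
def act : Y →* MulAut (Y → U) where
  toFun l :=
    { toFun := fun f c => f (c * l)
      invFun := fun f c => f (c * l⁻¹)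
      left_inv := fun f => by funext c; simp
      right_inv := fun f => by funext c; simp
      map_mul' := fun f g => rfl }
  map_one' := by
    ext f c
    show f (c * 1) = f c
    rw [mul_one]
  map_mul' l l' := by
    ext f c
    show f (c * (l * l')) = f (c * l * l')
    rw [mul_assoc]

theorem act_apply (l : Y) (f : Y → U) (c : Y) : act l f c = f (c * l) := rfl

/-- the wreath product -/
abbrev GG (Y U : Type) [Group Y] [CommGroup U] : Type := (Y → U) ⋊[act] Y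

theorem cj_inr_inl (l : Y) (f : Y → U) :
    cj (SemidirectProduct.inr l : GG Y U) (SemidirectProduct.inl f) =
      SemidirectProduct.inl (act l f) := by
  rw [SemidirectProduct.inl_aut]
  simp [cj]

theorem commute_inl (f f' : Y → U) :
    Commute (SemidirectProduct.inl f : GG Y U) (SemidirectProduct.inl f') := by
  show _ * _ = _ * _
  rw [← map_mul, ← map_mul, mul_comm]

end wreath

section fp
variable {Y Γ C P : Type} [Group Y] [AddCommGroup Γ] [LinearOrder Γ] [IsOrderedAddMonoid Γ]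
  [CommRing C] [Nontrivial C] [Group P]

/-- the additive map to functions -/
def fp (F : P →* GG Y (UU Γ C)) : RG P →+ (Y → HahnSeries Γ C) :=
  RG.lift (fun u c => vU ((F u).left c))

theorem fp_el (F : P →* GG Y (UU Γ C)) (u : P) (c : Y) : fp F (el u) c = vU ((F u).left c) := by
  unfold fp
  rw [RG.lift_el]

theorem fp_one (F : P →* GG Y (UU Γ C)) (c : Y) : fp F 1 c = 1 := by
  rw [← el_one, fp_el, map_one]
  exact map_one vU

theorem fp_mul (F : P →* GG Y (UU Γ C)) (u : P) (p : RG P) (c : Y) :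
    fp F (el u * p) c = vU ((F u).left c) * fp F p (c * (F u).right) := by
  refine RG.induction (p := fun p => fp F (el u * p) c =
    vU ((F u).left c) * fp F p (c * (F u).right)) ?_ ?_ ?_ ?_ p
  · simp
  · intro x y hx hy
    rw [mul_add, map_add, map_add, Pi.add_apply, Pi.add_apply, hx, hy, mul_add]
  · intro x hx
    rw [mul_neg, map_neg, map_neg, Pi.neg_apply, Pi.neg_apply, hx, mul_neg]
  · intro v
    rw [← el_mul, fp_el, fp_el, map_mul, SemidirectProduct.mul_left]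
    show vU ((F u).left c * (act (F u).right (F v).left) c) = _
    rw [map_mul, act_apply]

/-- elements with trivial action -/
theorem fp_mul_one (F : P →* GG Y (UU Γ C)) (u : P) (f : Y → UU Γ C)
    (hu : F u = SemidirectProduct.inl f) (p : RG P) (c : Y) :
    fp F (el u * p) c = vU (f c) * fp F p c := by
  rw [fp_mul, hu, SemidirectProduct.left_inl, SemidirectProduct.right_inl, mul_one]

end fp

/-- functions supported on a subgroup image -/
def onQ {Q Y U : Type} [Group Q] [Group Y] [CommGroup U] (ι : Q →* Y) (F : Q → U) (c : Y) : U :=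
  open scoped Classical in if h : ∃ q, ι q = c then F h.choose else 1

theorem onQ_ι {Q Y U : Type} [Group Q] [Group Y] [CommGroup U] (ι : Q →* Y) (hι : Injective ι)
    (F : Q → U) (q : Q) : onQ ι F (ι q) = F q := by
  have h : ∃ q', ι q' = ι q := ⟨q, rfl⟩
  have h2 : h.choose = q := hι h.choose_spec
  unfold onQ
  rw [dif_pos h, h2]

theorem onQ_not {Q Y U : Type} [Group Q] [Group Y] [CommGroup U] (ι : Q →* Y)
    (F : Q → U) (c : Y) (h : ¬ ∃ q, ι q = c) : onQ ι F c = 1 := by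
  unfold onQ
  rw [dif_neg h]

theorem good_map {Γ C : Type} [AddCommGroup Γ] [LinearOrder Γ] [CommRing C] [Nontrivial C]
    (κ : HahnSeries Γ ℤ) (hκ : Good κ) : Good (κ.map (Int.castRingHom C) : HahnSeries Γ C) := by
  apply Xi.good_of _ κ.order hκ.1
  · have h := hκ.2
    rw [HahnSeries.leadingCoeff_eq] at h
    exact h.map (Int.castRingHom C)
  · intro b hb
    rw [HahnSeries.map_coeff, HahnSeries.coeff_eq_zero_of_lt_order hb]
    exact map_zero _

theorem map_sq {Γ C : Type} [AddCommGroup Γ] [LinearOrder Γ] [IsOrderedAddMonoid Γ] [CommRing C]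
    (κ : HahnSeries Γ ℤ) : ((κ * κ).map (Int.castRingHom C) : HahnSeries Γ C) =
      κ.map (Int.castRingHom C) * κ.map (Int.castRingHom C) := by
  have h := HahnSeries.map_mul (Γ := Γ) ((Int.castRingHom C : ℤ →+* C) : ℤ →ₙ+* C) (x := κ) (y := κ)
  exact h

section model
variable {j r : ℕ} {B : Type} {S : Stage j (Up r B)} {A : Type} [AddCommGroup A]
  [Module (RG S.Q) A] {α : Fin r → A}
  {Γ C1 : Type} [AddCommGroup Γ] [LinearOrder Γ] [IsOrderedAddMonoid Γ] [CommRing C1]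
  [Nontrivial C1]

variable (φ : EE S.Y S.Rel →+ HahnSeries Γ C1) (κ : HahnSeries Γ C1)
  (hκ : Good κ) (hφ : ∀ l : S.Y, Good (φ (cl S.Rel (el l))))
  (hφδ : ∀ l : S.Y, Good (φ (cl S.Rel (el l * S.δ))))
  (ρ : Multiplicative A →* C1ˣ) (χ : Up r B → S.Q → C1ˣ)

/-- values of the letters -/
def bU (β : Up r B) (q : S.Q) : UU Γ C1 :=
  UU.mk (κ * HahnSeries.C (χ β q : C1)) (UL.mul hκ.2 (UL.ofC (χ β q).isUnit))

/-- values of `A` -/
def aU (t : A) (q : S.Q) : UU Γ C1 :=
  UU.mk (HahnSeries.C (ρ (Multiplicative.ofAdd (el q • t)) : C1)) (UL.ofC (Units.isUnit _))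

/-- the functions belonging to the letters -/
def LF (α : Fin r → A) : SL r B → S.Y → UU Γ C1
  | SL.z => fun c => UU.mk (φ (cl S.Rel (el c))) (hφ c).2
  | SL.ze => fun c => UU.mk (φ (cl S.Rel (el c * S.δ))) (hφδ c).2
  | SL.y => fun c => UU.mk (1 + φ (cl S.Rel (el c * S.δ))) (HU.Good.one_add (hφδ c))
  | SL.g => onQ S.ι (fun _ => UU.mk (1 + κ) (HU.Good.one_add hκ))
  | SL.w => onQ S.ι (bU κ hκ χ (Sum.inl ()))
  | SL.x i => onQ S.ι (bU κ hκ χ (Sum.inr (Sum.inl i)))
  | SL.xp b => onQ S.ι (bU κ hκ χ (Sum.inr (Sum.inr b)))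
  | SL.al i => onQ S.ι (aU ρ (α i))

theorem LF_of (α : Fin r → A) (β : Up r B) :
    LF φ κ hκ hφ hφδ ρ χ α (SL.of β) = onQ S.ι (bU κ hκ χ β) := by
  rcases β with _ | i | b <;> rfl

theorem v_bU (β : Up r B) (q : S.Q) :
    vU (bU κ hκ χ β q) = κ * HahnSeries.C (χ β q : C1) := vU_mk _ _

theorem v_aU (t : A) (q : S.Q) :
    vU (aU (Γ := Γ) ρ t q) = HahnSeries.C (ρ (Multiplicative.ofAdd (el q • t)) : C1) := vU_mk _ _

theorem v_z (α : Fin r → A) (c : S.Y) :
    vU (LF φ κ hκ hφ hφδ ρ χ α SL.z c) = φ (cl S.Rel (el c)) := vU_mk _ (hφ c).2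

theorem v_ze (α : Fin r → A) (c : S.Y) :
    vU (LF φ κ hκ hφ hφδ ρ χ α SL.ze c) = φ (cl S.Rel (el c * S.δ)) := vU_mk _ (hφδ c).2

theorem v_y (α : Fin r → A) (c : S.Y) :
    vU (LF φ κ hκ hφ hφδ ρ χ α SL.y c) = 1 + φ (cl S.Rel (el c * S.δ)) :=
  vU_mk _ (HU.Good.one_add (hφδ c))

theorem v_g (α : Fin r → A) (q : S.Q) :
    vU (LF φ κ hκ hφ hφδ ρ χ α SL.g (S.ι q)) = 1 + κ := by
  have h : LF φ κ hκ hφ hφδ ρ χ α SL.g (S.ι q) = UU.mk (1 + κ) (HU.Good.one_add hκ) :=
    onQ_ι S.ι S.ι_inj (fun _ => UU.mk (1 + κ) (HU.Good.one_add hκ)) q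
  rw [h, vU_mk]

theorem v_g_not (α : Fin r → A) (c : S.Y) (h : ¬ ∃ q, S.ι q = c) :
    vU (LF φ κ hκ hφ hφδ ρ χ α SL.g c) = 1 := by
  have h : LF φ κ hκ hφ hφδ ρ χ α SL.g c = 1 :=
    onQ_not S.ι (fun _ => UU.mk (1 + κ) (HU.Good.one_add hκ)) _ h
  rw [h, map_one]

theorem v_of (α : Fin r → A) (β : Up r B) (q : S.Q) :
    vU (LF φ κ hκ hφ hφδ ρ χ α (SL.of β) (S.ι q)) = κ * HahnSeries.C (χ β q : C1) := by
  rw [LF_of, onQ_ι S.ι S.ι_inj, v_bU]

theorem v_al (α : Fin r → A) (i : Fin r) (q : S.Q) :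
    vU (LF φ κ hκ hφ hφδ ρ χ α (SL.al i) (S.ι q)) =
      HahnSeries.C (ρ (Multiplicative.ofAdd (el q • α i)) : C1) := by
  have h : LF φ κ hκ hφ hφδ ρ χ α (SL.al i) (S.ι q) = aU ρ (α i) q :=
    onQ_ι S.ι S.ι_inj _ q
  rw [h, v_aU]

/-- the homomorphism on `A` -/
def ψU : Multiplicative A →* (S.Y → UU Γ C1) where
  toFun t := onQ S.ι (aU ρ (Multiplicative.toAdd t))
  map_one' := by
    funext c
    by_cases h : ∃ q, S.ι q = c
    · obtain ⟨q, rfl⟩ := h
      rw [onQ_ι S.ι S.ι_inj]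
      apply vU_inj
      rw [v_aU, toAdd_one, smul_zero, ofAdd_zero, map_one, Pi.one_apply, map_one]
      exact map_one _
    · rw [onQ_not S.ι _ _ h]
      rfl
  map_mul' t t' := by
    funext c
    by_cases h : ∃ q, S.ι q = c
    · obtain ⟨q, rfl⟩ := h
      rw [Pi.mul_apply, onQ_ι S.ι S.ι_inj, onQ_ι S.ι S.ι_inj, onQ_ι S.ι S.ι_inj]
      apply vU_inj
      rw [map_mul vU, v_aU, v_aU, v_aU, toAdd_mul, smul_add, ofAdd_add, map_mul, Units.val_mul,
        map_mul]
    · rw [Pi.mul_apply, onQ_not S.ι _ _ h, onQ_not S.ι _ _ h, onQ_not S.ι _ _ h, mul_one]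

theorem ψU_apply (t : A) : (ψU (S := S) (Γ := Γ) ρ (Multiplicative.ofAdd t)) =
    onQ S.ι (aU (S := S) (Γ := Γ) ρ t) := rfl

theorem act_onQ {Q Y U : Type} [Group Q] [Group Y] [CommGroup U] (ι : Q →* Y) (hι : Injective ι)
    (F : Q → U) (q : Q) : act (ι q) (onQ ι F) = onQ ι (fun q' => F (q' * q)) := by
  funext c
  rw [act_apply]
  by_cases h : ∃ q', ι q' = c
  · obtain ⟨q', rfl⟩ := h
    rw [← map_mul, onQ_ι ι hι, onQ_ι ι hι]
  · rw [onQ_not ι _ _ h, onQ_not]
    rintro ⟨q', hq'⟩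
    exact h ⟨q' * q⁻¹, by rw [map_mul, map_inv, hq']; group⟩

theorem act_ψU (q : S.Q) (t : A) :
    act (S.ι q) (ψU (S := S) (Γ := Γ) ρ (Multiplicative.ofAdd t)) =
      ψU (S := S) (Γ := Γ) ρ (Multiplicative.ofAdd (el q • t)) := by
  rw [ψU_apply, ψU_apply, act_onQ S.ι S.ι_inj]
  congr 1
  funext q'
  apply vU_inj
  rw [v_aU, v_aU, el_mul, mul_smul]

theorem exists_F (hspan : Submodule.span (RG S.Q) (Set.range α) = ⊤) (T : StepLay S A α) :
    ∃ F : T.P →* GG S.Y (UU Γ C1), (∀ y, F (T.inc y) = SemidirectProduct.inr y) ∧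
      (∀ l, F (T.a l) = SemidirectProduct.inl (LF φ κ hκ hφ hφδ ρ χ α l)) ∧
      ∀ t, F (T.ψ (Multiplicative.ofAdd t)) =
        SemidirectProduct.inl (ψU ρ (Multiplicative.ofAdd t)) := by
  have u1 : ∀ (x y : S.Y) (l l' : SL r B), Commute
      (cj (SemidirectProduct.inr x : GG S.Y (UU Γ C1))
        (SemidirectProduct.inl (LF φ κ hκ hφ hφδ ρ χ α l)))
      (cj (SemidirectProduct.inr y) (SemidirectProduct.inl (LF φ κ hκ hφ hφδ ρ χ α l'))) := by
    intro x y l l'
    rw [cj_inr_inl, cj_inr_inl]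
    exact commute_inl _ _
  have u2 : ∀ q, Commute
      (SemidirectProduct.inl (LF φ κ hκ hφ hφδ ρ χ α SL.g) : GG S.Y (UU Γ C1))
      (SemidirectProduct.inr (S.ι q)) := by
    intro q
    apply Commute.symm
    rw [← cj_eq_iff, cj_inr_inl]
    have h : act (S.ι q) (LF φ κ hκ hφ hφδ ρ χ α SL.g) = LF φ κ hκ hφ hφδ ρ χ α SL.g :=
      act_onQ S.ι S.ι_inj (fun _ => UU.mk (1 + κ) (HU.Good.one_add hκ)) q
    rw [h]
  have u3 : ∀ (q : S.Q) (t : A),
      (SemidirectProduct.inl.comp (ψU (S := S) (Γ := Γ) ρ) : Multiplicative A →* GG S.Y (UU Γ C1))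
        (Multiplicative.ofAdd (el q • t)) = cj (SemidirectProduct.inr (S.ι q))
      ((SemidirectProduct.inl.comp (ψU (S := S) (Γ := Γ) ρ) :
        Multiplicative A →* GG S.Y (UU Γ C1)) (Multiplicative.ofAdd t)) := by
    intro q t
    show (SemidirectProduct.inl (ψU (S := S) (Γ := Γ) ρ (Multiplicative.ofAdd (el q • t))) :
      GG S.Y (UU Γ C1)) = cj (SemidirectProduct.inr (S.ι q))
      (SemidirectProduct.inl (ψU (S := S) (Γ := Γ) ρ (Multiplicative.ofAdd t)))
    rw [cj_inr_inl, act_ψU]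
  obtain ⟨F, hF1, hF2⟩ := T.univ (GG S.Y (UU Γ C1)) SemidirectProduct.inr
    (fun l => SemidirectProduct.inl (LF φ κ hκ hφ hφδ ρ χ α l))
    (SemidirectProduct.inl.comp (ψU ρ)) u1 u2 (fun i => rfl) u3
  refine ⟨F, hF1, hF2, ?_⟩
  intro t
  have ht : t ∈ Submodule.span (RG S.Q) (Set.range α) := by rw [hspan]; trivial
  induction ht using Submodule.span_induction with
  | mem x hx =>
    obtain ⟨i, rfl⟩ := hx
    rw [T.ψα, hF2]
    rfl
  | zero =>
    rw [ofAdd_zero, map_one, map_one, map_one, map_one]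
  | add x y _ _ hx hy =>
    rw [ofAdd_add, map_mul, map_mul, hx, hy, map_mul, map_mul]
  | smul a x _ hx =>
    refine RG.induction (p := fun a => F (T.ψ (Multiplicative.ofAdd (a • x))) =
      SemidirectProduct.inl (ψU ρ (Multiplicative.ofAdd (a • x)))) ?_ ?_ ?_ ?_ a
    · rw [zero_smul, ofAdd_zero, map_one, map_one, map_one, map_one]
    · intro a b ha hb
      rw [add_smul, ofAdd_add, map_mul, map_mul, ha, hb, map_mul, map_mul]
    · intro a ha
      rw [neg_smul, ofAdd_neg, map_inv, map_inv, ha, map_inv, map_inv]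
    · intro q
      rw [T.ψq, map_cj, hF1, hx, cj_inr_inl, act_ψU]

variable (T : StepLay S A α) (F : T.P →* GG S.Y (UU Γ C1))
  (hF1 : ∀ y, F (T.inc y) = SemidirectProduct.inr y)
  (hF2 : ∀ l, F (T.a l) = SemidirectProduct.inl (LF φ κ hκ hφ hφδ ρ χ α l))

include hF1 hF2 in
theorem fp_odot (p : RG S.Y) (c : S.Y) :
    fp F (odot T.inc (T.a SL.z) p) c = φ (cl S.Rel (el c * p)) := by
  refine RG.induction (p := fun p => fp F (odot T.inc (T.a SL.z) p) c =
    φ (cl S.Rel (el c * p))) ?_ ?_ ?_ ?_ p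
  · rw [odot_zero, mul_zero, cl_zero]
    simp
  · intro x y hx hy
    rw [odot_add, map_add, Pi.add_apply, hx, hy, mul_add, cl_add, map_add]
  · intro x hx
    rw [odot_neg, map_neg, Pi.neg_apply, hx, mul_neg, cl_neg, map_neg]
  · intro l
    rw [odot_el, fp_el, map_cj, hF1, hF2, cj_inr_inl, SemidirectProduct.left_inl, act_apply,
      ← el_mul, v_z]

include hF2 in
theorem fp_letter (l : SL r B) (c : S.Y) :
    fp F (el (T.a l)) c = vU (LF φ κ hκ hφ hφδ ρ χ α l c) := by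
  rw [fp_el, hF2, SemidirectProduct.left_inl]

include hF1 hF2 in
theorem fp_cj_ze (l c : S.Y) :
    fp F (el (cj (T.inc l) (T.a SL.ze))) c = φ (cl S.Rel (el (c * l) * S.δ)) := by
  rw [fp_el, map_cj, hF1, hF2, cj_inr_inl, SemidirectProduct.left_inl, act_apply, v_ze]

include hF2 in
theorem fp_g (c : S.Y) : fp F (el (T.a SL.g) - 1) c =
    open scoped Classical in if ∃ q, S.ι q = c then κ else 0 := by
  rw [map_sub, Pi.sub_apply, fp_one, fp_letter φ κ hκ hφ hφδ ρ χ T F hF2]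
  by_cases h : ∃ q, S.ι q = c
  · rw [if_pos h]
    obtain ⟨q, rfl⟩ := h
    rw [v_g]
    ring
  · rw [if_neg h, v_g_not _ _ _ _ _ _ _ _ _ h, sub_self]

/-- multiplication of elements acting trivially -/
theorem fp_mul_comm (u : T.P) (hu : (F u).right = 1) (p : RG T.P) (c : S.Y) :
    fp F (el u * p) c = fp F (el u) c * fp F p c := by
  rw [fp_mul, hu, mul_one, fp_el]

include hF1 hF2 in
theorem fp_rel (hx : ∀ i q, χ (Sum.inr (Sum.inl i)) q = ρ (Multiplicative.ofAdd (el q • α i)))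
    (hw : ∀ q, χ (Sum.inl ()) q = 1)
    (hform : ∀ b q, φ (cl S.Rel (el (S.ι q) * (el (S.ξ b) - el S.ω) * S.δ)) =
      κ * HahnSeries.C (χ b q : C1)) (gens : Set S.Y) (s : RG T.P) (hs : s ∈ T.Rel gens) :
    fp F s = 0 := by
  funext c
  rw [Pi.zero_apply]
  rcases hs with ((((hs | hs) | hs) | hs) | hs) | hs
  · obtain ⟨μ, -, rfl⟩ := hs
    rw [map_sub, Pi.sub_apply, fp_one, fp_el, hF1, SemidirectProduct.left_inr]
    show vU 1 - 1 = 0
    rw [map_one, sub_self]
  · rw [Set.mem_singleton_iff] at hs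
    subst hs
    rw [map_sub, map_sub, Pi.sub_apply, Pi.sub_apply, fp_one,
      fp_letter φ κ hκ hφ hφδ ρ χ T F hF2, fp_letter φ κ hκ hφ hφδ ρ χ T F hF2]
    rw [v_y, v_ze]
    ring
  · rw [Set.mem_singleton_iff] at hs
    subst hs
    rw [map_sub, Pi.sub_apply, fp_letter φ κ hκ hφ hφδ ρ χ T F hF2,
      fp_odot φ κ hκ hφ hφδ ρ χ T F hF1 hF2]
    rw [v_ze, sub_self]
  · obtain ⟨s, hs, rfl⟩ := hs
    rw [fp_odot φ κ hκ hφ hφδ ρ χ T F hF1 hF2, cl_rel hs, map_zero]
  · obtain ⟨β, rfl⟩ := hs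
    have hr1 : (F (T.a (SL.of β))).right = 1 := by rw [hF2, SemidirectProduct.right_inl]
    have hr2 : ∀ l, (F (cj (T.inc l) (T.a SL.ze))).right = 1 := by
      intro l
      rw [map_cj, hF1, hF2, cj_inr_inl, SemidirectProduct.right_inl]
    simp only
    rw [sub_mul, sub_mul, map_sub, map_sub, Pi.sub_apply, Pi.sub_apply,
      fp_mul_comm T F _ hr1, fp_mul_comm T F _ (hr2 _), fp_mul_comm T F _ (hr2 _),
      ← sub_mul, ← sub_mul, fp_g φ κ hκ hφ hφδ ρ χ T F hF2]
    by_cases h : ∃ q, S.ι q = c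
    · obtain ⟨q, rfl⟩ := h
      rw [fp_cj_ze φ κ hκ hφ hφδ ρ χ T F hF1 hF2, fp_cj_ze φ κ hκ hφ hφδ ρ χ T F hF1 hF2,
        fp_letter φ κ hκ hφ hφδ ρ χ T F hF2, v_of]
      have h1 := hform β q
      rw [mul_sub, sub_mul, cl_sub, map_sub, ← el_mul, ← el_mul] at h1
      rw [h1, sub_self, zero_mul]
    · rw [if_neg h, mul_zero]
  · obtain ⟨i, rfl⟩ := hs
    have hr : ∀ l, (F (T.a l)).right = 1 := fun l => by rw [hF2, SemidirectProduct.right_inl]
    simp only
    rw [sub_mul, mul_assoc, map_sub, Pi.sub_apply, fp_mul_comm T F _ (hr _),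
      fp_mul_comm T F _ (hr _), fp_mul_comm T F _ (hr _), ← mul_assoc, ← sub_mul,
      fp_g φ κ hκ hφ hφδ ρ χ T F hF2]
    by_cases h : ∃ q, S.ι q = c
    · obtain ⟨q, rfl⟩ := h
      rw [fp_letter φ κ hκ hφ hφδ ρ χ T F hF2, fp_letter φ κ hκ hφ hφδ ρ χ T F hF2,
        fp_letter φ κ hκ hφ hφδ ρ χ T F hF2]
      have h1 := v_of φ κ hκ hφ hφδ ρ χ α (Sum.inr (Sum.inl i)) q
      have h2 := v_of φ κ hκ hφ hφδ ρ χ α (Sum.inl ()) q
      rw [hx] at h1
      rw [hw, Units.val_one, map_one, mul_one] at h2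
      have h1' : vU (LF φ κ hκ hφ hφδ ρ χ α (SL.x i) (S.ι q)) = _ := h1
      have h2' : vU (LF φ κ hκ hφ hφδ ρ χ α SL.w (S.ι q)) = _ := h2
      rw [h1', h2', v_al, sub_self, zero_mul]
    · rw [if_neg h, mul_zero]

end model

end Pool.Agent.HIG.StepUnits

namespace Pool.Agent.HIG

open Function HU StepUnits

theorem stepUnits_proof : Stmt_StepUnitsAsm := by
  classical
  intro xi j r B _ S A _ _ α hspan T gens
  -- the common construction
  have key : ∀ (C : Type) [CommRing C] [Nontrivial C] (χ : B → Sd S.Q A → C),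
      Injective T.io ∧
      ∃ (Γ : Type) (_ : AddCommGroup Γ) (_ : LinearOrder Γ) (_ : IsOrderedAddMonoid Γ)
        (φ : EE T.P (T.Rel gens) →+ HahnSeries Γ C) (κ : HahnSeries Γ ℤ),
        Good κ ∧ (∀ l : T.P, Good (φ (cl (T.Rel gens) (el l)))) ∧
        (∀ l : T.P, Good (φ (cl (T.Rel gens) (el l * (el (T.a SL.g) - 1))))) ∧
        ∀ b q, φ (cl (T.Rel gens) (el (T.io q) * (el (T.a (SL.xp b)) - el (T.a SL.w)) *
            (el (T.a SL.g) - 1))) =
          κ.map (Int.castRingHom C) * HahnSeries.C (χ b q : C) := by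
    intro C _ _ χ
    obtain ⟨C1, _, _, ρ, u, aug, Ψ, haug, hΨ, hρ⟩ := HU.exists_ring (Multiplicative A) (B × S.Q) C
      (fun p a => χ p.1 ⟨Multiplicative.toAdd a, p.2⟩)
    let χ1 : Up r B → S.Q → C1ˣ := fun β q => match β with
      | Sum.inl _ => 1
      | Sum.inr (Sum.inl i) => ρ (Multiplicative.ofAdd (el q • α i))
      | Sum.inr (Sum.inr b) => u (b, q)
    obtain ⟨Γ, _, _, _, φ, κ, hκ, hφ, hφδ, hform⟩ := S.units C1 χ1
    let κ1 : HahnSeries Γ C1 := κ.map (Int.castRingHom C1)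
    have hκ1 : Good κ1 := good_map κ hκ
    obtain ⟨F, hF1, hF2, hF3⟩ := exists_F φ κ1 hκ1 hφ hφδ ρ χ1 hspan T
    have hio : ∀ x : Sd S.Q A, F (T.io x) = ⟨ψU ρ (Multiplicative.ofAdd x.d), S.ι x.q⟩ := by
      intro x
      show F (T.ψ (Multiplicative.ofAdd x.d) * T.inc (S.ι x.q)) = _
      rw [map_mul, hF3, hF1, SemidirectProduct.mk_eq_inl_mul_inr]
    have hinj : Injective T.io := by
      intro x y hxy
      have h1 : F (T.io x) = F (T.io y) := by rw [hxy]
      rw [hio, hio] at h1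
      have h2 := congrArg SemidirectProduct.right h1
      have h3 := congrArg SemidirectProduct.left h1
      have h4 : x.q = y.q := S.ι_inj h2
      have h5 : onQ S.ι (aU (S := S) (Γ := Γ) ρ x.d) (S.ι 1) = onQ S.ι (aU (S := S) (Γ := Γ) ρ y.d) (S.ι 1) :=
        congrFun h3 (S.ι 1)
      rw [onQ_ι S.ι S.ι_inj, onQ_ι S.ι S.ι_inj] at h5
      have h6 := congrArg vU h5
      rw [v_aU, v_aU, el_one, one_smul, one_smul] at h6
      have h7 := hρ (Units.ext (HahnSeries.C_injective h6))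
      have h8 : x.d = y.d := h7
      exact Sd.ext h8 h4
    refine ⟨hinj, ?_⟩
    have hrel : ∀ (v : T.P), ∀ s ∈ T.Rel gens, fp F (el v * s) = 0 := by
      intro v s hs
      funext c
      rw [fp_mul, fp_rel φ κ1 hκ1 hφ hφδ ρ χ1 T F hF1 hF2 (fun _ _ => rfl) (fun _ => rfl) hform
        gens s hs]
      simp
    let E : EE T.P (T.Rel gens) →+ (S.Y → HahnSeries Γ C1) := EE.lift (fp F) hrel
    have hE : ∀ x, E (cl _ x) = fp F x := fun x => EE.lift_cl (fp F) hrel x
    have hcount : Countable S.Y := RP.countable S.rpY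
    have hκ2 : IsUnit (κ * κ).leadingCoeff := UL.mul hκ.2 hκ.2
    obtain ⟨Γ', i1, i2, i3, Ξ, κ', hκ', hgood, hxi⟩ := xi S.Y 1 C1 C Γ aug Ψ (κ * κ) hκ2
    have hmap : (κ * κ).map (Int.castRingHom C1) = κ1 * κ1 := map_sq κ
    refine ⟨Γ', i1, i2, i3, Ξ.comp E, κ', hκ', ?_, ?_, ?_⟩
    · intro l
      show Good (Ξ (E (cl _ (el l))))
      rw [hE]
      apply hgood
      · intro h0
        have := congrFun h0 1
        rw [fp_el] at this
        exact (vU_ul _).ne_zero this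
      · intro c
        rw [fp_el]
        exact Or.inr (vU_ul _)
    · intro l
      show Good (Ξ (E (cl _ (el l * (el (T.a SL.g) - 1)))))
      rw [hE]
      apply hgood
      · intro h0
        have h1 := congrFun h0 ((F l).right)⁻¹
        rw [fp_mul, fp_g φ κ1 hκ1 hφ hφδ ρ χ1 T F hF2, inv_mul_cancel, if_pos ⟨1, map_one _⟩] at h1
        exact (UL.mul (vU_ul _) hκ1.2).ne_zero h1
      · intro c
        rw [fp_mul, fp_g φ κ1 hκ1 hφ hφδ ρ χ1 T F hF2]
        split_ifs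
        · exact Or.inr (UL.mul (vU_ul _) hκ1.2)
        · left
          rw [mul_zero]
    · intro b x
      have hr : ∀ l, (F (T.a l)).right = 1 := fun l => by rw [hF2, SemidirectProduct.right_inl]
      have hval : ∀ c, fp F (el (T.io x) * (el (T.a (SL.xp b)) - el (T.a SL.w)) *
          (el (T.a SL.g) - 1)) c = if h : ∃ q', S.ι q' = c then
            (κ1 * κ1) * HahnSeries.C ((ρ (Multiplicative.ofAdd (el h.choose • x.d)) : C1) *
              ((u (b, h.choose * x.q) : C1) - 1)) else 0 := by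
        intro c
        rw [mul_assoc, fp_mul, hio, sub_mul, map_sub, Pi.sub_apply, fp_mul_comm T F _ (hr _),
          fp_mul_comm T F _ (hr _), ← sub_mul, fp_g φ κ1 hκ1 hφ hφδ ρ χ1 T F hF2]
        by_cases h : ∃ q', S.ι q' = c
        · rw [dif_pos h]
          have hq := h.choose_spec
          generalize h.choose = q' at hq ⊢
          subst hq
          have h' : ∃ q, S.ι q = S.ι q' * S.ι x.q := ⟨q' * x.q, map_mul _ _ _⟩
          show vU (onQ S.ι (aU (S := S) (Γ := Γ) ρ x.d) (S.ι q')) * ((fp F (el (T.a (SL.xp b))) (S.ι q' * S.ι x.q) -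
            fp F (el (T.a SL.w)) (S.ι q' * S.ι x.q)) * _) = _
          rw [if_pos h', onQ_ι S.ι S.ι_inj, v_aU, ← map_mul,
            fp_letter φ κ1 hκ1 hφ hφδ ρ χ1 T F hF2, fp_letter φ κ1 hκ1 hφ hφδ ρ χ1 T F hF2]
          have h1 := v_of φ κ1 hκ1 hφ hφδ ρ χ1 α (Sum.inr (Sum.inr b)) (q' * x.q)
          have h2 := v_of φ κ1 hκ1 hφ hφδ ρ χ1 α (Sum.inl ()) (q' * x.q)
          have h1' : vU (LF φ κ1 hκ1 hφ hφδ ρ χ1 α (SL.xp b) (S.ι (q' * x.q))) =
            κ1 * HahnSeries.C (u (b, q' * x.q) : C1) := h1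
          have h2' : vU (LF φ κ1 hκ1 hφ hφδ ρ χ1 α SL.w (S.ι (q' * x.q))) =
            κ1 * HahnSeries.C ((1 : C1ˣ) : C1) := h2
          rw [h1', h2', map_mul HahnSeries.C, map_sub, Units.val_one, map_one]
          ring
        · rw [dif_neg h]
          have h' : ¬ ∃ q, S.ι q = c * S.ι x.q := by
            rintro ⟨q, hq⟩
            exact h ⟨q * x.q⁻¹, by rw [map_mul, map_inv, hq]; group⟩
          show vU _ * (_ * (if ∃ q, S.ι q = c * S.ι x.q then κ1 else 0)) = 0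
          rw [if_neg h', mul_zero, mul_zero]
      show Ξ (E (cl _ _)) = _
      rw [hE]
      have h6 := hxi (fp F (el (T.io x) * (el (T.a (SL.xp b)) - el (T.a SL.w)) *
          (el (T.a SL.g) - 1))) ((ρ (Multiplicative.ofAdd x.d) : C1) * ((u (b, x.q) : C1) - 1))
          ?_ ?_
      · rw [h6, hΨ]
        rfl
      · intro c γ
        rw [hval]
        split_ifs with h
        · rw [mul_comm, HahnSeries.C_mul_eq_smul, HahnSeries.coeff_smul, smul_eq_mul, map_mul,
            haug, zero_mul]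
        · exact map_zero aug
      · rw [hval, hmap]
        have h : ∃ q', S.ι q' = (1 : S.Y) := ⟨1, map_one _⟩
        rw [dif_pos h]
        have hq : h.choose = 1 := S.ι_inj (h.choose_spec.trans (map_one _).symm)
        rw [hq, el_one, one_smul, one_mul]
  refine ⟨(key ℤ (fun _ _ => 0)).1, ?_⟩
  intro C _ _ χ
  exact (key C (fun b x => (χ b x : C))).2

end Pool.Agent.HIG
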