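import Mathlib
import Pool.Agent.HIG.StageAsm

/-!
# Assembly of the top level
-/

noncomputable section

namespace Pool.Agent.HIG

open Function
open scoped commutatorElement

theorem Sd.hom_ext {Q D G : Type} [Group Q] [AddCommGroup D] [Module (RG Q) D] [Group G]
    {ι : Type} (f : ι → D) (hf : Submodule.span (RG Q) (Set.range f) = ⊤) {F F' : Sd Q D →* G}
    (h1 : ∀ q, F (Sd.inr q) = F' (Sd.inr q)) (h2 : ∀ i, F ⟨f i, 1⟩ = F' ⟨f i, 1⟩) : F = F' := by
  have h3 : ∀ d : D, F ⟨d, 1⟩ = F' ⟨d, 1⟩ := by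
    intro d
    have hd : d ∈ Submodule.span (RG Q) (Set.range f) := by rw [hf]; trivial
    induction hd using Submodule.span_induction with
    | mem x hx =>
      obtain ⟨i, rfl⟩ := hx
      exact h2 i
    | zero =>
      have : (⟨0, 1⟩ : Sd Q D) = 1 := rfl
      rw [this, map_one, map_one]
    | add x y _ _ hx hy => rw [← Sd.mul_inl, map_mul, map_mul, hx, hy]
    | smul a x _ hx =>
      refine RG.induction (p := fun a => F ⟨a • x, 1⟩ = F' ⟨a • x, 1⟩) ?_ ?_ ?_ ?_ a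
      · rw [zero_smul]
        have : (⟨0, 1⟩ : Sd Q D) = 1 := rfl
        rw [this, map_one, map_one]
      · intro a b ha hb
        rw [add_smul, ← Sd.mul_inl, map_mul, map_mul, ha, hb]
      · intro a ha
        rw [neg_smul, ← Sd.inv_inl, map_inv, map_inv, ha]
      · intro g
        rw [← Sd.cj_inr, map_cj, map_cj, hx, h1]
  ext ⟨d, q⟩
  rw [Sd.mk_eq, map_mul, map_mul, h3, ← Sd.inr_apply, h1]

theorem topasm_proof : Stmt_TopAsm := by
  intro hKK hInd hLay hPi hComm hModel j hj hS hW Q _ hQ hs D _ _ hD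
  obtain ⟨s, hs1, hs2⟩ := hD.out
  obtain ⟨r, S, ev, A, _, _, f, ρ, η, hP, hf0, hspan, hη⟩ :=
    stage_data hKK hInd hS s Q hQ hs
  obtain ⟨T⟩ := hLay j r s hj S ev A f ρ hP hf0
  obtain ⟨RD, hRD⟩ := hs2
  obtain ⟨D₂, _, _, g₂, J, k1, k2, k3, k4, k5⟩ := hInd Q (Sd S.Q A) η hη s D
    (fun x => (x : D)) (RD : Set (s →₀ RG Q)) (by simpa using hs1) hRD.symm
  have hRDf : (chg η '' (RD : Set (s →₀ RG Q))).Finite := RD.finite_toSet.image _
  obtain ⟨R, _, k, hR, hk, hk'⟩ := hW T.P T.rpP T.solP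
  obtain ⟨G, _, h, e, hG, hrel, huniv⟩ := hPi j r s S A (fun i : Fin r => f i) T
    (chg η '' (RD : Set (s →₀ RG Q))) hRDf R hR k
  obtain ⟨Θ, hΘ1, hΘ2⟩ := hComm j r s S A (fun i : Fin r => f i) hspan T D₂ g₂ _ k1 k2 G
    (h.comp k) e hrel
  obtain ⟨M, _, _, eM, hMrel, hio, ηM, hη1, hη2, hη3⟩ := hModel j r s S A
    (fun i : Fin r => f i) hspan T D₂ g₂ _ k1 k2
  -- the quotient group
  let Rb := R ⧸ derivedSeries R (j + 1)
  let kb : T.P →* Rb := (QuotientGroup.mk' (derivedSeries R (j + 1))).comp k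
  have hkb : Injective kb := by
    rw [injective_iff_map_eq_one]
    intro a ha
    have : k a ∈ derivedSeries R (j + 1) := (QuotientGroup.eq_one_iff (k a)).1 ha
    exact hk' a this
  obtain ⟨M', _, _, f', J', m1, m2, m3, m4, m5⟩ := hInd T.P Rb kb hkb M M id
    (LinearMap.ker (Finsupp.linearCombination (RG T.P) (id : M → M)) : Set (M →₀ RG T.P))
    (by simp) (Submodule.span_eq _).symm
  let F' : Sd T.P M →* Sd Rb M' := Sd.map kb J' m5
  have hrel' := hMrel.map F'
  let h' : R →* Sd Rb M' := Sd.inr.comp (QuotientGroup.mk' (derivedSeries R (j + 1)))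
  have hh' : h'.comp k = F'.comp Sd.inr := by
    ext1 p
    change (⟨0, kb p⟩ : Sd Rb M') = ⟨J' 0, kb p⟩
    rw [map_zero]
  rw [← hh'] at hrel'
  obtain ⟨F, hF1, hF2⟩ := huniv (Sd Rb M') h' (F' ⟨eM, 1⟩) hrel'
  -- the composition
  have m6 : ∀ (q : Sd S.Q A) (d : D₂), (J'.comp ηM) (el q • d) =
      el ((kb.comp T.ioHom) q) • (J'.comp ηM) d := by
    intro q d
    change J' (ηM (el q • d)) = el (kb (T.io q)) • J' (ηM d)
    rw [hη2, m5]
  have hcomp : F.comp Θ = Sd.map (kb.comp T.ioHom) (J'.comp ηM) m6 := by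
    refine Sd.hom_ext g₂ k1 ?_ ?_
    · intro q
      have e1 : Θ (Sd.inr q) = (h.comp k) (T.io q) := hΘ1 q
      rw [MonoidHom.comp_apply, e1, MonoidHom.comp_apply, hF1, Sd.map_apply]
      change (⟨0, kb (T.io q)⟩ : Sd Rb M') = ⟨J' (ηM 0), kb (T.io q)⟩
      rw [map_zero, map_zero]
    · intro b
      rw [MonoidHom.comp_apply, hΘ2, TopLay.dd_map, hF2]
      have e2 : F.comp (h.comp k) = F'.comp Sd.inr := by
        rw [← hh']
        ext1 p
        exact hF1 (k p)
      rw [e2, ← TopLay.dd_map]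
      have e3 : T.dd (Sd.inr : T.P →* Sd T.P M) ⟨eM, 1⟩ b = ⟨ηM (g₂ b), 1⟩ := by
        rw [hη3]
        unfold TopLay.dd TopLay.ff
        rw [← map_pow, Sd.cj_inr, Sd.inv_inl, Sd.mul_inl, Sd.cj_inr, Sd.cj_inr, Sd.inv_inl,
          Sd.mul_inl]
        congr 1
        have e4 : (el (T.a TL.t ^ 2) : RG T.P) = el (T.a TL.t) ^ 2 := by
          rw [pow_two, pow_two, el_mul]
        simp only [sub_smul, smul_sub, smul_add, smul_neg, e4]
        abel
      rw [e3]
      change (⟨J' (ηM (g₂ b)), kb 1⟩ : Sd Rb M') = ⟨J' (ηM (g₂ b)), kb (T.ioHom 1)⟩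
      rw [map_one T.ioHom]
  have hinj : Injective (F.comp Θ) := by
    rw [hcomp]
    exact Sd.map_injective _ (hkb.comp hio) (m3.comp hη1)
  have hinj2 : Injective (Sd.map η J k5) := Sd.map_injective k5 hη k3
  refine ⟨G, inferInstance, Θ.comp (Sd.map η J k5), hG, ?_, ?_⟩
  · intro x y hxy
    exact hinj2 (hinj (congrArg F hxy))
  · intro x hx
    have e5 : F ((Θ.comp (Sd.map η J k5)) x) ∈ derivedSeries (Sd Rb M') (j + 2) :=
      map_derivedSeries_le_derivedSeries F (j + 2) (Subgroup.mem_map_of_mem F hx)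
    have e6 : derivedSeries Rb (j + 1) = ⊥ := by
      have : (derivedSeries R (j + 1)).map (QuotientGroup.mk' (derivedSeries R (j + 1))) =
          derivedSeries Rb (j + 1) :=
        map_derivedSeries_eq (QuotientGroup.mk'_surjective _) (j + 1)
      rw [← this]
      rw [Subgroup.map_eq_bot_iff, QuotientGroup.ker_mk']
    have e7 : derivedSeries (Sd Rb M') (j + 2) = ⊥ := Sd.derivedSeries e6
    rw [e7, Subgroup.mem_bot] at e5
    apply hinj2
    apply hinj
    rw [map_one]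
    rw [map_one]
    exact e5

end Pool.Agent.HIG
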