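import Mathlib
import Pool.Agent.HIG.Basic

/-!
# Commutation in the top level
-/

noncomputable section

namespace Pool.Agent.HIG

open Function
open scoped commutatorElement

/-- descend an additive extension to the cyclic module -/
theorem EE.exists_hom {Y G : Type} [Group Y] [Group G] {Rel : Set (RG Y)}
    (Φ₀ : Multiplicative (RG Y) →* G)
    (h : ∀ (g : Y), ∀ r ∈ Rel, Φ₀ (Multiplicative.ofAdd (el g * r)) = 1) :
    ∃ Φ : Multiplicative (EE Y Rel) →* G, ∀ x, vl Φ x = Φ₀ (Multiplicative.ofAdd x) := by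
  let N : Subgroup G := Φ₀.range
  let _ : CommGroup N := { (inferInstance : Group N) with
    mul_comm := by
      rintro ⟨_, x, rfl⟩ ⟨_, y, rfl⟩
      apply Subtype.ext
      change Φ₀ x * Φ₀ y = Φ₀ y * Φ₀ x
      rw [← map_mul, ← map_mul, mul_comm] }
  let f : RG Y →+ Additive N := MonoidHom.toAdditiveRight Φ₀.rangeRestrict
  have hf : ∀ x, f x = Additive.ofMul ⟨Φ₀ (Multiplicative.ofAdd x), ⟨_, rfl⟩⟩ := fun x => rfl
  let F : EE Y Rel →+ Additive N := EE.lift f (by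
    intro g r hr
    rw [hf]
    have : (⟨Φ₀ (Multiplicative.ofAdd (el g * r)), ⟨_, rfl⟩⟩ : N) = 1 :=
      Subtype.ext (h g r hr)
    rw [this]
    rfl)
  refine ⟨N.subtype.comp (AddMonoidHom.toMultiplicativeLeft F), ?_⟩
  intro x
  rfl

/-- commutator of squares -/
theorem comm_sq {G : Type} [Group G] {a b : G} (h1 : Commute ⁅a, b⁆ a) (h2 : Commute ⁅a, b⁆ b) :
    ⁅a ^ 2, b ^ 2⁆ = ⁅a, b⁆ ^ 4 := by
  set c := ⁅a, b⁆ with hc
  have e1 : a * b = c * (b * a) := by rw [hc, commutatorElement_def]; group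
  have e2 : a ^ 2 * b = c ^ 2 * (b * a ^ 2) := by
    calc a ^ 2 * b = a * (a * b) := by rw [pow_two, mul_assoc]
      _ = a * (c * (b * a)) := by rw [e1]
      _ = c * (a * (b * a)) := by rw [← mul_assoc a c, ← h1.eq, mul_assoc c a]
      _ = c * ((a * b) * a) := by rw [mul_assoc]
      _ = c * (c * (b * a) * a) := by rw [e1]
      _ = _ := by simp only [pow_two, mul_assoc]
  have hc2 : Commute (c ^ 2) b := h2.pow_left 2
  have e3 : a ^ 2 * b ^ 2 = c ^ 4 * (b ^ 2 * a ^ 2) := by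
    calc a ^ 2 * b ^ 2 = (a ^ 2 * b) * b := by rw [pow_two b, mul_assoc]
      _ = c ^ 2 * (b * a ^ 2) * b := by rw [e2]
      _ = c ^ 2 * (b * (a ^ 2 * b)) := by simp only [mul_assoc]
      _ = c ^ 2 * (b * (c ^ 2 * (b * a ^ 2))) := by rw [e2]
      _ = c ^ 2 * (c ^ 2 * (b * (b * a ^ 2))) := by rw [← mul_assoc b, ← hc2.eq, mul_assoc (c ^ 2) b]
      _ = _ := by
        rw [← mul_assoc (c ^ 2) (c ^ 2), ← pow_add, pow_two b, mul_assoc b b]
  rw [commutatorElement_def, e3]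
  group

/-- commutator with one square and an additional commuting factor -/
theorem comm_sq' {G : Type} [Group G] {a b s : G} (hab : Commute a b)
    (h1 : Commute ⁅a, s⁆ a) : ⁅a ^ 2, b * s⁆ = b * ⁅a, s⁆ ^ 2 * b⁻¹ := by
  set c := ⁅a, s⁆ with hc
  have e1 : a * s = c * (s * a) := by rw [hc, commutatorElement_def]; group
  have e2 : a ^ 2 * s = c ^ 2 * (s * a ^ 2) := by
    calc a ^ 2 * s = a * (a * s) := by rw [pow_two, mul_assoc]
      _ = a * (c * (s * a)) := by rw [e1]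
      _ = c * (a * (s * a)) := by rw [← mul_assoc a c, ← h1.eq, mul_assoc c a]
      _ = c * ((a * s) * a) := by rw [mul_assoc]
      _ = c * (c * (s * a) * a) := by rw [e1]
      _ = _ := by simp only [pow_two, mul_assoc]
  have hb : Commute (a ^ 2) b := hab.pow_left 2
  have e3 : a ^ 2 * (b * s) = b * (c ^ 2 * (s * a ^ 2)) := by
    rw [← mul_assoc, hb.eq, mul_assoc, e2]
  rw [commutatorElement_def, e3]
  group

namespace TopV

set_option linter.unusedSectionVars false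

variable {j r : ℕ} {B : Type} {S : Stage j (Up r B)} {A : Type} [AddCommGroup A]
  [Module (RG S.Q) A] {α : Fin r → A}

/-- the commutative subgroup generated by the conjugates of the letters -/
def A0 (T : TopLay S A α) : Subgroup T.P :=
  Subgroup.closure (Set.range fun p : S.Y × TL r B => cj (T.inc p.1) (T.a p.2))

theorem mem_A0 (T : TopLay S A α) (l : S.Y) (x : TL r B) : cj (T.inc l) (T.a x) ∈ A0 T :=
  Subgroup.subset_closure ⟨(l, x), rfl⟩

theorem mem_A0' (T : TopLay S A α) (x : TL r B) : T.a x ∈ A0 T := by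
  have := mem_A0 T 1 x
  rwa [map_one, one_cj] at this

theorem A0_comm (T : TopLay S A α) {u v : T.P} (hu : u ∈ A0 T) (hv : v ∈ A0 T) : u * v = v * u := by
  have hc : ∀ a ∈ Set.range (fun p : S.Y × TL r B => cj (T.inc p.1) (T.a p.2)),
      ∀ b ∈ Set.range (fun p : S.Y × TL r B => cj (T.inc p.1) (T.a p.2)), a * b = b * a := by
    rintro _ ⟨p, rfl⟩ _ ⟨q, rfl⟩
    exact (T.comm p.1 q.1 p.2 q.2).eq
  have := (Subgroup.isMulCommutative_closure hc).is_comm.comm ⟨u, hu⟩ ⟨v, hv⟩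
  exact congrArg Subtype.val this

instance (T : TopLay S A α) : CommGroup (A0 T) :=
  { (inferInstance : Group (A0 T)) with
    mul_comm := fun a b => Subtype.ext (A0_comm T a.2 b.2) }

section
variable {T : TopLay S A α} {RD : Set (B →₀ RG (Sd S.Q A))} {G : Type} [Group G] {h : T.P →* G}
  {e : G} (hr : TopRel T RD G h e)
include hr

theorem E_inc (u : T.P) (μ : S.Y) : cj (h (u * T.inc μ)) e = cj (h u) e := by
  rw [map_mul, ← cj_cj, cj_of_commute (hr.r0 μ).symm]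

theorem E_mul (u v : T.P) : cj (h (u * v)) e = cj (h u) (cj (h v) e) := by
  rw [map_mul, cj_cj]

theorem E_cj (l : S.Y) (x : T.P) : cj (h (cj (T.inc l) x)) e = cj (h (T.inc l)) (cj (h x) e) := by
  have : cj (T.inc l) x = (T.inc l * x) * T.inc l⁻¹ := by simp [cj]
  rw [this, E_inc hr, E_mul hr]

theorem inc_e (l : S.Y) : cj (h (T.inc l)) e = e := cj_of_commute (hr.r0 l).symm

/-- `^(l y) e = e ^(l ze) e` -/
theorem E_y (l : S.Y) : cj (h (cj (T.inc l) (T.a TL.y))) e =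
    e * cj (h (cj (T.inc l) (T.a TL.ze))) e := by
  rw [E_cj hr, E_cj hr, hr.r1, cj_mul, inc_e hr]

theorem E_yz (l : S.Y) : cj (h (cj (T.inc l) (T.a TL.yz))) e =
    e * cj (h (cj (T.inc l) (T.a TL.z))) e := by
  rw [E_cj hr, E_cj hr, hr.r1', cj_mul, inc_e hr]

theorem c_ze (l : S.Y) : Commute e (cj (h (cj (T.inc l) (T.a TL.ze))) e) := by
  rw [E_cj hr]
  have := Commute.cj hr.r1a (h (T.inc l))
  rwa [inc_e hr] at this

theorem c_z (l : S.Y) : Commute e (cj (h (cj (T.inc l) (T.a TL.z))) e) := by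
  rw [E_cj hr]
  have := Commute.cj hr.r1b (h (T.inc l))
  rwa [inc_e hr] at this

/-- `varpi` squares -/
theorem E_ϖ {u : T.P} (hu : Commute T.ϖ u) : cj (h T.ϖ) (cj (h u) e) = cj (h u) e ^ 2 := by
  rw [← E_mul hr, hu.eq, E_mul hr, hr.r4, cj_pow]

theorem ϖ_cj {x : TL r B} (hx : x ≠ TL.t) (l : S.Y) : Commute T.ϖ (cj (T.inc l) (T.a x)) := by
  unfold cj
  exact ((T.ϖinc l).mul_right (T.ϖa x hx)).mul_right (T.ϖinc l).inv_right

/-- no torsion -/
theorem half_E {u u' : T.P} (hu : Commute T.ϖ u) (hu' : Commute T.ϖ u') :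
    Half (cj (h u) e) (cj (h u') e) := by
  intro h1 h2 h3
  have h4 := comm_sq h1 h2
  rw [← E_ϖ hr hu, ← E_ϖ hr hu', ← cj_commutator] at h4
  have h5 : ⁅cj (h u) e, cj (h u') e⁆ ^ 4 = 1 := by
    rw [show (4 : ℕ) = 2 * 2 from rfl, pow_mul, h3, one_pow]
  rw [h5] at h4
  have h6 : cj (h T.ϖ) ⁅cj (h u) e, cj (h u') e⁆ = cj (h T.ϖ) 1 := by rw [h4, cj_one]
  exact cj_inj.1 h6

theorem z_comm (four : Stmt_Four) (l m : S.Y) :
    Commute (cj (h (cj (T.inc l) (T.a TL.z))) e) (cj (h (cj (T.inc m) (T.a TL.z))) e) := by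
  have key : ∀ l m : S.Y,
      ⁅cj (h (cj (T.inc m) (T.a TL.z))) e, cj (h (cj (T.inc l) (T.a TL.z))) e⁆ =
        ⁅cj (h (cj (T.inc l) (T.a TL.z) * cj (T.inc m) (T.a TL.z))) e, e⁆ ∧
      Commute ⁅cj (h (cj (T.inc m) (T.a TL.z))) e, cj (h (cj (T.inc l) (T.a TL.z))) e⁆
        (cj (h (cj (T.inc m) (T.a TL.z))) e) ∧
      Commute ⁅cj (h (cj (T.inc m) (T.a TL.z))) e, cj (h (cj (T.inc l) (T.a TL.z))) e⁆
        (cj (h (cj (T.inc l) (T.a TL.z))) e) := by
    intro l m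
    have c1 := four G e (cj (h (cj (T.inc m) (T.a TL.z))) e) (cj (h (cj (T.inc l) (T.a TL.z))) e)
      (cj (h (cj (T.inc l) (T.a TL.z) * cj (T.inc m) (T.a TL.z))) e) (c_z hr m)
      (by
        rw [E_mul hr]
        exact Commute.cj (c_z hr m) _)
      (c_z hr l)
      (by
        rw [A0_comm T (mem_A0 T l TL.z) (mem_A0 T m TL.z), E_mul hr]
        exact Commute.cj (c_z hr l) _)
      (by
        have e1 : cj (h (cj (T.inc l) (T.a TL.z))) e *
            cj (h (cj (T.inc l) (T.a TL.z) * cj (T.inc m) (T.a TL.z))) e =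
            cj (h (cj (T.inc m) (T.a TL.yz))) (cj (h (cj (T.inc l) (T.a TL.z))) e) := by
          rw [E_mul hr, ← cj_mul, ← E_yz hr, ← E_mul hr,
            A0_comm T (mem_A0 T l TL.z) (mem_A0 T m TL.yz), E_mul hr]
        rw [e1, ← E_yz hr]
        exact Commute.cj (c_z hr l) _)
    exact ⟨c1.1, c1.2.2.1, c1.2.2.2.1⟩
  obtain ⟨k1, k2, k3⟩ := key l m
  obtain ⟨k4, -, -⟩ := key m l
  rw [A0_comm T (mem_A0 T m TL.z) (mem_A0 T l TL.z)] at k4
  have k5 : ⁅cj (h (cj (T.inc m) (T.a TL.z))) e, cj (h (cj (T.inc l) (T.a TL.z))) e⁆ =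
      (⁅cj (h (cj (T.inc m) (T.a TL.z))) e, cj (h (cj (T.inc l) (T.a TL.z))) e⁆)⁻¹ := by
    conv_rhs => rw [commutatorElement_inv, k4, ← k1]
  have k6 : ⁅cj (h (cj (T.inc m) (T.a TL.z))) e, cj (h (cj (T.inc l) (T.a TL.z))) e⁆ ^ 2 = 1 := by
    rw [pow_two]
    nth_rewrite 2 [k5]
    exact mul_inv_cancel _
  have hz : ∀ l, Commute T.ϖ (cj (T.inc l) (T.a TL.z)) := fun l => ϖ_cj hr (by simp) l
  exact (commutatorElement_eq_one_iff_commute.1 (half_E hr (hz m) (hz l) k2 k3 k6)).symm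

/-- the additive map `Φ` -/
theorem exists_Phi (four : Stmt_Four) : ∃ Φ : Multiplicative (EE S.Y S.Rel) →* G,
    (∀ l, vl Φ (el l) = cj (h (cj (T.inc l) (T.a TL.z))) e) ∧
    (∀ l, vl Φ (el l * S.δ) = cj (h (cj (T.inc l) (T.a TL.ze))) e) := by
  obtain ⟨Φ₀, hΦ₀⟩ := exists_hom_of_commute
    (fun l => cj (h (cj (T.inc l) (T.a TL.z))) e) (z_comm hr four)
  have hcj : ∀ (g : S.Y) (p : RG S.Y), Φ₀ (Multiplicative.ofAdd (el g * p)) =
      cj (h (T.inc g)) (Φ₀ (Multiplicative.ofAdd p)) := by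
    intro g p
    refine RG.induction (p := fun p => Φ₀ (Multiplicative.ofAdd (el g * p)) =
      cj (h (T.inc g)) (Φ₀ (Multiplicative.ofAdd p))) ?_ ?_ ?_ ?_ p
    · simp [cj_one]
    · intro x y hx hy
      rw [mul_add, ofAdd_add, map_mul, hx, hy, ofAdd_add, map_mul, cj_mul]
    · intro x hx
      rw [mul_neg, ofAdd_neg, map_inv, hx, ofAdd_neg, map_inv, cj_inv]
    · intro l
      rw [← el_mul, hΦ₀, hΦ₀, E_cj hr, E_cj hr, map_mul, map_mul]
      simp only [cj_cj, mul_assoc]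
  obtain ⟨Φ, hΦ⟩ := EE.exists_hom (Rel := S.Rel) Φ₀ (by
    intro g p hp
    rw [hcj, ← oprod_eq Φ₀ hΦ₀, hr.r3 p hp, cj_one])
  refine ⟨Φ, fun l => ?_, fun l => ?_⟩
  · rw [hΦ, hΦ₀]
  · rw [hΦ, hcj, ← oprod_eq Φ₀ hΦ₀, ← hr.r2, E_cj hr]

end

theorem _root_.Pool.Agent.HIG.topv_proof : Stmt_TopVAsm := by
  intro four llstep j r B _ S A _ _ α T RD G _ h e hr
  obtain ⟨Φ, hΦ1, hΦ2⟩ := exists_Phi hr four
  refine ⟨⟨Φ, hΦ1, hΦ2⟩, ?_⟩
  intro 𝒞 h𝒞
  -- set up the commutative group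
  let ζ : 𝒞 → A0 T := fun l => ⟨cj (T.inc l) (T.a TL.ze), mem_A0 T l TL.ze⟩
  let y : 𝒞 → A0 T := fun l => ⟨cj (T.inc l) (T.a TL.y), mem_A0 T l TL.y⟩
  let SC : Subgroup (A0 T) := Subgroup.closure (Set.range ζ ∪ Set.range y)
  let t : A0 T := ⟨T.a TL.t, mem_A0' T TL.t⟩
  have ht : ((t : A0 T) : T.P) = T.a TL.t := rfl
  have hϖ : ∀ u ∈ SC, Commute T.ϖ (u : T.P) := by
    intro u hu
    have : SC ≤ (Subgroup.centralizer {T.ϖ}).comap (A0 T).subtype := by
      rw [Subgroup.closure_le]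
      rintro _ (⟨l, rfl⟩ | ⟨l, rfl⟩)
      · exact Subgroup.mem_centralizer_singleton_iff.2
          (ϖ_cj hr (x := TL.ze) (by simp) (l : S.Y)).symm.eq
      · exact Subgroup.mem_centralizer_singleton_iff.2
          (ϖ_cj hr (x := TL.y) (by simp) (l : S.Y)).symm.eq
    have h0 : (u : T.P) * T.ϖ = T.ϖ * u := Subgroup.mem_centralizer_singleton_iff.1 (this hu)
    exact h0.symm
  have E_m : ∀ u v : T.P, cj (h (u * v)) e = cj (h u) (cj (h v) e) := E_mul hr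
  -- translated homomorphisms
  have Ev : ∀ (v : T.P), v ∈ A0 T → ∀ l : S.Y,
      vl ((cjHom (h v)).comp Φ) (el l * S.δ) = cj (h (cj (T.inc l) (T.a TL.ze) * v)) e := by
    intro v hv l
    rw [A0_comm T (mem_A0 T l TL.ze) hv, E_m, ← hΦ2]
    rfl
  -- first commutation
  have V : ∀ u ∈ SC, ∀ u' ∈ SC, Commute (cj (h (u : T.P)) e) (cj (h (u' : T.P)) e) := by
    refine llstep (A0 T) 𝒞 ζ y G (fun u => cj (h (u : T.P)) e) (fun u => cj (h (u : T.P)) e) SC rfl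
      ?_ ?_ ?_ ?_ ?_ ?_ ?_ ?_
    · intro l u _
      change cj (h (cj (T.inc l) (T.a TL.y) * (u : T.P))) e = _
      rw [A0_comm T (mem_A0 T l TL.y) u.2, E_m, E_y hr, cj_mul]
      change _ = _ * cj (h (cj (T.inc l) (T.a TL.ze) * (u : T.P))) e
      rw [A0_comm T (mem_A0 T l TL.ze) u.2, E_m]
    · intro l u _
      change cj (h (cj (T.inc l) (T.a TL.y) * (u : T.P))) e = _
      rw [A0_comm T (mem_A0 T l TL.y) u.2, E_m, E_y hr, cj_mul]
      change _ = _ * cj (h (cj (T.inc l) (T.a TL.ze) * (u : T.P))) e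
      rw [A0_comm T (mem_A0 T l TL.ze) u.2, E_m]
    · intro l u _
      change Commute _ (cj (h (cj (T.inc l) (T.a TL.ze) * (u : T.P))) e)
      rw [A0_comm T (mem_A0 T l TL.ze) u.2, E_m]
      exact Commute.cj (c_ze hr l) _
    · intro l u _
      change Commute _ (cj (h (cj (T.inc l) (T.a TL.ze) * (u : T.P))) e)
      rw [A0_comm T (mem_A0 T l TL.ze) u.2, E_m]
      exact Commute.cj (c_ze hr l) _
    · intro u _; exact Commute.refl _
    · intro l u _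
      have h1 : Commute (cj (h (u : T.P)) e) (cj (h ((ζ l * u : A0 T) : T.P)) e) := by
        change Commute _ (cj (h (cj (T.inc l) (T.a TL.ze) * (u : T.P))) e)
        rw [A0_comm T (mem_A0 T l TL.ze) u.2, E_m]
        exact Commute.cj (c_ze hr l) _
      change ⁅cj (h ((ζ l * u : A0 T) : T.P)) e, cj (h (u : T.P)) e⁆ =
        ⁅cj (h (u : T.P)) e, cj (h ((ζ l * u : A0 T) : T.P)) e⁆
      rw [commutatorElement_eq_one_iff_commute.2 h1, commutatorElement_eq_one_iff_commute.2 h1.symm]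
    · intro u hu u' hu'
      exact half_E hr (hϖ u hu) (hϖ u' hu')
    · intro u hu u' hu' h1 h2
      have := h𝒞 G ((cjHom (h (u : T.P))).comp Φ) ((cjHom (h (u' : T.P))).comp Φ) ?_ ?_ ?_
      · intro l l'
        have h3 := this l l.2 l' l'.2
        rw [Ev _ u.2, Ev _ u'.2] at h3
        exact h3
      · intro l hl
        rw [Ev _ u.2, Ev _ u'.2]
        exact h1 ⟨l, hl⟩
      · intro l hl m hm
        rw [Ev _ u.2, Ev _ u'.2, Ev _ u.2, Ev _ u'.2]
        exact h2 ⟨l, hl⟩ ⟨m, hm⟩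
      · intro l hl m hm
        rw [Ev _ u.2, Ev _ u'.2]
        refine half_E hr ?_ ?_
        · exact (ϖ_cj hr (by simp) l).mul_right (hϖ u hu)
        · exact (ϖ_cj hr (by simp) m).mul_right (hϖ u' hu')
  -- translated by elements of A0
  have V' : ∀ w ∈ A0 T, ∀ u ∈ SC, ∀ u' ∈ SC,
      Commute (cj (h ((u : T.P) * w)) e) (cj (h ((u' : T.P) * w)) e) := by
    intro w hw u hu u' hu'
    rw [A0_comm T u.2 hw, A0_comm T u'.2 hw, E_m, E_m]
    exact Commute.cj (V u hu u' hu') _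
  have htm : T.a TL.t ∈ A0 T := mem_A0' T TL.t
  have ht2 : T.a TL.t ^ 2 ∈ A0 T := (A0 T).pow_mem htm 2
  -- value of varpi on e^{t^2}
  have hft : cj (h (T.a TL.t ^ 2)) e = e * T.ff h e := by
    unfold TopLay.ff
    rw [map_pow]
    group
  have hϖt : cj (h T.ϖ) (cj (h (T.a TL.t ^ 2)) e) = e * cj (h (T.a TL.t ^ 2)) e := by
    rw [hft, cj_mul, hr.r4, hr.r6, pow_two, mul_assoc]
  have Vt : ∀ u ∈ SC, ∀ u' ∈ SC,
      Commute (cj (h (u : T.P)) e) (cj (h ((u' : T.P) * T.a TL.t ^ 2)) e) := by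
    have c5 : ∀ u : A0 T, Commute (cj (h (u : T.P)) e) (cj (h ((u : T.P) * T.a TL.t ^ 2)) e) := by
      intro u
      rw [E_m]
      refine Commute.cj ?_ _
      rw [map_pow]
      exact hr.r5
    have hsym : ∀ u ∈ SC, ∀ u' ∈ SC,
        ⁅cj (h (u : T.P)) e, cj (h ((u' : T.P) * T.a TL.t ^ 2)) e⁆ =
        ⁅cj (h (u' : T.P)) e, cj (h ((u : T.P) * T.a TL.t ^ 2)) e⁆ := by
      intro u hu u' hu'
      have sq1 : ∀ u : A0 T, cj (h (u : T.P)) e * cj (h ((u : T.P) * T.a TL.t ^ 2)) e =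
          cj (h ((u : T.P) * T.a TL.t)) e ^ 2 := by
        intro u
        rw [(c5 u).eq, E_m, E_m, ← cj_mul, ← cj_pow, hr.r5', map_pow]
      have f := four G (cj (h (u : T.P)) e) (cj (h ((u : T.P) * T.a TL.t ^ 2)) e)
        (cj (h (u' : T.P)) e) (cj (h ((u' : T.P) * T.a TL.t ^ 2)) e) (c5 u) (c5 u')
        (V u hu u' hu') (V' _ ht2 u hu u' hu') (by
          rw [sq1 u, sq1 u']
          exact (V' _ htm u hu u' hu').pow_pow 2 2)
      have f1 := congrArg (fun x => x⁻¹) f.1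
      simp only [commutatorElement_inv] at f1
      exact f1.symm
    have hhalf : ∀ u u' : T.P, Commute T.ϖ u → Commute T.ϖ u' → u ∈ A0 T → u' ∈ A0 T →
        Commute (cj (h u) e) (cj (h u') e) →
        Half (cj (h u) e) (cj (h (u' * T.a TL.t ^ 2)) e) := by
      intro u u' hu hu' _ _ hcomm h1 h2 h3
      have e1 : cj (h T.ϖ) (cj (h (u' * T.a TL.t ^ 2)) e) =
          cj (h u') e * cj (h (u' * T.a TL.t ^ 2)) e := by
        rw [← E_m, ← mul_assoc, hu'.eq, mul_assoc, E_m, E_m T.ϖ, hϖt, cj_mul, ← E_m]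
      have e2 := comm_sq' hcomm h1
      rw [← E_ϖ hr hu, ← e1, ← cj_commutator, h3, mul_one, mul_inv_cancel] at e2
      have h6 : cj (h T.ϖ) ⁅cj (h u) e, cj (h (u' * T.a TL.t ^ 2)) e⁆ = cj (h T.ϖ) 1 := by
        rw [e2, cj_one]
      exact cj_inj.1 h6
    refine llstep (A0 T) 𝒞 ζ y G (fun u => cj (h (u : T.P)) e)
      (fun u => cj (h ((u : T.P) * T.a TL.t ^ 2)) e) SC rfl ?_ ?_ ?_ ?_ ?_ ?_ ?_ ?_
    · intro l u _
      change cj (h (cj (T.inc l) (T.a TL.y) * (u : T.P))) e = _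
      rw [A0_comm T (mem_A0 T l TL.y) u.2, E_m, E_y hr, cj_mul]
      change _ = _ * cj (h (cj (T.inc l) (T.a TL.ze) * (u : T.P))) e
      rw [A0_comm T (mem_A0 T l TL.ze) u.2, E_m]
    · intro l u _
      have hu2 : (u : T.P) * T.a TL.t ^ 2 ∈ A0 T := (A0 T).mul_mem u.2 ht2
      change cj (h (cj (T.inc l) (T.a TL.y) * (u : T.P) * T.a TL.t ^ 2)) e = _
      rw [mul_assoc, A0_comm T (mem_A0 T l TL.y) hu2, E_m, E_y hr, cj_mul]
      change _ = _ * cj (h (cj (T.inc l) (T.a TL.ze) * (u : T.P) * T.a TL.t ^ 2)) e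
      rw [mul_assoc (cj (T.inc l) (T.a TL.ze)), A0_comm T (mem_A0 T l TL.ze) hu2, E_m _ (cj _ _)]
    · intro l u _
      change Commute _ (cj (h (cj (T.inc l) (T.a TL.ze) * (u : T.P))) e)
      rw [A0_comm T (mem_A0 T l TL.ze) u.2, E_m]
      exact Commute.cj (c_ze hr l) _
    · intro l u _
      have hu2 : (u : T.P) * T.a TL.t ^ 2 ∈ A0 T := (A0 T).mul_mem u.2 ht2
      change Commute _ (cj (h (cj (T.inc l) (T.a TL.ze) * (u : T.P) * T.a TL.t ^ 2)) e)
      rw [mul_assoc, A0_comm T (mem_A0 T l TL.ze) hu2, E_m _ (cj _ _)]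
      exact Commute.cj (c_ze hr l) _
    · intro u _; exact c5 u
    · intro l u hu
      have hlu : ζ l * u ∈ SC :=
        SC.mul_mem (Subgroup.subset_closure (Or.inl ⟨l, rfl⟩)) hu
      exact hsym _ hlu _ hu
    · intro u hu u' hu'
      exact hhalf _ _ (hϖ u hu) (hϖ u' hu') u.2 u'.2 (V u hu u' hu')
    · intro u hu u' hu' h1 h2
      have hu2 : (u' : T.P) * T.a TL.t ^ 2 ∈ A0 T := (A0 T).mul_mem u'.2 ht2
      have Ev2 : ∀ l : S.Y, vl ((cjHom (h ((u' : T.P) * T.a TL.t ^ 2))).comp Φ) (el l * S.δ) =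
          cj (h (cj (T.inc l) (T.a TL.ze) * (u' : T.P) * T.a TL.t ^ 2)) e := by
        intro l
        rw [Ev _ hu2, mul_assoc]
      have := h𝒞 G ((cjHom (h (u : T.P))).comp Φ)
        ((cjHom (h ((u' : T.P) * T.a TL.t ^ 2))).comp Φ) ?_ ?_ ?_
      · intro l l'
        have h3 := this l l.2 l' l'.2
        rw [Ev _ u.2, Ev2] at h3
        exact h3
      · intro l hl
        rw [Ev _ u.2, Ev2]
        exact h1 ⟨l, hl⟩
      · intro l hl m hm
        rw [Ev _ u.2, Ev2, Ev _ u.2, Ev2]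
        exact h2 ⟨l, hl⟩ ⟨m, hm⟩
      · intro l hl m hm
        rw [Ev _ u.2, Ev2]
        have m1 : ζ ⟨l, hl⟩ * u ∈ SC :=
          SC.mul_mem (Subgroup.subset_closure (Or.inl ⟨_, rfl⟩)) hu
        have m2 : ζ ⟨m, hm⟩ * u' ∈ SC :=
          SC.mul_mem (Subgroup.subset_closure (Or.inl ⟨_, rfl⟩)) hu'
        exact hhalf _ _ (hϖ _ m1) (hϖ _ m2) (ζ ⟨l, hl⟩ * u).2 (ζ ⟨m, hm⟩ * u').2 (V _ m1 _ m2)
  -- transfer to subgroups of T.P
  have hmap : SC.map (A0 T).subtype = Subgroup.closure ((fun l => cj (T.inc l) (T.a TL.ze)) '' 𝒞 ∪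
      (fun l => cj (T.inc l) (T.a TL.y)) '' 𝒞) := by
    rw [MonoidHom.map_closure]
    congr 1
    rw [Set.image_union, ← Set.range_comp, ← Set.range_comp, Set.image_eq_range,
      Set.image_eq_range]
    rfl
  intro u hu u' hu'
  rw [← hmap] at hu hu'
  obtain ⟨u, hu, rfl⟩ := hu
  obtain ⟨u', hu', rfl⟩ := hu'
  exact ⟨V u hu u' hu', Vt u hu u' hu'⟩

end TopV

end Pool.Agent.HIG
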