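import Mathlib
import Pool.Agent.HIG.TopV
import Pool.Agent.HIG.StageAsm
import Pool.Agent.HIG.Hom

/-!
# Top level: spanning and the homomorphism
-/

noncomputable section

namespace Pool.Agent.HIG

open Function
open scoped commutatorElement

namespace TopComm

set_option linter.unusedSectionVars false

open TopV

variable {j r : ℕ} {B : Type} {S : Stage j (Up r B)} {A : Type} [AddCommGroup A]
  [Module (RG S.Q) A] {α : Fin r → A}

/-- the elements `^q b_beta` -/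
def Bq (T : TopLay S A α) (p : S.Q × Up r B) : T.P := cj (T.inc (S.ι p.1)) (T.a (TL.of p.2))

/-- generated subgroup -/
def B' (T : TopLay S A α) : Subgroup T.P := Subgroup.closure (Set.range (Bq T))

theorem B'_le (T : TopLay S A α) : B' T ≤ A0 T := by
  unfold B'
  rw [Subgroup.closure_le]
  rintro _ ⟨p, rfl⟩
  exact mem_A0 T _ _

theorem A0_conj (T : TopLay S A α) (l : S.Y) {u : T.P} (hu : u ∈ A0 T) : cj (T.inc l) u ∈ A0 T := by
  have : A0 T ≤ (A0 T).comap (cjHom (T.inc l)) := by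
    conv_lhs => unfold A0
    rw [Subgroup.closure_le]
    rintro _ ⟨⟨m, x⟩, rfl⟩
    change cj (T.inc l) (cj (T.inc m) (T.a x)) ∈ A0 T
    rw [cj_cj, ← map_mul]
    exact mem_A0 T _ _
  exact this hu

theorem B'_conj (T : TopLay S A α) (q : S.Q) {u : T.P} (hu : u ∈ B' T) :
    cj (T.inc (S.ι q)) u ∈ B' T := by
  have : B' T ≤ (B' T).comap (cjHom (T.inc (S.ι q))) := by
    conv_lhs => unfold B'
    rw [Subgroup.closure_le]
    rintro _ ⟨⟨m, x⟩, rfl⟩
    refine Subgroup.subset_closure ⟨(q * m, x), ?_⟩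
    change cj (T.inc (S.ι (q * m))) _ = cj (T.inc (S.ι q)) (cj (T.inc (S.ι m)) _)
    rw [cj_cj, ← map_mul, ← map_mul]
  exact this hu

/-- products over lists -/
def mon (T : TopLay S A α) (l : List (S.Q × Up r B)) : T.P := (l.map (Bq T)).prod

theorem mon_cons (T : TopLay S A α) (a : S.Q × Up r B) (l : List (S.Q × Up r B)) :
    mon T (a :: l) = Bq T a * mon T l := rfl
theorem mon_append (T : TopLay S A α) (l l' : List (S.Q × Up r B)) :
    mon T (l ++ l') = mon T l * mon T l' := by simp [mon]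
theorem mon_mem (T : TopLay S A α) (l : List (S.Q × Up r B)) : mon T l ∈ A0 T := by
  induction l with
  | nil => exact (A0 T).one_mem
  | cons a l ih => exact (A0 T).mul_mem (mem_A0 T _ _) ih

/-- denominators -/
theorem denom (T : TopLay S A α) {κ : T.P} (hκ : κ ∈ B' T) :
    ∃ a b : List (S.Q × Up r B), κ * mon T a = mon T b := by
  unfold B' at hκ
  induction hκ using Subgroup.closure_induction with
  | mem x hx =>
    obtain ⟨p, rfl⟩ := hx
    exact ⟨[], [p], by simp [mon]⟩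
  | one => exact ⟨[], [], by simp [mon]⟩
  | mul x y hx hy h1 h2 =>
    obtain ⟨a, b, h⟩ := h1
    obtain ⟨a', b', h'⟩ := h2
    refine ⟨a ++ a', b ++ b', ?_⟩
    have hyA : y ∈ A0 T := B'_le T hy
    rw [mon_append, mon_append, ← h, ← h']
    calc x * y * (mon T a * mon T a') = x * (y * mon T a) * mon T a' := by group
      _ = x * (mon T a * y) * mon T a' := by rw [A0_comm T hyA (mon_mem T a)]
      _ = _ := by group
  | inv x hx h1 =>
    obtain ⟨a, b, h⟩ := h1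
    refine ⟨b, a, ?_⟩
    rw [← h]
    group

section
variable {T : TopLay S A α} {RD : Set (B →₀ RG (Sd S.Q A))} {G : Type} [Group G] {h : T.P →* G}
  {e : G} (hr : TopRel T RD G h e)
include hr

theorem F_mul (u v : T.P) : cj (h (u * v)) (T.ff h e) = cj (h u) (cj (h v) (T.ff h e)) := by
  rw [map_mul, cj_cj]

theorem F_eq (u : T.P) : cj (h u) (T.ff h e) =
    (cj (h u) e)⁻¹ * cj (h (u * T.a TL.t ^ 2)) e := by
  unfold TopLay.ff
  rw [cj_mul, cj_inv, map_mul, map_pow, cj_cj]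

/-- `f` is fixed by `Q` -/
theorem F_q (q : S.Q) : cj (h (T.inc (S.ι q))) (T.ff h e) = T.ff h e := by
  apply cj_of_commute
  unfold TopLay.ff
  have h1 : Commute (h (T.inc (S.ι q))) e := (hr.r0 _).symm
  have h2 : Commute (h (T.inc (S.ι q))) (h (T.a TL.t)) := ((T.tq q).map h).symm
  unfold cj
  exact (h1.inv_right).mul_right (((h2.pow_right 2).mul_right h1).mul_right (h2.pow_right 2).inv_right)

theorem F_iq (u : T.P) (q : S.Q) :
    cj (h (u * T.inc (S.ι q))) (T.ff h e) = cj (h u) (T.ff h e) := by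
  rw [F_mul hr, F_q hr]

theorem F_cj (u : T.P) (q : S.Q) (x : T.P) :
    cj (h (u * cj (T.inc (S.ι q)) x)) (T.ff h e) =
      cj (h (u * T.inc (S.ι q))) (cj (h x) (T.ff h e)) := by
  rw [← F_mul hr]
  have : u * T.inc (S.ι q) * x = u * cj (T.inc (S.ι q)) x * T.inc (S.ι q) := by
    unfold cj; group
  rw [this, F_iq hr]

/-- consequence of r7 -/
theorem F_Bq (v : T.P) (p : S.Q × Up r B) :
    cj (h (v * Bq T p)) (T.ff h e) =
      cj (h (v * cj (T.inc (S.ι p.1 * S.ξ p.2)) (T.a TL.ze))) (T.ff h e) *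
      (cj (h (v * cj (T.inc (S.ι p.1 * S.ω)) (T.a TL.ze))) (T.ff h e))⁻¹ := by
  unfold Bq
  rw [F_cj hr, hr.r7, cj_mul, cj_inv, ← F_cj hr, ← F_cj hr, cj_cj, cj_cj, ← map_mul, ← map_mul]

/-- consequence of r8 -/
theorem F_al (v : T.P) (q : S.Q) (i : Fin r) :
    cj (h (v * Bq T (q, Sum.inr (Sum.inl i)))) (T.ff h e) =
      cj (h (v * (Bq T (q, Sum.inl ()) * cj (T.inc (S.ι q)) (T.a (TL.al i))))) (T.ff h e) := by
  unfold Bq
  rw [F_cj hr]
  change cj _ (cj (h (T.a (TL.x i))) _) = _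
  rw [hr.r8, ← map_mul, ← F_cj hr, cj_mul]
  rfl

/-- translated commutation of the `f`'s -/
theorem FF (hV : ∀ 𝒞 : Set S.Y, LinkClass S.Y S.Rel S.δ 𝒞 →
        ∀ u ∈ Subgroup.closure ((fun l => cj (T.inc l) (T.a TL.ze)) '' 𝒞 ∪
          (fun l => cj (T.inc l) (T.a TL.y)) '' 𝒞),
        ∀ u' ∈ Subgroup.closure ((fun l => cj (T.inc l) (T.a TL.ze)) '' 𝒞 ∪
          (fun l => cj (T.inc l) (T.a TL.y)) '' 𝒞),
        Commute (cj (h u) e) (cj (h u') e) ∧
          Commute (cj (h u) e) (cj (h (u' * T.a TL.t ^ 2)) e))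
    {𝒞 : Set S.Y} (h𝒞 : LinkClass S.Y S.Rel S.δ 𝒞) (w : T.P) {u u' : T.P}
    (hu : u ∈ Subgroup.closure ((fun l => cj (T.inc l) (T.a TL.ze)) '' 𝒞 ∪
          (fun l => cj (T.inc l) (T.a TL.y)) '' 𝒞))
    (hu' : u' ∈ Subgroup.closure ((fun l => cj (T.inc l) (T.a TL.ze)) '' 𝒞 ∪
          (fun l => cj (T.inc l) (T.a TL.y)) '' 𝒞)) :
    Commute (cj (h (w * u)) (T.ff h e)) (cj (h (w * u')) (T.ff h e)) := by
  rw [F_mul hr, F_mul hr]
  refine Commute.cj ?_ _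
  have hle : Subgroup.closure ((fun l => cj (T.inc l) (T.a TL.ze)) '' 𝒞 ∪
      (fun l => cj (T.inc l) (T.a TL.y)) '' 𝒞) ≤ A0 T := by
    rw [Subgroup.closure_le]
    rintro _ (⟨l, _, rfl⟩ | ⟨l, _, rfl⟩)
    · exact mem_A0 T l _
    · exact mem_A0 T l _
  have ht2 : T.a TL.t ^ 2 ∈ A0 T := (A0 T).pow_mem (mem_A0' T TL.t) 2
  rw [F_eq hr, F_eq hr]
  have c1 := hV 𝒞 h𝒞 u hu u' hu'
  have c2 := hV 𝒞 h𝒞 u' hu' u hu
  have c3 : Commute (cj (h (u * T.a TL.t ^ 2)) e) (cj (h (u' * T.a TL.t ^ 2)) e) := by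
    rw [A0_comm T (hle hu) ht2, A0_comm T (hle hu') ht2, E_mul hr, E_mul hr]
    exact Commute.cj c1.1 _
  exact Commute.mul_left (Commute.mul_right c1.1.inv_inv c1.2.inv_left)
    (Commute.mul_right c2.2.symm.inv_right c3)

/-- spanning at the level of `f` -/
theorem F_span (Φ : Multiplicative (EE S.Y S.Rel) →* G)
    (hΦ2 : ∀ l, vl Φ (el l * S.δ) = cj (h (cj (T.inc l) (T.a TL.ze))) e)
    (hV : ∀ 𝒞 : Set S.Y, LinkClass S.Y S.Rel S.δ 𝒞 →
        ∀ u ∈ Subgroup.closure ((fun l => cj (T.inc l) (T.a TL.ze)) '' 𝒞 ∪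
          (fun l => cj (T.inc l) (T.a TL.y)) '' 𝒞),
        ∀ u' ∈ Subgroup.closure ((fun l => cj (T.inc l) (T.a TL.ze)) '' 𝒞 ∪
          (fun l => cj (T.inc l) (T.a TL.y)) '' 𝒞),
        Commute (cj (h u) e) (cj (h u') e) ∧
          Commute (cj (h u) e) (cj (h (u' * T.a TL.t ^ 2)) e))
    {𝒞 : Set S.Y} (h𝒞 : LinkClass S.Y S.Rel S.δ 𝒞) {v : T.P} (hv : v ∈ A0 T) (l : S.Y)
    (hl : cl S.Rel (el l * S.δ) ∈ AddSubgroup.closure ((fun m => cl S.Rel (el m * S.δ)) '' 𝒞)) :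
    cj (h (v * cj (T.inc l) (T.a TL.ze))) (T.ff h e) ∈
      Subgroup.closure ((fun m => cj (h (v * cj (T.inc m) (T.a TL.ze))) (T.ff h e)) '' 𝒞) := by
  have ht2 : T.a TL.t ^ 2 ∈ A0 T := (A0 T).pow_mem (mem_A0' T TL.t) 2
  -- the two additive maps
  let Φ1 : EE S.Y S.Rel → G := fun x => cj (h v) (Φ (Multiplicative.ofAdd x))
  let Φ2 : EE S.Y S.Rel → G := fun x => cj (h (v * T.a TL.t ^ 2)) (Φ (Multiplicative.ofAdd x))
  have a1 : ∀ x y, Φ1 (x + y) = Φ1 x * Φ1 y := fun x y => by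
    simp only [Φ1, ofAdd_add, map_mul, cj_mul]
  have a2 : ∀ x y, Φ2 (x + y) = Φ2 x * Φ2 y := fun x y => by
    simp only [Φ2, ofAdd_add, map_mul (f := Φ), cj_mul]
  have z1 : Φ1 0 = 1 := by simp [Φ1, cj_one]
  have z2 : Φ2 0 = 1 := by simp [Φ2, cj_one]
  have n1 : ∀ x, Φ1 (-x) = (Φ1 x)⁻¹ := fun x => by simp only [Φ1, ofAdd_neg, map_inv, cj_inv]
  have n2 : ∀ x, Φ2 (-x) = (Φ2 x)⁻¹ := fun x => by simp only [Φ2, ofAdd_neg, map_inv, cj_inv]
  have v1 : ∀ m, Φ1 (cl S.Rel (el m * S.δ)) = cj (h (v * cj (T.inc m) (T.a TL.ze))) e := by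
    intro m
    change cj (h v) (vl Φ (el m * S.δ)) = _
    rw [hΦ2, ← E_mul hr]
  have v2 : ∀ m, Φ2 (cl S.Rel (el m * S.δ)) =
      cj (h (v * cj (T.inc m) (T.a TL.ze) * T.a TL.t ^ 2)) e := by
    intro m
    change cj (h (v * T.a TL.t ^ 2)) (vl Φ (el m * S.δ)) = _
    rw [hΦ2, ← E_mul hr, mul_assoc, mul_assoc, A0_comm T ht2 (mem_A0 T m TL.ze)]
  have comm : ∀ x ∈ AddSubgroup.closure ((fun m => cl S.Rel (el m * S.δ)) '' 𝒞),
      ∀ y ∈ AddSubgroup.closure ((fun m => cl S.Rel (el m * S.δ)) '' 𝒞),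
      Commute (Φ1 x) (Φ2 y) := by
    intro x hx
    induction hx using AddSubgroup.closure_induction with
    | mem x hx =>
      obtain ⟨m, hm, rfl⟩ := hx
      intro y hy
      induction hy using AddSubgroup.closure_induction with
      | mem y hy =>
        obtain ⟨m', hm', rfl⟩ := hy
        rw [v1, v2, mul_assoc, E_mul hr, E_mul hr v]
        refine Commute.cj ?_ _
        exact (hV 𝒞 h𝒞 _ (Subgroup.subset_closure (Or.inl ⟨m, hm, rfl⟩)) _
          (Subgroup.subset_closure (Or.inl ⟨m', hm', rfl⟩))).2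
      | zero => rw [z2]; exact Commute.one_right _
      | add y y' _ _ h1 h2 => rw [a2]; exact h1.mul_right h2
      | neg y _ h1 => rw [n2]; exact h1.inv_right
    | zero => intro y _; rw [z1]; exact Commute.one_left _
    | add x x' _ _ h1 h2 => intro y hy; rw [a1]; exact (h1 y hy).mul_left (h2 y hy)
    | neg x _ h1 => intro y hy; rw [n1]; exact (h1 y hy).inv_left
  have ab1 : ∀ x y, Commute (Φ1 x) (Φ1 y) := by
    intro x y
    unfold Commute SemiconjBy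
    rw [← a1, ← a1, add_comm]
  have key : ∀ x ∈ AddSubgroup.closure ((fun m => cl S.Rel (el m * S.δ)) '' 𝒞),
      (Φ1 x)⁻¹ * Φ2 x ∈
      Subgroup.closure ((fun m => cj (h (v * cj (T.inc m) (T.a TL.ze))) (T.ff h e)) '' 𝒞) := by
    intro x hx
    induction hx using AddSubgroup.closure_induction with
    | mem x hx =>
      obtain ⟨m, hm, rfl⟩ := hx
      rw [v1, v2, ← F_eq hr]
      exact Subgroup.subset_closure ⟨m, hm, rfl⟩
    | zero => rw [z1, z2]; simp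
    | add x y hx hy h1 h2 =>
      have e1 : (Φ1 (x + y))⁻¹ * Φ2 (x + y) = ((Φ1 x)⁻¹ * Φ2 x) * ((Φ1 y)⁻¹ * Φ2 y) := by
        rw [a1, a2, mul_inv_rev]
        have e2 : (Φ1 y)⁻¹ * (Φ1 x)⁻¹ * Φ2 x = (Φ1 x)⁻¹ * Φ2 x * (Φ1 y)⁻¹ := by
          have e3 : Commute (Φ1 y)⁻¹ ((Φ1 x)⁻¹ * Φ2 x) :=
            Commute.mul_right (ab1 y x).inv_inv (comm y hy x hx).inv_left
          rw [mul_assoc, e3.eq]
        calc (Φ1 y)⁻¹ * (Φ1 x)⁻¹ * (Φ2 x * Φ2 y) = ((Φ1 y)⁻¹ * (Φ1 x)⁻¹ * Φ2 x) * Φ2 y := by group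
          _ = _ := by rw [e2]; group
      rw [e1]
      exact Subgroup.mul_mem _ h1 h2
    | neg x hx h1 =>
      have e1 : (Φ1 (-x))⁻¹ * Φ2 (-x) = ((Φ1 x)⁻¹ * Φ2 x)⁻¹ := by
        rw [n1, n2, mul_inv_rev, inv_inv]
        exact ((comm x hx x hx).inv_right).eq
      rw [e1]
      exact Subgroup.inv_mem _ h1
  have := key _ hl
  rwa [v1, v2, ← F_eq hr] at this

/-- elements of `A` can be replaced by elements of `B'` -/
theorem F_psi (hα : Submodule.span (RG S.Q) (Set.range α) = ⊤) (t : A) :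
    T.ψ (Multiplicative.ofAdd t) ∈ A0 T ∧ ∃ κ ∈ B' T, ∀ v ∈ A0 T,
      cj (h (v * T.ψ (Multiplicative.ofAdd t))) (T.ff h e) = cj (h (v * κ)) (T.ff h e) := by
  have ht : t ∈ Submodule.span (RG S.Q) (Set.range α) := by rw [hα]; trivial
  induction ht using Submodule.span_induction with
  | mem t ht =>
    obtain ⟨i, rfl⟩ := ht
    rw [T.ψα]
    refine ⟨mem_A0' T _, Bq T (1, Sum.inr (Sum.inl i)) * (Bq T (1, Sum.inl ()))⁻¹,
      (B' T).mul_mem (Subgroup.subset_closure ⟨_, rfl⟩)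
        ((B' T).inv_mem (Subgroup.subset_closure ⟨_, rfl⟩)), ?_⟩
    intro v hv
    have h1 := F_al hr (v * (Bq T (1, Sum.inl ()))⁻¹) 1 i
    have hw : Bq T (1, Sum.inl ()) ∈ A0 T := mem_A0 T _ _
    have hx : Bq T (1, Sum.inr (Sum.inl i)) ∈ A0 T := mem_A0 T _ _
    have e1 : v * (Bq T (1, Sum.inl ()))⁻¹ *
        (Bq T (1, Sum.inl ()) * cj (T.inc (S.ι 1)) (T.a (TL.al i))) = v * T.a (TL.al i) := by
      rw [map_one, map_one, one_cj]; group
    rw [e1] at h1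
    rw [← h1]
    congr 2
    rw [mul_assoc, A0_comm T ((A0 T).inv_mem hw) hx]
  | zero =>
    rw [ofAdd_zero, map_one]
    exact ⟨(A0 T).one_mem, 1, (B' T).one_mem, fun v _ => rfl⟩
  | add s t _ _ hs ht =>
    obtain ⟨h1, κ, hκ, h2⟩ := hs
    obtain ⟨h3, κ', hκ', h4⟩ := ht
    rw [ofAdd_add, map_mul]
    refine ⟨(A0 T).mul_mem h1 h3, κ * κ', (B' T).mul_mem hκ hκ', ?_⟩
    intro v hv
    rw [← mul_assoc, h4 _ ((A0 T).mul_mem hv h1), mul_assoc, A0_comm T h1 (B'_le T hκ'), ← mul_assoc,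
      h2 _ ((A0 T).mul_mem hv (B'_le T hκ')), mul_assoc, A0_comm T (B'_le T hκ') (B'_le T hκ)]
  | smul a t _ ht =>
    refine RG.induction (p := fun a => T.ψ (Multiplicative.ofAdd (a • t)) ∈ A0 T ∧
      ∃ κ ∈ B' T, ∀ v ∈ A0 T, cj (h (v * T.ψ (Multiplicative.ofAdd (a • t)))) (T.ff h e) =
        cj (h (v * κ)) (T.ff h e)) ?_ ?_ ?_ ?_ a
    · rw [zero_smul, ofAdd_zero, map_one]
      exact ⟨(A0 T).one_mem, 1, (B' T).one_mem, fun v _ => rfl⟩
    · rintro a b ⟨h1, κ, hκ, h2⟩ ⟨h3, κ', hκ', h4⟩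
      rw [add_smul, ofAdd_add, map_mul]
      refine ⟨(A0 T).mul_mem h1 h3, κ * κ', (B' T).mul_mem hκ hκ', ?_⟩
      intro v hv
      rw [← mul_assoc, h4 _ ((A0 T).mul_mem hv h1), mul_assoc, A0_comm T h1 (B'_le T hκ'),
        ← mul_assoc, h2 _ ((A0 T).mul_mem hv (B'_le T hκ')), mul_assoc,
        A0_comm T (B'_le T hκ') (B'_le T hκ)]
    · rintro a ⟨h1, κ, hκ, h2⟩
      rw [neg_smul, ofAdd_neg, map_inv]
      refine ⟨(A0 T).inv_mem h1, κ⁻¹, (B' T).inv_mem hκ, ?_⟩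
      intro v hv
      have hκA := B'_le T hκ
      have h3 := h2 (v * (T.ψ (Multiplicative.ofAdd (a • t)))⁻¹ * κ⁻¹)
        ((A0 T).mul_mem ((A0 T).mul_mem hv ((A0 T).inv_mem h1)) ((A0 T).inv_mem hκA))
      have e1 : v * (T.ψ (Multiplicative.ofAdd (a • t)))⁻¹ * κ⁻¹ * κ =
          v * (T.ψ (Multiplicative.ofAdd (a • t)))⁻¹ := by group
      have e2 : v * (T.ψ (Multiplicative.ofAdd (a • t)))⁻¹ * κ⁻¹ *
          T.ψ (Multiplicative.ofAdd (a • t)) = v * κ⁻¹ := by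
        rw [mul_assoc, A0_comm T ((A0 T).inv_mem hκA) h1]
        group
      rw [e1, e2] at h3
      exact h3.symm
    · intro q
      obtain ⟨h1, κ, hκ, h2⟩ := ht
      rw [T.ψq]
      refine ⟨A0_conj T _ h1, cj (T.inc (S.ι q)) κ, B'_conj T q hκ, ?_⟩
      intro v hv
      have hv' : cj (T.inc (S.ι q⁻¹)) v ∈ A0 T := A0_conj T _ hv
      have h3 := congrArg (cj (h (T.inc (S.ι q)))) (h2 _ hv')
      rw [← F_mul hr, ← F_mul hr] at h3
      have e1 : ∀ x : T.P, cj (h (T.inc (S.ι q) * (cj (T.inc (S.ι q⁻¹)) v * x))) (T.ff h e) =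
          cj (h (v * cj (T.inc (S.ι q)) x)) (T.ff h e) := by
        intro x
        rw [F_cj hr, ← F_mul hr]
        congr 2
        simp only [cj, map_inv]
        group
      rw [e1, e1] at h3
      exact h3

/-- `^(io x) b_beta f` is `^kappa f` -/
theorem F_io (hα : Submodule.span (RG S.Q) (Set.range α) = ⊤) (x : Sd S.Q A) (β : Up r B) :
    ∃ κ ∈ B' T, cj (h (T.io x * T.a (TL.of β))) (T.ff h e) = cj (h κ) (T.ff h e) := by
  obtain ⟨h1, κ, hκ, h2⟩ := F_psi hr hα x.d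
  have hb : Bq T (x.q, β) ∈ B' T := Subgroup.subset_closure ⟨_, rfl⟩
  refine ⟨Bq T (x.q, β) * κ, (B' T).mul_mem hb hκ, ?_⟩
  have e1 : T.io x * T.a (TL.of β) =
      T.ψ (Multiplicative.ofAdd x.d) * Bq T (x.q, β) * T.inc (S.ι x.q) := by
    unfold TopLay.io Bq cj
    group
  rw [e1, F_iq hr, A0_comm T h1 (B'_le T hb), h2 _ (B'_le T hb)]

/-- lists of elements of `B'` give commuting conjugates of `f` -/
theorem F_comm (Φ : Multiplicative (EE S.Y S.Rel) →* G)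
    (hΦ2 : ∀ l, vl Φ (el l * S.δ) = cj (h (cj (T.inc l) (T.a TL.ze))) e)
    (hV : ∀ 𝒞 : Set S.Y, LinkClass S.Y S.Rel S.δ 𝒞 →
        ∀ u ∈ Subgroup.closure ((fun l => cj (T.inc l) (T.a TL.ze)) '' 𝒞 ∪
          (fun l => cj (T.inc l) (T.a TL.y)) '' 𝒞),
        ∀ u' ∈ Subgroup.closure ((fun l => cj (T.inc l) (T.a TL.ze)) '' 𝒞 ∪
          (fun l => cj (T.inc l) (T.a TL.y)) '' 𝒞),
        Commute (cj (h u) e) (cj (h u') e) ∧
          Commute (cj (h u) e) (cj (h (u' * T.a TL.t ^ 2)) e))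
    {κ κ' : T.P} (hκ : κ ∈ B' T) (hκ' : κ' ∈ B' T) :
    Commute (cj (h κ) (T.ff h e)) (cj (h κ') (T.ff h e)) := by
  obtain ⟨a, b, hab⟩ := denom T hκ
  obtain ⟨a', b', hab'⟩ := denom T hκ'
  -- common denominator
  set u₀ : T.P := (mon T (a ++ a'))⁻¹ with hu₀
  have hu₀A : u₀ ∈ A0 T := (A0 T).inv_mem (mon_mem T _)
  have k1 : κ = u₀ * mon T (b ++ a') := by
    rw [hu₀, mon_append, mon_append, ← hab, mul_inv_rev]
    have e1 : κ * mon T a = mon T a * κ := A0_comm T (B'_le T hκ) (mon_mem T a)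
    have e2 : κ * mon T a' = mon T a' * κ := A0_comm T (B'_le T hκ) (mon_mem T a')
    calc κ = (mon T a')⁻¹ * (mon T a' * κ) := by group
      _ = (mon T a')⁻¹ * (κ * mon T a') := by rw [e2]
      _ = (mon T a')⁻¹ * ((mon T a)⁻¹ * (mon T a * κ) * mon T a') := by group
      _ = (mon T a')⁻¹ * ((mon T a)⁻¹ * (κ * mon T a) * mon T a') := by rw [e1]
      _ = _ := by group
  have k2 : κ' = u₀ * mon T (b' ++ a) := by
    rw [hu₀, mon_append, mon_append, ← hab', mul_inv_rev]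
    have e2 : κ' * mon T a' * mon T a = mon T a * mon T a' * κ' := by
      rw [A0_comm T (B'_le T hκ') (mon_mem T a'),
        A0_comm T ((A0 T).mul_mem (mon_mem T a') (B'_le T hκ')) (mon_mem T a), mul_assoc]
    rw [mul_assoc κ', ← mul_assoc κ', e2]
    group
  -- linking class
  let L : List (S.Q × Up r B) := (b ++ a') ++ (b' ++ a)
  let K : Set S.Y := ((fun p : S.Q × Up r B => S.ι p.1 * S.ξ p.2) '' {p | p ∈ L}) ∪
    ((fun p : S.Q × Up r B => S.ι p.1 * S.ω) '' {p | p ∈ L})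
  have hfin : K.Finite := by
    have : {p | p ∈ L}.Finite := List.finite_toSet L
    exact (this.image _).union (this.image _)
  obtain ⟨𝒞, h𝒞, hspan⟩ := S.link K hfin (by
    rintro k (⟨p, _, rfl⟩ | ⟨p, _, rfl⟩)
    · exact ⟨p.1, Or.inr ⟨p.2, rfl⟩⟩
    · exact ⟨p.1, Or.inl rfl⟩)
  -- expansion
  have expand : ∀ M : List (S.Q × Up r B), (∀ p ∈ M, p ∈ L) → ∀ v ∈ A0 T,
      cj (h (v * mon T M)) (T.ff h e) ∈ Subgroup.closure
        ((fun u => cj (h (v * u)) (T.ff h e)) ''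
          (Subgroup.closure ((fun l => cj (T.inc l) (T.a TL.ze)) '' 𝒞 ∪
            (fun l => cj (T.inc l) (T.a TL.y)) '' 𝒞) : Set T.P)) := by
    intro M
    induction M with
    | nil =>
      intro _ v _
      exact Subgroup.subset_closure ⟨1, Subgroup.one_mem _, rfl⟩
    | cons p M ih =>
      intro hM v hv
      have hvM : v * mon T M ∈ A0 T := (A0 T).mul_mem hv (mon_mem T M)
      have hBp : Bq T p ∈ A0 T := mem_A0 T _ _
      have e1 : v * mon T (p :: M) = v * mon T M * Bq T p := by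
        rw [mon_cons, A0_comm T hBp (mon_mem T M), mul_assoc]
      rw [e1, F_Bq hr]
      have step : ∀ l : S.Y, cl S.Rel (el l * S.δ) ∈
          AddSubgroup.closure ((fun m => cl S.Rel (el m * S.δ)) '' 𝒞) →
          cj (h (v * mon T M * cj (T.inc l) (T.a TL.ze))) (T.ff h e) ∈ Subgroup.closure
        ((fun u => cj (h (v * u)) (T.ff h e)) ''
          (Subgroup.closure ((fun l => cj (T.inc l) (T.a TL.ze)) '' 𝒞 ∪
            (fun l => cj (T.inc l) (T.a TL.y)) '' 𝒞) : Set T.P)) := by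
        intro l hl
        have h1 := F_span hr Φ hΦ2 hV h𝒞 hvM l hl
        refine (Subgroup.closure_le _).2 ?_ h1
        rintro _ ⟨m, hm, rfl⟩
        have hz : cj (T.inc m) (T.a TL.ze) ∈ A0 T := mem_A0 T _ _
        have h2 := ih (fun p hp => hM p (List.mem_cons_of_mem _ hp))
          (v * cj (T.inc m) (T.a TL.ze)) ((A0 T).mul_mem hv hz)
        have e2 : v * mon T M * cj (T.inc m) (T.a TL.ze) =
            v * cj (T.inc m) (T.a TL.ze) * mon T M := by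
          rw [mul_assoc, A0_comm T (mon_mem T M) hz, mul_assoc]
        simp only [SetLike.mem_coe]
        rw [e2]
        refine (Subgroup.closure_le _).2 ?_ h2
        rintro _ ⟨u, hu, rfl⟩
        refine Subgroup.subset_closure ⟨cj (T.inc m) (T.a TL.ze) * u,
          Subgroup.mul_mem _ (Subgroup.subset_closure (Or.inl ⟨m, hm, rfl⟩)) hu, ?_⟩
        simp only [mul_assoc]
      have hp : p ∈ L := hM p List.mem_cons_self
      refine Subgroup.mul_mem _ (step _ (hspan _ (Or.inl ⟨p, hp, rfl⟩)))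
        (Subgroup.inv_mem _ (step _ (hspan _ (Or.inr ⟨p, hp, rfl⟩))))
  have m1 := expand (b ++ a') (fun p hp => List.mem_append_left _ hp) u₀ hu₀A
  have m2 := expand (b' ++ a) (fun p hp => List.mem_append_right _ hp) u₀ hu₀A
  rw [← k1] at m1
  rw [← k2] at m2
  -- the closure is commutative
  have hc : ∀ x ∈ ((fun u => cj (h (u₀ * u)) (T.ff h e)) ''
          (Subgroup.closure ((fun l => cj (T.inc l) (T.a TL.ze)) '' 𝒞 ∪
            (fun l => cj (T.inc l) (T.a TL.y)) '' 𝒞) : Set T.P)),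
      ∀ y ∈ ((fun u => cj (h (u₀ * u)) (T.ff h e)) ''
          (Subgroup.closure ((fun l => cj (T.inc l) (T.a TL.ze)) '' 𝒞 ∪
            (fun l => cj (T.inc l) (T.a TL.y)) '' 𝒞) : Set T.P)), x * y = y * x := by
    rintro _ ⟨u, hu, rfl⟩ _ ⟨u', hu', rfl⟩
    exact (FF hr hV h𝒞 u₀ hu hu').eq
  have := (Subgroup.isMulCommutative_closure hc).is_comm.comm ⟨_, m1⟩ ⟨_, m2⟩
  exact congrArg Subtype.val this

end

theorem _root_.Pool.Agent.HIG.topcomm_proof : Stmt_TopCommAsm := by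
  intro hTopV j r B _ S A _ _ α hα T D _ _ g RD hg hker G _ h e hr
  obtain ⟨⟨Φ, hΦ1, hΦ2⟩, hV⟩ := hTopV j r B S A α T RD G h e hr
  refine sd_hom g RD hg hker (h.comp T.ioHom) (fun b => T.dd h e b) ?_ (fun p hp => hr.r9 p hp)
  · intro b x c y
    have key : ∀ (x : Sd S.Q A) (b : B), ∃ κ ∈ B' T, ∃ κ' ∈ B' T,
        cj ((h.comp T.ioHom) x) (T.dd h e b) =
          cj (h κ) (T.ff h e) * (cj (h κ') (T.ff h e))⁻¹ := by
      intro x b
      obtain ⟨κ, hκ, h3⟩ := F_io hr hα x (Sum.inr (Sum.inr b))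
      obtain ⟨κ', hκ', h4⟩ := F_io hr hα x (Sum.inl ())
      refine ⟨κ, hκ, κ', hκ', ?_⟩
      rw [← h3, ← h4, F_mul hr, F_mul hr]
      unfold TopLay.dd
      rw [cj_mul, cj_inv]
      rfl
    obtain ⟨κ₁, h3, κ₂, h4, e1⟩ := key x b
    obtain ⟨κ₃, h5, κ₄, h6, e2⟩ := key y c
    rw [e1, e2]
    have C := fun {κ κ' : T.P} (hκ : κ ∈ B' T) (hκ' : κ' ∈ B' T) => F_comm hr Φ hΦ2 hV hκ hκ'
    exact Commute.mul_left (Commute.mul_right (C h3 h5) (C h3 h6).inv_right)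
      (Commute.inv_left (Commute.mul_right (C h4 h5) (C h4 h6).inv_right))

end TopComm

end Pool.Agent.HIG
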