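import Pool.Agent.HIG.TMTop

/-! Module TOPMODEL -/

set_option autoImplicit false
set_option linter.unusedSectionVars false

noncomputable section

namespace Pool.Agent.HIG

open Function HU TM
open StepUnits (good_map)

theorem topmodel_proof : Stmt_TopModel := by
  intro j r B _ S A _ _ α hα T D _ _ g RD hg hker
  let χ : Up r B → S.Q → (C1 A B S.Q)ˣ := fun β q =>
    match β with
    | Sum.inl _ => 1
    | Sum.inr (Sum.inl i) => ga (Multiplicative.ofAdd (el q • α i))
    | Sum.inr (Sum.inr b) => gb b q
  obtain ⟨Γ, _, _, _, φ, κ, hκ, h1, h2, h3⟩ := S.units (C1 A B S.Q) χ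
  let R : Type := HahnSeries Γ (C1 A B S.Q)
  have hk : Good (κ.map (Int.castRingHom (C1 A B S.Q)) : R) := good_map κ hκ
  -- two is not a zero divisor
  have h2R : Submonoid.powers (2 : R) ≤ nonZeroDivisors R := by
    rw [Submonoid.powers_le, mem_nonZeroDivisors_iff_right]
    intro x hx
    refine hs_two (fun y hy => c1_two hy) ?_
    rw [mul_comm, ← Int.cast_ofNat, ← zsmul_eq_mul] at hx
    exact hx
  let V : Type := Localization.Away (2 : R)
  have hRV : Injective (algebraMap R V) := IsLocalization.injective V h2R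
  haveI : Nontrivial V := hRV.nontrivial
  have hu2 : IsUnit (algebraMap R V 2) := IsLocalization.Away.algebraMap_isUnit (2 : R)
  let Nh : Submodule R V := Submodule.map (Algebra.linearMap R V) (hId (JJ RD))
  let W : Type := V ⧸ Nh
  let π : V →ₗ[R] W := Nh.mkQ
  let Ch : C1 A B S.Q →* R := (HahnSeries.C : C1 A B S.Q →+* R)
  let M : Dat S α R V :=
    { φ := φ
      zf := fun c => (HU.Good.ul (h1 c)).isUnit.unit
      zef := fun c => (HU.Good.ul (h2 c)).isUnit.unit
      yf := fun c => (HU.Good.one_add (h2 c)).isUnit.unit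
      yzf := fun c => (HU.Good.one_add (h1 c)).isUnit.unit
      k := (HU.Good.ul hk).isUnit.unit
      ρ := (Units.map Ch).comp ga
      χ := fun β q => Units.map Ch (χ β q)
      u := hu2.unit
      hz := fun c => rfl
      hze := fun c => rfl
      hy := fun c => rfl
      hyz := fun c => rfl
      hχ := fun β q => h3 β q
      hw := fun q => by
        show Units.map Ch 1 = 1
        exact map_one _
      hx := fun i q => rfl
      hu := by
        show algebraMap R V 2 = 2
        exact map_ofNat _ 2 }
  let lam : (B →₀ RG (Sd S.Q A)) →+ R :=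
    ((HahnSeries.C : C1 A B S.Q →+* R) : C1 A B S.Q →+ R).comp
      ((AddMonoidHom.mk' (fun m : M1 A B S.Q => (TrivSqZeroExt.inr m : C1 A B S.Q))
        (fun a b => TrivSqZeroExt.inr_add (ZA A) a b)).comp Lam)
  have hlam0 : ∀ p, lam p = HahnSeries.C (TrivSqZeroExt.inr (Lam p) : C1 A B S.Q) := fun p => rfl
  refine M.topModel π hα T D g RD hg hker lam ?_ ?_ hRV ?_
  · intro b a q
    rw [hlam0, Lam_single]
    show HahnSeries.C (TrivSqZeroExt.inr (Finsupp.single (b, q) (gel a)) : C1 A B S.Q) =
      HahnSeries.C (TrivSqZeroExt.inl (gel a) : C1 A B S.Q) *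
        (HahnSeries.C (1 + TrivSqZeroExt.inr (Finsupp.single (b, q) 1) : C1 A B S.Q) - 1)
    rw [map_add, map_one, add_sub_cancel_left, ← map_mul, TrivSqZeroExt.inl_mul_inr,
      Finsupp.smul_single, smul_eq_mul, mul_one]
  · intro p
    have e1 : ((M.k : R) * lam p) • π 1 = π (algebraMap R V ((M.k : R) * lam p)) := by
      have ea : algebraMap R V ((M.k : R) * lam p) = ((M.k : R) * lam p) • (1 : V) :=
        Algebra.algebraMap_eq_smul_one _
      rw [ea]
      exact (π.map_smul _ _).symm
    rw [e1]
    have e2 : π (algebraMap R V ((M.k : R) * lam p)) = 0 ↔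
        algebraMap R V ((M.k : R) * lam p) ∈ Nh := Submodule.Quotient.mk_eq_zero Nh
    rw [e2]
    have e3 : algebraMap R V ((M.k : R) * lam p) ∈ Nh ↔ (M.k : R) * lam p ∈ hId (JJ RD) := by
      constructor
      · rintro ⟨n, hn, hn'⟩
        have : n = (M.k : R) * lam p := hRV hn'
        rw [← this]
        exact hn
      · intro h
        exact ⟨_, h, rfl⟩
    rw [e3, Ideal.unit_mul_mem_iff_mem _ M.k.isUnit, ← inr_mem_JJ, hlam0]
    constructor
    · intro h
      have := h 0
      rwa [HahnSeries.C_apply, HahnSeries.coeff_single_same] at this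
    · intro h g'
      rw [HahnSeries.C_apply]
      by_cases hg' : g' = 0
      · rw [hg', HahnSeries.coeff_single_same]
        exact h
      · rw [HahnSeries.coeff_single_of_ne hg']
        exact zero_mem _
  · intro a b hab
    have e1 : ((Units.map Ch (ga a) : Rˣ) : R) = ((Units.map Ch (ga b) : Rˣ) : R) :=
      congrArg Units.val hab
    have e2 : (HahnSeries.C (TrivSqZeroExt.inl (gel a.toAdd) : C1 A B S.Q) : R) =
        HahnSeries.C (TrivSqZeroExt.inl (gel b.toAdd) : C1 A B S.Q) := e1
    have e3 := HahnSeries.C_injective e2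
    have e4 := TrivSqZeroExt.inl_injective e3
    exact Multiplicative.toAdd.injective (gel_inj e4)

end Pool.Agent.HIG
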