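import Mathlib
import Pool.Agent.HIG.Basic

/-!
# TOPPI: the finitely presented group with the relations of the top level
-/

noncomputable section

set_option linter.unusedSectionVars false

namespace Pool.Agent.HIG

open Function
open scoped commutatorElement

namespace TopPi

variable {j r : ℕ} {B : Type} {S : Stage j (Up r B)} {A : Type} [AddCommGroup A]
  [Module (RG S.Q) A] {α : Fin r → A}

/-- the single equations `x = y` -/
def rel1 (T : TopLay S A α) (G : Type) [Group G] (h : T.P →* G) (e : G) : List (G × G) :=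
  [(cj (h (T.a TL.y)) e, e * cj (h (T.a TL.ze)) e),
    (cj (h (T.a TL.yz)) e, e * cj (h (T.a TL.z)) e),
    (e * cj (h (T.a TL.ze)) e, cj (h (T.a TL.ze)) e * e),
    (e * cj (h (T.a TL.z)) e, cj (h (T.a TL.z)) e * e),
    (cj (h (T.a TL.ze)) e, oprod (fun l => cj (h (cj (T.inc l) (T.a TL.z))) e) S.δ),
    (cj (h T.ϖ) e, e ^ 2),
    (e * cj (h (T.a TL.t) ^ 2) e, cj (h (T.a TL.t) ^ 2) e * e),
    (cj (h (T.a TL.t)) e ^ 2, cj (h (T.a TL.t) ^ 2) e * e),
    (cj (h T.ϖ) (T.ff h e), T.ff h e)]

/-- all relations as equations `x = y`; `gens` = generators of `S.Y` -/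
def rels (T : TopLay S A α) (RD : Set (B →₀ RG (Sd S.Q A))) (gens : Set S.Y) (G : Type) [Group G]
    (h : T.P →* G) (e : G) : Set (G × G) :=
  ((fun μ => (e * h (T.inc μ), h (T.inc μ) * e)) '' gens) ∪
  {x | x ∈ rel1 T G h e} ∪
  ((fun p => (oprod (fun l => cj (h (cj (T.inc l) (T.a TL.z))) e) p, 1)) '' S.Rel) ∪
  (Set.range fun β : Up r B => (cj (h (T.a (TL.of β))) (T.ff h e),
    cj (h (cj (T.inc (S.ξ β)) (T.a TL.ze))) (T.ff h e) *
      (cj (h (cj (T.inc S.ω) (T.a TL.ze))) (T.ff h e))⁻¹)) ∪
  (Set.range fun i : Fin r => (cj (h (T.a (TL.x i))) (T.ff h e),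
    cj (h (T.a TL.w) * h (T.a (TL.al i))) (T.ff h e))) ∪
  ((fun p : B →₀ RG (Sd S.Q A) => ((p.support.toList.map fun b =>
    oprod (fun x => cj (h (T.io x)) (T.dd h e b)) (p b)).prod, 1)) '' RD)

theorem rels_finite [Finite B] (T : TopLay S A α) {RD : Set (B →₀ RG (Sd S.Q A))} (hRD : RD.Finite)
    {gens : Set S.Y} (hg : gens.Finite) (G : Type) [Group G] (h : T.P →* G) (e : G) :
    (rels T RD gens G h e).Finite := by
  unfold rels
  refine ((((((hg.image _).union ?_).union (S.Rel_fin.image _)).union
    (Set.finite_range _)).union (Set.finite_range _)).union (hRD.image _))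
  exact List.finite_toSet _

/-- the relations for `e` are the equations -/
theorem topRel_iff (T : TopLay S A α) (RD : Set (B →₀ RG (Sd S.Q A))) {gens : Set S.Y}
    (hg : Subgroup.closure gens = ⊤) (G : Type) [Group G] (h : T.P →* G) (e : G) :
    TopRel T RD G h e ↔ ∀ p ∈ rels T RD gens G h e, p.1 = p.2 := by
  constructor
  · intro hr p hp
    unfold rels at hp
    simp only [Set.mem_union] at hp
    rcases hp with ((((hp | hp) | hp) | hp) | hp) | hp
    · obtain ⟨μ, -, rfl⟩ := hp
      exact (hr.r0 μ).eq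
    · simp only [rel1, Set.mem_ofPred_eq, List.mem_cons, List.not_mem_nil, or_false] at hp
      rcases hp with rfl | rfl | rfl | rfl | rfl | rfl | rfl | rfl | rfl
      · exact hr.r1
      · exact hr.r1'
      · exact hr.r1a.eq
      · exact hr.r1b.eq
      · exact hr.r2
      · exact hr.r4
      · exact hr.r5.eq
      · exact hr.r5'
      · exact hr.r6
    · obtain ⟨q, hq, rfl⟩ := hp
      exact hr.r3 q hq
    · obtain ⟨β, rfl⟩ := hp
      exact hr.r7 β
    · obtain ⟨i, rfl⟩ := hp
      exact hr.r8 i
    · obtain ⟨q, hq, rfl⟩ := hp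
      exact hr.r9 q hq
  · intro H
    have h1 : ∀ x ∈ rel1 T G h e, x.1 = x.2 := fun x hx => H x (by
      unfold rels
      simp only [Set.mem_union]
      exact Or.inl (Or.inl (Or.inl (Or.inl (Or.inr hx)))))
    simp only [rel1, List.mem_cons, List.not_mem_nil, or_false, forall_eq_or_imp, forall_eq] at h1
    obtain ⟨h11, h12, h13, h14, h15, h16, h17, h18, h19⟩ := h1
    refine ⟨?_, h11, h12, h13, h14, h15, ?_, h16, h17, h18, h19, ?_, ?_, ?_⟩
    · intro μ
      have hle : Subgroup.closure gens ≤ (Subgroup.centralizer {e}).comap (h.comp T.inc) := by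
        rw [Subgroup.closure_le]
        intro ν hν
        rw [SetLike.mem_coe, Subgroup.mem_comap, Subgroup.mem_centralizer_singleton_iff]
        have h2 := H (e * h (T.inc ν), h (T.inc ν) * e) (by
          unfold rels
          simp only [Set.mem_union]
          exact Or.inl (Or.inl (Or.inl (Or.inl (Or.inl ⟨ν, hν, rfl⟩)))))
        exact h2.symm
      rw [hg] at hle
      have h2 := hle (Subgroup.mem_top μ)
      rw [Subgroup.mem_comap, Subgroup.mem_centralizer_singleton_iff] at h2
      exact h2.symm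
    · intro p hp
      exact H _ (by
        unfold rels
        simp only [Set.mem_union]
        exact Or.inl (Or.inl (Or.inl (Or.inr ⟨p, hp, rfl⟩))))
    · intro β
      exact H _ (by
        unfold rels
        simp only [Set.mem_union]
        exact Or.inl (Or.inl (Or.inr ⟨β, rfl⟩)))
    · intro i
      exact H _ (by
        unfold rels
        simp only [Set.mem_union]
        exact Or.inl (Or.inr ⟨i, rfl⟩))
    · intro p hp
      exact H _ (by
        unfold rels
        simp only [Set.mem_union]
        exact Or.inr ⟨p, hp, rfl⟩)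

/-- naturality of the equations -/
theorem rels_map (T : TopLay S A α) (RD : Set (B →₀ RG (Sd S.Q A))) (gens : Set S.Y)
    {G G' : Type} [Group G] [Group G'] (h : T.P →* G) (e : G) (F : G →* G') :
    rels T RD gens G' (F.comp h) (F e) = Prod.map F F '' rels T RD gens G h e := by
  unfold rels
  simp only [Set.image_union]
  congr 1
  congr 1
  congr 1
  congr 1
  congr 1
  · rw [Set.image_image]
    refine Set.image_congr fun μ _ => ?_
    simp
  · have h1 : rel1 T G' (F.comp h) (F e) = (rel1 T G h e).map (Prod.map F F) := by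
      simp only [rel1, List.map_cons, List.map_nil, Prod.map_apply, map_mul, map_cj, map_oprod,
        map_pow, MonoidHom.comp_apply, TopLay.ff_map]
    rw [h1]
    ext x
    simp only [Set.mem_ofPred_eq, List.mem_map, Set.mem_image]
  · rw [Set.image_image]
    refine Set.image_congr fun p _ => ?_
    simp [map_cj, map_oprod]
  · rw [← Set.range_comp]
    congr 1
    funext β
    simp [map_cj, TopLay.ff_map]
  · rw [← Set.range_comp]
    congr 1
    funext i
    simp [map_cj, TopLay.ff_map]
  · rw [Set.image_image]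
    refine Set.image_congr fun p _ => ?_
    simp only [Prod.map_apply, map_one, map_list_prod, List.map_map]
    congr 2
    apply List.map_congr_left
    intro b _
    simp [map_oprod, map_cj, TopLay.dd_map]

end TopPi

open TopPi in
theorem toppi_proof : Stmt_TopPi := by
  intro j r B _ S A _ _ α T RD hRD R _ hR k
  obtain ⟨gens, hg, hgf⟩ := Group.fg_iff.1 S.rpY.fg
  set C : Type := Monoid.Coprod R (Multiplicative ℤ) with hC
  set h₀ : R →* C := Monoid.Coprod.inl with hh₀
  set e₀ : C := Monoid.Coprod.inr (Multiplicative.ofAdd 1) with he₀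
  set rl : Set C := (fun p : C × C => p.1 * p.2⁻¹) '' rels T RD gens C (h₀.comp k) e₀ with hrl
  have hrlf : rl.Finite := (rels_finite T hRD hgf C (h₀.comp k) e₀).image _
  set N : Subgroup C := Subgroup.normalClosure rl with hN
  have hCfp : Group.IsFinitelyPresented (Monoid.Coprod R (Multiplicative ℤ)) := inferInstance
  refine ⟨C ⧸ N, inferInstance, (QuotientGroup.mk' N).comp h₀, QuotientGroup.mk' N e₀,
    Group.IsFinitelyPresented.quotient (hG := hCfp) N ⟨rl, hrlf, rfl⟩, ?_, ?_⟩
  · rw [MonoidHom.comp_assoc, topRel_iff T RD hg, rels_map]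
    rintro _ ⟨p, hp, rfl⟩
    have h1 : p.1 * p.2⁻¹ ∈ N := Subgroup.subset_normalClosure ⟨p, hp, rfl⟩
    have h2 : QuotientGroup.mk' N (p.1 * p.2⁻¹) = 1 := by
      rw [QuotientGroup.mk'_apply, QuotientGroup.eq_one_iff]
      exact h1
    rw [map_mul, map_inv, mul_inv_eq_one] at h2
    exact h2
  · intro G' _ h' e' hr
    set F₀ : C →* G' := Monoid.Coprod.lift h' (zpowersHom G' e') with hF₀
    have hF1 : F₀.comp h₀ = h' := by
      rw [hF₀, hh₀]
      exact Monoid.Coprod.lift_comp_inl _ _
    have hF2 : F₀ e₀ = e' := by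
      rw [hF₀, he₀, Monoid.Coprod.lift_apply_inr]
      simp
    have hker : N ≤ F₀.ker := by
      rw [hN]
      refine Subgroup.normalClosure_le_normal ?_
      rintro _ ⟨p, hp, rfl⟩
      rw [SetLike.mem_coe, MonoidHom.mem_ker, map_mul, map_inv, mul_inv_eq_one]
      have h1 : Prod.map F₀ F₀ p ∈ rels T RD gens G' (h'.comp k) e' := by
        rw [← hF1, ← hF2, MonoidHom.comp_assoc, rels_map]
        exact ⟨p, hp, rfl⟩
      exact (topRel_iff T RD hg G' (h'.comp k) e').1 hr _ h1
    refine ⟨QuotientGroup.lift N F₀ fun x hx => hker hx, fun x => ?_, ?_⟩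
    · change F₀ (h₀ x) = h' x
      rw [← hF1]
      rfl
    · change F₀ e₀ = e'
      exact hF2

end Pool.Agent.HIG
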