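import Mathlib
import Pool.Agent.HIG.Enum
import Pool.Agent.HIG.Final
import Pool.Agent.HIG.RPQuot
import Pool.Agent.HIG.RPProd
import Pool.Agent.HIG.RPComm
import Pool.Agent.HIG.KK
import Pool.Agent.HIG.Ind
import Pool.Agent.HIG.Layer
import Pool.Agent.HIG.LL
import Pool.Agent.HIG.Xi
import Pool.Agent.HIG.StepLink
import Pool.Agent.HIG.StepUnits
import Pool.Agent.HIG.TopPi
import Pool.Agent.HIG.TopV
import Pool.Agent.HIG.TopComm
import Pool.Agent.HIG.TopModel
import Pool.Agent.HIG.BaseLink
import Pool.Agent.HIG.BaseUnits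
import Pool.Agent.HIG.BaseAsm
import Pool.Agent.HIG.BRComm
import Pool.Agent.HIG.BRModel
import Pool.Agent.HIG.BRAsm
import Pool.Agent.HIG.PRIM
import Pool.Agent.HIG.Compile
import Pool.Agent.HIG.SYSASM
import Pool.Agent.HIG.MHModel
import Pool.Agent.HIG.MHAsm
import Pool.Agent.HIG.Ctr
import Pool.Agent.HIG.StepLayP
import Pool.Agent.HIG.StageAsm
import Pool.Agent.HIG.TopAsm

/-!
# For every n >= 3 the variety of groups solvable of index n is Higman
-/

namespace Pool.Agent.HIG

theorem higman_of_three_le : ∀ n, 3 ≤ n → Higman n :=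
  main' enum_proof final_proof rpquot_proof rpequiv_proof rpprod_proof rpcomm_proof kk_proof
    ind_proof layer_proof four_proof llstep_proof llbase_proof xi_proof steplink_proof
    stepUnits_proof toppi_proof topv_proof topcomm_proof topmodel_proof baselink_proof
    baseUnits_proof baseAsm_proof brcomm_proof brmodel_proof brasm_proof prim1_proof prim2_proof
    compile_proof sysAsm_proof mhModel_proof mhasm_proof ctrAsm_proof stepLayAsm_proof
    topLayAsm_proof stageasm_proof topasm_proof

end Pool.Agent.HIG
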