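import Pool.Agent.HIG.TMRing
import Pool.Agent.HIG.StepUnits

/-! Helper file for TOPMODEL: the model over an abstract ring. -/

set_option autoImplicit false
set_option linter.unusedSectionVars false

noncomputable section

namespace Pool.Agent.HIG.TM

open Function HU
open StepUnits (onQ onQ_ι onQ_not)

theorem opr0_apply {Y R V W : Type} [Group Y] [CommRing R] [CommRing V] [Algebra R V]
    [AddCommGroup W] [Module R W] (π : V →ₗ[R] W) (r : Y → Rˣ) (F : Y → V × W) (c : Y) :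
    opr π r (fun _ => (0 : V)) F c = ((r c : R) • (F c).1, (r c : R) • (F c).2) := by
  rw [opr_apply, zero_mul, map_zero, add_zero]

section gen
variable {j r : ℕ} {B : Type} {S : Stage j (Up r B)} {A : Type} [AddCommGroup A]
  [Module (RG S.Q) A] {α : Fin r → A}

theorem io_mul (T : TopLay S A α) (x y : Sd S.Q A) : T.io (x * y) = T.io x * T.io y := by
  show T.ψ (Multiplicative.ofAdd (x.d + el x.q • y.d)) * T.inc (S.ι (x.q * y.q)) =
    (T.ψ (Multiplicative.ofAdd x.d) * T.inc (S.ι x.q)) *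
      (T.ψ (Multiplicative.ofAdd y.d) * T.inc (S.ι y.q))
  rw [ofAdd_add, map_mul, T.ψq, map_mul, map_mul]
  unfold cj
  group

theorem io_one (T : TopLay S A α) : T.io 1 = 1 := by
  show T.ψ (Multiplicative.ofAdd (0 : A)) * T.inc (S.ι 1) = 1
  rw [ofAdd_zero, map_one, map_one, map_one, one_mul]

variable {R V W : Type} [CommRing R] [CommRing V] [Algebra R V] [AddCommGroup W] [Module R W]
  (π : V →ₗ[R] W)

variable (S α R V) in
/-- data of the model -/
structure Dat where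
  φ : EE S.Y S.Rel →+ R
  zf : S.Y → Rˣ
  zef : S.Y → Rˣ
  yf : S.Y → Rˣ
  yzf : S.Y → Rˣ
  k : Rˣ
  ρ : Multiplicative A →* Rˣ
  χ : Up r B → S.Q → Rˣ
  u : Vˣ
  hz : ∀ c, φ (cl S.Rel (el c)) = zf c
  hze : ∀ c, φ (cl S.Rel (el c * S.δ)) = zef c
  hy : ∀ c, (yf c : R) = 1 + zef c
  hyz : ∀ c, (yzf c : R) = 1 + zf c
  hχ : ∀ β q, φ (cl S.Rel (el (S.ι q) * (el (S.ξ β) - el S.ω) * S.δ)) = k * χ β q
  hw : ∀ q, χ (Sum.inl ()) q = 1
  hx : ∀ i q, χ (Sum.inr (Sum.inl i)) q = ρ (Multiplicative.ofAdd (el q • α i))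
  hu : (u : V) = 2

variable (M : Dat S α R V)

open scoped Classical in
/-- the function of the letter `t` -/
def Dat.st (c : S.Y) : V := if ∃ q, S.ι q = c then ((M.u⁻¹ : Vˣ) : V) else 0

theorem Dat.st_ι (q : S.Q) : M.st (S.ι q) = ((M.u⁻¹ : Vˣ) : V) := if_pos ⟨q, rfl⟩

theorem Dat.st_not {c : S.Y} (h : ¬ ∃ q, S.ι q = c) : M.st c = 0 := if_neg h

/-- values on `A` -/
def Dat.ps : Multiplicative A →* AA (S.Y → V × W) where
  toFun a := opr π (onQ S.ι (fun q => M.ρ (Multiplicative.ofAdd (el q • a.toAdd))))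
    (fun _ => (0 : V))
  map_one' := by
    have : onQ S.ι (fun q => M.ρ (Multiplicative.ofAdd (el q • (1 : Multiplicative A).toAdd)))
        = (1 : S.Y → Rˣ) := by
      funext c
      by_cases hc : ∃ q, S.ι q = c
      · obtain ⟨q, rfl⟩ := hc
        rw [onQ_ι _ S.ι_inj, toAdd_one, smul_zero, ofAdd_zero, map_one]
        rfl
      · rw [onQ_not _ _ _ hc]
        rfl
    rw [this, opr_one]
  map_mul' a b := by
    rw [opr_mul]
    have : onQ S.ι (fun q => M.ρ (Multiplicative.ofAdd (el q • (a * b).toAdd)))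
        = onQ S.ι (fun q => M.ρ (Multiplicative.ofAdd (el q • a.toAdd))) *
          onQ S.ι (fun q => M.ρ (Multiplicative.ofAdd (el q • b.toAdd))) := by
      funext c
      by_cases hc : ∃ q, S.ι q = c
      · obtain ⟨q, rfl⟩ := hc
        rw [Pi.mul_apply, onQ_ι _ S.ι_inj, onQ_ι _ S.ι_inj, onQ_ι _ S.ι_inj, toAdd_mul, smul_add,
          ofAdd_add, map_mul]
      · rw [Pi.mul_apply, onQ_not _ _ _ hc, onQ_not _ _ _ hc, onQ_not _ _ _ hc, mul_one]
    rw [this]
    congr 1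
    funext c
    rw [smul_zero, smul_zero, add_zero]

theorem Dat.ps_apply (a : A) : M.ps π (Multiplicative.ofAdd a) =
    opr π (onQ S.ι (fun q => M.ρ (Multiplicative.ofAdd (el q • a)))) (fun _ => (0 : V)) := rfl

/-- the letters -/
def Dat.lt : TL r B → AA (S.Y → V × W)
  | TL.z => opr π M.zf (fun _ => 0)
  | TL.ze => opr π M.zef (fun _ => 0)
  | TL.y => opr π M.yf (fun _ => 0)
  | TL.yz => opr π M.yzf (fun _ => 0)
  | TL.w => opr π (onQ S.ι (fun q => M.k * M.χ (Sum.inl ()) q)) (fun _ => 0)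
  | TL.t => opr π 1 M.st
  | TL.al i => opr π (onQ S.ι (fun q => M.ρ (Multiplicative.ofAdd (el q • α i)))) (fun _ => 0)
  | TL.x i => opr π (onQ S.ι (fun q => M.k * M.χ (Sum.inr (Sum.inl i)) q)) (fun _ => 0)
  | TL.xp b => opr π (onQ S.ι (fun q => M.k * M.χ (Sum.inr (Sum.inr b)) q)) (fun _ => 0)

theorem Dat.lt_of (β : Up r B) : M.lt π (TL.of β) =
    opr π (onQ S.ι (fun q => M.k * M.χ β q)) (fun _ => 0) := by
  rcases β with _ | i | b
  · rfl
  · rfl
  · rfl

theorem Dat.isOp (l : TL r B) : IsOp π (M.lt π l) := by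
  cases l <;> exact ⟨_, _, rfl⟩

theorem Dat.isOp0 (l : TL r B) (hl : l ≠ TL.t) : ∃ f, M.lt π l = opr π f (fun _ => 0) := by
  cases l
  case t => exact absurd rfl hl
  all_goals exact ⟨_, rfl⟩

/-- the action of the group -/
theorem Dat.exists_F (T : TopLay S A α) : ∃ F : T.P →* AA (S.Y → V × W),
    (∀ y, F (T.inc y) = tr y) ∧ F T.ϖ = dil M.u ∧ ∀ l, F (T.a l) = M.lt π l := by
  refine T.univ (AA (S.Y → V × W)) tr (dil M.u) (M.lt π) (M.ps π) ?_ ?_ ?_ ?_ ?_ ?_
  · intro x y m n l l'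
    exact ops_comm π (M.isOp π l) (M.isOp π l') M.u m n x y
  · intro y
    exact dil_tr M.u y
  · intro l hl
    obtain ⟨f, hf⟩ := M.isOp0 π l hl
    rw [hf]
    exact dil_opr π M.u f
  · intro q
    have h : cj (tr (S.ι q)) (M.lt π TL.t) = M.lt π TL.t := by
      show cj (tr (S.ι q)) (opr π 1 M.st) = opr π 1 M.st
      rw [tr_conj]
      congr 1
      funext c
      by_cases hc : ∃ q', S.ι q' = c
      · obtain ⟨q', rfl⟩ := hc
        rw [← map_mul, M.st_ι, M.st_ι]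
      · have hc' : ¬ ∃ q', S.ι q' = c * S.ι q := by
          rintro ⟨q', hq'⟩
          exact hc ⟨q' * q⁻¹, by rw [map_mul, map_inv, hq', mul_inv_cancel_right]⟩
        rw [M.st_not hc, M.st_not hc']
    exact (cj_eq_iff.mp h).symm
  · intro i
    rfl
  · intro q t
    rw [M.ps_apply, M.ps_apply, tr_conj]
    congr 1
    funext c
    by_cases hc : ∃ q', S.ι q' = c
    · obtain ⟨q', rfl⟩ := hc
      rw [← map_mul, onQ_ι _ S.ι_inj, onQ_ι _ S.ι_inj, ← mul_smul, ← el_mul]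
    · have hc' : ¬ ∃ q', S.ι q' = c * S.ι q := by
        rintro ⟨q', hq'⟩
        exact hc ⟨q' * q⁻¹, by rw [map_mul, map_inv, hq', mul_inv_cancel_right]⟩
      rw [onQ_not _ _ _ hc, onQ_not _ _ _ hc']

variable {T : TopLay S A α} {F : T.P →* AA (S.Y → V × W)} (hF1 : ∀ y, F (T.inc y) = tr y)
  (hF2 : F T.ϖ = dil M.u) (hF3 : ∀ l, F (T.a l) = M.lt π l)

include hF1 hF3 in
theorem Dat.F_ps (hα : Submodule.span (RG S.Q) (Set.range α) = ⊤) (a : A) :
    F (T.ψ (Multiplicative.ofAdd a)) = M.ps π (Multiplicative.ofAdd a) := by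
  have hel : ∀ (q : S.Q) (a : A), F (T.ψ (Multiplicative.ofAdd a)) = M.ps π (Multiplicative.ofAdd a) →
      F (T.ψ (Multiplicative.ofAdd (el q • a))) = M.ps π (Multiplicative.ofAdd (el q • a)) := by
    intro q a ha
    rw [T.ψq, map_cj, ha, hF1, M.ps_apply, M.ps_apply, tr_conj]
    congr 1
    funext c
    by_cases hc : ∃ q', S.ι q' = c
    · obtain ⟨q', rfl⟩ := hc
      rw [← map_mul, onQ_ι _ S.ι_inj, onQ_ι _ S.ι_inj, ← mul_smul, ← el_mul]
    · have hc' : ¬ ∃ q', S.ι q' = c * S.ι q := by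
        rintro ⟨q', hq'⟩
        exact hc ⟨q' * q⁻¹, by rw [map_mul, map_inv, hq', mul_inv_cancel_right]⟩
      rw [onQ_not _ _ _ hc, onQ_not _ _ _ hc']
  have ha : a ∈ Submodule.span (RG S.Q) (Set.range α) := by rw [hα]; trivial
  induction ha using Submodule.span_induction with
  | mem x hx =>
    obtain ⟨i, rfl⟩ := hx
    rw [T.ψα, hF3]
    rfl
  | zero => rw [ofAdd_zero, map_one, map_one, map_one]
  | add x y _ _ hx hy => rw [ofAdd_add, map_mul, map_mul, map_mul, hx, hy]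
  | smul c x _ hx =>
    refine RG.induction (p := fun c => F (T.ψ (Multiplicative.ofAdd (c • x))) =
      M.ps π (Multiplicative.ofAdd (c • x))) ?_ ?_ ?_ ?_ c
    · show F (T.ψ (Multiplicative.ofAdd ((0 : RG S.Q) • x))) =
        M.ps π (Multiplicative.ofAdd ((0 : RG S.Q) • x))
      rw [zero_smul, ofAdd_zero, map_one, map_one, map_one]
    · intro c d hc hd
      show F (T.ψ (Multiplicative.ofAdd ((c + d) • x))) = M.ps π (Multiplicative.ofAdd ((c + d) • x))
      rw [add_smul, ofAdd_add, map_mul, map_mul, map_mul, hc, hd]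
    · intro c hc
      show F (T.ψ (Multiplicative.ofAdd ((-c) • x))) = M.ps π (Multiplicative.ofAdd ((-c) • x))
      rw [neg_smul, ofAdd_neg, map_inv, map_inv, map_inv, hc]
    · intro q
      exact hel q x hx

/-- the vector `e` -/
def ee : S.Y → V × W := fun _ => (1, 0)

open scoped Classical in
/-- the vector `f` -/
def fv : S.Y → V × W := fun c => (0, if ∃ q, S.ι q = c then π 1 else 0)

theorem fv_ι (q : S.Q) : (fv π : S.Y → V × W) (S.ι q) = (0, π 1) := by
  unfold fv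
  rw [if_pos ⟨q, rfl⟩]

theorem fv_not {c : S.Y} (h : ¬ ∃ q, S.ι q = c) : (fv π : S.Y → V × W) c = (0, 0) := by
  unfold fv
  rw [if_neg h]

theorem Dat.t_e (c : S.Y) : M.lt π TL.t (ee : S.Y → V × W) c = (1, π (M.st c)) := by
  show opr π 1 M.st (ee : S.Y → V × W) c = _
  rw [opr_apply]
  show (((1 : Rˣ) : R) • (1 : V), ((1 : Rˣ) : R) • (0 : W) + π (M.st c * 1)) = _
  rw [Units.val_one, one_smul, smul_zero, zero_add, mul_one]

theorem Dat.t_t_e (c : S.Y) : M.lt π TL.t (M.lt π TL.t (ee : S.Y → V × W)) c =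
    (1, π (M.st c) + π (M.st c)) := by
  have h : M.lt π TL.t (M.lt π TL.t (ee : S.Y → V × W)) c =
      opr π 1 M.st (M.lt π TL.t (ee : S.Y → V × W)) c := rfl
  rw [h, opr_apply, M.t_e]
  show (((1 : Rˣ) : R) • (1 : V), ((1 : Rˣ) : R) • π (M.st c) + π (M.st c * 1)) = _
  rw [Units.val_one, one_smul, one_smul, mul_one]

theorem Dat.two_st (q : S.Q) : π (M.st (S.ι q)) + π (M.st (S.ι q)) = π 1 := by
  rw [M.st_ι, ← map_add, ← two_mul, ← M.hu, Units.mul_inv]

theorem Dat.t_t_e_sub : M.lt π TL.t (M.lt π TL.t (ee : S.Y → V × W)) - ee = fv π := by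
  funext c
  rw [Pi.sub_apply, M.t_t_e]
  by_cases hc : ∃ q', S.ι q' = c
  · obtain ⟨q', rfl⟩ := hc
    rw [fv_ι, M.two_st]
    show (1 - 1, π 1 - 0) = ((0 : V), π 1)
    rw [sub_self, sub_zero]
  · rw [fv_not π hc, M.st_not hc, map_zero, add_zero]
    show ((1 : V) - 1, (0 : W) - 0) = ((0 : V), (0 : W))
    rw [sub_self, sub_zero]

end gen

end Pool.Agent.HIG.TM
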