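import Pool.Agent.HIG.Basic

/-! Helper file for TOPMODEL: the operators of the model. -/

set_option autoImplicit false
set_option linter.unusedSectionVars false

noncomputable section

namespace Pool.Agent.HIG.TM

open Function

section ops
variable {Y R V W : Type} [Group Y] [CommRing R] [CommRing V] [Algebra R V] [AddCommGroup W]
  [Module R W] (π : V →ₗ[R] W)

/-- additive automorphisms -/
abbrev AA (M : Type) [AddCommGroup M] : Type := M ≃ₗ[ℤ] M

/-- pointwise operators `(v, w) ↦ (r v, r w + π (s v))` -/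
def opr0 (r : Y → Rˣ) (s : Y → V) : (Y → V × W) ≃+ (Y → V × W) where
  toFun F c := ((r c : R) • (F c).1, (r c : R) • (F c).2 + π (s c * (F c).1))
  invFun F c := (((r c)⁻¹ : Rˣ).1 • (F c).1,
    ((r c)⁻¹ : Rˣ).1 • (F c).2 - ((r c)⁻¹ : Rˣ).1 • ((r c)⁻¹ : Rˣ).1 • π (s c * (F c).1))
  left_inv F := by
    funext c
    refine Prod.ext ?_ ?_
    · show ((r c)⁻¹ : Rˣ).1 • (r c : R) • (F c).1 = (F c).1
      rw [← mul_smul, Units.inv_mul, one_smul]
    · show ((r c)⁻¹ : Rˣ).1 • ((r c : R) • (F c).2 + π (s c * (F c).1)) -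
        ((r c)⁻¹ : Rˣ).1 • ((r c)⁻¹ : Rˣ).1 • π (s c * ((r c : R) • (F c).1)) = (F c).2
      rw [mul_smul_comm, map_smul, smul_add, ← mul_smul, ← mul_smul ((r c)⁻¹ : Rˣ).1 (r c : R),
        Units.inv_mul, one_smul, one_smul]
      abel
  right_inv F := by
    funext c
    refine Prod.ext ?_ ?_
    · show (r c : R) • ((r c)⁻¹ : Rˣ).1 • (F c).1 = (F c).1
      rw [← mul_smul, Units.mul_inv, one_smul]
    · show (r c : R) • (((r c)⁻¹ : Rˣ).1 • (F c).2 -
        ((r c)⁻¹ : Rˣ).1 • ((r c)⁻¹ : Rˣ).1 • π (s c * (F c).1)) +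
        π (s c * (((r c)⁻¹ : Rˣ).1 • (F c).1)) = (F c).2
      rw [mul_smul_comm, map_smul, smul_sub, ← mul_smul, ← mul_smul (r c : R), Units.mul_inv,
        one_smul, one_smul]
      abel
  map_add' F G := by
    funext c
    refine Prod.ext ?_ ?_
    · show (r c : R) • ((F c).1 + (G c).1) = (r c : R) • (F c).1 + (r c : R) • (G c).1
      rw [smul_add]
    · show (r c : R) • ((F c).2 + (G c).2) + π (s c * ((F c).1 + (G c).1)) =
        ((r c : R) • (F c).2 + π (s c * (F c).1)) + ((r c : R) • (G c).2 + π (s c * (G c).1))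
      rw [smul_add, mul_add, map_add]
      abel

/-- pointwise operators -/
def opr (r : Y → Rˣ) (s : Y → V) : AA (Y → V × W) := (opr0 π r s).toIntLinearEquiv

theorem opr_apply (r : Y → Rˣ) (s : Y → V) (F : Y → V × W) (c : Y) :
    opr π r s F c = ((r c : R) • (F c).1, (r c : R) • (F c).2 + π (s c * (F c).1)) := rfl

theorem opr_mul (r r' : Y → Rˣ) (s s' : Y → V) :
    opr π r s * opr π r' s' = opr π (r * r') (fun c => (r c : R) • s' c + (r' c : R) • s c) := by
  refine LinearEquiv.ext fun F => funext fun c => ?_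
  show opr π r s (opr π r' s' F) c = _
  rw [opr_apply, opr_apply, opr_apply]
  refine Prod.ext ?_ ?_
  · show (r c : R) • (r' c : R) • (F c).1 = ((r c : R) * (r' c : R)) • (F c).1
    rw [mul_smul]
  · show (r c : R) • ((r' c : R) • (F c).2 + π (s' c * (F c).1)) +
      π (s c * ((r' c : R) • (F c).1)) = ((r c : R) * (r' c : R)) • (F c).2 +
        π (((r c : R) • s' c + (r' c : R) • s c) * (F c).1)
    rw [smul_add, mul_smul, add_mul, map_add, smul_mul_assoc, smul_mul_assoc, map_smul, map_smul,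
      mul_smul_comm, map_smul]
    abel

theorem opr_comm (r r' : Y → Rˣ) (s s' : Y → V) : Commute (opr π r s) (opr π r' s') := by
  show opr π r s * opr π r' s' = opr π r' s' * opr π r s
  rw [opr_mul, opr_mul, mul_comm r r']
  congr 1
  funext c
  rw [add_comm]

theorem opr_one : opr π (1 : Y → Rˣ) (fun _ => (0 : V)) = 1 := by
  refine LinearEquiv.ext fun F => funext fun c => ?_
  rw [opr_apply]
  show (((1 : Rˣ) : R) • (F c).1, ((1 : Rˣ) : R) • (F c).2 + π (0 * (F c).1)) = F c
  rw [Units.val_one, one_smul, one_smul, zero_mul, map_zero, add_zero]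

/-- translation -/
def tr0 (y : Y) : (Y → V × W) ≃+ (Y → V × W) where
  toFun := fun F c => F (c * y)
  invFun := fun F c => F (c * y⁻¹)
  left_inv := fun F => funext fun c => by simp
  right_inv := fun F => funext fun c => by simp
  map_add' := fun F G => rfl

/-- translation -/
def tr : Y →* AA (Y → V × W) where
  toFun y := (tr0 y).toIntLinearEquiv
  map_one' := LinearEquiv.ext fun F => funext fun c => by
    show F (c * 1) = F c
    rw [mul_one]
  map_mul' x y := LinearEquiv.ext fun F => funext fun c => by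
    show F (c * (x * y)) = F (c * x * y)
    rw [mul_assoc]

theorem tr_apply (y : Y) (F : Y → V × W) (c : Y) : tr y F c = F (c * y) := rfl

theorem tr_conj (y : Y) (r : Y → Rˣ) (s : Y → V) :
    cj (tr y) (opr π r s) = opr π (fun c => r (c * y)) (fun c => s (c * y)) := by
  refine LinearEquiv.ext fun F => funext fun c => ?_
  show opr π r s ((tr y)⁻¹ F) (c * y) = _
  have h1 : ((tr y)⁻¹ : AA (Y → V × W)) = tr y⁻¹ := (map_inv tr y).symm
  rw [h1, opr_apply, opr_apply, tr_apply, mul_inv_cancel_right]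

/-- multiplication of the first component by an invertible element -/
def dil0 (u : Vˣ) : (Y → V × W) ≃+ (Y → V × W) where
  toFun F c := ((u : V) * (F c).1, (F c).2)
  invFun F c := (((u⁻¹ : Vˣ) : V) * (F c).1, (F c).2)
  left_inv F := funext fun c => Prod.ext (by simp) rfl
  right_inv F := funext fun c => Prod.ext (by simp) rfl
  map_add' F G := funext fun c => Prod.ext (mul_add _ _ _) rfl

/-- multiplication of the first component by an invertible element -/
def dil (u : Vˣ) : AA (Y → V × W) := (dil0 u).toIntLinearEquiv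

theorem dil_apply (u : Vˣ) (F : Y → V × W) (c : Y) :
    dil u F c = ((u : V) * (F c).1, (F c).2) := rfl

theorem dil_inv (u : Vˣ) : (dil u : AA (Y → V × W))⁻¹ = dil u⁻¹ := by
  rw [inv_eq_iff_mul_eq_one]
  refine LinearEquiv.ext fun F => funext fun c => ?_
  show dil u (dil u⁻¹ F) c = F c
  rw [dil_apply, dil_apply]
  exact Prod.ext (by simp) rfl

theorem dil_conj (u : Vˣ) (r : Y → Rˣ) (s : Y → V) :
    cj (dil u) (opr π r s) = opr π r (fun c => ((u⁻¹ : Vˣ) : V) * s c) := by
  refine LinearEquiv.ext fun F => funext fun c => ?_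
  show dil u (opr π r s ((dil u)⁻¹ F)) c = _
  rw [dil_inv, dil_apply, opr_apply, opr_apply, dil_apply]
  refine Prod.ext ?_ ?_
  · show (u : V) * ((r c : R) • (((u⁻¹ : Vˣ) : V) * (F c).1)) = (r c : R) • (F c).1
    rw [mul_smul_comm, Units.mul_inv_cancel_left]
  · show (r c : R) • (F c).2 + π (s c * (((u⁻¹ : Vˣ) : V) * (F c).1)) =
      (r c : R) • (F c).2 + π (((u⁻¹ : Vˣ) : V) * s c * (F c).1)
    congr 2
    ring

theorem dil_tr (u : Vˣ) (y : Y) : Commute (dil u : AA (Y → V × W)) (tr y) := by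
  show dil u * tr y = tr y * dil u
  refine LinearEquiv.ext fun F => funext fun c => ?_
  rfl

theorem dil_opr (u : Vˣ) (r : Y → Rˣ) : Commute (dil u) (opr π r (fun _ => (0 : V))) := by
  have h := dil_conj π u r (fun _ => (0 : V))
  simp only [mul_zero] at h
  exact cj_eq_iff.mp h

/-- being a pointwise operator -/
def IsOp (g : AA (Y → V × W)) : Prop := ∃ r s, g = opr π r s

theorem IsOp.comm {g g' : AA (Y → V × W)} (h : IsOp π g) (h' : IsOp π g') : Commute g g' := by
  obtain ⟨r, s, rfl⟩ := h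
  obtain ⟨r', s', rfl⟩ := h'
  exact opr_comm π r r' s s'

theorem IsOp.tr {g : AA (Y → V × W)} (h : IsOp π g) (y : Y) : IsOp π (cj (tr y) g) := by
  obtain ⟨r, s, rfl⟩ := h
  exact ⟨_, _, tr_conj π y r s⟩

theorem IsOp.dil {g : AA (Y → V × W)} (h : IsOp π g) (u : Vˣ) : IsOp π (cj (dil u) g) := by
  obtain ⟨r, s, rfl⟩ := h
  exact ⟨_, _, dil_conj π u r s⟩

theorem IsOp.dilz {g : AA (Y → V × W)} (h : IsOp π g) (u : Vˣ) (m : ℤ) :
    IsOp π (cj ((TM.dil u) ^ m) g) := by
  have hn : ∀ (u : Vˣ) (n : ℕ), IsOp π (cj ((TM.dil u) ^ n) g) := by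
    intro u n
    induction n with
    | zero => rw [pow_zero, one_cj]; exact h
    | succ n ih =>
      rw [pow_succ', ← cj_cj]
      exact ih.dil π u
  obtain ⟨n, rfl | rfl⟩ := m.eq_nat_or_neg
  · rw [zpow_natCast]; exact hn u n
  · rw [zpow_neg, zpow_natCast, ← inv_pow, dil_inv]; exact hn u⁻¹ n

theorem ops_comm {g g' : AA (Y → V × W)} (h : IsOp π g) (h' : IsOp π g') (u : Vˣ) (m n : ℤ)
    (x y : Y) : Commute (cj ((TM.dil u) ^ m * TM.tr x) g) (cj ((TM.dil u) ^ n * TM.tr y) g') := by
  rw [← cj_cj, ← cj_cj]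
  exact IsOp.comm π ((h.tr π x).dilz π u m) ((h'.tr π y).dilz π u n)

end ops

/-! ### modules from actions -/

/-- the action as a homomorphism to endomorphisms -/
def actEnd {G M : Type} [Group G] [AddCommGroup M] (ρ : G →* AA M) : G →* AddMonoid.End M where
  toFun g := (ρ g : M →ₗ[ℤ] M).toAddMonoidHom
  map_one' := by rw [map_one]; rfl
  map_mul' x y := by rw [map_mul]; rfl

/-- the module given by an action by additive automorphisms -/
@[instance_reducible] def modOf {G M : Type} [Group G] [AddCommGroup M] (ρ : G →* AA M) :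
    Module (RG G) M :=
  Module.compHom M (MonoidAlgebra.liftNCRingHom (Int.castRingHom (AddMonoid.End M))
    (actEnd ρ) (fun n _ => Int.cast_commute n _))

theorem modOf_el {G M : Type} [Group G] [AddCommGroup M] (ρ : G →* AA M) (g : G) (m : M) :
    letI := modOf ρ
    (el g : RG G) • m = ρ g m := by
  let _ := modOf ρ
  show (MonoidAlgebra.liftNC (Int.castRingHom (AddMonoid.End M) : ℤ →+ AddMonoid.End M)
    (actEnd ρ) (MonoidAlgebra.single g 1)) m = ρ g m
  rw [MonoidAlgebra.liftNC_single]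
  show ((Int.castRingHom (AddMonoid.End M)) 1 * actEnd ρ g) m = ρ g m
  rw [map_one, one_mul]
  rfl

end Pool.Agent.HIG.TM
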