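import Pool.Agent.HIG.TMGen

/-! Helper file for TOPMODEL: the relations in the model. -/

set_option autoImplicit false
set_option linter.unusedSectionVars false

noncomputable section

namespace Pool.Agent.HIG.TM

open Function HU
open StepUnits (onQ onQ_ι onQ_not)

section gen
variable {j r : ℕ} {B : Type} {S : Stage j (Up r B)} {A : Type} [AddCommGroup A]
  [Module (RG S.Q) A] {α : Fin r → A}
variable {R V W : Type} [CommRing R] [CommRing V] [Algebra R V] [AddCommGroup W] [Module R W]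
  (π : V →ₗ[R] W) (M : Dat S α R V)
variable {T : TopLay S A α} {F : T.P →* AA (S.Y → V × W)} (hF1 : ∀ y, F (T.inc y) = tr y)
  (hF2 : F T.ϖ = dil M.u) (hF3 : ∀ l, F (T.a l) = M.lt π l)

/-- the element `d_b` of the model -/
def Dat.dv (M : Dat S α R V) (π : V →ₗ[R] W) (b : B) : S.Y → V × W :=
  M.lt π (TL.xp b) (fv π) - M.lt π TL.w (fv π)

theorem Dat.lt_of_fv (β : Up r B) (q : S.Q) :
    M.lt π (TL.of β) (fv π) (S.ι q) = (0, ((M.k : R) * (M.χ β q : R)) • π 1) := by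
  rw [M.lt_of, opr0_apply, fv_ι, onQ_ι _ S.ι_inj]
  show (_ • (0 : V), _) = _
  rw [smul_zero, Units.val_mul]

theorem Dat.lt_of_fv_not (β : Up r B) {c : S.Y} (h : ¬ ∃ q, S.ι q = c) :
    M.lt π (TL.of β) (fv π) c = (0, 0) := by
  rw [M.lt_of, opr0_apply, fv_not π h]
  show (_ • (0 : V), _ • (0 : W)) = _
  rw [smul_zero, smul_zero]

theorem Dat.dv_ι (b : B) (q : S.Q) : M.dv π b (S.ι q) =
    (0, ((M.k : R) * ((M.χ (Sum.inr (Sum.inr b)) q : R) - 1)) • π 1) := by
  have h1 := M.lt_of_fv π (Sum.inr (Sum.inr b)) q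
  have h2 := M.lt_of_fv π (Sum.inl ()) q
  rw [M.hw] at h2
  show M.lt π (TL.of (Sum.inr (Sum.inr b))) (fv π) (S.ι q) -
    M.lt π (TL.of (Sum.inl ())) (fv π) (S.ι q) = _
  rw [h1, h2, Prod.mk_sub_mk, sub_zero, ← sub_smul, mul_sub, Units.val_one]

theorem Dat.dv_not (b : B) {c : S.Y} (h : ¬ ∃ q, S.ι q = c) : M.dv π b c = (0, 0) := by
  have h1 := M.lt_of_fv_not π (Sum.inr (Sum.inr b)) h
  have h2 := M.lt_of_fv_not π (Sum.inl ()) h
  show M.lt π (TL.of (Sum.inr (Sum.inr b))) (fv π) c -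
    M.lt π (TL.of (Sum.inl ())) (fv π) c = _
  rw [h1, h2, Prod.mk_sub_mk, sub_zero, sub_zero]

include hF1 hF3 in
theorem Dat.F_cj (x : S.Y) (l : TL r B) (f : S.Y → Rˣ) (hl : M.lt π l = opr π f (fun _ => 0))
    (m : S.Y → V × W) (c : S.Y) :
    F (cj (T.inc x) (T.a l)) m c = ((f (c * x) : R) • (m c).1, (f (c * x) : R) • (m c).2) := by
  rw [map_cj, hF1, hF3, hl, tr_conj, opr0_apply]

include hF1 hF3 in
theorem Dat.lift_z (x : RG S.Y) (c : S.Y) :
    RG.lift (fun l => F (cj (T.inc l) (T.a TL.z)) (ee : S.Y → V × W)) x c =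
      (algebraMap R V (M.φ (cl S.Rel (el c * x))), 0) := by
  refine RG.induction (p := fun x => RG.lift (fun l => F (cj (T.inc l) (T.a TL.z))
    (ee : S.Y → V × W)) x c = (algebraMap R V (M.φ (cl S.Rel (el c * x))), 0)) ?_ ?_ ?_ ?_ x
  · rw [map_zero, mul_zero, cl_zero, map_zero, map_zero]
    rfl
  · intro x y hx hy
    rw [map_add, Pi.add_apply, hx, hy, mul_add, cl_add, map_add, map_add, Prod.mk_add_mk, add_zero]
  · intro x hx
    rw [map_neg, Pi.neg_apply, hx, mul_neg, cl_neg, map_neg, map_neg, Prod.neg_mk, neg_zero]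
  · intro g
    rw [RG.lift_el, M.F_cj π hF1 hF3 g TL.z M.zf rfl, ← el_mul, M.hz]
    show ((M.zf (c * g) : R) • (1 : V), (M.zf (c * g) : R) • (0 : W)) = _
    rw [smul_zero, Algebra.algebraMap_eq_smul_one]

/-! ### the reindexing into the ring -/

section lam
variable (lam : (B →₀ RG (Sd S.Q A)) →+ R)
  (hlam : ∀ b (a : A) (q : S.Q), lam (Finsupp.single b (el ⟨a, q⟩)) =
    (M.ρ (Multiplicative.ofAdd a) : R) * ((M.χ (Sum.inr (Sum.inr b)) q : R) - 1))

variable (F) in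
/-- the map from the free module to the model -/
def Dat.De (M : Dat S α R V) (π : V →ₗ[R] W) : (B →₀ RG (Sd S.Q A)) →+ (S.Y → V × W) :=
  Finsupp.liftAddHom fun b => RG.lift fun x => F (T.io x) (M.dv π b)

theorem Dat.De_single (b : B) (x : Sd S.Q A) :
    M.De F π (Finsupp.single b (el x)) = F (T.io x) (M.dv π b) := by
  unfold Dat.De
  rw [Finsupp.liftAddHom_apply_single, RG.lift_el]

theorem Dat.De_smul (y : Sd S.Q A) (p : B →₀ RG (Sd S.Q A)) :
    M.De F π (el y • p) = F (T.io y) (M.De F π p) := by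
  have h : (M.De F π).comp (DistribSMul.toAddMonoidHom _ (el y)) =
      ((F (T.io y)).toLinearMap.toAddMonoidHom).comp (M.De F π) := by
    refine free_ext fun b x => ?_
    show M.De F π (el y • Finsupp.single b (el x)) = F (T.io y) (M.De F π (Finsupp.single b (el x)))
    rw [Finsupp.smul_single, smul_eq_mul, ← el_mul, De_single, De_single, io_mul, map_mul]
    rfl
  exact DFunLike.congr_fun h p

include hF1 hF3 in
theorem Dat.F_io (hα : Submodule.span (RG S.Q) (Set.range α) = ⊤) (x : Sd S.Q A)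
    (m : S.Y → V × W) (q : S.Q) : F (T.io x) m (S.ι q) =
      ((M.ρ (Multiplicative.ofAdd (el q • x.d)) : R) • (m (S.ι (q * x.q))).1,
        (M.ρ (Multiplicative.ofAdd (el q • x.d)) : R) • (m (S.ι (q * x.q))).2) := by
  have h1 : F (T.io x) = M.ps π (Multiplicative.ofAdd x.d) * tr (S.ι x.q) := by
    show F (T.ψ (Multiplicative.ofAdd x.d) * T.inc (S.ι x.q)) = _
    rw [map_mul, M.F_ps π hF1 hF3 hα, hF1]
  rw [h1]
  show M.ps π (Multiplicative.ofAdd x.d) (tr (S.ι x.q) m) (S.ι q) = _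
  rw [M.ps_apply, opr0_apply, onQ_ι _ S.ι_inj, tr_apply, ← map_mul]

include hF1 hF3 in
theorem Dat.F_io_not (hα : Submodule.span (RG S.Q) (Set.range α) = ⊤) (x : Sd S.Q A)
    (m : S.Y → V × W) {c : S.Y} (hc : ¬ ∃ q, S.ι q = c) : F (T.io x) m c = m (c * S.ι x.q) := by
  have h1 : F (T.io x) = M.ps π (Multiplicative.ofAdd x.d) * tr (S.ι x.q) := by
    show F (T.ψ (Multiplicative.ofAdd x.d) * T.inc (S.ι x.q)) = _
    rw [map_mul, M.F_ps π hF1 hF3 hα, hF1]
  rw [h1]
  show M.ps π (Multiplicative.ofAdd x.d) (tr (S.ι x.q) m) c = _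
  rw [M.ps_apply, opr0_apply, onQ_not _ _ _ hc, tr_apply, Units.val_one, one_smul, one_smul]

include hF1 hF3 hlam in
theorem Dat.De_ι (hα : Submodule.span (RG S.Q) (Set.range α) = ⊤) (p : B →₀ RG (Sd S.Q A))
    (q : S.Q) : M.De F π p (S.ι q) =
      (0, ((M.k : R) * lam (el (⟨0, q⟩ : Sd S.Q A) • p)) • π 1) := by
  let f1 : (B →₀ RG (Sd S.Q A)) →+ V × W := (Pi.evalAddMonoidHom _ (S.ι q)).comp (M.De F π)
  let g1 : R →+ V × W := AddMonoidHom.mk' (fun x => ((0 : V), ((M.k : R) * x) • π 1)) (by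
    intro x y
    rw [Prod.mk_add_mk, mul_add, add_smul, add_zero])
  have h : f1 = (g1.comp lam).comp (DistribSMul.toAddMonoidHom _ (el (⟨0, q⟩ : Sd S.Q A))) := by
    refine free_ext fun b x => ?_
    show M.De F π (Finsupp.single b (el x)) (S.ι q) =
      ((0 : V), ((M.k : R) * lam (el (⟨0, q⟩ : Sd S.Q A) • Finsupp.single b (el x))) • π 1)
    rw [M.De_single, M.F_io π hF1 hF3 hα, M.dv_ι, Finsupp.smul_single, smul_eq_mul, ← el_mul]
    have h2 : (⟨0, q⟩ : Sd S.Q A) * x = ⟨el q • x.d, q * x.q⟩ := by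
      ext
      · rw [Sd.mul_d, zero_add]
      · rw [Sd.mul_q]
    rw [h2, hlam]
    refine Prod.ext ?_ ?_
    · exact smul_zero _
    · show _ • (_ • π 1) = _
      rw [← mul_smul]
      congr 1
      ring
  exact DFunLike.congr_fun h p

include hF1 hF3 in
theorem Dat.De_not (hα : Submodule.span (RG S.Q) (Set.range α) = ⊤) (p : B →₀ RG (Sd S.Q A))
    {c : S.Y} (hc : ¬ ∃ q, S.ι q = c) : M.De F π p c = 0 := by
  let f1 : (B →₀ RG (Sd S.Q A)) →+ V × W := (Pi.evalAddMonoidHom _ c).comp (M.De F π)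
  have h : f1 = 0 := by
    refine free_ext fun b x => ?_
    show M.De F π (Finsupp.single b (el x)) c = 0
    rw [M.De_single, M.F_io_not π hF1 hF3 hα x _ hc]
    have hc' : ¬ ∃ q', S.ι q' = c * S.ι x.q := by
      rintro ⟨q', hq'⟩
      exact hc ⟨q' * x.q⁻¹, by rw [map_mul, map_inv, hq', mul_inv_cancel_right]⟩
    rw [M.dv_not π b hc']
    rfl
  exact DFunLike.congr_fun h p

end lam

end gen

end Pool.Agent.HIG.TM
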