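import Pool.Agent.HIG.HUnits
import Pool.Agent.HIG.TMOps

/-! Helper file for TOPMODEL: the coefficient ring of the model. -/

set_option autoImplicit false
set_option linter.unusedSectionVars false

noncomputable section

namespace Pool.Agent.HIG.TM

open Function

/-- the group ring of the commutative group `A` -/
abbrev ZA (A : Type) [AddCommGroup A] : Type := MonoidAlgebra ℤ (Multiplicative A)

/-- the free module -/
abbrev M1 (A B Q : Type) [AddCommGroup A] : Type := (B × Q) →₀ ZA A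

/-- the coefficient ring -/
abbrev C1 (A B Q : Type) [AddCommGroup A] : Type := TrivSqZeroExt (ZA A) (M1 A B Q)

section
variable {A B Q : Type} [AddCommGroup A]

instance : CommRing (C1 A B Q) := inferInstance
instance : Nontrivial (C1 A B Q) := inferInstance

/-- group elements -/
def gel (a : A) : ZA A := MonoidAlgebra.single (Multiplicative.ofAdd a) 1

theorem gel_add (a b : A) : gel (a + b) = gel a * gel b := by
  unfold gel
  rw [MonoidAlgebra.single_mul_single, mul_one, ofAdd_add]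

theorem gel_zero : gel (0 : A) = 1 := rfl

theorem gel_inj {a b : A} (h : gel a = gel b) : a = b := by
  have h1 := MonoidAlgebra.of_injective (R := ℤ) (M := Multiplicative A)
    (a₁ := Multiplicative.ofAdd a) (a₂ := Multiplicative.ofAdd b) h
  exact Multiplicative.ofAdd.injective h1

theorem inr_sq (m m' : M1 A B Q) : (TrivSqZeroExt.inr m * TrivSqZeroExt.inr m' : C1 A B Q) = 0 :=
  TrivSqZeroExt.inr_mul_inr (ZA A) m m'

/-- units: group elements -/
def ga : Multiplicative A →* (C1 A B Q)ˣ :=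
  MonoidHom.toHomUnits
    { toFun := fun a => TrivSqZeroExt.inl (gel a.toAdd)
      map_one' := by
        show TrivSqZeroExt.inl (gel (0 : A)) = (1 : C1 A B Q)
        rw [gel_zero]; rfl
      map_mul' := fun a b => by
        show TrivSqZeroExt.inl (gel (a.toAdd + b.toAdd)) = (_ : C1 A B Q)
        rw [gel_add, TrivSqZeroExt.inl_mul] }

theorem ga_val (a : A) : ((ga (Multiplicative.ofAdd a) : (C1 A B Q)ˣ) : C1 A B Q) =
    TrivSqZeroExt.inl (gel a) := rfl

/-- units: `1 + inr single` -/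
def gb (b : B) (q : Q) : (C1 A B Q)ˣ where
  val := 1 + TrivSqZeroExt.inr (Finsupp.single (b, q) 1)
  inv := 1 - TrivSqZeroExt.inr (Finsupp.single (b, q) 1)
  val_inv := by
    have := inr_sq (A := A) (Finsupp.single (b, q) 1) (Finsupp.single (b, q) 1)
    linear_combination -this
  inv_val := by
    have := inr_sq (A := A) (Finsupp.single (b, q) 1) (Finsupp.single (b, q) 1)
    linear_combination -this

theorem gb_val (b : B) (q : Q) : ((gb b q : (C1 A B Q)ˣ) : C1 A B Q) =
    1 + TrivSqZeroExt.inr (Finsupp.single (b, q) 1) := rfl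

theorem za_two {x : ZA A} (h : (2 : ℤ) • x = 0) : x = 0 := by
  have h1 : ∀ a, x.coeff a = 0 := by
    intro a
    have h2 : ((2 : ℤ) • x).coeff a = 0 := by rw [h]; rfl
    have h3 : ((2 : ℤ) • x).coeff a = 2 * x.coeff a := by
      rw [MonoidAlgebra.coeff_smul]
      rfl
    rw [h3] at h2
    omega
  ext a
  exact h1 a

theorem c1_two {x : C1 A B Q} (h : (2 : ℤ) • x = 0) : x = 0 := by
  refine TrivSqZeroExt.ext ?_ ?_
  · refine za_two ?_
    have := congrArg TrivSqZeroExt.fst h
    rw [TrivSqZeroExt.fst_smul, TrivSqZeroExt.fst_zero] at this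
    exact this
  · have := congrArg TrivSqZeroExt.snd h
    rw [TrivSqZeroExt.snd_smul, TrivSqZeroExt.snd_zero] at this
    ext1 b
    refine za_two ?_
    have h2 := DFunLike.congr_fun this b
    exact h2

end

section
variable {Q A B : Type} [Group Q] [AddCommGroup A] [Module (RG Q) A]

/-- reindexing of the free module -/
def Lam : (B →₀ RG (Sd Q A)) →+ M1 A B Q :=
  Finsupp.liftAddHom fun b => RG.lift fun x => Finsupp.single (b, x.q) (gel x.d)

theorem Lam_single (b : B) (x : Sd Q A) :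
    Lam (Finsupp.single b (el x)) = (Finsupp.single (b, x.q) (gel x.d) : M1 A B Q) := by
  unfold Lam
  rw [Finsupp.liftAddHom_apply_single, RG.lift_el]

/-- inverse of the reindexing -/
def Lam' : M1 A B Q →+ (B →₀ RG (Sd Q A)) :=
  Finsupp.liftAddHom fun p => RG.lift (Y := Multiplicative A)
    fun a => Finsupp.single p.1 (el ⟨a.toAdd, p.2⟩)

theorem free_ext {M : Type} [AddCommGroup M] {f g : (B →₀ RG (Sd Q A)) →+ M}
    (h : ∀ b x, f (Finsupp.single b (el x)) = g (Finsupp.single b (el x))) : f = g := by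
  refine Finsupp.addHom_ext fun b y => ?_
  have h1 : f.comp (Finsupp.singleAddHom b) = g.comp (Finsupp.singleAddHom b) :=
    RG.hom_ext fun x => h b x
  exact DFunLike.congr_fun h1 y

theorem Lam'_Lam (p : B →₀ RG (Sd Q A)) : Lam' (Lam p) = p := by
  have h : (Lam' (A := A) (B := B) (Q := Q)).comp Lam = AddMonoidHom.id _ := by
    refine free_ext fun b x => ?_
    show Lam' (Lam (Finsupp.single b (el x))) = Finsupp.single b (el x)
    rw [Lam_single]
    unfold Lam'
    rw [Finsupp.liftAddHom_apply_single]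
    exact RG.lift_el (Y := Multiplicative A)
      (fun a => Finsupp.single b (el (⟨a.toAdd, x.q⟩ : Sd Q A))) (Multiplicative.ofAdd x.d)
  exact DFunLike.congr_fun h p

theorem Lam_inj : Injective (Lam : (B →₀ RG (Sd Q A)) →+ M1 A B Q) := fun p q h => by
  rw [← Lam'_Lam p, h, Lam'_Lam]

theorem Lam_smul (a : A) (p : B →₀ RG (Sd Q A)) :
    Lam (el (⟨a, 1⟩ : Sd Q A) • p) = gel a • (Lam p : M1 A B Q) := by
  have h : (Lam (A := A) (B := B) (Q := Q)).comp (DistribSMul.toAddMonoidHom _ (el (⟨a, 1⟩ : Sd Q A)))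
      = (DistribSMul.toAddMonoidHom _ (gel a)).comp Lam := by
    refine free_ext fun b x => ?_
    show Lam (el (⟨a, 1⟩ : Sd Q A) • Finsupp.single b (el x)) = gel a • Lam (Finsupp.single b (el x))
    rw [Finsupp.smul_single, smul_eq_mul, ← el_mul, Lam_single, Lam_single, Finsupp.smul_single,
      smul_eq_mul, ← gel_add, Sd.mul_d, Sd.mul_q]
    simp [el_one]
  exact DFunLike.congr_fun h p

variable (RD : Set (B →₀ RG (Sd Q A)))

/-- image of the relations -/
def ND : AddSubgroup (M1 A B Q) := (Submodule.span (RG (Sd Q A)) RD).toAddSubgroup.map Lam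

theorem mem_ND {p : B →₀ RG (Sd Q A)} :
    (Lam p : M1 A B Q) ∈ ND RD ↔ p ∈ Submodule.span (RG (Sd Q A)) RD := by
  constructor
  · rintro ⟨p', h1, h2⟩
    rw [← Lam_inj h2]
    exact h1
  · intro h
    exact ⟨p, h, rfl⟩

theorem ND_smul (z : ZA A) {m : M1 A B Q} (hm : m ∈ ND RD) : z • m ∈ ND RD := by
  obtain ⟨p, hp, rfl⟩ := hm
  refine RG.induction (Y := Multiplicative A) (p := fun z : ZA A => z • (Lam p : M1 A B Q) ∈ ND RD)
    ?_ ?_ ?_ ?_ z
  · show (0 : ZA A) • (Lam p : M1 A B Q) ∈ ND RD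
    rw [zero_smul]
    exact zero_mem _
  · intro x y hx hy
    show (x + y) • (Lam p : M1 A B Q) ∈ ND RD
    rw [add_smul]
    exact add_mem hx hy
  · intro x hx
    show (-x) • (Lam p : M1 A B Q) ∈ ND RD
    rw [neg_smul]
    exact neg_mem hx
  · intro g
    show (gel g.toAdd) • (Lam p : M1 A B Q) ∈ ND RD
    rw [← Lam_smul, mem_ND]
    exact Submodule.smul_mem _ _ hp

/-- the ideal of the coefficient ring -/
def JJ : Ideal (C1 A B Q) where
  carrier := {x | x.fst = 0 ∧ x.snd ∈ ND RD}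
  zero_mem' := ⟨rfl, zero_mem _⟩
  add_mem' := by
    rintro x y ⟨h1, h2⟩ ⟨h3, h4⟩
    refine ⟨?_, ?_⟩
    · rw [TrivSqZeroExt.fst_add, h1, h3, add_zero]
    · rw [TrivSqZeroExt.snd_add]
      exact add_mem h2 h4
  smul_mem' := by
    rintro c x ⟨h1, h2⟩
    refine ⟨?_, ?_⟩
    · rw [smul_eq_mul, TrivSqZeroExt.fst_mul, h1, mul_zero]
    · rw [smul_eq_mul, TrivSqZeroExt.snd_mul, h1, MulOpposite.op_zero, zero_smul, add_zero]
      exact ND_smul RD _ h2

theorem inr_mem_JJ {p : B →₀ RG (Sd Q A)} :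
    (TrivSqZeroExt.inr (Lam p) : C1 A B Q) ∈ JJ RD ↔ p ∈ Submodule.span (RG (Sd Q A)) RD := by
  rw [← mem_ND]
  constructor
  · rintro ⟨-, h⟩
    rwa [TrivSqZeroExt.snd_inr] at h
  · intro h
    exact ⟨TrivSqZeroExt.fst_inr _ _, by rwa [TrivSqZeroExt.snd_inr]⟩

end

/-- Hahn series with coefficients in an ideal -/
def hId {Γ C : Type} [AddCommGroup Γ] [LinearOrder Γ] [IsOrderedAddMonoid Γ] [CommRing C]
    (J : Ideal C) : Ideal (HahnSeries Γ C) where
  carrier := {x | ∀ g, x.coeff g ∈ J}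
  zero_mem' := fun g => by
    rw [HahnSeries.coeff_zero]
    exact zero_mem _
  add_mem' := fun {x y} hx hy g => by
    rw [HahnSeries.coeff_add]
    exact add_mem (hx g) (hy g)
  smul_mem' := fun c x hx g => by
    rw [smul_eq_mul, HahnSeries.coeff_mul]
    exact sum_mem fun i _ => J.mul_mem_left _ (hx _)

theorem mem_hId {Γ C : Type} [AddCommGroup Γ] [LinearOrder Γ] [IsOrderedAddMonoid Γ] [CommRing C]
    (J : Ideal C) (x : HahnSeries Γ C) : x ∈ hId J ↔ ∀ g, x.coeff g ∈ J := Iff.rfl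

/-- 2-torsion free rings of Hahn series -/
theorem hs_two {Γ C : Type} [AddCommGroup Γ] [LinearOrder Γ] [IsOrderedAddMonoid Γ] [CommRing C]
    (hC : ∀ x : C, (2 : ℤ) • x = 0 → x = 0) {x : HahnSeries Γ C} (h : (2 : ℤ) • x = 0) : x = 0 := by
  ext g
  rw [HahnSeries.coeff_zero]
  refine hC _ ?_
  have h1 : ((2 : ℤ) • x).coeff g = 0 := by rw [h, HahnSeries.coeff_zero]
  rw [two_zsmul, HahnSeries.coeff_add] at h1
  rw [two_zsmul]
  exact h1

end Pool.Agent.HIG.TM
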