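import Pool.Agent.HIG.TMRel

/-! Helper file for TOPMODEL: `TopRel` in the model. -/

set_option autoImplicit false
set_option linter.unusedSectionVars false

noncomputable section

namespace Pool.Agent.HIG.TM

open Function HU
open StepUnits (onQ onQ_ι onQ_not)

theorem sd_list {Q D : Type} [Group Q] [AddCommGroup D] [Module (RG Q) D] {β : Type} (f : β → D)
    (L : List β) : (L.map fun b => (⟨f b, 1⟩ : Sd Q D)).prod = ⟨(L.map f).sum, 1⟩ := by
  induction L with
  | nil => rfl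
  | cons a L ih =>
    rw [List.map_cons, List.prod_cons, ih, Sd.mul_inl, List.map_cons, List.sum_cons]

theorem sd_oprod {Y Q D : Type} [Group Y] [Group Q] [AddCommGroup D] [Module (RG Q) D]
    (m : Y → D) (p : RG Y) :
    oprod (fun l => (⟨m l, 1⟩ : Sd Q D)) p = ⟨RG.lift m p, 1⟩ := by
  rw [oprod_eq ((Sd.inl (Q := Q) (D := D)).comp (AddMonoidHom.toMultiplicative (RG.lift m)))
    (fun l => by
      show (⟨RG.lift m (el l), 1⟩ : Sd Q D) = _
      rw [RG.lift_el])]
  rfl

section gen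
variable {j r : ℕ} {B : Type} {S : Stage j (Up r B)} {A : Type} [AddCommGroup A]
  [Module (RG S.Q) A] {α : Fin r → A}
variable {R V W : Type} [CommRing R] [CommRing V] [Algebra R V] [AddCommGroup W] [Module R W]
  (π : V →ₗ[R] W) (M : Dat S α R V)

theorem Dat.topModel (hα : Submodule.span (RG S.Q) (Set.range α) = ⊤) (T : TopLay S A α)
    (D : Type) [AddCommGroup D] [Module (RG (Sd S.Q A)) D] (g : B → D)
    (RD : Set (B →₀ RG (Sd S.Q A)))
    (hg : Submodule.span (RG (Sd S.Q A)) (Set.range g) = ⊤)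
    (hker : LinearMap.ker (Finsupp.linearCombination (RG (Sd S.Q A)) g) =
      Submodule.span (RG (Sd S.Q A)) RD)
    (lam : (B →₀ RG (Sd S.Q A)) →+ R)
    (hlam : ∀ b (a : A) (q : S.Q), lam (Finsupp.single b (el ⟨a, q⟩)) =
      (M.ρ (Multiplicative.ofAdd a) : R) * ((M.χ (Sum.inr (Sum.inr b)) q : R) - 1))
    (hN : ∀ p, ((M.k : R) * lam p) • π 1 = 0 ↔ p ∈ Submodule.span (RG (Sd S.Q A)) RD)
    (hRV : Injective (algebraMap R V)) (hρ : Injective M.ρ) [Nontrivial V] :
    ∃ (M : Type) (_ : AddCommGroup M) (_ : Module (RG T.P) M) (e : M),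
      TopRel T RD (Sd T.P M) Sd.inr ⟨e, 1⟩ ∧
      Injective T.io ∧
      ∃ η : D →+ M, Injective η ∧ (∀ (q : Sd S.Q A) (d : D), η (el q • d) = el (T.io q) • η d) ∧
        ∀ b, η (g b) = (el (T.a (TL.xp b)) - el (T.a TL.w)) • (el (T.a TL.t ^ 2) • e - e) := by
  obtain ⟨F, hF1, hF2, hF3⟩ := M.exists_F π T
  let MM : Type := S.Y → V × W
  letI mM : Module (RG T.P) MM := modOf F
  have hact : ∀ (g : T.P) (m : MM), (el g : RG T.P) • m = F g m := fun g m => modOf_el F g m
  -- bridging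
  have hcj : ∀ (g : T.P) (m : MM), cj (Sd.inr g : Sd T.P MM) ⟨m, 1⟩ = ⟨F g m, 1⟩ := by
    intro g m
    rw [Sd.cj_inr, hact]
  have hcj2 : ∀ (g : T.P) (m : MM), cj ((Sd.inr g : Sd T.P MM) ^ 2) ⟨m, 1⟩ = ⟨F g (F g m), 1⟩ := by
    intro g m
    rw [pow_two, ← cj_cj, hcj, hcj]
  have hff : T.ff (Sd.inr : T.P →* Sd T.P MM) ⟨ee, 1⟩ = ⟨fv π, 1⟩ := by
    show (⟨ee, 1⟩ : Sd T.P MM)⁻¹ * cj ((Sd.inr (T.a TL.t) : Sd T.P MM) ^ 2) ⟨ee, 1⟩ = _
    rw [hcj2, Sd.inv_inl, Sd.mul_inl, hF3, neg_add_eq_sub, M.t_t_e_sub]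
  have hdd : ∀ b, T.dd (Sd.inr : T.P →* Sd T.P MM) ⟨ee, 1⟩ b = ⟨M.dv π b, 1⟩ := by
    intro b
    show cj (Sd.inr (T.a (TL.xp b)) : Sd T.P MM) (T.ff Sd.inr ⟨ee, 1⟩) *
      (cj (Sd.inr (T.a TL.w) : Sd T.P MM) (T.ff Sd.inr ⟨ee, 1⟩))⁻¹ = _
    rw [hff, hcj, hcj, Sd.inv_inl, Sd.mul_inl, hF3, hF3, ← sub_eq_add_neg]
    rfl
  have hDe0 : ∀ p ∈ Submodule.span (RG (Sd S.Q A)) RD, M.De F π p = 0 := by
    intro p hp
    funext c
    by_cases hc : ∃ q, S.ι q = c
    · obtain ⟨q, rfl⟩ := hc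
      rw [M.De_ι π hF1 hF3 lam hlam hα, (hN _).mpr (Submodule.smul_mem _ _ hp)]
      rfl
    · rw [M.De_not π hF1 hF3 hα p hc]
      rfl
  refine ⟨MM, inferInstance, mM, ee, ?_, ?_, ?_⟩
  · refine ⟨?_, ?_, ?_, ?_, ?_, ?_, ?_, ?_, ?_, ?_, ?_, ?_, ?_, ?_⟩
    · -- r0
      intro μ
      have h : cj (Sd.inr (T.inc μ) : Sd T.P MM) ⟨ee, 1⟩ = ⟨ee, 1⟩ := by
        rw [hcj, hF1]
        rfl
      exact (cj_eq_iff.mp h).symm
    · -- r1
      rw [hcj, hcj, Sd.mul_inl, hF3, hF3]
      congr 1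
      funext c
      show opr π M.yf (fun _ => 0) ee c = ee c + opr π M.zef (fun _ => 0) ee c
      rw [opr0_apply, opr0_apply, M.hy]
      refine Prod.ext ?_ ?_
      · show (1 + (M.zef c : R)) • (1 : V) = 1 + (M.zef c : R) • (1 : V)
        rw [add_smul, one_smul]
      · show (1 + (M.zef c : R)) • (0 : W) = 0 + (M.zef c : R) • (0 : W)
        rw [smul_zero, smul_zero, add_zero]
    · -- r1'
      rw [hcj, hcj, Sd.mul_inl, hF3, hF3]
      congr 1
      funext c
      show opr π M.yzf (fun _ => 0) ee c = ee c + opr π M.zf (fun _ => 0) ee c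
      rw [opr0_apply, opr0_apply, M.hyz]
      refine Prod.ext ?_ ?_
      · show (1 + (M.zf c : R)) • (1 : V) = 1 + (M.zf c : R) • (1 : V)
        rw [add_smul, one_smul]
      · show (1 + (M.zf c : R)) • (0 : W) = 0 + (M.zf c : R) • (0 : W)
        rw [smul_zero, smul_zero, add_zero]
    · -- r1a
      rw [hcj]
      exact Sd.commute_inl _ _
    · rw [hcj]
      exact Sd.commute_inl _ _
    · -- r2
      have h : (fun l => cj (Sd.inr (cj (T.inc l) (T.a TL.z)) : Sd T.P MM) ⟨ee, 1⟩) =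
          fun l => ⟨F (cj (T.inc l) (T.a TL.z)) ee, 1⟩ := by
        funext l
        rw [hcj]
      rw [h, hcj, sd_oprod, hF3]
      congr 1
      funext c
      rw [M.lift_z π hF1 hF3, M.hze]
      show opr π M.zef (fun _ => 0) ee c = _
      rw [opr0_apply]
      show ((M.zef c : R) • (1 : V), (M.zef c : R) • (0 : W)) = _
      rw [smul_zero, Algebra.algebraMap_eq_smul_one]
    · -- r3
      intro p hp
      have h : (fun l => cj (Sd.inr (cj (T.inc l) (T.a TL.z)) : Sd T.P MM) ⟨ee, 1⟩) =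
          fun l => ⟨F (cj (T.inc l) (T.a TL.z)) ee, 1⟩ := by
        funext l
        rw [hcj]
      rw [h, sd_oprod]
      show (⟨_, 1⟩ : Sd T.P MM) = ⟨0, 1⟩
      congr 1
      funext c
      rw [M.lift_z π hF1 hF3, cl_rel hp, map_zero, map_zero]
      rfl
    · -- r4
      rw [hcj, hF2, pow_two, Sd.mul_inl]
      congr 1
      funext c
      show dil M.u (ee : S.Y → V × W) c = (ee : S.Y → V × W) c + (ee : S.Y → V × W) c
      rw [dil_apply, M.hu]
      show ((2 : V) * 1, (0 : W)) = ((1 : V) + 1, (0 : W) + 0)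
      rw [mul_one, add_zero, one_add_one_eq_two]
    · -- r5
      rw [hcj2]
      exact Sd.commute_inl _ _
    · -- r5'
      rw [hcj, hcj2, pow_two, Sd.mul_inl, Sd.mul_inl, hF3]
      congr 1
      funext c
      show M.lt π TL.t ee c + M.lt π TL.t ee c = M.lt π TL.t (M.lt π TL.t ee) c + ee c
      rw [M.t_e, M.t_t_e]
      show ((1 : V) + 1, π (M.st c) + π (M.st c)) = ((1 : V) + 1, π (M.st c) + π (M.st c) + 0)
      rw [add_zero]
    · -- r6
      rw [hff, hcj, hF2]
      congr 1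
      funext c
      rw [dil_apply]
      refine Prod.ext ?_ rfl
      show (M.u : V) * 0 = 0
      rw [mul_zero]
    · -- r7
      intro β
      rw [hff, hcj, hcj, hcj, Sd.inv_inl, Sd.mul_inl, hF3]
      congr 1
      funext c
      show M.lt π (TL.of β) (fv π) c = F (cj (T.inc (S.ξ β)) (T.a TL.ze)) (fv π) c +
        -(F (cj (T.inc S.ω) (T.a TL.ze)) (fv π) c)
      rw [M.F_cj π hF1 hF3 _ TL.ze M.zef rfl, M.F_cj π hF1 hF3 _ TL.ze M.zef rfl]
      by_cases hc : ∃ q, S.ι q = c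
      · obtain ⟨q, rfl⟩ := hc
        rw [M.lt_of_fv, fv_ι, ← M.hχ, mul_sub, sub_mul, ← el_mul, ← el_mul, cl_sub, map_sub,
          M.hze, M.hze]
        refine Prod.ext ?_ ?_
        · show (0 : V) = (M.zef (S.ι q * S.ξ β) : R) • (0 : V) +
            -((M.zef (S.ι q * S.ω) : R) • (0 : V))
          rw [smul_zero, smul_zero, neg_zero, add_zero]
        · show (_ - _) • π 1 = _ • π 1 + -(_ • π 1)
          rw [sub_smul, sub_eq_add_neg]
      · rw [M.lt_of_fv_not π β hc, fv_not π hc]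
        refine Prod.ext ?_ ?_
        · show (0 : V) = (M.zef (c * S.ξ β) : R) • (0 : V) + -((M.zef (c * S.ω) : R) • (0 : V))
          rw [smul_zero, smul_zero, neg_zero, add_zero]
        · show (0 : W) = (M.zef (c * S.ξ β) : R) • (0 : W) + -((M.zef (c * S.ω) : R) • (0 : W))
          rw [smul_zero, smul_zero, neg_zero, add_zero]
    · -- r8
      intro i
      rw [hff, ← map_mul, hcj, hcj, hF3, map_mul, hF3, hF3]
      congr 1
      funext c
      show M.lt π (TL.of (Sum.inr (Sum.inl i))) (fv π) c =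
        M.lt π (TL.of (Sum.inl ())) (M.lt π (TL.al i) (fv π)) c
      by_cases hc : ∃ q, S.ι q = c
      · obtain ⟨q, rfl⟩ := hc
        rw [M.lt_of_fv, M.lt_of, opr0_apply, onQ_ι _ S.ι_inj]
        show _ = (_ • (opr π _ (fun _ => 0) (fv π) (S.ι q)).1,
          _ • (opr π _ (fun _ => 0) (fv π) (S.ι q)).2)
        rw [opr0_apply, onQ_ι _ S.ι_inj, fv_ι, M.hx, M.hw]
        refine Prod.ext ?_ ?_
        · show (0 : V) = _ • _ • (0 : V)
          rw [smul_zero, smul_zero]
        · show _ • π 1 = _ • _ • π 1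
          rw [mul_one, ← mul_smul]
      · rw [M.lt_of_fv_not π _ hc, M.lt_of, opr0_apply, onQ_not _ _ _ hc]
        show _ = (_ • (opr π _ (fun _ => 0) (fv π) c).1, _ • (opr π _ (fun _ => 0) (fv π) c).2)
        rw [opr0_apply, fv_not π hc]
        refine Prod.ext ?_ ?_
        · show (0 : V) = _ • _ • (0 : V)
          rw [smul_zero, smul_zero]
        · show (0 : W) = _ • _ • (0 : W)
          rw [smul_zero, smul_zero]
    · -- r9
      intro p hp
      have h : (fun b => oprod (fun x => cj (Sd.inr (T.io x) : Sd T.P MM)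
          (T.dd Sd.inr ⟨ee, 1⟩ b)) (p b)) =
          fun b => ⟨RG.lift (fun x => F (T.io x) (M.dv π b)) (p b), 1⟩ := by
        funext b
        have h1 : (fun x => cj (Sd.inr (T.io x) : Sd T.P MM) (T.dd Sd.inr ⟨ee, 1⟩ b)) =
            fun x => ⟨F (T.io x) (M.dv π b), 1⟩ := by
          funext x
          rw [hdd, hcj]
        rw [h1, sd_oprod]
      rw [h, sd_list]
      show (⟨_, 1⟩ : Sd T.P MM) = ⟨0, 1⟩
      congr 1
      rw [Finset.sum_map_toList (f := fun b => RG.lift (fun x => F (T.io x) (M.dv π b)) (p b))]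
      have h2 := hDe0 p (Submodule.subset_span hp)
      rw [← h2]
      unfold Dat.De
      rw [Finsupp.liftAddHom_apply]
      rfl
  · -- io injective
    intro x y hxy
    classical
    let m : MM := fun c => if c = S.ι x.q then (1, 0) else 0
    have h1 : F (T.io x) m (S.ι 1) = F (T.io y) m (S.ι 1) := by rw [hxy]
    rw [M.F_io π hF1 hF3 hα, M.F_io π hF1 hF3 hα, one_mul, one_mul] at h1
    have hmx : m (S.ι x.q) = (1, 0) := if_pos rfl
    rw [hmx, el_one, one_smul, one_smul] at h1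
    have hq : x.q = y.q := by
      by_contra hne
      have hmy : m (S.ι y.q) = 0 := if_neg (fun h => hne (S.ι_inj h).symm)
      rw [hmy] at h1
      have h2 := congrArg Prod.fst h1
      change (M.ρ (Multiplicative.ofAdd x.d) : R) • (1 : V) =
        (M.ρ (Multiplicative.ofAdd y.d) : R) • (0 : V) at h2
      rw [smul_zero, ← Algebra.algebraMap_eq_smul_one] at h2
      exact (((M.ρ (Multiplicative.ofAdd x.d)).isUnit).map (algebraMap R V)).ne_zero h2
    rw [← hq, hmx] at h1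
    have h2 := congrArg Prod.fst h1
    change (M.ρ (Multiplicative.ofAdd x.d) : R) • (1 : V) =
      (M.ρ (Multiplicative.ofAdd y.d) : R) • (1 : V) at h2
    rw [← Algebra.algebraMap_eq_smul_one, ← Algebra.algebraMap_eq_smul_one] at h2
    have h3 := hρ (Units.ext (hRV h2))
    exact Sd.ext (Multiplicative.ofAdd.injective h3) hq
  · -- η
    let L : (B →₀ RG (Sd S.Q A)) →+ D :=
      (Finsupp.linearCombination (RG (Sd S.Q A)) g).toAddMonoidHom
    have hL : Surjective L := by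
      intro d
      have hd : d ∈ Submodule.span (RG (Sd S.Q A)) (Set.range g) := by rw [hg]; trivial
      rw [Finsupp.mem_span_range_iff_exists_finsupp] at hd
      obtain ⟨c, hc⟩ := hd
      exact ⟨c, hc⟩
    have hLker : ∀ p, L p = 0 ↔ p ∈ Submodule.span (RG (Sd S.Q A)) RD := by
      intro p
      rw [← hker, LinearMap.mem_ker]
      rfl
    have hle : L.ker ≤ (M.De F π).ker := by
      intro p hp
      exact hDe0 p ((hLker p).mp hp)
    let η : D →+ MM := L.liftOfSurjective hL ⟨M.De F π, hle⟩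
    have hη : ∀ p, η (L p) = M.De F π p := by
      intro p
      exact AddMonoidHom.liftOfRightInverse_comp_apply L _ _ ⟨M.De F π, hle⟩ p
    refine ⟨η, ?_, ?_, ?_⟩
    · rw [injective_iff_map_eq_zero]
      intro d hd
      obtain ⟨p, rfl⟩ := hL d
      rw [hη] at hd
      rw [hLker, ← hN]
      have h1 : M.De F π p (S.ι 1) = 0 := by rw [hd]; rfl
      rw [M.De_ι π hF1 hF3 lam hlam hα] at h1
      have h2 := congrArg Prod.snd h1
      change ((M.k : R) * lam (el (⟨0, 1⟩ : Sd S.Q A) • p)) • π 1 = 0 at h2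
      have h3 : (el (⟨0, 1⟩ : Sd S.Q A) : RG (Sd S.Q A)) = 1 := el_one
      rw [h3, one_smul] at h2
      exact h2
    · intro q d
      obtain ⟨p, rfl⟩ := hL d
      have h1 : el q • L p = L (el q • p) :=
        ((Finsupp.linearCombination (RG (Sd S.Q A)) g).map_smul (el q) p).symm
      rw [h1, hη, hη, hact, M.De_smul]
    · intro b
      have h1 : g b = L (Finsupp.single b (el 1)) := by
        show g b = Finsupp.linearCombination (RG (Sd S.Q A)) g (Finsupp.single b (el 1))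
        rw [Finsupp.linearCombination_single, el_one, one_smul]
      rw [h1, hη, M.De_single, io_one, map_one, sub_smul, hact, hact, pow_two, hact, map_mul, hF3,
        hF3, hF3]
      show M.dv π b = M.lt π (TL.xp b) (M.lt π TL.t (M.lt π TL.t ee) - ee) -
        M.lt π TL.w (M.lt π TL.t (M.lt π TL.t ee) - ee)
      rw [M.t_t_e_sub]
      rfl

end gen

end Pool.Agent.HIG.TM
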